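import Mathlib

/-!
# Regular open sets of posets with finite supports

Abstract part of the proof that two Cohen-like forcings are not equivalent.
-/

set_option autoImplicit false

namespace Pool.Agent.V11254.RegOpen

universe u

variable {P : Type u} [Preorder P]

/-- Regular open subsets of the poset `P`, in the topology whose open sets are the sets
closed under passing to stronger (smaller) conditions. -/
def IsRO (U : Set P) : Prop := ∀ p, p ∈ U ↔ ∀ q, q ≤ p → ∃ r, r ≤ q ∧ r ∈ U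

/-- The Boolean completion of `P`: its regular open sets, ordered by inclusion. -/
def RO (P : Type u) [Preorder P] : Type u := {U : Set P // IsRO U}

instance : PartialOrder (RO P) := Subtype.partialOrder _

theorem RO.lower (U : RO P) {p q : P} (hp : p ∈ U.1) (h : q ≤ p) : q ∈ U.1 :=
  (U.2 q).2 fun r hr => (U.2 p).1 hp r (hr.trans h)

/-- The regular open set generated by a condition. -/
def hull (p : P) : RO P :=
  ⟨{r | ∀ r', r' ≤ r → ∃ s, s ≤ r' ∧ s ≤ p}, by
    intro r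
    constructor
    · intro h q hq
      exact ⟨q, le_rfl, fun r' hr' => h r' (hr'.trans hq)⟩
    · intro h r' hr'
      obtain ⟨t, ht, ht'⟩ := h r' hr'
      obtain ⟨s, hs, hs'⟩ := ht' t le_rfl
      exact ⟨s, hs.trans ht, hs'⟩⟩

theorem mem_hull (p : P) : p ∈ (hull p).1 := fun r' hr' => ⟨r', le_rfl, hr'⟩

theorem hull_le {U : RO P} {p : P} : hull p ≤ U ↔ p ∈ U.1 := by
  constructor
  · intro h
    exact h (mem_hull p)
  · intro h r hr
    refine (U.2 r).2 fun q hq => ?_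
    obtain ⟨s, hs, hs'⟩ := hr q hq
    exact ⟨s, hs, U.lower h hs'⟩

theorem of_mem_hull {p r : P} (h : r ∈ (hull p).1) : ∃ s, s ≤ r ∧ s ≤ p := h r le_rfl

theorem hull_mono {p q : P} (h : p ≤ q) : hull p ≤ hull q :=
  hull_le.2 ((hull q).lower (mem_hull q) h)

/-- the empty regular open set -/
def empt : RO P := ⟨∅, fun p => ⟨fun h => absurd h (Set.notMem_empty _), fun h => by
  obtain ⟨r, _, hr⟩ := h p le_rfl
  exact absurd hr (Set.notMem_empty _)⟩⟩

theorem nonempty_of_iso {Q : Type u} [Preorder Q] (e : RO P ≃o RO Q) {U : RO P}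
    (h : U.1.Nonempty) : (e U).1.Nonempty := by
  by_contra h1
  rw [Set.not_nonempty_iff_eq_empty] at h1
  have h2 : e U ≤ e empt := by
    intro x hx
    rw [h1] at hx
    exact absurd hx (Set.notMem_empty _)
  have h3 : U ≤ empt := e.le_iff_le.1 h2
  obtain ⟨x, hx⟩ := h
  exact absurd (h3 hx) (Set.notMem_empty _)

/-- Posets of conditions with finite supports in `X` and with restrictions. -/
structure SuppStr (P : Type u) [Preorder P] (X : Type) where
  dom : P → Set X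
  res : Set X → P → P
  fin : ∀ p, (dom p).Finite
  dom_res : ∀ S p, dom (res S p) ⊆ S ∩ dom p
  le_res : ∀ S p, p ≤ res S p
  res_mono : ∀ S p q, p ≤ q → res S p ≤ res S q
  res_le : ∀ S p, dom p ⊆ S → res S p ≤ p
  amalg : ∀ S p q, dom q ⊆ S → q ≤ res S p → ∃ r, r ≤ p ∧ r ≤ q
  countable : ∀ S : Set X, S.Countable → {p | dom p ⊆ S}.Countable

variable {X : Type}

/-- `U` is supported by `S`. -/
def Supp (d : SuppStr P X) (S : Set X) (U : RO P) : Prop := ∀ p ∈ U.1, d.res S p ∈ U.1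

open Classical in
/-- Skolem function. -/
noncomputable def sk (U : RO P) (p : P) : P :=
  if h : ∃ q, q ≤ p ∧ ∀ r, r ≤ q → r ∉ U.1 then h.choose else p

theorem supp_of_closed (d : SuppStr P X) (S : Set X) (U : RO P)
    (h : ∀ p, d.dom p ⊆ S → d.dom (sk U p) ⊆ S) : Supp d S U := by
  intro p hp
  by_contra h1
  have h2 : ∃ q, q ≤ d.res S p ∧ ∀ r, r ≤ q → r ∉ U.1 := by
    by_contra h2
    push Not at h2
    exact h1 ((U.2 _).2 h2)
  have h3 := h (d.res S p) ((d.dom_res S p).trans Set.inter_subset_left)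
  unfold sk at h3
  rw [dif_pos h2] at h3
  obtain ⟨h4, h5⟩ := h2.choose_spec
  obtain ⟨r, hr, hr'⟩ := d.amalg S p _ h3 h4
  exact h5 r hr' (U.lower hp hr)

section closure
variable {Q : Type u} [Preorder Q] (d : SuppStr P X) (d' : SuppStr Q X) (e : RO P ≃o RO Q)

/-- one step of the closure -/
def step (A : Set X × Set X) : Set X × Set X :=
  (A.1 ∪ ⋃ x ∈ {p | d.dom p ⊆ A.1} ×ˢ {q | d'.dom q ⊆ A.2}, d.dom (sk (e.symm (hull x.2)) x.1),
   A.2 ∪ ⋃ x ∈ {p | d.dom p ⊆ A.1} ×ˢ {q | d'.dom q ⊆ A.2}, d'.dom (sk (e (hull x.1)) x.2))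

theorem step_countable {A : Set X × Set X} (h1 : A.1.Countable) (h2 : A.2.Countable) :
    (step d d' e A).1.Countable ∧ (step d d' e A).2.Countable := by
  have h3 : ({p | d.dom p ⊆ A.1} ×ˢ {q | d'.dom q ⊆ A.2}).Countable :=
    (d.countable _ h1).prod (d'.countable _ h2)
  constructor
  · exact h1.union (h3.biUnion fun x _ => (d.fin _).countable)
  · exact h2.union (h3.biUnion fun x _ => (d'.fin _).countable)

/-- iterated closure -/
def it (A : Set X × Set X) : ℕ → Set X × Set X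
  | 0 => A
  | n + 1 => step d d' e (it A n)

theorem exists_closed (Y0 : Set X) (h0 : Y0.Countable) :
    ∃ Y S : Set X, Y0 ⊆ Y ∧ Y.Countable ∧ S.Countable ∧
      (∀ p, d.dom p ⊆ Y → Supp d' S (e (hull p))) ∧
      (∀ q, d'.dom q ⊆ S → Supp d Y (e.symm (hull q))) := by
  set I := it d d' e (Y0, ∅) with hI
  have hc : ∀ n, (I n).1.Countable ∧ (I n).2.Countable := by
    intro n
    induction n with
    | zero => exact ⟨h0, Set.countable_empty⟩
    | succ n ih => exact step_countable d d' e ih.1 ih.2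
  have hm1 : Monotone fun n => (I n).1 := monotone_nat_of_le_succ fun n => Set.subset_union_left
  have hm2 : Monotone fun n => (I n).2 := monotone_nat_of_le_succ fun n => Set.subset_union_left
  have fin1 : ∀ (t : ℕ → Set X), Monotone t → ∀ F : Set X, F.Finite → F ⊆ ⋃ n, t n →
      ∃ n, F ⊆ t n := by
    intro t ht F hF hsub
    obtain ⟨J, hJ, hJ'⟩ := Set.finite_subset_iUnion hF hsub
    obtain ⟨N, hN⟩ := hJ.bddAbove
    refine ⟨N, hJ'.trans ?_⟩
    intro x hx
    simp only [Set.mem_iUnion] at hx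
    obtain ⟨j, hj, hx⟩ := hx
    exact ht (hN hj) hx
  refine ⟨⋃ n, (I n).1, ⋃ n, (I n).2, ?_, Set.countable_iUnion fun n => (hc n).1,
    Set.countable_iUnion fun n => (hc n).2, ?_, ?_⟩
  · exact Set.subset_iUnion (fun n => (I n).1) 0
  · intro p hp
    refine supp_of_closed d' _ _ fun q hq => ?_
    obtain ⟨n1, h1⟩ := fin1 _ hm1 _ (d.fin p) hp
    obtain ⟨n2, h2⟩ := fin1 _ hm2 _ (d'.fin q) hq
    have h1' := h1.trans (hm1 (le_max_left n1 n2))
    have h2' := h2.trans (hm2 (le_max_right n1 n2))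
    have : d'.dom (sk (e (hull p)) q) ⊆ (I (max n1 n2 + 1)).2 := by
      refine Set.subset_union_of_subset_right ?_ _
      exact Set.subset_biUnion_of_mem (u := fun x : P × Q => d'.dom (sk (e (hull x.1)) x.2))
        (show (p, q) ∈ {p | d.dom p ⊆ (I (max n1 n2)).1} ×ˢ {q | d'.dom q ⊆ (I (max n1 n2)).2} from
          ⟨h1', h2'⟩)
    exact this.trans (Set.subset_iUnion (fun n => (I n).2) _)
  · intro q hq
    refine supp_of_closed d _ _ fun p hp => ?_
    obtain ⟨n1, h1⟩ := fin1 _ hm1 _ (d.fin p) hp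
    obtain ⟨n2, h2⟩ := fin1 _ hm2 _ (d'.fin q) hq
    have h1' := h1.trans (hm1 (le_max_left n1 n2))
    have h2' := h2.trans (hm2 (le_max_right n1 n2))
    have : d.dom (sk (e.symm (hull q)) p) ⊆ (I (max n1 n2 + 1)).1 := by
      refine Set.subset_union_of_subset_right ?_ _
      exact Set.subset_biUnion_of_mem (u := fun x : P × Q => d.dom (sk (e.symm (hull x.2)) x.1))
        (show (p, q) ∈ {p | d.dom p ⊆ (I (max n1 n2)).1} ×ˢ {q | d'.dom q ⊆ (I (max n1 n2)).2} from
          ⟨h1', h2'⟩)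
    exact this.trans (Set.subset_iUnion (fun n => (I n).1) _)

end closure

/-- On a set of size at least `ℵ₂`, a set mapping with countable values has a free pair. -/
theorem free_pair (hX : Cardinal.aleph 2 ≤ Cardinal.mk X) (Y : X → Set X)
    (hY : ∀ x, (Y x).Countable) : ∃ y z, y ∉ Y z ∧ z ∉ Y y := by
  have h12 : Cardinal.aleph 1 < Cardinal.aleph 2 := Cardinal.aleph_lt_aleph.2 (by norm_num)
  obtain ⟨M, hM⟩ := Cardinal.le_mk_iff_exists_set.1 (h12.le.trans hX)
  have hN : Cardinal.mk (⋃ x ∈ M, Y x : Set X) ≤ Cardinal.aleph 1 := by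
    rw [Set.biUnion_eq_iUnion]
    refine (Cardinal.mk_iUnion_le _).trans ?_
    rw [hM]
    have : ⨆ i : M, Cardinal.mk (Y i) ≤ Cardinal.aleph0 := by
      refine ciSup_le' fun i => ?_
      exact Cardinal.mk_le_aleph0_iff.2 (hY i).to_subtype
    refine (mul_le_mul' le_rfl this).trans ?_
    rw [Cardinal.mul_aleph0_eq]
    exact Cardinal.aleph0_le_aleph 1
  obtain ⟨y, hy⟩ : ∃ y, y ∉ ⋃ x ∈ M, Y x := by
    by_contra h
    push Not at h
    have : (⋃ x ∈ M, Y x) = Set.univ := Set.eq_univ_of_forall h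
    rw [this, Cardinal.mk_univ] at hN
    exact absurd (hX.trans hN) (not_le.2 h12)
  obtain ⟨z, hz, hz'⟩ : ∃ z ∈ M, z ∉ Y y := by
    by_contra h
    push Not at h
    have : Cardinal.mk M ≤ Cardinal.aleph0 :=
      Cardinal.mk_le_aleph0_iff.2 ((hY y).mono h).to_subtype
    rw [hM] at this
    exact absurd this (not_le.2 Cardinal.aleph0_lt_aleph_one)
  refine ⟨y, z, ?_, hz'⟩
  intro h
  exact hy (Set.mem_biUnion hz h)

/-- The abstract inequivalence theorem. -/
theorem not_iso {Q : Type u} [Preorder Q] (d : SuppStr P X) (d' : SuppStr Q X)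
    (hX : Cardinal.aleph 2 ≤ Cardinal.mk X)
    (hQ : ∀ a b c : Q, (∃ x, x ≤ a ∧ x ≤ b) → (∃ x, x ≤ a ∧ x ≤ c) → (∃ x, x ≤ b ∧ x ≤ c) →
      ∃ x, x ≤ a ∧ x ≤ b ∧ x ≤ c)
    (hP : ∀ y z : X, y ≠ z → ∃ p : P, ∀ r, r ≤ p → ∀ Y Z : Set X, y ∈ Y → y ∉ Z → z ∈ Z →
      z ∉ Y → (Y ∩ Z).Infinite → ∃ ry rz : P, ry ≤ d.res Y r ∧ d.dom ry ⊆ Y ∧ rz ≤ d.res Z r ∧
        d.dom rz ⊆ Z ∧ d.res Z ry ≤ d.res Y rz ∧ ¬ ∃ x, x ≤ ry ∧ x ≤ rz ∧ x ≤ p) :
    IsEmpty (RO P ≃o RO Q) := by
  refine ⟨fun e => ?_⟩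
  have hinf : Infinite X := by
    rw [Cardinal.infinite_iff]
    exact (Cardinal.aleph0_le_aleph 2).trans hX
  obtain ⟨W, hW⟩ : ∃ W : Set X, W.Infinite ∧ W.Countable := by
    refine ⟨Set.range (Infinite.natEmbedding X), Set.infinite_range_of_injective
      (Infinite.natEmbedding X).injective, Set.countable_range _⟩
  have hcl := fun x : X => exists_closed d d' e (W ∪ {x}) (hW.2.union (Set.countable_singleton x))
  choose Y S h1 h2 _ h4 h5 using hcl
  obtain ⟨y, z, hyz, hzy⟩ := free_pair hX Y h2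
  have hy : y ∈ Y y := h1 y (Or.inr rfl)
  have hz : z ∈ Y z := h1 z (Or.inr rfl)
  have hne : y ≠ z := fun h => hyz (h ▸ hz)
  have hWi : (Y y ∩ Y z).Infinite :=
    hW.1.mono (Set.subset_inter (Set.subset_union_left.trans (h1 y))
      (Set.subset_union_left.trans (h1 z)))
  obtain ⟨p, hp⟩ := hP y z hne
  obtain ⟨q, hq⟩ := nonempty_of_iso e ⟨p, mem_hull p⟩
  -- the two traces of `q`
  set a := e.symm (hull (d'.res (S y) q)) with ha
  set c := e.symm (hull (d'.res (S z) q)) with hc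
  have ha' : Supp d (Y y) a := h5 y _ ((d'.dom_res _ _).trans Set.inter_subset_left)
  have hc' : Supp d (Y z) c := h5 z _ ((d'.dom_res _ _).trans Set.inter_subset_left)
  have hqa : e.symm (hull q) ≤ a := e.symm.monotone (hull_mono (d'.le_res _ _))
  have hqc : e.symm (hull q) ≤ c := e.symm.monotone (hull_mono (d'.le_res _ _))
  have hqp : e.symm (hull q) ≤ hull p := by
    rw [OrderIso.symm_apply_le]
    exact hull_le.2 hq
  obtain ⟨r0, hr0⟩ := nonempty_of_iso e.symm (U := hull q) ⟨q, mem_hull q⟩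
  obtain ⟨r, hrr0, hrp⟩ := of_mem_hull (hqp hr0)
  have hr : r ∈ (e.symm (hull q)).1 := RO.lower _ hr0 hrr0
  obtain ⟨ry, rz, hry, hdy, hrz, hdz, hyz', hno⟩ := hp r hrp (Y y) (Y z) hy hyz hz hzy hWi
  have hrya : ry ∈ a.1 := a.lower (ha' r (hqa hr)) hry
  have hrzc : rz ∈ c.1 := c.lower (hc' r (hqc hr)) hrz
  have ea : e (hull ry) ≤ hull (d'.res (S y) q) := by
    rw [← OrderIso.le_symm_apply]
    exact hull_le.2 hrya
  have ec : e (hull rz) ≤ hull (d'.res (S z) q) := by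
    rw [← OrderIso.le_symm_apply]
    exact hull_le.2 hrzc
  -- a condition `s` below the image of `ry` with domain in `S y`
  obtain ⟨s0, hs0⟩ := nonempty_of_iso e (U := hull ry) ⟨ry, mem_hull ry⟩
  have hs1 : d'.res (S y) s0 ∈ (e (hull ry)).1 := h4 y ry hdy s0 hs0
  obtain ⟨s2, hs2, hs2'⟩ := of_mem_hull (ea hs1)
  set s := d'.res (S y) s2 with hs
  have hsd : d'.dom s ⊆ S y := (d'.dom_res _ _).trans Set.inter_subset_left
  have hs1d : d'.dom (d'.res (S y) s0) ⊆ S y := (d'.dom_res _ _).trans Set.inter_subset_left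
  have hss1 : s ≤ d'.res (S y) s0 := (d'.res_mono _ _ _ hs2).trans (d'.res_le _ _ hs1d)
  have hsq : s ≤ d'.res (S y) q := (d'.res_mono _ _ _ hs2').trans
    (d'.res_le _ _ ((d'.dom_res _ _).trans Set.inter_subset_left))
  have hsm : s ∈ (e (hull ry)).1 := RO.lower _ hs1 hss1
  -- its restriction to `S z`
  set t := d'.res (S z) s with ht
  have htz : d'.dom t ⊆ S z := (d'.dom_res _ _).trans Set.inter_subset_left
  have hty : d'.dom t ⊆ S y := (d'.dom_res _ _).trans (Set.inter_subset_right.trans hsd)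
  have hsy := h5 y t hty
  have hsz := h5 z t htz
  have hst : e.symm (hull s) ≤ e.symm (hull t) := e.symm.monotone (hull_mono (d'.le_res _ _))
  have hsr : e.symm (hull s) ≤ hull ry := by
    rw [OrderIso.symm_apply_le]
    exact hull_le.2 hsm
  obtain ⟨e0, he0⟩ := nonempty_of_iso e.symm (U := hull s) ⟨s, mem_hull s⟩
  obtain ⟨e1, he1, he1'⟩ := of_mem_hull (hsr he0)
  have he1t : e1 ∈ (e.symm (hull t)).1 := hst (RO.lower _ he0 he1)
  set k := d.res (Y z) (d.res (Y y) e1) with hk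
  have hkt : k ∈ (e.symm (hull t)).1 := hsz _ (hsy _ he1t)
  have hkz : d.dom k ⊆ Y z := (d.dom_res _ _).trans Set.inter_subset_left
  have hky : d.dom k ⊆ Y y := (d.dom_res _ _).trans
    (Set.inter_subset_right.trans ((d.dom_res _ _).trans Set.inter_subset_left))
  have hkry : k ≤ d.res (Y z) ry := d.res_mono _ _ _
    ((d.res_mono _ _ _ he1').trans (d.res_le _ _ hdy))
  obtain ⟨x1, hx1, hx1'⟩ := d.amalg (Y y) rz k hky (hkry.trans hyz')
  set rz2 := d.res (Y z) x1 with hrz2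
  have hrz2d : d.dom rz2 ⊆ Y z := (d.dom_res _ _).trans Set.inter_subset_left
  have hrz2r : rz2 ≤ rz := (d.res_mono _ _ _ hx1).trans (d.res_le _ _ hdz)
  have hrz2k : rz2 ≤ k := (d.res_mono _ _ _ hx1').trans (d.res_le _ _ hkz)
  have hrz2t : rz2 ∈ (e.symm (hull t)).1 := RO.lower _ hkt hrz2k
  have et : e (hull rz2) ≤ hull t := by
    rw [← OrderIso.le_symm_apply]
    exact hull_le.2 hrz2t
  have ez : e (hull rz2) ≤ e (hull rz) := e.monotone (hull_mono hrz2r)
  -- a condition `u` below the image of `rz2` with domain in `S z`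
  obtain ⟨u0, hu0⟩ := nonempty_of_iso e (U := hull rz2) ⟨rz2, mem_hull rz2⟩
  have hu1 : d'.res (S z) u0 ∈ (e (hull rz2)).1 := h4 z rz2 hrz2d u0 hu0
  have hu1d : d'.dom (d'.res (S z) u0) ⊆ S z := (d'.dom_res _ _).trans Set.inter_subset_left
  obtain ⟨u2, hu2, hu2'⟩ := of_mem_hull (et hu1)
  have hu2m : u2 ∈ (e (hull rz2)).1 := RO.lower _ hu1 hu2
  obtain ⟨u3, hu3, hu3'⟩ := of_mem_hull (ec (ez hu2m))
  set v := d'.res (S z) u3 with hv
  have hvd : d'.dom v ⊆ S z := (d'.dom_res _ _).trans Set.inter_subset_left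
  have hv1 : v ≤ d'.res (S z) u0 :=
    (d'.res_mono _ _ _ (hu3.trans hu2)).trans (d'.res_le _ _ hu1d)
  have hvt : v ≤ t := (d'.res_mono _ _ _ (hu3.trans hu2')).trans (d'.res_le _ _ htz)
  have hvq : v ≤ d'.res (S z) q := (d'.res_mono _ _ _ hu3').trans
    (d'.res_le _ _ ((d'.dom_res _ _).trans Set.inter_subset_left))
  have hvm : v ∈ (e (hull rz2)).1 := RO.lower _ hu1 hv1
  -- `s`, `v` and `q` have a common extension
  obtain ⟨x, hxs, hxv, hxq⟩ := hQ s v q
    (d'.amalg (S z) s v hvd hvt)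
    (by obtain ⟨x, hx, hx'⟩ := d'.amalg (S y) q s hsd hsq; exact ⟨x, hx', hx⟩)
    (by obtain ⟨x, hx, hx'⟩ := d'.amalg (S z) q v hvd hvq; exact ⟨x, hx', hx⟩)
  have g1 : e.symm (hull x) ≤ hull ry := by
    rw [OrderIso.symm_apply_le]
    exact hull_le.2 (RO.lower _ hsm hxs)
  have g2 : e.symm (hull x) ≤ hull rz := by
    rw [OrderIso.symm_apply_le]
    exact hull_le.2 (ez (RO.lower _ hvm hxv))
  have g3 : e.symm (hull x) ≤ hull p := by
    rw [OrderIso.symm_apply_le]
    exact hull_le.2 (RO.lower _ hq hxq)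
  obtain ⟨w, hw⟩ := nonempty_of_iso e.symm (U := hull x) ⟨x, mem_hull x⟩
  obtain ⟨w1, hw1, hw1'⟩ := of_mem_hull (g1 hw)
  obtain ⟨w2, hw2, hw2'⟩ := of_mem_hull (g2 (RO.lower _ hw hw1))
  obtain ⟨w3, hw3, hw3'⟩ := of_mem_hull (g3 (RO.lower _ hw (hw2.trans hw1)))
  exact hno ⟨w3, (hw3.trans hw2).trans hw1', hw3.trans hw2', hw3'⟩

end Pool.Agent.V11254.RegOpen
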