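import Mathlib

/-!
# A linear order with large cofinalities and many automorphisms
-/

set_option autoImplicit false

namespace Pool.Agent.V11254.BigField

open HahnSeries

/-- every small family is strictly bounded above -/
def Unb (A : Type 1) [LT A] : Prop := ∀ (ι : Type) (f : ι → A), ∃ x, ∀ i, f i < x

/-- every small family is strictly bounded below -/
def Lnb (A : Type 1) [LT A] : Prop := ∀ (ι : Type) (f : ι → A), ∃ x, ∀ i, x < f i

theorem hahn_unb (Γ : Type 1) [LinearOrder Γ] [Nonempty Γ] (hΓ : Lnb Γ) (R : Type) [Zero R] [LinearOrder R]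
    (r : R) (hr : 0 < r) : Unb (Lex R⟦Γ⟧) := by
  classical
  intro ι f
  obtain ⟨γ, hγ⟩ := hΓ ι fun i => if h : (ofLex (f i)).support.Nonempty then
    (ofLex (f i)).isWF_support.min h else Classical.arbitrary Γ
  refine ⟨toLex (single γ r), fun i => ?_⟩
  have key : ∀ j, j ≤ γ → (ofLex (f i)).coeff j = 0 := by
    intro j hj
    by_contra h
    have hne : (ofLex (f i)).support.Nonempty := ⟨j, h⟩
    have h1 := hγ i
    simp only [dif_pos hne] at h1
    exact absurd ((ofLex (f i)).isWF_support.min_le hne (show j ∈ (ofLex (f i)).support from h))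
      (not_le.2 (hj.trans_lt h1))
  rw [HahnSeries.lt_iff]
  refine ⟨γ, fun j hj => ?_, ?_⟩
  · rw [key j hj.le]
    simp [coeff_single_of_ne hj.ne]
  · rw [key γ le_rfl]
    simpa using hr

/-- the value group -/
abbrev Gam : Type 1 := Lex ℤ⟦Ordinal.{0}ᵒᵈ⟧

/-- the field -/
abbrev F : Type 1 := Lex ℚ⟦Gam⟧

theorem ord_lnb : Lnb Ordinal.{0}ᵒᵈ := by
  intro ι f
  refine ⟨OrderDual.toDual (Order.succ (⨆ i, OrderDual.ofDual (f i))), fun i => ?_⟩
  show OrderDual.ofDual (f i) < Order.succ (⨆ i, OrderDual.ofDual (f i))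
  rw [Order.lt_succ_iff]
  exact Ordinal.le_iSup (fun i => OrderDual.ofDual (f i)) i

theorem gam_unb : Unb Gam := hahn_unb _ ord_lnb ℤ 1 one_pos

theorem gam_lnb : Lnb Gam := by
  intro ι f
  obtain ⟨x, hx⟩ := gam_unb ι fun i => - f i
  exact ⟨-x, fun i => by have := hx i; exact neg_lt.1 this⟩

theorem F_unb : Unb F := hahn_unb _ gam_lnb ℚ 1 one_pos

noncomputable instance : Field F := inferInstance
noncomputable instance : LinearOrder F := inferInstance
instance : IsStrictOrderedRing F := inferInstance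

section field
variable {K : Type 1} [Field K] [LinearOrder K] [IsStrictOrderedRing K]

theorem lnb_of (h : Unb K) : Lnb K := by
  intro ι f
  obtain ⟨x, hx⟩ := h ι fun i => - f i
  exact ⟨-x, fun i => by have := hx i; exact neg_lt.1 this⟩

theorem left_unb (h : Unb K) (ι : Type) (f : ι → K) (e : K) (hf : ∀ i, f i < e) :
    ∃ x, x < e ∧ ∀ i, f i < x := by
  obtain ⟨M, hM⟩ := h (Option ι) fun i => i.elim 0 fun i => (e - f i)⁻¹
  have h0 : 0 < M := hM none
  refine ⟨e - M⁻¹, by have := inv_pos.2 h0; linarith, fun i => ?_⟩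
  have h1 : (e - f i)⁻¹ < M := hM (some i)
  have h2 : 0 < e - f i := sub_pos.2 (hf i)
  have h3 : M⁻¹ < e - f i := by
    rw [inv_lt_comm₀ h0 h2]; exact h1
  linarith

/-- piecewise linear map -/
noncomputable def pl (c k b d x : K) : K :=
  if x ≤ c then x else if x ≤ k then c + (x - c) * ((b - c) / (k - c))
  else if x < d then d - (d - x) * ((d - b) / (d - k)) else x

theorem pl_strict {c k b d : K} (h1 : c < k) (h2 : c < b) (h3 : k < d) (h4 : b < d) :
    StrictMono (pl c k b d) := by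
  have p1 : 0 < (b - c) / (k - c) := div_pos (sub_pos.2 h2) (sub_pos.2 h1)
  have p2 : 0 < (d - b) / (d - k) := div_pos (sub_pos.2 h4) (sub_pos.2 h3)
  have q1 : (k - c) * ((b - c) / (k - c)) = b - c := by
    field_simp [(sub_pos.2 h1).ne']
  have q2 : (d - k) * ((d - b) / (d - k)) = d - b := by
    field_simp [(sub_pos.2 h3).ne']
  set r := (b - c) / (k - c)
  set s := (d - b) / (d - k)
  intro x y hxy
  unfold pl
  split_ifs with a1 a2 a3 a4 a5 a6 a7 a8 a9 a10 a11 a12 <;>
  first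
    | exact hxy
    | (exfalso; linarith)
    | nlinarith [mul_pos (sub_pos.2 hxy) p1, mul_pos (sub_pos.2 hxy) p2]

theorem pl_inv {c k b d : K} (h1 : c < k) (h2 : c < b) (h3 : k < d) (h4 : b < d) (x : K) :
    pl c k b d (pl c b k d x) = x := by
  have p1 : 0 < (k - c) / (b - c) := div_pos (sub_pos.2 h1) (sub_pos.2 h2)
  have p2 : 0 < (d - k) / (d - b) := div_pos (sub_pos.2 h3) (sub_pos.2 h4)
  have q1 : (k - c) / (b - c) * ((b - c) / (k - c)) = 1 := by
    field_simp [(sub_pos.2 h1).ne', (sub_pos.2 h2).ne']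
  have q2 : (d - k) / (d - b) * ((d - b) / (d - k)) = 1 := by
    field_simp [(sub_pos.2 h3).ne', (sub_pos.2 h4).ne']
  have q3 : (b - c) * ((k - c) / (b - c)) = k - c := by
    field_simp [(sub_pos.2 h2).ne']
  have q4 : (d - b) * ((d - k) / (d - b)) = d - k := by
    field_simp [(sub_pos.2 h4).ne']
  unfold pl
  by_cases a1 : x ≤ c
  · simp [a1]
  · push Not at a1
    by_cases a2 : x ≤ b
    · have e1 : ¬ c + (x - c) * ((k - c) / (b - c)) ≤ c := by
        have := mul_pos (sub_pos.2 a1) p1; linarith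
      have e2 : c + (x - c) * ((k - c) / (b - c)) ≤ k := by
        have : (x - c) * ((k - c) / (b - c)) ≤ (b - c) * ((k - c) / (b - c)) :=
          mul_le_mul_of_nonneg_right (by linarith) p1.le
        linarith
      rw [if_neg (not_le.2 a1), if_pos a2, if_neg e1, if_pos e2]
      have : c + (x - c) * ((k - c) / (b - c)) - c = (x - c) * ((k - c) / (b - c)) := by ring
      rw [this, mul_assoc, q1]
      ring
    · push Not at a2
      by_cases a3 : x < d
      · have e1 : d - (d - x) * ((d - k) / (d - b)) < d := by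
          have := mul_pos (sub_pos.2 a3) p2; linarith
        have e2 : k < d - (d - x) * ((d - k) / (d - b)) := by
          have : (d - x) * ((d - k) / (d - b)) < (d - b) * ((d - k) / (d - b)) :=
            mul_lt_mul_of_pos_right (by linarith) p2
          linarith
        rw [if_neg (not_le.2 a1), if_neg (not_le.2 a2), if_pos a3, if_neg (not_le.2 (h1.trans e2)),
          if_neg (not_le.2 e2), if_pos e1]
        have : d - (d - (d - x) * ((d - k) / (d - b))) = (d - x) * ((d - k) / (d - b)) := by ring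
        rw [this, mul_assoc, q2]
        ring
      · push Not at a3
        rw [if_neg (not_le.2 a1), if_neg (not_le.2 a2), if_neg (not_lt.2 a3), if_neg (not_le.2 a1),
          if_neg (not_le.2 (h3.trans_le a3)), if_neg (not_lt.2 a3)]

/-- local transitivity -/
theorem local_trans {c k b d : K} (h1 : c < k) (h2 : c < b) (h3 : k < d) (h4 : b < d) :
    ∃ π : K ≃o K, π k = b ∧ ∀ x, (x ≤ c ∨ d ≤ x) → π x = x := by
  refine ⟨(pl_strict h1 h2 h3 h4).orderIsoOfRightInverse _ (pl c b k d) (pl_inv h1 h2 h3 h4), ?_, ?_⟩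
  · show pl c k b d k = b
    unfold pl
    rw [if_neg (not_le.2 h1), if_pos le_rfl]
    have : (k - c) ≠ 0 := (sub_pos.2 h1).ne'
    field_simp
    ring
  · rintro x (hx | hx)
    · show pl c k b d x = x
      unfold pl
      rw [if_pos hx]
    · show pl c k b d x = x
      unfold pl
      have e1 : ¬ x ≤ c := not_le.2 ((h1.trans h3).trans_le hx)
      have e2 : ¬ x ≤ k := not_le.2 (h3.trans_le hx)
      rw [if_neg e1, if_neg e2, if_neg (not_lt.2 hx)]

end field

section cuts
set_option linter.unusedSectionVars false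
variable {K : Type 1} [Field K] [LinearOrder K] [IsStrictOrderedRing K]

/-- same position with respect to `E` -/
def rel (E : Set K) (a b : K) : Prop := ∀ e ∈ E, (e < a ↔ e < b) ∧ (a < e ↔ b < e)

theorem rel_refl (E : Set K) (a : K) : rel E a a := fun _ _ => ⟨Iff.rfl, Iff.rfl⟩
theorem rel_symm {E : Set K} {a b : K} (h : rel E a b) : rel E b a :=
  fun e he => ⟨(h e he).1.symm, (h e he).2.symm⟩
theorem rel_trans {E : Set K} {a b c : K} (h : rel E a b) (h' : rel E b c) : rel E a c :=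
  fun e he => ⟨(h e he).1.trans (h' e he).1, (h e he).2.trans (h' e he).2⟩

theorem rel_convex {E : Set K} {a b x : K} (h : rel E a b) (h1 : a ≤ x) (h2 : x ≤ b) :
    rel E a x := fun e he =>
  ⟨⟨fun h3 => h3.trans_le h1, fun h3 => (h e he).1.2 (h3.trans_le h2)⟩,
   ⟨fun h3 => h2.trans_lt ((h e he).2.1 h3), fun h3 => h1.trans_lt h3⟩⟩

theorem rel_mem {E : Set K} {a b : K} (h : rel E a b) (ha : a ∈ E) : b = a := by
  rcases lt_trichotomy a b with h1 | h1 | h1
  · exact absurd ((h a ha).1.2 h1) (lt_irrefl _)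
  · exact h1.symm
  · exact absurd ((h a ha).2.2 h1) (lt_irrefl _)

theorem rel_fix {E : Set K} (π : K ≃o K) (hπ : ∀ e ∈ E, π e = e) (a : K) : rel E a (π a) := by
  intro e he
  constructor
  · conv_rhs => rw [← hπ e he]
    exact (π.lt_iff_lt).symm
  · conv_rhs => rw [← hπ e he]
    exact (π.lt_iff_lt).symm

theorem class_lower (hK : Unb K) (E : Set K) [Small.{0} E] {k : K} (hk : k ∉ E) :
    ∃ c, c < k ∧ rel E k c := by
  obtain ⟨x, hx, hx'⟩ := left_unb hK {i : Shrink.{0} E // (((equivShrink E).symm i : E) : K) < k}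
    (fun i => (((equivShrink E).symm i.1 : E) : K)) k (fun i => i.2)
  have key : ∀ e ∈ E, e < k → e < x := by
    intro e he h
    have := hx' ⟨equivShrink E ⟨e, he⟩, by simpa using h⟩
    simpa using this
  refine ⟨x, hx, fun e he => ⟨⟨key e he, fun h => h.trans hx⟩, ⟨fun h => hx.trans h, fun h => ?_⟩⟩⟩
  rcases lt_trichotomy k e with h1 | h1 | h1
  · exact h1
  · exact absurd (h1 ▸ he) hk
  · exact absurd (key e he h1) (not_lt.2 h.le)

theorem class_upper (hK : Unb K) (E : Set K) (hE : E.IsWF) {a : K} (ha : a ∉ E)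
    (B : Set K) [Small.{0} B] : ∃ d, a < d ∧ rel E a d ∧ ∀ b ∈ B, rel E a b → b < d := by
  let f : Option {i : Shrink.{0} B // rel E a ((equivShrink B).symm i : B)} → K :=
    fun i => i.elim a fun i => (((equivShrink B).symm i.1 : B) : K)
  have hf : ∀ b ∈ B, rel E a b → ∃ i, f i = b := by
    intro b hb h
    exact ⟨some ⟨equivShrink B ⟨b, hb⟩, by simpa using h⟩, by simp [f]⟩
  have hf' : ∀ i, rel E a (f i) := by
    rintro (_ | i)
    · exact rel_refl E a
    · exact i.2
  by_cases hne : {e | e ∈ E ∧ a < e}.Nonempty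
  · have hwf : {e | e ∈ E ∧ a < e}.IsWF := hE.mono fun e he => he.1
    set e' := hwf.min hne with he'
    have h1 : e' ∈ E ∧ a < e' := hwf.min_mem hne
    have h2 : ∀ e ∈ E, a < e → e' ≤ e := fun e he h => hwf.min_le hne ⟨he, h⟩
    obtain ⟨x, hx, hx'⟩ := left_unb hK _ f e' (fun i => ((hf' i) e' h1.1).2.1 h1.2)
    have hax : a < x := hx' none
    refine ⟨x, hax, ?_, ?_⟩
    · intro e he
      refine ⟨⟨fun h => h.trans hax, fun h => ?_⟩, ⟨fun h => hx.trans_le (h2 e he h),
        fun h => hax.trans h⟩⟩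
      rcases lt_trichotomy a e with h3 | h3 | h3
      · exact absurd (h2 e he h3) (not_le.2 (h.trans hx))
      · exact absurd (h3 ▸ he) ha
      · exact h3
    · intro b hb h
      obtain ⟨i, rfl⟩ := hf b hb h
      exact hx' i
  · obtain ⟨x, hx'⟩ := hK _ f
    have hax : a < x := hx' none
    have h2 : ∀ e ∈ E, ¬ a < e := fun e he h => hne ⟨e, he, h⟩
    refine ⟨x, hax, ?_, ?_⟩
    · intro e he
      refine ⟨⟨fun h => h.trans hax, fun h => ?_⟩, ⟨fun h => absurd h (h2 e he),
        fun h => hax.trans h⟩⟩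
      rcases lt_trichotomy a e with h3 | h3 | h3
      · exact absurd h3 (h2 e he)
      · exact absurd (h3 ▸ he) ha
      · exact h3
    · intro b hb h
      obtain ⟨i, rfl⟩ := hf b hb h
      exact hx' i

theorem step_class (hK : Unb K) (E : Set K) (hE : E.IsWF) [Small.{0} E] (W : Set K) (hW : W.IsWF)
    (B : Set K) [Small.{0} B] (a : K) : ∃ τ : K ≃o K, (∀ x, ¬ rel E a x → τ x = x) ∧
      ∀ y ∈ W, y ∉ E → rel E a y → ∀ b ∈ B, rel E a b → b < τ y := by
  by_cases hne : {y | y ∈ W ∧ y ∉ E ∧ rel E a y}.Nonempty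
  · have hwf : {y | y ∈ W ∧ y ∉ E ∧ rel E a y}.IsWF := hW.mono fun e he => he.1
    set k := hwf.min hne with hk
    have h1 : k ∈ W ∧ k ∉ E ∧ rel E a k := hwf.min_mem hne
    have h2 : ∀ y ∈ W, y ∉ E → rel E a y → k ≤ y := fun y h h' h'' => hwf.min_le hne ⟨h, h', h''⟩
    obtain ⟨c, hc, hc'⟩ := class_lower hK E h1.2.1
    obtain ⟨b, hkb, hb, hb'⟩ := class_upper hK E hE h1.2.1 B
    obtain ⟨d, _, hd, hd'⟩ := class_upper hK E hE h1.2.1 {b}
    have hbd : b < d := hd' b rfl hb
    obtain ⟨π, hπ, hπ'⟩ := local_trans hc (hc.trans hkb) (hkb.trans hbd) hbd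
    refine ⟨π, ?_, ?_⟩
    · intro x hx
      apply hπ'
      by_contra h
      push Not at h
      apply hx
      exact rel_trans (rel_trans h1.2.2 hc')
        (rel_convex (rel_trans (rel_symm hc') hd) h.1.le h.2.le)
    · intro y hy hyE hay x hx hax
      have h3 := π.monotone (h2 y hy hyE hay)
      rw [hπ] at h3
      exact (hb' x hx (rel_trans (rel_symm h1.2.2) hax)).trans_le h3
  · refine ⟨OrderIso.refl K, fun _ _ => rfl, fun y hy hyE hay => ?_⟩
    exact absurd ⟨y, hy, hyE, hay⟩ hne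

theorem step_glue (hK : Unb K) (E : Set K) (hE : E.IsWF) [Small.{0} E] (W : Set K) (hW : W.IsWF)
    (B : Set K) [Small.{0} B] : ∃ π : K ≃o K, (∀ e ∈ E, π e = e) ∧
      ∀ y ∈ W, y ∉ E → ∀ b ∈ B, rel E y b → b < π y := by
  classical
  choose τ h1 h2 using step_class hK E hE W hW B
  let cl : K → Set K := fun a => {x | rel E a x}
  let T : Set K → (K ≃o K) := fun c => if h : ∃ a, cl a = c then τ h.choose else OrderIso.refl K
  have hcl : ∀ a b, rel E a b → cl a = cl b := fun a b h => Set.ext fun x =>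
    ⟨fun h' => rel_trans (rel_symm h) h', fun h' => rel_trans h h'⟩
  have hT : ∀ a, ∃ a', rel E a a' ∧ T (cl a) = τ a' := by
    intro a
    have h : ∃ a', cl a' = cl a := ⟨a, rfl⟩
    refine ⟨h.choose, ?_, dif_pos h⟩
    have h3 : a ∈ cl h.choose := by
      rw [h.choose_spec]; exact rel_refl E a
    exact rel_symm h3
  have t1 : ∀ a x, ¬ rel E a x → T (cl a) x = x := by
    intro a x hx
    obtain ⟨a', h3, h4⟩ := hT a
    rw [h4]
    exact h1 a' x fun h5 => hx (rel_trans h3 h5)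
  have t2 : ∀ a, ∀ y ∈ W, y ∉ E → rel E a y → ∀ b ∈ B, rel E a b → b < T (cl a) y := by
    intro a y hy hyE hay b hb hab
    obtain ⟨a', h3, h4⟩ := hT a
    rw [h4]
    exact h2 a' y hy hyE (rel_trans (rel_symm h3) hay) b hb (rel_trans (rel_symm h3) hab)
  have t3 : ∀ a x, rel E a x → rel E a (T (cl a) x) := by
    intro a x hx
    by_contra h
    have h3 := t1 a _ h
    have h4 := (T (cl a)).injective h3
    rw [h4] at h
    exact h hx
  let π : K → K := fun x => T (cl x) x
  have hπ : ∀ x, rel E x (π x) := fun x => t3 x x (rel_refl E x)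
  have mono : StrictMono π := by
    intro x y hxy
    by_cases h : rel E x y
    · show T (cl x) x < T (cl y) y
      rw [hcl x y h]
      exact (T (cl y)).strictMono hxy
    · have h3 : ¬ rel E (π x) (π y) := fun h4 => h (rel_trans (rel_trans (hπ x) h4) (rel_symm (hπ y)))
      by_contra h4
      push Not at h4
      -- `π y ≤ π x`, but `x < y`
      rcases le_total (π x) y with h5 | h5
      · -- `π y ≤ π x ≤ y`
        exact h3 (rel_symm (rel_convex (rel_symm (hπ y)) h4 h5))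
      · -- `x < y ≤ π x`
        exact h (rel_convex (hπ x) hxy.le h5)
  have surj : Function.Surjective π := by
    intro y
    refine ⟨(T (cl y)).symm y, ?_⟩
    have h3 : rel E y ((T (cl y)).symm y) := by
      by_contra h
      have h4 := t1 y _ h
      rw [OrderIso.apply_symm_apply] at h4
      rw [← h4] at h
      exact h (rel_refl E y)
    show T (cl ((T (cl y)).symm y)) ((T (cl y)).symm y) = y
    rw [← hcl _ _ h3, OrderIso.apply_symm_apply]
  refine ⟨mono.orderIsoOfSurjective π surj, ?_, ?_⟩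
  · intro e he
    exact rel_mem (hπ e) he
  · intro y hy hyE b hb h
    exact t2 y y hy hyE (rel_refl E y) b hb h

/-- points outside `E` can be moved -/
theorem move (hK : Unb K) (E : Set K) (hE : E.IsWF) [Small.{0} E] (a : K) (ha : a ∉ E) :
    ∃ π : K ≃o K, (∀ e ∈ E, π e = e) ∧ π a ≠ a := by
  obtain ⟨π, h1, h2⟩ := step_glue hK E hE {a} Set.isWF_singleton {a}
  exact ⟨π, h1, (h2 a rfl ha a rfl (rel_refl E a)).ne'⟩

theorem isWF_of_min {s : Set K} (h : ∀ S ⊆ s, S.Nonempty → ∃ m ∈ S, ∀ x ∈ S, m ≤ x) : s.IsWF := by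
  show WellFounded _
  rw [WellFounded.wellFounded_iff_has_min]
  intro T hT
  obtain ⟨m, ⟨m', hm', rfl⟩, hm2⟩ := h (Subtype.val '' T) (by rintro _ ⟨x, _, rfl⟩; exact x.2)
    (hT.image _)
  refine ⟨m', hm', fun x hx hlt => ?_⟩
  exact absurd (hm2 x ⟨x, hx, rfl⟩) (not_le.2 hlt)

theorem isWF_image {s : Set K} (h : s.IsWF) (π : K ≃o K) : (π '' s).IsWF :=
  (h.isPWO.image_of_monotone π.monotone).isWF

/-- a small family of well-ordered sets can be moved so that the union is well-ordered -/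
theorem spread (hK : Unb K) (E : Set K) (hE : E.IsWF) [Small.{0} E] (ι : Type)
    (W : ι → Set K) (hW : ∀ i, (W i).IsWF) (hs : ∀ i, Small.{0} (W i)) :
    ∃ π : ι → (K ≃o K), (∀ i, ∀ e ∈ E, π i e = e) ∧ (E ∪ ⋃ i, π i '' W i).IsWF := by
  classical
  let r : ι → ι → Prop := WellOrderingRel
  have hr : WellFounded r := WellOrderingRel.isWellOrder.wf
  -- one step of the recursion
  have step : ∀ (i : ι) (p : (j : ι) → r j i → (K ≃o K)), ∃ π : K ≃o K, (∀ e ∈ E, π e = e) ∧
      ∀ y ∈ W i, y ∉ E → ∀ j (hj : r j i), ∀ x ∈ W j, rel E y (p j hj x) → p j hj x < π y := by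
    intro i p
    let B : Set K := ⋃ j : {j // r j i}, p j.1 j.2 '' W j.1
    have hB : Small.{0} B := by
      have : ∀ j : {j // r j i}, Small.{0} (p j.1 j.2 '' W j.1) := fun j => by
        have := hs j.1
        infer_instance
      exact small_iUnion _
    obtain ⟨π, h1, h2⟩ := step_glue hK E hE (W i) (hW i) B
    refine ⟨π, h1, fun y hy hyE j hj x hx h => h2 y hy hyE _ ?_ h⟩
    exact Set.mem_iUnion.2 ⟨⟨j, hj⟩, x, hx, rfl⟩
  choose F hF1 hF2 using step
  let π : ι → (K ≃o K) := hr.fix F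
  have hπ : ∀ i, π i = F i fun j _ => π j := fun i => hr.fix_eq F i
  have h1 : ∀ i, ∀ e ∈ E, π i e = e := fun i e he => by rw [hπ i]; exact hF1 _ _ e he
  have h2 : ∀ i j, r j i → ∀ y ∈ W i, y ∉ E → ∀ x ∈ W j, rel E (π i y) (π j x) → π j x < π i y := by
    intro i j hj y hy hyE x hx h
    have h3 : rel E y (π j x) := rel_trans (rel_fix (π i) (h1 i) y) h
    rw [hπ i]
    exact hF2 i (fun j _ => π j) y hy hyE j hj x hx h3
  refine ⟨π, h1, isWF_of_min fun S hS hSne => ?_⟩
  -- minima of the part of `S` in one class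
  have cls : ∀ u0 ∈ S, u0 ∉ E → ∃ m ∈ S, rel E u0 m ∧ ∀ x ∈ S, rel E u0 x → m ≤ x := by
    intro u0 hu0 hu0E
    have hU : ∀ u ∈ S, rel E u0 u → ∃ i, u ∈ π i '' W i := by
      intro u hu h
      rcases hS hu with h3 | h3
      · exact absurd (rel_mem (rel_symm h) h3 ▸ h3) hu0E
      · exact Set.mem_iUnion.1 h3
    obtain ⟨i1, hi1⟩ := hU u0 hu0 (rel_refl E u0)
    obtain ⟨i0, ⟨u, hu, hru, hui⟩, hmin⟩ := hr.has_min {i | ∃ u ∈ S, rel E u0 u ∧ u ∈ π i '' W i}
      ⟨i1, u0, hu0, rel_refl E u0, hi1⟩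
    have hwf : (π i0 '' W i0).IsWF := isWF_image (hW i0) _
    have hwf' : {u | u ∈ S ∧ rel E u0 u ∧ u ∈ π i0 '' W i0}.IsWF := hwf.mono fun x hx => hx.2.2
    have hne : {u | u ∈ S ∧ rel E u0 u ∧ u ∈ π i0 '' W i0}.Nonempty := ⟨u, hu, hru, hui⟩
    obtain ⟨m1, m2, m3⟩ := hwf'.min_mem hne
    refine ⟨hwf'.min hne, m1, m2, fun x hx hxr => ?_⟩
    obtain ⟨j, hj⟩ := hU x hx hxr
    rcases trichotomous_of r j i0 with h3 | h3 | h3
    · exact absurd h3 (hmin j ⟨x, hx, hxr, hj⟩)
    · subst h3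
      exact hwf'.min_le hne ⟨hx, hxr, hj⟩
    · obtain ⟨y, hy, hyx⟩ := hj
      obtain ⟨z, hz, hzm⟩ := m3
      have hyE : y ∉ E := by
        intro h4
        have h5 := h1 j y h4
        rw [hyx] at h5
        rw [← h5] at h4
        exact hu0E (rel_mem (rel_symm hxr) h4 ▸ h4)
      have h4 := h2 j i0 h3 y hy hyE z hz (by rw [hyx, hzm]; exact rel_trans (rel_symm hxr) m2)
      rw [hyx, hzm] at h4
      exact h4.le
  by_cases hP : {e | e ∈ E ∧ ∃ u ∈ S, u ≤ e}.Nonempty
  · have hwf : {e | e ∈ E ∧ ∃ u ∈ S, u ≤ e}.IsWF := hE.mono fun e he => he.1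
    set e' := hwf.min hP with he'
    obtain ⟨h3, u1, hu1, hu1'⟩ : e' ∈ E ∧ ∃ u ∈ S, u ≤ e' := hwf.min_mem hP
    have h4 : ∀ e ∈ E, (∃ u ∈ S, u ≤ e) → e' ≤ e := fun e he h => hwf.min_le hP ⟨he, h⟩
    by_cases h5 : ∃ u ∈ S, u < e'
    · obtain ⟨u0, hu0, hu0'⟩ := h5
      have hu0E : u0 ∉ E := fun h => absurd (h4 u0 h ⟨u0, hu0, le_rfl⟩) (not_le.2 hu0')
      obtain ⟨m, hm, hm1, hm2⟩ := cls u0 hu0 hu0E
      have hrel : ∀ u ∈ S, u < e' → rel E u0 u := by
        intro u hu hlt e he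
        refine ⟨⟨fun h => ?_, fun h => ?_⟩, ⟨fun h => hlt.trans_le (h4 e he ⟨u0, hu0, h.le⟩),
          fun h => hu0'.trans_le (h4 e he ⟨u, hu, h.le⟩)⟩⟩
        · by_contra h6
          push Not at h6
          exact absurd (h4 e he ⟨u, hu, h6⟩) (not_le.2 (h.trans hu0'))
        · by_contra h6
          push Not at h6
          exact absurd (h4 e he ⟨u0, hu0, h6⟩) (not_le.2 (h.trans hlt))
      refine ⟨m, hm, fun x hx => ?_⟩
      rcases lt_or_ge x e' with h6 | h6
      · exact hm2 x hx (hrel x hx h6)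
      · exact (hm2 u0 hu0 (rel_refl E u0)).trans (hu0'.le.trans h6)
    · push Not at h5
      have h6 : u1 = e' := le_antisymm hu1' (h5 u1 hu1)
      exact ⟨e', h6 ▸ hu1, h5⟩
  · obtain ⟨u0, hu0⟩ := hSne
    have h3 : ∀ e ∈ E, ∀ u ∈ S, e < u := by
      intro e he u hu
      by_contra h
      push Not at h
      exact hP ⟨e, he, u, hu, h⟩
    have hu0E : u0 ∉ E := fun h => lt_irrefl _ (h3 u0 h u0 hu0)
    obtain ⟨m, hm, _, hm2⟩ := cls u0 hu0 hu0E
    refine ⟨m, hm, fun x hx => hm2 x hx fun e he => ?_⟩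
    exact ⟨⟨fun _ => h3 e he x hx, fun _ => h3 e he u0 hu0⟩,
      ⟨fun h => absurd h (h3 e he u0 hu0).not_gt, fun h => absurd h (h3 e he x hx).not_gt⟩⟩

end cuts

end Pool.Agent.V11254.BigField
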