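import Mathlib

/-!
# Hereditarily small sets over a class of urelements
-/

set_option autoImplicit false

namespace Pool.Agent.V11254.USets

/-- Pre-sets over urelements. -/
inductive Pre (A : Type 1) : Type 1
  | atom : A → Pre A
  | mk : (ι : Type) → (ι → Pre A) → Pre A

variable {A : Type 1}

/-- extensional equality -/
def Eqv : Pre A → Pre A → Prop
  | .atom a, .atom b => a = b
  | .mk _ f, .mk _ g => (∀ i, ∃ j, Eqv (f i) (g j)) ∧ (∀ j, ∃ i, Eqv (f i) (g j))
  | .atom _, .mk _ _ => False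
  | .mk _ _, .atom _ => False

theorem Eqv.refl : ∀ x : Pre A, Eqv x x
  | .atom _ => rfl
  | .mk _ f => ⟨fun i => ⟨i, Eqv.refl (f i)⟩, fun i => ⟨i, Eqv.refl (f i)⟩⟩

theorem Eqv.symm {x y : Pre A} (h : Eqv x y) : Eqv y x := by
  induction x generalizing y with
  | atom a =>
    cases y with
    | atom b => exact Eq.symm h
    | mk κ g => exact h.elim
  | mk ι f ih =>
    cases y with
    | atom b => exact h.elim
    | mk κ g =>
      exact ⟨fun j => by obtain ⟨i, hi⟩ := h.2 j; exact ⟨i, ih i hi⟩,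
        fun i => by obtain ⟨j, hj⟩ := h.1 i; exact ⟨j, ih i hj⟩⟩

theorem Eqv.trans {x y z : Pre A} (h : Eqv x y) (h' : Eqv y z) : Eqv x z := by
  induction x generalizing y z with
  | atom a =>
    cases y with
    | atom b =>
      cases z with
      | atom c => exact Eq.trans h h'
      | mk κ g => exact h'.elim
    | mk κ g => exact h.elim
  | mk ι f ih =>
    cases y with
    | atom b => exact h.elim
    | mk κ g =>
      cases z with
      | atom c => exact h'.elim
      | mk μ k =>
        exact ⟨fun i => by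
          obtain ⟨j, hj⟩ := h.1 i
          obtain ⟨l, hl⟩ := h'.1 j
          exact ⟨l, ih i hj hl⟩, fun l => by
          obtain ⟨j, hj⟩ := h'.2 l
          obtain ⟨i, hi⟩ := h.2 j
          exact ⟨i, ih i hi hj⟩⟩

instance setoid (A : Type 1) : Setoid (Pre A) := ⟨Eqv, Eqv.refl, Eqv.symm, Eqv.trans⟩

/-- Hereditarily small sets over the urelements `A`, together with the urelements. -/
def U (A : Type 1) : Type 1 := Quotient (setoid A)

def cls (p : Pre A) : U A := Quotient.mk _ p

noncomputable def rep (x : U A) : Pre A := Quotient.out x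

theorem cls_rep (x : U A) : cls (rep x) = x := Quotient.out_eq x

theorem cls_eq {p q : Pre A} : cls p = cls q ↔ Eqv p q :=
  ⟨fun h => Quotient.exact h, fun h => Quotient.sound h⟩

theorem cls_ind {P : U A → Prop} (h : ∀ p, P (cls p)) (x : U A) : P x := Quotient.inductionOn x h

/-- urelements -/
def atom (a : A) : U A := cls (.atom a)

/-- the set of the values of a small family -/
noncomputable def mk {ι : Type} (f : ι → U A) : U A := cls (.mk ι fun i => rep (f i))

theorem mk_pre {ι : Type} (f : ι → Pre A) : cls (.mk ι f) = mk fun i => cls (f i) := by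
  refine cls_eq.2 ⟨fun i => ⟨i, ?_⟩, fun i => ⟨i, ?_⟩⟩
  · exact cls_eq.1 (cls_rep (cls (f i))).symm
  · exact cls_eq.1 (cls_rep (cls (f i))).symm

theorem ind {P : U A → Prop} (ha : ∀ a, P (atom a))
    (hm : ∀ (ι : Type) (f : ι → U A), (∀ i, P (f i)) → P (mk f)) : ∀ x, P x := by
  have key : ∀ p : Pre A, P (cls p) := by
    intro p
    induction p with
    | atom a => exact ha a
    | mk ι f ih =>
      rw [mk_pre]
      exact hm ι _ ih
  exact cls_ind key

theorem cases (x : U A) : (∃ a, x = atom a) ∨ ∃ (ι : Type) (f : ι → U A), x = mk f :=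
  ind (P := fun x => (∃ a, x = atom a) ∨ ∃ (ι : Type) (f : ι → U A), x = mk f)
    (fun a => Or.inl ⟨a, rfl⟩) (fun ι f _ => Or.inr ⟨ι, f, rfl⟩) x

theorem atom_inj {a b : A} (h : (atom a : U A) = atom b) : a = b := cls_eq.1 h

theorem atom_ne_mk (a : A) {ι : Type} (f : ι → U A) : atom a ≠ mk f := fun h => cls_eq.1 h

theorem mk_eq_mk {ι κ : Type} (f : ι → U A) (g : κ → U A) :
    mk f = mk g ↔ Set.range f = Set.range g := by
  constructor
  · intro h
    obtain ⟨h1, h2⟩ := cls_eq.1 h
    ext x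
    constructor
    · rintro ⟨i, rfl⟩
      obtain ⟨j, hj⟩ := h1 i
      have := cls_eq.2 hj
      rw [cls_rep, cls_rep] at this
      exact ⟨j, this.symm⟩
    · rintro ⟨j, rfl⟩
      obtain ⟨i, hi⟩ := h2 j
      have := cls_eq.2 hi
      rw [cls_rep, cls_rep] at this
      exact ⟨i, this⟩
  · intro h
    refine cls_eq.2 ⟨fun i => ?_, fun j => ?_⟩
    · obtain ⟨j, hj⟩ : f i ∈ Set.range g := h ▸ ⟨i, rfl⟩
      exact ⟨j, cls_eq.1 (by simp only [cls_rep]; exact hj.symm)⟩
    · obtain ⟨i, hi⟩ : g j ∈ Set.range f := h ▸ ⟨j, rfl⟩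
      exact ⟨i, cls_eq.1 (by simp only [cls_rep]; exact hi)⟩

/-- the set of elements -/
def els (x : U A) : Set (U A) := {y | ∃ (ι : Type) (f : ι → U A), x = mk f ∧ y ∈ Set.range f}

theorem mem_els_mk {ι : Type} (f : ι → U A) (y : U A) : y ∈ els (mk f) ↔ ∃ i, f i = y := by
  constructor
  · rintro ⟨κ, g, h, hy⟩
    rw [mk_eq_mk] at h
    rwa [← h] at hy
  · intro h
    exact ⟨ι, f, rfl, h⟩

theorem els_atom (a : A) (y : U A) : y ∉ els (atom a : U A) := by
  rintro ⟨κ, g, h, _⟩
  exact atom_ne_mk _ _ h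

theorem els_ext {ι κ : Type} (f : ι → U A) (g : κ → U A) (h : ∀ z, z ∈ els (mk f) ↔ z ∈ els (mk g)) :
    mk f = mk g := by
  rw [mk_eq_mk]
  ext z
  have := h z
  rw [mem_els_mk, mem_els_mk] at this
  exact this

/-- pre-version of the action -/
def Pre.map {A B : Type 1} (π : A → B) : Pre A → Pre B
  | .atom a => .atom (π a)
  | .mk ι f => .mk ι fun i => Pre.map π (f i)

theorem Pre.map_eqv {A B : Type 1} (π : A → B) : ∀ {x y : Pre A}, Eqv x y → Eqv (x.map π) (y.map π)
  | .atom _, .atom _, h => congrArg π h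
  | .mk _ _, .mk _ _, h =>
    ⟨fun i => by obtain ⟨j, hj⟩ := h.1 i; exact ⟨j, Pre.map_eqv π hj⟩,
     fun j => by obtain ⟨i, hi⟩ := h.2 j; exact ⟨i, Pre.map_eqv π hi⟩⟩
  | .atom _, .mk _ _, h => h.elim
  | .mk _ _, .atom _, h => h.elim

/-- the action -/
def map {A B : Type 1} (π : A → B) : U A → U B :=
  Quotient.map (Pre.map π) fun _ _ h => Pre.map_eqv π h

theorem map_atom {A B : Type 1} (π : A → B) (a : A) : map π (atom a) = atom (π a) := rfl

theorem map_mk {A B : Type 1} (π : A → B) {ι : Type} (f : ι → U A) :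
    map π (mk f) = mk fun i => map π (f i) := by
  show cls (.mk ι fun i => Pre.map π (rep (f i))) = _
  rw [mk_pre]
  congr 1
  funext i
  show map π (cls (rep (f i))) = map π (f i)
  rw [cls_rep]

theorem map_map {A B C : Type 1} (π : A → B) (σ : B → C) (x : U A) :
    map σ (map π x) = map (fun a => σ (π a)) x := by
  refine ind (P := fun x => map σ (map π x) = map (fun a => σ (π a)) x) (fun a => rfl)
    (fun ι f ih => ?_) x
  rw [map_mk, map_mk, map_mk]
  congr 1
  funext i
  exact ih i

theorem map_id (x : U A) : map (fun a => a) x = x := by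
  refine ind (P := fun x => map (fun a => a) x = x) (fun a => rfl) (fun ι f ih => ?_) x
  rw [map_mk]
  congr 1
  funext i
  exact ih i

/-- pre-version of the kernel -/
def Pre.ker : Pre A → Set A
  | .atom a => {a}
  | .mk _ f => ⋃ i, Pre.ker (f i)

theorem Pre.ker_eqv : ∀ {x y : Pre A}, Eqv x y → x.ker = y.ker
  | .atom _, .atom _, h => by cases h; rfl
  | .mk _ f, .mk _ g, h => by
    ext a
    simp only [Pre.ker, Set.mem_iUnion]
    constructor
    · rintro ⟨i, hi⟩
      obtain ⟨j, hj⟩ := h.1 i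
      exact ⟨j, Pre.ker_eqv hj ▸ hi⟩
    · rintro ⟨j, hj⟩
      obtain ⟨i, hi⟩ := h.2 j
      exact ⟨i, Pre.ker_eqv hi ▸ hj⟩
  | .atom _, .mk _ _, h => h.elim
  | .mk _ _, .atom _, h => h.elim

/-- the kernel: all urelements used in building `x` -/
def ker : U A → Set A := Quotient.lift Pre.ker fun _ _ h => Pre.ker_eqv h

theorem ker_atom (a : A) : ker (atom a) = {a} := rfl

theorem ker_mk {ι : Type} (f : ι → U A) : ker (mk f) = ⋃ i, ker (f i) := by
  show (⋃ i, Pre.ker (rep (f i))) = _
  congr 1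
  funext i
  show ker (cls (rep (f i))) = ker (f i)
  rw [cls_rep]

theorem ker_small (x : U A) : Small.{0} (ker x) := by
  refine ind (P := fun x => Small.{0} (ker x)) (fun a => ?_) (fun ι f ih => ?_) x
  · rw [ker_atom]; infer_instance
  · rw [ker_mk]
    exact small_iUnion _

theorem ker_sub {x y : U A} (h : y ∈ els x) : ker y ⊆ ker x := by
  obtain ⟨ι, f, rfl, i, rfl⟩ := h
  rw [ker_mk]
  exact Set.subset_iUnion (fun i => ker (f i)) i

theorem ker_map {A B : Type 1} (π : A → B) (x : U A) : ker (map π x) = π '' ker x := by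
  refine ind (P := fun x => ker (map π x) = π '' ker x) (fun a => ?_) (fun ι f ih => ?_) x
  · rw [map_atom, ker_atom, ker_atom, Set.image_singleton]
  · rw [map_mk, ker_mk, ker_mk, Set.image_iUnion]
    congr 1
    funext i
    exact ih i

theorem map_fix {π : A → A} {x : U A} (h : ∀ a ∈ ker x, π a = a) : map π x = x := by
  revert h
  refine ind (P := fun x => (∀ a ∈ ker x, π a = a) → map π x = x) (fun a h => ?_)
    (fun ι f ih h => ?_) x
  · rw [map_atom, h a rfl]
  · rw [map_mk]
    congr 1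
    funext i
    refine ih i fun a ha => h a ?_
    rw [ker_mk]
    exact Set.mem_iUnion.2 ⟨i, ha⟩

theorem mem_els_map {A B : Type 1} (e : A ≃ B) {x y : U A} :
    map e y ∈ els (map e x) ↔ y ∈ els x := by
  have inj : Function.Injective (map (e : A → B)) := by
    intro u v h
    have := congrArg (map (e.symm : B → A)) h
    simpa [map_map, map_id] using this
  rcases cases x with ⟨a, rfl⟩ | ⟨ι, f, rfl⟩
  · rw [map_atom]
    exact ⟨fun h => absurd h (els_atom _ _), fun h => absurd h (els_atom _ _)⟩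
  · rw [map_mk, mem_els_mk, mem_els_mk]
    exact ⟨fun ⟨i, hi⟩ => ⟨i, inj hi⟩, fun ⟨i, hi⟩ => ⟨i, by rw [hi]⟩⟩

end Pool.Agent.V11254.USets
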