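import Mathlib
import Pool.Agent.V11254.USets

/-!
# Urelements arranged in trees, and their automorphisms

The urelements are pairs `(p, l)` where `p` is a real number (the root) and `l` is a finite list of
pairs (ordinal, bit). The node of `(p, l)` is the list of ordinals of `l`, and the parent of
`(p, e :: l)` is `(p, l)`. So every urelement with node `ν` has exactly two children with
node `α :: ν`.
-/

set_option autoImplicit false

namespace Pool.Agent.V11254.TreeU

open Pool.Agent.V11254.USets

/-- labels -/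
abbrev L : Type 1 := Ordinal.{0}

/-- urelements -/
abbrev A : Type 1 := ℝ × List (L × Bool)

/-- the node of an urelement -/
def node (a : A) : List L := a.2.map Prod.fst

/-- the parent of an urelement -/
def par (a : A) : A := (a.1, a.2.tail)

/-- the `k`-th ancestor -/
def up (k : ℕ) (a : A) : A := (a.1, a.2.drop k)

theorem up_zero (a : A) : up 0 a = a := rfl

theorem up_succ (k : ℕ) (a : A) : up (k + 1) a = up k (par a) := by
  simp only [up, par, List.drop_tail]

theorem node_up (k : ℕ) (a : A) : node (up k a) = (node a).drop k := by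
  simp only [node, up, List.map_drop]

theorem suffix_node {ν : List L} {a : A} (h : ν <:+ node a) : ∃ k, ν = node (up k a) := by
  rw [List.suffix_iff_eq_drop] at h
  exact ⟨_, by rw [node_up]; exact h⟩

theorem node_up_suffix (k : ℕ) (a : A) : node (up k a) <:+ node a := by
  rw [node_up]
  exact List.drop_suffix _ _

/-- The group of all automorphisms. -/
def G : Subgroup (Equiv.Perm A) where
  carrier := {g | (∀ a, par (g a) = g (par a)) ∧ ∀ a b, node (g a) = node (g b) ↔ node a = node b}
  mul_mem' := by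
    rintro g h ⟨hg1, hg2⟩ ⟨hh1, hh2⟩
    refine ⟨fun a => ?_, fun a b => ?_⟩
    · simp only [Equiv.Perm.mul_apply]
      rw [hg1, hh1]
    · simp only [Equiv.Perm.mul_apply]
      rw [hg2, hh2]
  one_mem' := ⟨fun a => rfl, fun a b => Iff.rfl⟩
  inv_mem' := by
    rintro g ⟨hg1, hg2⟩
    refine ⟨fun a => ?_, fun a b => ?_⟩
    · apply g.injective
      rw [← hg1]
      simp
    · rw [← hg2]
      simp

/-- The group of the automorphisms which preserve the nodes. -/
def Gam : Subgroup (Equiv.Perm A) where
  carrier := {g | (∀ a, par (g a) = g (par a)) ∧ ∀ a, node (g a) = node a}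
  mul_mem' := by
    rintro g h ⟨hg1, hg2⟩ ⟨hh1, hh2⟩
    refine ⟨fun a => ?_, fun a => ?_⟩
    · simp only [Equiv.Perm.mul_apply]
      rw [hg1, hh1]
    · simp only [Equiv.Perm.mul_apply]
      rw [hg2, hh2]
  one_mem' := ⟨fun a => rfl, fun a => rfl⟩
  inv_mem' := by
    rintro g ⟨hg1, hg2⟩
    refine ⟨fun a => ?_, fun a => ?_⟩
    · apply g.injective
      rw [← hg1]
      simp
    · rw [← hg2]
      simp

theorem Gam_le : Gam ≤ G := fun g hg => ⟨hg.1, fun a b => by rw [hg.2, hg.2]⟩

theorem conj_mem {g π : Equiv.Perm A} (hg : g ∈ G) (hπ : π ∈ Gam) : g⁻¹ * π * g ∈ Gam := by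
  have h1 : g⁻¹ * π * g ∈ G := G.mul_mem (G.mul_mem (G.inv_mem hg) (Gam_le hπ)) hg
  refine ⟨h1.1, fun a => ?_⟩
  rw [← hg.2]
  simpa using hπ.2 (g a)

theorem up_G {g : Equiv.Perm A} (hg : g ∈ G) (k : ℕ) (a : A) : up k (g a) = g (up k a) := by
  induction k generalizing a with
  | zero => rfl
  | succ k ih => rw [up_succ, up_succ, hg.1, ih]

/-! ### Well-founded sets of nodes -/

/-- the suffix closure of `N` has no infinite branch -/
def NW (N : Set (List L)) : Prop :=
  ∀ f : ℕ → List L, (∀ n, ∃ ν ∈ N, f n <:+ ν) → ¬ ∀ n, f n <:+ f (n + 1) ∧ f n ≠ f (n + 1)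

theorem NW.mono {N N' : Set (List L)} (h : NW N') (hN : N ⊆ N') : NW N := by
  intro f hf
  exact h f fun n => by
    obtain ⟨ν, hν, h1⟩ := hf n
    exact ⟨ν, hN hν, h1⟩

theorem NW.mono' {N N' : Set (List L)} (h : NW N') (hN : ∀ ν ∈ N, ∃ μ ∈ N', ν <:+ μ) : NW N := by
  intro f hf
  exact h f fun n => by
    obtain ⟨ν, hν, h1⟩ := hf n
    obtain ⟨μ, hμ, h2⟩ := hN ν hν
    exact ⟨μ, hμ, h1.trans h2⟩

theorem chain_le {f : ℕ → List L} (h : ∀ n, f n <:+ f (n + 1) ∧ f n ≠ f (n + 1)) {m n : ℕ}
    (hmn : m ≤ n) : f m <:+ f n := by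
  induction n with
  | zero => rw [Nat.le_zero.1 hmn]
  | succ n ih =>
    rcases Nat.lt_or_ge m (n + 1) with h1 | h1
    · exact (ih (by omega)).trans (h n).1
    · rw [show m = n + 1 by omega]

theorem NW.union {N N' : Set (List L)} (h : NW N) (h' : NW N') : NW (N ∪ N') := by
  intro f hf hc
  by_cases h1 : ∀ n, ∃ ν ∈ N, f n <:+ ν
  · exact h f h1 hc
  · push Not at h1
    obtain ⟨n0, hn0⟩ := h1
    refine h' f (fun n => ?_) hc
    obtain ⟨ν, hν, h2⟩ := hf (max n n0)
    rcases hν with hν | hν
    · exact absurd ((chain_le hc (le_max_right n n0)).trans h2) (hn0 ν hν)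
    · exact ⟨ν, hν, (chain_le hc (le_max_left n n0)).trans h2⟩

theorem NW_empty : NW ∅ := by
  intro f hf
  obtain ⟨ν, hν, _⟩ := hf 0
  exact absurd hν (Set.notMem_empty ν)

theorem NW_nil : NW {[]} := by
  intro f hf hc
  have h : ∀ n, f n = [] := by
    intro n
    obtain ⟨ν, hν, h1⟩ := hf n
    rw [Set.mem_singleton_iff.1 hν] at h1
    exact List.suffix_nil.1 h1
  exact (hc 0).2 (by rw [h, h])

theorem NW_image {g : Equiv.Perm A} (hg : g ∈ G) {B : Set A} (h : NW (node '' B)) :
    NW (node '' (g '' B)) := by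
  intro f hf hc
  let c : ℕ → A := fun n => (0, (f n).map fun α => (α, true))
  have hcn : ∀ n, node (c n) = f n := by
    intro n
    simp [c, node, Function.comp_def]
  have hg' : g⁻¹ ∈ G := G.inv_mem hg
  refine h (fun n => node (g⁻¹ (c n))) (fun n => ?_) (fun n => ⟨?_, ?_⟩)
  · obtain ⟨_, ⟨_, ⟨a, ha, rfl⟩, rfl⟩, h1⟩ := hf n
    obtain ⟨k, hk⟩ := suffix_node h1
    refine ⟨node a, ⟨a, ha, rfl⟩, ?_⟩
    rw [up_G hg, ← hcn, ← hg'.2] at hk
    have h2 : g⁻¹ (g (up k a)) = up k a := by simp
    rw [h2] at hk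
    rw [hk]
    exact node_up_suffix k a
  · have h1 := (hc n).1
    rw [← hcn (n + 1)] at h1
    obtain ⟨k, hk⟩ := suffix_node h1
    rw [← hcn n, ← hg'.2, ← up_G hg'] at hk
    show node (g⁻¹ (c n)) <:+ node (g⁻¹ (c (n + 1)))
    rw [hk]
    exact node_up_suffix k _
  · intro h1
    apply (hc n).2
    rw [← hcn n, ← hcn (n + 1), ← hg'.2]
    exact h1

/-! ### Constructing automorphisms -/

section lift

variable {X : Type 1}

/-- the automorphism of the tree of finite lists given by a permutation of the children of each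
list -/
def liftFun (s : List X → Equiv.Perm X) : List X → List X
  | [] => []
  | x :: l => s l x :: liftFun s l

/-- its inverse -/
def liftInv (s : List X → Equiv.Perm X) : List X → List X
  | [] => []
  | x :: l => (s (liftInv s l))⁻¹ x :: liftInv s l

theorem lift_left (s : List X → Equiv.Perm X) (l : List X) : liftInv s (liftFun s l) = l := by
  induction l with
  | nil => rfl
  | cons x l ih => simp [liftFun, liftInv, ih]

theorem lift_right (s : List X → Equiv.Perm X) (l : List X) : liftFun s (liftInv s l) = l := by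
  induction l with
  | nil => rfl
  | cons x l ih => simp [liftFun, liftInv, ih]

theorem lift_tail (s : List X → Equiv.Perm X) (l : List X) :
    (liftFun s l).tail = liftFun s l.tail := by
  cases l <;> rfl

theorem lift_drop (s : List X → Equiv.Perm X) (l : List X) (k : ℕ) :
    (liftFun s l).drop k = liftFun s (l.drop k) := by
  induction k generalizing l with
  | zero => rfl
  | succ k ih =>
    cases l with
    | nil => rfl
    | cons x l => simp only [liftFun, List.drop_succ_cons]; exact ih l

theorem lift_suffix (s : List X → Equiv.Perm X) {l m : List X} (h : l <:+ liftFun s m) :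
    ∃ l', l' <:+ m ∧ l = liftFun s l' := by
  rw [List.suffix_iff_eq_drop] at h
  exact ⟨_, List.drop_suffix _ _, by rw [h, lift_drop]⟩

theorem lift_suffix' (s : List X → Equiv.Perm X) {l m : List X} (h : l <:+ m) :
    liftFun s l <:+ liftFun s m := by
  rw [List.suffix_iff_eq_drop] at h
  rw [h, ← lift_drop]
  exact List.drop_suffix _ _

/-- lists all of whose suffixes are not moved are fixed -/
theorem lift_fix (s : List X → Equiv.Perm X) (l : List X)
    (h : ∀ x m, x :: m <:+ l → s m x = x) : liftFun s l = l := by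
  induction l with
  | nil => rfl
  | cons x l ih =>
    simp only [liftFun]
    rw [h x l (List.suffix_refl _), ih fun y m hm => h y m (hm.trans (List.suffix_cons x l))]

end lift

/-- the permutation of the urelements given by a permutation of the children of each urelement -/
def liftA (s : ℝ → List (L × Bool) → Equiv.Perm (L × Bool)) : Equiv.Perm A where
  toFun a := (a.1, liftFun (s a.1) a.2)
  invFun a := (a.1, liftInv (s a.1) a.2)
  left_inv a := by simp [lift_left]
  right_inv a := by simp [lift_right]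

theorem liftA_apply (s : ℝ → List (L × Bool) → Equiv.Perm (L × Bool)) (a : A) :
    liftA s a = (a.1, liftFun (s a.1) a.2) := rfl

theorem liftA_par (s : ℝ → List (L × Bool) → Equiv.Perm (L × Bool)) (a : A) :
    par (liftA s a) = liftA s (par a) := by
  simp only [liftA_apply, par, lift_tail]

/-- relabelling the nodes -/
def relab (t : List L → Equiv.Perm L) : Equiv.Perm A :=
  liftA fun _ l => Equiv.prodCongr (t (l.map Prod.fst)) (Equiv.refl Bool)

theorem node_relab (t : List L → Equiv.Perm L) (a : A) :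
    node (relab t a) = liftFun t (node a) := by
  obtain ⟨p, l⟩ := a
  simp only [relab, liftA_apply, node]
  induction l with
  | nil => rfl
  | cons x l ih =>
    simp only [liftFun, List.map_cons, ih]
    rfl

theorem liftFun_inj {X : Type 1} (s : List X → Equiv.Perm X) {l m : List X}
    (h : liftFun s l = liftFun s m) : l = m := by
  rw [← lift_left s l, h, lift_left]

theorem relab_mem (t : List L → Equiv.Perm L) : relab t ∈ G := by
  refine ⟨fun a => liftA_par _ a, fun a b => ?_⟩
  rw [node_relab, node_relab]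
  exact ⟨fun h => liftFun_inj t h, fun h => by rw [h]⟩

/-- urelements at unmoved nodes are fixed -/
theorem relab_fix (t : List L → Equiv.Perm L) (a : A)
    (h : ∀ α μ, α :: μ <:+ node a → t μ α = α) : relab t a = a := by
  obtain ⟨p, l⟩ := a
  show (p, liftFun _ l) = (p, l)
  congr 1
  refine lift_fix _ l ?_
  rintro ⟨α, b⟩ m hm
  have h1 : α :: m.map Prod.fst <:+ node (p, l) := by
    have := hm.map Prod.fst
    simpa [node] using this
  show ((t (m.map Prod.fst)) α, b) = (α, b)
  rw [h α _ h1]

open Classical in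
/-- swapping the two children of `(p, l)` with label `α` -/
noncomputable def flip (p : ℝ) (l : List (L × Bool)) (α : L) : Equiv.Perm A :=
  liftA fun q m => if q = p ∧ m = l then Equiv.swap (α, true) (α, false) else Equiv.refl _

theorem flip_mem (p : ℝ) (l : List (L × Bool)) (α : L) : flip p l α ∈ Gam := by
  classical
  refine ⟨fun a => liftA_par _ a, ?_⟩
  rintro ⟨q, m⟩
  simp only [flip, liftA_apply, node]
  induction m with
  | nil => rfl
  | cons x m ih =>
    simp only [liftFun, List.map_cons, ih]
    congr 1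
    split_ifs with h
    · obtain ⟨β, b⟩ := x
      by_cases hβ : β = α
      · subst hβ
        cases b <;> simp
      · rw [Equiv.swap_apply_of_ne_of_ne]
        · intro h2; exact hβ (congrArg Prod.fst h2)
        · intro h2; exact hβ (congrArg Prod.fst h2)
    · rfl

theorem flip_root {p q : ℝ} (l m : List (L × Bool)) (α : L) (h : q ≠ p) :
    flip p l α (q, m) = (q, m) := by
  classical
  show (q, liftFun _ m) = (q, m)
  congr 1
  refine lift_fix _ m fun x n _ => ?_
  show (if q = p ∧ n = l then Equiv.swap (α, true) (α, false) else Equiv.refl _) x = x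
  rw [if_neg fun h1 => h h1.1]
  rfl

theorem flip_fix {p : ℝ} (l m : List (L × Bool)) (α : L)
    (h : ∀ b, ¬ ((α, b) :: l) <:+ m) : flip p l α (p, m) = (p, m) := by
  classical
  show (p, liftFun _ m) = (p, m)
  congr 1
  refine lift_fix _ m fun x n hn => ?_
  show (if p = p ∧ n = l then Equiv.swap (α, true) (α, false) else Equiv.refl _) x = x
  split_ifs with h1
  · obtain ⟨-, rfl⟩ := h1
    obtain ⟨β, b⟩ := x
    have hβ : β ≠ α := by
      rintro rfl
      exact h b hn
    rw [Equiv.swap_apply_of_ne_of_ne]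
    · intro h2; exact hβ (congrArg Prod.fst h2)
    · intro h2; exact hβ (congrArg Prod.fst h2)
  · rfl

theorem flip_move (p : ℝ) (l : List (L × Bool)) (α : L) (b : Bool) :
    flip p l α (p, (α, b) :: l) ≠ (p, (α, b) :: l) := by
  classical
  intro h
  have h1 : liftFun (fun m => if p = p ∧ m = l then Equiv.swap (α, true) (α, false) else
      Equiv.refl _) ((α, b) :: l) = (α, b) :: l := congrArg Prod.snd h
  simp only [liftFun, List.cons.injEq] at h1
  have h2 := h1.1
  simp only [and_self, if_true] at h2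
  cases b
  · rw [Equiv.swap_apply_right] at h2
    exact Bool.noConfusion (congrArg Prod.snd h2)
  · rw [Equiv.swap_apply_left] at h2
    exact Bool.noConfusion (congrArg Prod.snd h2)

/-- permuting the roots -/
def rootPerm (σ : Equiv.Perm ℝ) : Equiv.Perm A := Equiv.prodCongr σ (Equiv.refl _)

theorem rootPerm_mem (σ : Equiv.Perm ℝ) : rootPerm σ ∈ Gam := ⟨fun _ => rfl, fun _ => rfl⟩

theorem rootPerm_apply (σ : Equiv.Perm ℝ) (a : A) : rootPerm σ a = (σ a.1, a.2) := rfl

/-! ### Exits -/

/-- a list outside a set containing the empty list has a suffix just outside the set -/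
theorem exists_exit {W : Set (List L)} (h0 : [] ∈ W) {ν : List L} (hν : ν ∉ W) :
    ∃ α μ, α :: μ <:+ ν ∧ μ ∈ W ∧ α :: μ ∉ W := by
  induction ν with
  | nil => exact absurd h0 hν
  | cons β ν ih =>
    by_cases h : ν ∈ W
    · exact ⟨β, ν, List.suffix_refl _, h, hν⟩
    · obtain ⟨α, μ, h1, h2, h3⟩ := ih h
      exact ⟨α, μ, h1.trans (List.suffix_cons β ν), h2, h3⟩

/-- the labels in a set of nodes -/
def labs (N : Set (List L)) : Set L := ⋃ ν ∈ N, {α | α ∈ ν}

theorem labs_small {N : Set (List L)} (h : Small.{0} N) : Small.{0} (labs N) := by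
  have h1 : labs N = ⋃ ν : N, {α | α ∈ ν.1} := by
    ext α; simp [labs]
  rw [h1]
  have : ∀ ν : N, Small.{0} ({α | α ∈ ν.1} : Set L) := fun ν => by
    have : ({α | α ∈ ν.1} : Set L).Finite := List.finite_toSet ν.1
    have := this.to_subtype
    infer_instance
  exact small_iUnion _

theorem mem_labs {N : Set (List L)} {ν : List L} (h : ν ∈ N) {α : L} {μ : List L}
    (h1 : α :: μ <:+ ν) : α ∈ labs N := by
  simp only [labs, Set.mem_iUnion]
  exact ⟨ν, h, h1.subset (List.mem_cons_self)⟩

theorem L_large : ¬ Small.{0} L := not_small_ordinal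

/-- small types embed into the complements of small sets of labels -/
theorem exists_embedding (Z : Set L) (hZ : Small.{0} Z) (I : Type 1) (hI : Small.{0} I) :
    ∃ e : I → L, Function.Injective e ∧ ∀ i, e i ∉ Z := by
  have h1 : ¬ Small.{0} ↥(Zᶜ) := by
    intro h
    apply L_large
    have h2 : Small.{0} ↥(Z ∪ Zᶜ) := small_union _ _
    rw [Set.union_compl_self] at h2
    exact (small_congr (Equiv.Set.univ L)).1 h2
  have h2 : Cardinal.mk I ≤ Cardinal.mk ↥(Zᶜ) := by
    by_contra h3
    push Not at h3
    apply h1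
    obtain ⟨f⟩ := Cardinal.le_def _ _ |>.1 h3.le
    exact small_of_injective f.injective
  obtain ⟨f⟩ := Cardinal.le_def _ _ |>.1 h2
  exact ⟨fun i => (f i).1, fun i j h => f.injective (Subtype.ext h), fun i => (f i).2⟩

theorem exists_fresh (Z : Set L) (hZ : Small.{0} Z) : ∃ α, α ∉ Z := by
  obtain ⟨e, -, he⟩ := exists_embedding Z hZ (ULift.{1} Unit) inferInstance
  exact ⟨_, he ⟨()⟩⟩

open Classical in
/-- exchanging a set with a disjoint set -/
theorem exchange {D : Set L} (f : L → L) (hf : Set.InjOn f D) (hd : ∀ a ∈ D, f a ∉ D) :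
    ∃ s : Equiv.Perm L, (∀ a ∈ D, s a = f a) ∧ ∀ a, a ∉ D → (∀ d ∈ D, f d ≠ a) → s a = a := by
  let s0 : L → L := fun a => if a ∈ D then f a else
    if h : ∃ d ∈ D, f d = a then h.choose else a
  have e1 : ∀ a ∈ D, s0 a = f a := by
    intro a ha
    simp [s0, ha]
  have e2 : ∀ d ∈ D, s0 (f d) = d := by
    intro d hdd
    have h2 : ∃ d' ∈ D, f d' = f d := ⟨d, hdd, rfl⟩
    simp only [s0]
    rw [if_neg (hd d hdd), dif_pos h2]
    have h3 := h2.choose_spec
    exact hf h3.1 hdd h3.2
  have e3 : ∀ a, a ∉ D → (∀ d ∈ D, f d ≠ a) → s0 a = a := by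
    intro a h1 h2
    simp only [s0]
    rw [if_neg h1, dif_neg]
    rintro ⟨d, hd1, hd2⟩
    exact h2 d hd1 hd2
  have hinv : Function.Involutive s0 := by
    intro a
    by_cases h1 : a ∈ D
    · rw [e1 a h1, e2 a h1]
    · by_cases h2 : ∃ d ∈ D, f d = a
      · obtain ⟨d, hd1, rfl⟩ := h2
        rw [e2 d hd1, e1 d hd1]
      · push Not at h2
        rw [e3 a h1 h2, e3 a h1 h2]
  exact ⟨hinv.toPerm s0, fun a ha => e1 a ha, fun a h1 h2 => e3 a h1 h2⟩

end Pool.Agent.V11254.TreeU
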