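import Mathlib

/-!
# The language of set theory and class theory with urelements
-/

set_option autoImplicit false

namespace Pool.Agent.V11254.ULang

universe u v w

/-- Structures for the first-order language with membership and the predicate of being an
urelement. -/
structure Str where
  Ob : Type u
  mem : Ob → Ob → Prop
  ur : Ob → Prop

/-- Terms: one of the `n` variables, or a constant from `α`. -/
inductive Tm (α : Type u) (n : ℕ) : Type u
  | var (i : Fin n) : Tm α n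
  | par (a : α) : Tm α n

/-- First-order formulas with free variables among `n` variables, object constants from `α` and
class constants (unary predicates) from `β`. All quantifiers range over objects. -/
inductive Fm (α : Type u) (β : Type v) : ℕ → Type (max u v)
  | mem {n : ℕ} (s t : Tm α n) : Fm α β n
  | eq {n : ℕ} (s t : Tm α n) : Fm α β n
  | ur {n : ℕ} (s : Tm α n) : Fm α β n
  | cls {n : ℕ} (s : Tm α n) (C : β) : Fm α β n
  | bot {n : ℕ} : Fm α β n
  | imp {n : ℕ} (φ ψ : Fm α β n) : Fm α β n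
  | all {n : ℕ} (φ : Fm α β (n + 1)) : Fm α β n

/-- The value of a term. -/
def Tm.val {α : Type u} {X : Type w} {n : ℕ} (c : α → X) (x : Fin n → X) : Tm α n → X
  | .var i => x i
  | .par a => c a

/-- Satisfaction in `M`, where the constants are interpreted by `c` and `d`. The quantifier `all`
binds the variable with index `0`. -/
def Sat (M : Str.{w}) {α : Type u} {β : Type v} (c : α → M.Ob) (d : β → M.Ob → Prop) :
    ∀ {n : ℕ}, Fm α β n → (Fin n → M.Ob) → Prop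
  | _, .mem s t, x => M.mem (s.val c x) (t.val c x)
  | _, .eq s t, x => s.val c x = t.val c x
  | _, .ur s, x => M.ur (s.val c x)
  | _, .cls s C, x => d C (s.val c x)
  | _, .bot, _ => False
  | _, .imp φ ψ, x => Sat M c d φ x → Sat M c d ψ x
  | _, .all φ, x => ∀ y : M.Ob, Sat M c d φ (Fin.cons y x)

/-- Sentences of the language of set theory with urelements. -/
abbrev Sentence : Type := Fm Empty Empty 0

/-- Truth of a sentence in a structure. -/
def Str.Models (M : Str.{w}) (σ : Sentence) : Prop :=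
  Sat M (fun e : Empty => e.elim) (fun e : Empty => e.elim) σ ![]

/-- Satisfaction of a formula whose parameters are elements of `M`. -/
def Str.Holds (M : Str.{w}) {n : ℕ} (φ : Fm M.Ob Empty n) (x : Fin n → M.Ob) : Prop :=
  Sat M (fun a => a) (fun e : Empty => e.elim) φ x

/-! ### Set-theoretic notions -/

namespace Str

variable (M : Str.{u})

/-- `p = {a, b}` -/
def IsUPair (p a b : M.Ob) : Prop := ¬ M.ur p ∧ ∀ z, M.mem z p ↔ z = a ∨ z = b

/-- `p = (a, b) = {{a}, {a, b}}` -/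
def IsOPair (p a b : M.Ob) : Prop := ∃ s t, M.IsUPair s a a ∧ M.IsUPair t a b ∧ M.IsUPair p s t

/-- `(a, b) ∈ f` -/
def App (f a b : M.Ob) : Prop := ∃ p, M.IsOPair p a b ∧ M.mem p f

/-- `x = ∅` -/
def IsEmp (x : M.Ob) : Prop := ¬ M.ur x ∧ ∀ z, ¬ M.mem z x

/-- `y = x ∪ {x}` -/
def IsSucc (y x : M.Ob) : Prop := ¬ M.ur y ∧ ∀ z, M.mem z y ↔ M.mem z x ∨ z = x

/-- `w` is a set with `∅ ∈ w` which is closed under `x ↦ x ∪ {x}` -/
def IsInductive (w : M.Ob) : Prop :=
  ¬ M.ur w ∧ (∃ e, M.IsEmp e ∧ M.mem e w) ∧ ∀ x, M.mem x w → ∃ y, M.IsSucc y x ∧ M.mem y w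

/-- `r` is a well-ordering of the set `x`: a (strict) linear order such that every non-empty set
`y ⊆ x` has an `r`-least element. -/
def WellOrders (r x : M.Ob) : Prop :=
  (∀ a, M.mem a x → ¬ M.App r a a) ∧
  (∀ a b c, M.mem a x → M.mem b x → M.mem c x → M.App r a b → M.App r b c → M.App r a c) ∧
  (∀ a b, M.mem a x → M.mem b x → M.App r a b ∨ a = b ∨ M.App r b a) ∧
  ∀ y, (∃ a, M.mem a y) → (∀ a, M.mem a y → M.mem a x) →
    ∃ a, M.mem a y ∧ ∀ b, M.mem b y → ¬ M.App r b a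

/-- The axioms of `ZU`. -/
structure IsZU : Prop where
  urelements : ∀ a x, M.ur a → ¬ M.mem x a
  extensionality : ∀ x y, ¬ M.ur x → ¬ M.ur y → (∀ z, M.mem z x ↔ M.mem z y) → x = y
  foundation : ∀ x, (∃ y, M.mem y x) → ∃ y, M.mem y x ∧ ∀ z, M.mem z y → ¬ M.mem z x
  pairing : ∀ a b, ∃ p, M.IsUPair p a b
  union : ∀ x, ¬ M.ur x → ∃ y, ¬ M.ur y ∧ ∀ z, M.mem z y ↔ ∃ w, M.mem w x ∧ M.mem z w
  power : ∀ x, ¬ M.ur x → ∃ p, ¬ M.ur p ∧
    ∀ y, M.mem y p ↔ ¬ M.ur y ∧ ∀ z, M.mem z y → M.mem z x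
  infinity : ∃ w, M.IsInductive w
  separation : ∀ (φ : Fm M.Ob Empty 1) (x : M.Ob), ¬ M.ur x →
    ∃ y, ¬ M.ur y ∧ ∀ z, M.mem z y ↔ M.mem z x ∧ M.Holds φ ![z]

/-- The Replacement scheme. -/
def Replacement : Prop := ∀ (φ : Fm M.Ob Empty 2) (x : M.Ob), ¬ M.ur x →
  (∀ a, M.mem a x → ∃! b, M.Holds φ ![a, b]) →
    ∃ y, ¬ M.ur y ∧ ∀ b, M.mem b y ↔ ∃ a, M.mem a x ∧ M.Holds φ ![a, b]

/-- The Collection scheme. -/
def Collection : Prop := ∀ (φ : Fm M.Ob Empty 2) (w : M.Ob), ¬ M.ur w →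
  (∀ x, M.mem x w → ∃ y, M.Holds φ ![x, y]) →
    ∃ v, ¬ M.ur v ∧ ∀ x, M.mem x w → ∃ y, M.mem y v ∧ M.Holds φ ![x, y]

/-- Choice: every set can be well-ordered. -/
def Choice : Prop := ∀ x, ¬ M.ur x → ∃ r, ¬ M.ur r ∧ M.WellOrders r x

/-- `ZFU_R`. -/
def IsZFUR : Prop := M.IsZU ∧ M.Replacement

/-- `ZFCU_R`. -/
def IsZFCUR : Prop := M.IsZFUR ∧ M.Choice

/-- `ZFCU`. -/
def IsZFCU : Prop := M.IsZFCUR ∧ M.Collection

end Str

/-! ### Class theory -/

/-- Structures for two-sorted class theory with urelements: objects (sets and urelements) and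
classes, with membership of objects in classes. -/
structure CStr extends Str.{u} where
  Cl : Type v
  cmem : Ob → Cl → Prop

namespace CStr

variable (S : CStr.{u, v})

/-- Satisfaction of a first-order formula whose parameters are objects and classes of `S`. -/
def Holds {n : ℕ} (φ : Fm S.Ob S.Cl n) (x : Fin n → S.Ob) : Prop :=
  Sat S.toStr (fun a => a) (fun C a => S.cmem a C) φ x

/-- `R(a, b)` for a class relation `R` -/
def InRel (R : S.Cl) (a b : S.Ob) : Prop := ∃ p, S.IsOPair p a b ∧ S.cmem p R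

/-- the class `F` is a function with domain (the elements of) `x` -/
def IsFunOn (F : S.Cl) (x : S.Ob) : Prop :=
  (∀ p, S.cmem p F → ∃ a b, S.mem a x ∧ S.IsOPair p a b) ∧
    ∀ a, S.mem a x → ∃! b, S.InRel F a b

/-- The axioms of `GBU_R`. -/
structure IsGBUR : Prop where
  zu : S.toStr.IsZU
  classExtensionality : ∀ C D : S.Cl, (∀ x, S.cmem x C ↔ S.cmem x D) → C = D
  comprehension : ∀ φ : Fm S.Ob S.Cl 1, ∃ C : S.Cl, ∀ x, S.cmem x C ↔ S.Holds φ ![x]
  replacement : ∀ (F : S.Cl) (x : S.Ob), ¬ S.ur x → S.IsFunOn F x →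
    ∃ y, ¬ S.ur y ∧ ∀ b, S.mem b y ↔ ∃ a, S.mem a x ∧ S.InRel F a b

/-- `GBcU_R`: `GBU_R` with the Axiom of Choice for sets. -/
def IsGBcUR : Prop := S.IsGBUR ∧ S.toStr.Choice

/-- Collection for class relations. -/
def Collection : Prop := ∀ (w : S.Ob) (R : S.Cl), ¬ S.ur w →
  (∀ x, S.mem x w → ∃ y, S.InRel R x y) →
    ∃ v, ¬ S.ur v ∧ ∀ x, S.mem x w → ∃ y, S.mem y v ∧ S.InRel R x y

/-- Global Choice: a class function `G` with `G(x) ∈ x` for every non-empty set `x`. -/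
def GlobalChoice : Prop := ∃ G : S.Cl, (∀ a b c, S.InRel G a b → S.InRel G a c → b = c) ∧
  ∀ x, (∃ y, S.mem y x) → ∃ y, S.mem y x ∧ S.InRel G x y

end CStr

/-! ### Building formulas -/

section

variable {α : Type u} {β : Type v} {n : ℕ}

/-- lifting a term under a quantifier -/
def Tm.up : Tm α n → Tm α (n + 1)
  | .var i => .var i.succ
  | .par a => .par a

@[simp] theorem Tm.val_up {X : Type w} (c : α → X) (x : Fin n → X) (y : X) (t : Tm α n) :
    t.up.val c (Fin.cons y x : Fin (n + 1) → X) = t.val c x := by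
  cases t <;> simp [Tm.up, Tm.val]

@[simp] theorem Tm.val_up' {X : Type w} (c : α → X) (x : Fin (n + 1) → X) (t : Tm α n) :
    t.up.val c x = t.val c (Fin.tail x) := by
  cases t <;> rfl

@[simp] theorem Tm.val_var {X : Type w} (c : α → X) (x : Fin n → X) (i : Fin n) :
    (Tm.var i : Tm α n).val c x = x i := rfl

@[simp] theorem Tm.val_par {X : Type w} (c : α → X) (x : Fin n → X) (a : α) :
    (Tm.par a : Tm α n).val c x = c a := rfl

namespace Fm

def not (φ : Fm α β n) : Fm α β n := imp φ bot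
def or (φ ψ : Fm α β n) : Fm α β n := imp (not φ) ψ
def and (φ ψ : Fm α β n) : Fm α β n := not (imp φ (not ψ))
def iff (φ ψ : Fm α β n) : Fm α β n := and (imp φ ψ) (imp ψ φ)
def ex (φ : Fm α β (n + 1)) : Fm α β n := not (all (not φ))

/-- `p = {a, b}` -/
def upair (p a b : Tm α n) : Fm α β n :=
  and (not (ur p)) (all (iff (mem (.var 0) p.up) (or (eq (.var 0) a.up) (eq (.var 0) b.up))))

/-- `p = (a, b)` -/
def opair (p a b : Tm α n) : Fm α β n :=
  ex (ex (and (upair (.var 1) a.up.up a.up.up) (and (upair (.var 0) a.up.up b.up.up)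
    (upair p.up.up (.var 1) (.var 0)))))

/-- `(a, b) ∈ f` -/
def app (f a b : Tm α n) : Fm α β n :=
  ex (and (opair (.var 0) a.up b.up) (mem (.var 0) f.up))

end Fm

variable (M : Str.{w}) (c : α → M.Ob) (d : β → M.Ob → Prop) (x : Fin n → M.Ob)

@[simp] theorem sat_mem (s t : Tm α n) :
    Sat M c d (.mem s t : Fm α β n) x ↔ M.mem (s.val c x) (t.val c x) := Iff.rfl
@[simp] theorem sat_eq (s t : Tm α n) :
    Sat M c d (.eq s t : Fm α β n) x ↔ s.val c x = t.val c x := Iff.rfl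
@[simp] theorem sat_ur (s : Tm α n) :
    Sat M c d (.ur s : Fm α β n) x ↔ M.ur (s.val c x) := Iff.rfl
@[simp] theorem sat_cls (s : Tm α n) (C : β) :
    Sat M c d (.cls s C : Fm α β n) x ↔ d C (s.val c x) := Iff.rfl
@[simp] theorem sat_bot : Sat M c d (.bot : Fm α β n) x ↔ False := Iff.rfl
@[simp] theorem sat_imp (φ ψ : Fm α β n) :
    Sat M c d (.imp φ ψ) x ↔ (Sat M c d φ x → Sat M c d ψ x) := Iff.rfl
@[simp] theorem sat_all (φ : Fm α β (n + 1)) :
    Sat M c d (.all φ) x ↔ ∀ y : M.Ob, Sat M c d φ (Fin.cons y x) := Iff.rfl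
@[simp] theorem sat_not (φ : Fm α β n) : Sat M c d (.not φ) x ↔ ¬ Sat M c d φ x := Iff.rfl
@[simp] theorem sat_or (φ ψ : Fm α β n) :
    Sat M c d (.or φ ψ) x ↔ (Sat M c d φ x ∨ Sat M c d ψ x) := by
  simp only [Fm.or, sat_imp, sat_not]; tauto
@[simp] theorem sat_and (φ ψ : Fm α β n) :
    Sat M c d (.and φ ψ) x ↔ (Sat M c d φ x ∧ Sat M c d ψ x) := by
  simp only [Fm.and, sat_imp, sat_not]; tauto
@[simp] theorem sat_iff (φ ψ : Fm α β n) :
    Sat M c d (.iff φ ψ) x ↔ (Sat M c d φ x ↔ Sat M c d ψ x) := by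
  simp only [Fm.iff, sat_imp, sat_and]; tauto
@[simp] theorem sat_ex (φ : Fm α β (n + 1)) :
    Sat M c d (.ex φ) x ↔ ∃ y : M.Ob, Sat M c d φ (Fin.cons y x) := by
  simp only [Fm.ex, sat_all, sat_not, not_forall, not_not]

@[simp] theorem sat_upair (p a b : Tm α n) : Sat M c d (.upair p a b : Fm α β n) x ↔
    M.IsUPair (p.val c x) (a.val c x) (b.val c x) := by
  simp only [Fm.upair, Str.IsUPair, sat_and, sat_not, sat_ur, sat_all, sat_iff, sat_mem, sat_or,
    sat_eq, Tm.val_var, Tm.val_up, Fin.cons_zero]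

@[simp] theorem cons_one {X : Type w} (y z : X) (x : Fin n → X) :
    (Fin.cons y (Fin.cons z x : Fin (n + 1) → X) : Fin (n + 2) → X) 1 = z := rfl

@[simp] theorem sat_opair (p a b : Tm α n) : Sat M c d (.opair p a b : Fm α β n) x ↔
    M.IsOPair (p.val c x) (a.val c x) (b.val c x) := by
  simp only [Fm.opair, Str.IsOPair, sat_ex, sat_and, sat_upair, Tm.val_var, Tm.val_up,
    Fin.cons_zero, cons_one]

@[simp] theorem sat_app (f a b : Tm α n) : Sat M c d (.app f a b : Fm α β n) x ↔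
    M.App (f.val c x) (a.val c x) (b.val c x) := by
  simp only [Fm.app, Str.App, sat_ex, sat_and, sat_opair, sat_mem, Tm.val_var, Tm.val_up,
    Fin.cons_zero]

end

/-! ### Definability -/

section

variable {M : Str.{u}} {β : Type v} {d : β → M.Ob → Prop} {n : ℕ}

/-- the function is given by a term -/
def IsTm {M : Str.{u}} {n : ℕ} (t : (Fin n → M.Ob) → M.Ob) : Prop :=
  ∃ τ : Tm M.Ob n, ∀ x, τ.val (fun a => a) x = t x

/-- definability with parameters -/
def Def {M : Str.{u}} {β : Type v} (d : β → M.Ob → Prop) {n : ℕ} (P : (Fin n → M.Ob) → Prop) :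
    Prop :=
  ∃ φ : Fm M.Ob β n, ∀ x, Sat M (fun a => a) d φ x ↔ P x

theorem isTm_proj (i : Fin n) : IsTm (M := M) fun x => x i := ⟨.var i, fun _ => rfl⟩
theorem isTm_const (a : M.Ob) : IsTm (M := M) (n := n) fun _ => a := ⟨.par a, fun _ => rfl⟩
theorem IsTm.tail {t : (Fin n → M.Ob) → M.Ob} (h : IsTm t) :
    IsTm fun x : Fin (n + 1) → M.Ob => t (Fin.tail x) := by
  obtain ⟨τ, hτ⟩ := h
  exact ⟨τ.up, fun x => by rw [Tm.val_up', hτ]⟩

variable {P Q : (Fin n → M.Ob) → Prop}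

theorem Def.mem {s t : (Fin n → M.Ob) → M.Ob} (hs : IsTm s) (ht : IsTm t) :
    Def d fun x => M.mem (s x) (t x) := by
  obtain ⟨σ, hσ⟩ := hs
  obtain ⟨τ, hτ⟩ := ht
  exact ⟨.mem σ τ, fun x => by rw [sat_mem, hσ, hτ]⟩

theorem Def.eq {s t : (Fin n → M.Ob) → M.Ob} (hs : IsTm s) (ht : IsTm t) :
    Def d fun x => s x = t x := by
  obtain ⟨σ, hσ⟩ := hs
  obtain ⟨τ, hτ⟩ := ht
  exact ⟨.eq σ τ, fun x => by rw [sat_eq, hσ, hτ]⟩

theorem Def.ur {s : (Fin n → M.Ob) → M.Ob} (hs : IsTm s) : Def d fun x => M.ur (s x) := by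
  obtain ⟨σ, hσ⟩ := hs
  exact ⟨.ur σ, fun x => by rw [sat_ur, hσ]⟩

theorem Def.cls {s : (Fin n → M.Ob) → M.Ob} (hs : IsTm s) (C : β) : Def d fun x => d C (s x) := by
  obtain ⟨σ, hσ⟩ := hs
  exact ⟨.cls σ C, fun x => by rw [sat_cls, hσ]⟩

theorem Def.imp (h1 : Def d P) (h2 : Def d Q) : Def d fun x => P x → Q x := by
  obtain ⟨σ, hσ⟩ := h1
  obtain ⟨τ, hτ⟩ := h2
  exact ⟨.imp σ τ, fun x => by rw [sat_imp, hσ, hτ]⟩

theorem Def.and (h1 : Def d P) (h2 : Def d Q) : Def d fun x => P x ∧ Q x := by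
  obtain ⟨σ, hσ⟩ := h1
  obtain ⟨τ, hτ⟩ := h2
  exact ⟨.and σ τ, fun x => by rw [sat_and, hσ, hτ]⟩

theorem Def.or (h1 : Def d P) (h2 : Def d Q) : Def d fun x => P x ∨ Q x := by
  obtain ⟨σ, hσ⟩ := h1
  obtain ⟨τ, hτ⟩ := h2
  exact ⟨.or σ τ, fun x => by rw [sat_or, hσ, hτ]⟩

theorem Def.iff (h1 : Def d P) (h2 : Def d Q) : Def d fun x => P x ↔ Q x := by
  obtain ⟨σ, hσ⟩ := h1
  obtain ⟨τ, hτ⟩ := h2
  exact ⟨.iff σ τ, fun x => by rw [sat_iff, hσ, hτ]⟩

theorem Def.not (h1 : Def d P) : Def d fun x => ¬ P x := by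
  obtain ⟨σ, hσ⟩ := h1
  exact ⟨.not σ, fun x => by rw [sat_not, hσ]⟩

theorem Def.all {P : M.Ob → (Fin n → M.Ob) → Prop}
    (h : Def d fun x : Fin (n + 1) → M.Ob => P (x 0) (Fin.tail x)) : Def d fun x => ∀ y, P y x := by
  obtain ⟨σ, hσ⟩ := h
  exact ⟨.all σ, fun x => by rw [sat_all]; exact forall_congr' fun y => hσ _⟩

theorem Def.ex {P : M.Ob → (Fin n → M.Ob) → Prop}
    (h : Def d fun x : Fin (n + 1) → M.Ob => P (x 0) (Fin.tail x)) : Def d fun x => ∃ y, P y x := by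
  obtain ⟨σ, hσ⟩ := h
  exact ⟨.ex σ, fun x => by rw [sat_ex]; exact exists_congr fun y => hσ _⟩

theorem Def.opair {s t r : (Fin n → M.Ob) → M.Ob} (hs : IsTm s) (ht : IsTm t) (hr : IsTm r) :
    Def d fun x => M.IsOPair (s x) (t x) (r x) := by
  obtain ⟨σ, hσ⟩ := hs
  obtain ⟨τ, hτ⟩ := ht
  obtain ⟨ρ, hρ⟩ := hr
  exact ⟨.opair σ τ ρ, fun x => by rw [sat_opair, hσ, hτ, hρ]⟩

theorem Def.app {s t r : (Fin n → M.Ob) → M.Ob} (hs : IsTm s) (ht : IsTm t) (hr : IsTm r) :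
    Def d fun x => M.App (s x) (t x) (r x) := by
  obtain ⟨σ, hσ⟩ := hs
  obtain ⟨τ, hτ⟩ := ht
  obtain ⟨ρ, hρ⟩ := hr
  exact ⟨.app σ τ ρ, fun x => by rw [sat_app, hσ, hτ, hρ]⟩

end

/-! ### Substitution -/

section

variable {α : Type u} {β : Type v}

/-- substitution in terms -/
def Tm.subst {k n : ℕ} (τ : Fin k → Tm α n) : Tm α k → Tm α n
  | .var i => τ i
  | .par a => .par a

/-- substitution in formulas -/
def Fm.subst : ∀ {k : ℕ} {n : ℕ}, (Fin k → Tm α n) → Fm α β k → Fm α β n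
  | _, _, τ, .mem s t => .mem (s.subst τ) (t.subst τ)
  | _, _, τ, .eq s t => .eq (s.subst τ) (t.subst τ)
  | _, _, τ, .ur s => .ur (s.subst τ)
  | _, _, τ, .cls s C => .cls (s.subst τ) C
  | _, _, _, .bot => .bot
  | _, _, τ, .imp φ ψ => .imp (φ.subst τ) (ψ.subst τ)
  | _, _, τ, .all φ => .all (φ.subst (Fin.cons (.var 0) fun i => (τ i).up))

theorem Tm.val_subst {X : Type w} (c : α → X) {k n : ℕ} (τ : Fin k → Tm α n) (x : Fin n → X)
    (t : Tm α k) : (t.subst τ).val c x = t.val c fun i => (τ i).val c x := by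
  cases t <;> rfl

theorem sat_subst (M : Str.{w}) (c : α → M.Ob) (d : β → M.Ob → Prop) : ∀ {k n : ℕ}
    (φ : Fm α β k) (τ : Fin k → Tm α n) (x : Fin n → M.Ob),
    Sat M c d (φ.subst τ) x ↔ Sat M c d φ fun i => (τ i).val c x
  | _, _, .mem s t, τ, x => by simp only [Fm.subst, sat_mem, Tm.val_subst]
  | _, _, .eq s t, τ, x => by simp only [Fm.subst, sat_eq, Tm.val_subst]
  | _, _, .ur s, τ, x => by simp only [Fm.subst, sat_ur, Tm.val_subst]
  | _, _, .cls s C, τ, x => by simp only [Fm.subst, sat_cls, Tm.val_subst]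
  | _, _, .bot, _, _ => Iff.rfl
  | _, _, .imp φ ψ, τ, x => by
    simp only [Fm.subst, sat_imp, sat_subst M c d φ τ x, sat_subst M c d ψ τ x]
  | _, _, .all φ, τ, x => by
    simp only [Fm.subst, sat_all]
    refine forall_congr' fun y => ?_
    rw [sat_subst M c d φ]
    have : (fun i => Tm.val c (Fin.cons y x)
        ((Fin.cons (Tm.var 0) fun i => (τ i).up : Fin (_ + 1) → Tm α (_ + 1)) i)) =
        Fin.cons y fun i => (τ i).val c x := by
      funext i
      refine Fin.cases ?_ ?_ i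
      · rfl
      · intro i
        simp only [Fin.cons_succ]
        rw [Tm.val_up]
    rw [this]

end

section

variable {M : Str.{u}} {β : Type v} {d : β → M.Ob → Prop} {n : ℕ}

theorem Def.comp {k : ℕ} {P : (Fin k → M.Ob) → Prop} (h : Def d P)
    (t : Fin k → (Fin n → M.Ob) → M.Ob) (ht : ∀ i, IsTm (t i)) :
    Def d fun x => P fun i => t i x := by
  obtain ⟨φ, hφ⟩ := h
  choose τ hτ using ht
  refine ⟨φ.subst τ, fun x => ?_⟩
  rw [sat_subst]
  simp only [hτ]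
  exact hφ _

/-- definable unary predicates -/
abbrev Def1 {M : Str.{u}} {β : Type v} (d : β → M.Ob → Prop) (P : M.Ob → Prop) : Prop :=
  Def d fun x : Fin 1 → M.Ob => P (x 0)

/-- definable binary predicates -/
abbrev Def2 {M : Str.{u}} {β : Type v} (d : β → M.Ob → Prop) (P : M.Ob → M.Ob → Prop) : Prop :=
  Def d fun x : Fin 2 → M.Ob => P (x 0) (x 1)

/-- definable ternary predicates -/
abbrev Def3 {M : Str.{u}} {β : Type v} (d : β → M.Ob → Prop)
    (P : M.Ob → M.Ob → M.Ob → Prop) : Prop :=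
  Def d fun x : Fin 3 → M.Ob => P (x 0) (x 1) (x 2)

/-- definable quaternary predicates -/
abbrev Def4 {M : Str.{u}} {β : Type v} (d : β → M.Ob → Prop)
    (P : M.Ob → M.Ob → M.Ob → M.Ob → Prop) : Prop :=
  Def d fun x : Fin 4 → M.Ob => P (x 0) (x 1) (x 2) (x 3)

theorem Def1.app {P : M.Ob → Prop} (h : Def1 d P) {t : (Fin n → M.Ob) → M.Ob} (ht : IsTm t) :
    Def d fun x => P (t x) :=
  Def.comp h (fun _ => t) fun _ => ht

theorem Def2.app {P : M.Ob → M.Ob → Prop} (h : Def2 d P) {s t : (Fin n → M.Ob) → M.Ob}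
    (hs : IsTm s) (ht : IsTm t) : Def d fun x => P (s x) (t x) :=
  Def.comp h ![s, t] (by
    intro i
    fin_cases i
    exacts [hs, ht])

theorem Def3.app {P : M.Ob → M.Ob → M.Ob → Prop} (h : Def3 d P)
    {s t r : (Fin n → M.Ob) → M.Ob} (hs : IsTm s) (ht : IsTm t) (hr : IsTm r) :
    Def d fun x => P (s x) (t x) (r x) :=
  Def.comp h ![s, t, r] (by
    intro i
    fin_cases i
    exacts [hs, ht, hr])

theorem Def4.app {P : M.Ob → M.Ob → M.Ob → M.Ob → Prop} (h : Def4 d P)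
    {s t r q : (Fin n → M.Ob) → M.Ob} (hs : IsTm s) (ht : IsTm t) (hr : IsTm r) (hq : IsTm q) :
    Def d fun x => P (s x) (t x) (r x) (q x) :=
  Def.comp h ![s, t, r, q] (by
    intro i
    fin_cases i
    exacts [hs, ht, hr, hq])

end

end Pool.Agent.V11254.ULang
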