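import Mathlib
import Pool.Agent.V11254.TreeU
import Pool.Agent.V11254.ULang

/-!
# A model of `ZFU_R` + Collection built from trees of urelements
-/

set_option autoImplicit false

namespace Pool.Agent.V11254.TreeModel

open Pool.Agent.V11254.USets Pool.Agent.V11254.ULang Pool.Agent.V11254.TreeU

/-- `x` has a finite support -/
def FS (x : U A) : Prop :=
  ∃ E : Set A, E.Finite ∧ ∀ π : Equiv.Perm A, π ∈ Gam → (∀ e ∈ E, π e = e) → map π x = x

/-- `x` and everything in its transitive closure has a finite support -/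
def HS (x : U A) : Prop := ∀ y, Relation.ReflTransGen (fun a b => a ∈ els b) y x → FS y

theorem map_mul (g h : Equiv.Perm A) (x : U A) :
    map (g * h : Equiv.Perm A) x = map g (map h x) := by
  show map (fun a => g (h a)) x = _
  exact (map_map _ _ x).symm

theorem map_one (x : U A) : map (1 : Equiv.Perm A) x = x := map_id x

theorem map_inv_map (g : Equiv.Perm A) (x : U A) : map (g⁻¹ : Equiv.Perm A) (map g x) = x := by
  rw [← map_mul, inv_mul_cancel, map_one]

theorem map_map_inv (g : Equiv.Perm A) (x : U A) : map g (map (g⁻¹ : Equiv.Perm A) x) = x := by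
  rw [← map_mul, mul_inv_cancel, map_one]

theorem map_congr' {g h : Equiv.Perm A} {x : U A} (hx : ∀ a ∈ ker x, g a = h a) :
    map g x = map h x := by
  have h1 : map (h⁻¹ * g : Equiv.Perm A) x = x := by
    refine map_fix fun a ha => ?_
    simp [hx a ha]
  rw [map_mul] at h1
  rw [← map_map_inv h (map g x), h1]

theorem FS.map {x : U A} (hx : FS x) {g : Equiv.Perm A} (hg : g ∈ G) : FS (map g x) := by
  obtain ⟨E, hE, h⟩ := hx
  refine ⟨g '' E, hE.image g, fun π hπ h1 => ?_⟩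
  have h2 := h (g⁻¹ * π * g) (conj_mem hg hπ) fun e he => by
    simp [h1 (g e) ⟨e, he, rfl⟩]
  rw [map_mul, map_mul] at h2
  rw [← map_map_inv g (USets.map π (USets.map g x)), h2]

theorem HS.map {x : U A} (hx : HS x) {g : Equiv.Perm A} (hg : g ∈ G) : HS (map g x) := by
  intro y hy
  have h1 : Relation.ReflTransGen (fun a b => a ∈ els b) (USets.map (g⁻¹ : Equiv.Perm A) y)
      (USets.map (g⁻¹ : Equiv.Perm A) (USets.map g x)) :=
    Relation.ReflTransGen.lift (USets.map (g⁻¹ : Equiv.Perm A))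
      (fun a b hab => (mem_els_map (g⁻¹ : Equiv.Perm A)).2 hab) _ _ hy
  rw [map_inv_map] at h1
  have h2 := (hx _ h1).map hg
  rwa [map_map_inv] at h2

theorem HS.mem {x y : U A} (hx : HS x) (hy : y ∈ els x) : HS y :=
  fun z hz => hx z (hz.trans (Relation.ReflTransGen.single hy))

theorem HS.fs {x : U A} (hx : HS x) : FS x := hx x Relation.ReflTransGen.refl

theorem els_small (x : U A) : Small.{0} (els x) := by
  rcases cases x with ⟨a, rfl⟩ | ⟨ι, f, rfl⟩
  · have : els (atom a : U A) = ∅ := Set.eq_empty_of_forall_notMem fun y => els_atom a y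
    rw [this]; infer_instance
  · have : els (mk f) = Set.range f := by
      ext y; rw [mem_els_mk]; rfl
    rw [this]; infer_instance

/-- Objects: urelements and hereditarily small, hereditarily finitely supported sets with
well-founded set of nodes. -/
def Ob : Type 1 := {x : U A // HS x ∧ NW (node '' ker x)}

/-- the action of the automorphisms -/
noncomputable def act (g : G) (x : Ob) : Ob :=
  ⟨map g.1 x.1, x.2.1.map g.2, by rw [ker_map]; exact NW_image g.2 x.2.2⟩

theorem act_mul (g h : G) (x : Ob) : act (g * h) x = act g (act h x) := Subtype.ext (map_mul _ _ _)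

theorem act_one (x : Ob) : act 1 x = x := Subtype.ext (map_id x.1)

theorem act_inv_act (g : G) (x : Ob) : act g⁻¹ (act g x) = x := by
  rw [← act_mul, inv_mul_cancel, act_one]

theorem act_act_inv (g : G) (x : Ob) : act g (act g⁻¹ x) = x := by
  rw [← act_mul, mul_inv_cancel, act_one]

theorem act_fix (g : G) (x : Ob) (h : ∀ a ∈ ker x.1, g.1 a = a) : act g x = x :=
  Subtype.ext (map_fix h)

theorem act_inj (g : G) {x y : Ob} (h : act g x = act g y) : x = y := by
  rw [← act_inv_act g x, h, act_inv_act]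

/-- The model. -/
abbrev M : Str.{1} := ⟨Ob, fun x y => x.1 ∈ els y.1, fun x => ∃ a, x.1 = atom a⟩

theorem mem_act (g : G) (x y : Ob) : M.mem (act g x) (act g y) ↔ M.mem x y :=
  mem_els_map g.1

theorem ur_act (g : G) (x : Ob) : M.ur (act g x) ↔ M.ur x := by
  constructor
  · rintro ⟨a, ha⟩
    rcases cases x.1 with ⟨b, hb⟩ | ⟨ι, f, hf⟩
    · exact ⟨b, hb⟩
    · exfalso
      have : map g.1 x.1 = atom a := ha
      rw [hf, map_mk] at this
      exact atom_ne_mk _ _ this.symm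
  · rintro ⟨a, ha⟩
    exact ⟨g.1 a, by show map g.1 x.1 = _; rw [ha, map_atom]⟩

theorem cons_act {α β : Type 1} (f : α → β) {n : ℕ} (x : α) (v : Fin n → α) :
    (fun i => f ((Fin.cons x v : Fin (n + 1) → α) i)) = Fin.cons (f x) fun i => f (v i) := by
  funext i
  refine Fin.cases ?_ ?_ i
  · rfl
  · intro i; rfl

theorem val_act {n : ℕ} (τ : Tm Ob n) : ∃ P : Set Ob, P.Finite ∧ ∀ g : G,
    (∀ p ∈ P, act g p = p) → ∀ x : Fin n → Ob,
      τ.val (fun a => a) (fun i => act g (x i)) = act g (τ.val (fun a => a) x) := by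
  cases τ with
  | var i => exact ⟨∅, Set.finite_empty, fun g _ x => rfl⟩
  | par a => exact ⟨{a}, Set.finite_singleton a, fun g hg x => (hg a rfl).symm⟩

/-- formulas are invariant under the automorphisms fixing their parameters -/
theorem exists_params : ∀ {n : ℕ} (φ : Fm Ob Empty n), ∃ P : Set Ob, P.Finite ∧
    ∀ g : G, (∀ p ∈ P, act g p = p) → ∀ x : Fin n → Ob,
      M.Holds φ (fun i => act g (x i)) ↔ M.Holds φ x
  | _, .mem s t => by
    obtain ⟨E, hE, hE'⟩ := val_act s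
    obtain ⟨F, hF, hF'⟩ := val_act t
    refine ⟨E ∪ F, hE.union hF, fun g hg x => ?_⟩
    show M.mem _ _ ↔ M.mem _ _
    rw [hE' g (fun e he => hg e (Or.inl he)), hF' g (fun e he => hg e (Or.inr he))]
    exact mem_act g _ _
  | _, .eq s t => by
    obtain ⟨E, hE, hE'⟩ := val_act s
    obtain ⟨F, hF, hF'⟩ := val_act t
    refine ⟨E ∪ F, hE.union hF, fun g hg x => ?_⟩
    show _ = _ ↔ _ = _
    rw [hE' g (fun e he => hg e (Or.inl he)), hF' g (fun e he => hg e (Or.inr he))]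
    exact ⟨fun h => act_inj g h, fun h => congrArg (act g) h⟩
  | _, .ur s => by
    obtain ⟨E, hE, hE'⟩ := val_act s
    refine ⟨E, hE, fun g hg x => ?_⟩
    show M.ur _ ↔ M.ur _
    rw [hE' g hg]
    exact ur_act g _
  | _, .cls s C => C.elim
  | _, .bot => ⟨∅, Set.finite_empty, fun _ _ _ => Iff.rfl⟩
  | _, .imp φ ψ => by
    obtain ⟨E, hE, hE'⟩ := exists_params φ
    obtain ⟨F, hF, hF'⟩ := exists_params ψ
    refine ⟨E ∪ F, hE.union hF, fun g hg x => ?_⟩
    show (M.Holds φ _ → M.Holds ψ _) ↔ (M.Holds φ _ → M.Holds ψ _)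
    rw [hE' g (fun e he => hg e (Or.inl he)), hF' g (fun e he => hg e (Or.inr he))]
  | _, .all φ => by
    obtain ⟨E, hE, hE'⟩ := exists_params φ
    refine ⟨E, hE, fun g hg x => ?_⟩
    show (∀ y, M.Holds φ _) ↔ ∀ y, M.Holds φ _
    constructor
    · intro h y
      have h1 := h (act g y)
      rw [← cons_act (act g) y x] at h1
      exact (hE' g hg _).1 h1
    · intro h y
      have h1 := (hE' g hg _).2 (h (act g⁻¹ y))
      rw [cons_act (act g), act_act_inv] at h1
      exact h1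

/-- node-preserving automorphisms as automorphisms -/
def toG (π : Equiv.Perm A) (hπ : π ∈ Gam) : G := ⟨π, Gam_le hπ⟩

/-- finitely many objects have a common finite support -/
theorem exists_supp (P : Set Ob) (hP : P.Finite) : ∃ E : Set A, E.Finite ∧
    ∀ (π : Equiv.Perm A) (hπ : π ∈ Gam), (∀ e ∈ E, π e = e) → ∀ p ∈ P, act (toG π hπ) p = p := by
  choose E hE hE' using fun p : Ob => p.2.1.fs
  refine ⟨⋃ p ∈ P, E p, hP.biUnion fun p _ => hE p, fun π hπ h p hp => ?_⟩
  exact Subtype.ext (hE' p π hπ fun e he => h e (Set.mem_biUnion hp he))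

/-- finitely many objects have a common well-founded set of nodes -/
theorem exists_nodes (P : Set Ob) (hP : P.Finite) : NW (⋃ p ∈ P, node '' ker p.1) := by
  induction P, hP using Set.Finite.induction_on with
  | empty => simpa using NW_empty
  | @insert a s _ _ ih =>
    rw [Set.biUnion_insert]
    exact a.2.2.union ih

/-! ### Sets of the model -/

/-- elements of an object -/
def elsO (x : Ob) : Set Ob := {y | y.1 ∈ els x.1}

theorem elsO_small (x : Ob) : Small.{0} (elsO x) := by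
  have := els_small x.1
  refine small_of_injective (β := els x.1) (f := fun y : elsO x => (⟨y.1.1, y.2⟩ : els x.1)) ?_
  intro y z h
  exact Subtype.ext (Subtype.ext (congrArg (fun w : els x.1 => w.1) h))

/-- a small, finitely supported set of objects with well-founded set of nodes is a set of the
model -/
theorem exists_set (T : Set Ob) (hT : Small.{0} T)
    (hS : ∃ E : Set A, E.Finite ∧ ∀ (π : Equiv.Perm A) (hπ : π ∈ Gam), (∀ e ∈ E, π e = e) →
      ∀ y ∈ T, act (toG π hπ) y ∈ T)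
    (hN : NW (⋃ y ∈ T, node '' ker y.1)) :
    ∃ x : Ob, ¬ M.ur x ∧ ∀ z, M.mem z x ↔ z ∈ T := by
  let f : Shrink.{0} T → U A := fun i => (((equivShrink T).symm i : T) : Ob).1
  have hmem : ∀ z : Ob, z.1 ∈ els (mk f) ↔ z ∈ T := by
    intro z
    rw [mem_els_mk]
    constructor
    · rintro ⟨i, hi⟩
      have : (((equivShrink T).symm i : T) : Ob) = z := Subtype.ext hi
      rw [← this]
      exact ((equivShrink T).symm i).2
    · intro hz
      refine ⟨equivShrink T ⟨z, hz⟩, ?_⟩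
      simp [f]
  have hFS : FS (mk f) := by
    obtain ⟨E, hE, hE'⟩ := hS
    have key : ∀ (π : Equiv.Perm A) (hπ : π ∈ Gam), (∀ e ∈ E, π e = e) → ∀ i, ∃ j,
        f j = map π (f i) := by
      intro π hπ h i
      have h1 := hE' π hπ h _ ((equivShrink T).symm i).2
      have h2 := (hmem _).2 h1
      rw [mem_els_mk] at h2
      obtain ⟨j, hj⟩ := h2
      exact ⟨j, hj⟩
    refine ⟨E, hE, fun π hπ h => ?_⟩
    rw [map_mk, mk_eq_mk]
    ext z
    constructor
    · rintro ⟨i, rfl⟩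
      exact key π hπ h i
    · rintro ⟨i, rfl⟩
      obtain ⟨j, hj⟩ := key π⁻¹ (Gam.inv_mem hπ) (fun e he => by
        rw [Equiv.Perm.inv_eq_iff_eq, h e he]) i
      refine ⟨j, ?_⟩
      show map π (f j) = f i
      rw [hj, map_map_inv]
  have hHS : HS (mk f) := by
    intro y hy
    rcases Relation.ReflTransGen.cases_tail_iff _ _ _ |>.1 hy with h | ⟨z, hz, hz'⟩
    · rw [h] at hFS; exact hFS
    · rw [mem_els_mk] at hz'
      obtain ⟨i, rfl⟩ := hz'
      exact (((equivShrink T).symm i : T) : Ob).2.1 y hz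
  have hk : NW (node '' ker (mk f)) := by
    refine hN.mono ?_
    rw [ker_mk]
    rintro _ ⟨a, ha, rfl⟩
    obtain ⟨i, hi⟩ := Set.mem_iUnion.1 ha
    exact Set.mem_biUnion ((equivShrink T).symm i).2 ⟨a, hi, rfl⟩
  refine ⟨⟨mk f, hHS, hk⟩, ?_, hmem⟩
  rintro ⟨a, ha⟩
  exact atom_ne_mk _ _ ha.symm

theorem ker_mem {x y : Ob} (h : M.mem y x) : ker y.1 ⊆ ker x.1 := ker_sub h

theorem mem_lift {x : Ob} {y : U A} (h : y ∈ els x.1) : ∃ z : Ob, z.1 = y ∧ M.mem z x :=
  ⟨⟨y, x.2.1.mem h, x.2.2.mono (Set.image_mono (ker_sub h))⟩, rfl, h⟩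

theorem extensionality (x y : Ob) (hx : ¬ M.ur x) (hy : ¬ M.ur y)
    (h : ∀ z, M.mem z x ↔ M.mem z y) : x = y := by
  apply Subtype.ext
  rcases cases x.1 with ⟨a, ha⟩ | ⟨ι, f, hf⟩
  · exact absurd ⟨a, ha⟩ hx
  rcases cases y.1 with ⟨a, ha⟩ | ⟨κ, g, hg⟩
  · exact absurd ⟨a, ha⟩ hy
  rw [hf, hg]
  refine els_ext f g fun z => ?_
  rw [← hf, ← hg]
  constructor
  · intro hz
    obtain ⟨w, rfl, hw⟩ := mem_lift hz
    exact (h w).1 hw
  · intro hz
    obtain ⟨w, rfl, hw⟩ := mem_lift hz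
    exact (h w).2 hw

theorem foundation (x : Ob) (h : ∃ y, M.mem y x) :
    ∃ y, M.mem y x ∧ ∀ z, M.mem z y → ¬ M.mem z x := by
  obtain ⟨y, hy⟩ := h
  have key : ∀ y : U A, y ∈ els x.1 → ∃ y : Ob, M.mem y x ∧ ∀ z, M.mem z y → ¬ M.mem z x := by
    refine ind ?_ ?_
    · intro a ha
      obtain ⟨w, hw, hw'⟩ := mem_lift ha
      refine ⟨w, hw', fun z hz => ?_⟩
      have : z.1 ∈ els w.1 := hz
      rw [hw] at this
      exact absurd this (els_atom _ _)
    · intro ι f ih hf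
      by_cases h : ∃ i, f i ∈ els x.1
      · obtain ⟨i, hi⟩ := h
        exact ih i hi
      · obtain ⟨w, hw, hw'⟩ := mem_lift hf
        refine ⟨w, hw', fun z hz hzx => ?_⟩
        have : z.1 ∈ els w.1 := hz
        rw [hw, mem_els_mk] at this
        obtain ⟨i, hi⟩ := this
        exact h ⟨i, hi ▸ hzx⟩
  exact key y.1 hy

theorem supp (x : Ob) : ∃ E : Set A, E.Finite ∧ ∀ (π : Equiv.Perm A) (hπ : π ∈ Gam),
    (∀ e ∈ E, π e = e) → act (toG π hπ) x = x := by
  obtain ⟨E, hE, hE'⟩ := x.2.1.fs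
  exact ⟨E, hE, fun π hπ h => Subtype.ext (hE' π hπ h)⟩

theorem mem_act' {g : G} {x y : Ob} (hx : act g x = x) (hy : M.mem y x) : M.mem (act g y) x := by
  have h1 := (mem_act g y x).2 hy
  rwa [hx] at h1

theorem pairing (a b : Ob) : ∃ p, M.IsUPair p a b := by
  obtain ⟨E, hE, hE'⟩ := exists_supp {a, b} (Set.toFinite _)
  obtain ⟨x, h1, h2⟩ := exists_set {a, b} inferInstance ⟨E, hE, fun π hπ h y hy => by
    rw [hE' π hπ h y hy]; exact hy⟩ (exists_nodes _ (Set.toFinite _))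
  exact ⟨x, ⟨h1, fun z => (h2 z).trans Iff.rfl⟩⟩

theorem union (x : Ob) : ∃ u, ¬ M.ur u ∧ ∀ z, M.mem z u ↔ ∃ y, M.mem y x ∧ M.mem z y := by
  have h1 := elsO_small x
  have h2 := fun y : elsO x => elsO_small y.1
  obtain ⟨E, hE, hE'⟩ := supp x
  obtain ⟨u, h3, h4⟩ := exists_set (⋃ y : elsO x, elsO y.1) (small_iUnion _)
    ⟨E, hE, fun π hπ h z hz => by
      obtain ⟨y, hy⟩ := Set.mem_iUnion.1 hz
      exact Set.mem_iUnion.2 ⟨⟨act (toG π hπ) y.1, mem_act' (hE' π hπ h) y.2⟩,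
        (mem_act (toG π hπ) z y.1).2 hy⟩⟩
    (x.2.2.mono (by
      intro ν hν
      obtain ⟨z, hz, hz'⟩ := Set.mem_iUnion₂.1 hν
      obtain ⟨y, hy⟩ := Set.mem_iUnion.1 hz
      exact Set.image_mono ((ker_mem (x := y.1) hy).trans (ker_mem y.2)) hz'))
  refine ⟨u, h3, fun z => (h4 z).trans ?_⟩
  rw [Set.mem_iUnion]
  exact ⟨fun ⟨y, hy⟩ => ⟨y.1, y.2, hy⟩, fun ⟨y, hy, hz⟩ => ⟨⟨y, hy⟩, hz⟩⟩

theorem ker_of_elements {x : Ob} (hx : ¬ M.ur x) {a : A} (ha : a ∈ ker x.1) :
    ∃ y, M.mem y x ∧ a ∈ ker y.1 := by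
  rcases cases x.1 with ⟨b, hb⟩ | ⟨ι, f, hf⟩
  · exact absurd ⟨b, hb⟩ hx
  · rw [hf, ker_mk] at ha
    obtain ⟨i, hi⟩ := Set.mem_iUnion.1 ha
    obtain ⟨w, hw, hw'⟩ := mem_lift (x := x) (y := f i) (by rw [hf, mem_els_mk]; exact ⟨i, rfl⟩)
    exact ⟨w, hw', by rw [hw]; exact hi⟩

theorem power (x : Ob) : ∃ p, ¬ M.ur p ∧
    ∀ y, M.mem y p ↔ ¬ M.ur y ∧ ∀ z, M.mem z y → M.mem z x := by
  have h1 := elsO_small x
  let T : Set Ob := {y | ¬ M.ur y ∧ ∀ z, M.mem z y → M.mem z x}
  have hT : Small.{0} T := by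
    refine small_of_injective (β := Set (elsO x)) (f := fun y : T => {z | M.mem z.1 y.1}) ?_
    intro y y' h
    apply Subtype.ext
    refine extensionality _ _ y.2.1 y'.2.1 fun z => ?_
    constructor
    · intro hz
      have h5 : (⟨z, y.2.2 z hz⟩ : elsO x) ∈ {z : elsO x | M.mem z.1 y.1} := hz
      have h : {z : elsO x | M.mem z.1 y.1} = {z : elsO x | M.mem z.1 y'.1} := h
      rw [h] at h5
      exact h5
    · intro hz
      have h5 : (⟨z, y'.2.2 z hz⟩ : elsO x) ∈ {z : elsO x | M.mem z.1 y'.1} := hz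
      have h : {z : elsO x | M.mem z.1 y.1} = {z : elsO x | M.mem z.1 y'.1} := h
      rw [← h] at h5
      exact h5
  obtain ⟨E, hE, hE'⟩ := supp x
  obtain ⟨p, h2, h3⟩ := exists_set T hT ⟨E, hE, fun π hπ h y hy => by
      refine ⟨fun h4 => hy.1 ((ur_act _ _).1 h4), fun z hz => ?_⟩
      have h4 : M.mem (act (toG π hπ)⁻¹ z) y := by
        rw [← mem_act (toG π hπ), act_act_inv]
        exact hz
      have h5 := mem_act' (hE' π hπ h) (hy.2 _ h4)
      rwa [act_act_inv] at h5⟩ (x.2.2.mono (by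
      intro ν hν
      obtain ⟨y, hy, a, ha, rfl⟩ := Set.mem_iUnion₂.1 hν
      obtain ⟨z, hz, hz'⟩ := ker_of_elements hy.1 ha
      exact ⟨a, ker_mem (hy.2 z hz) hz', rfl⟩))
  exact ⟨p, h2, h3⟩

theorem vec1_act (g : G) (a : Ob) : (fun i => act g ((![a] : Fin 1 → Ob) i)) = ![act g a] := by
  funext i
  fin_cases i; rfl

theorem separation (φ : Fm Ob Empty 1) (x : Ob) :
    ∃ y, ¬ M.ur y ∧ ∀ z, M.mem z y ↔ M.mem z x ∧ M.Holds φ ![z] := by
  have h1 := elsO_small x
  obtain ⟨P, hP, hP'⟩ := exists_params φ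
  obtain ⟨E, hE, hE'⟩ := exists_supp (insert x P) (hP.insert x)
  obtain ⟨y, h2, h3⟩ := exists_set (elsO x ∩ {z | M.Holds φ ![z]})
    (small_subset Set.inter_subset_left) ⟨E, hE, fun π hπ h z hz => by
      refine ⟨mem_act' (hE' π hπ h x (Set.mem_insert _ _)) hz.1, ?_⟩
      have h4 := (hP' (toG π hπ) (fun p hp => hE' π hπ h p (Set.mem_insert_of_mem _ hp)) ![z]).2 hz.2
      rw [vec1_act] at h4
      exact h4⟩ (x.2.2.mono (by
      intro ν hν
      obtain ⟨z, hz, hz'⟩ := Set.mem_iUnion₂.1 hν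
      exact Set.image_mono (ker_mem hz.1) hz'))
  exact ⟨y, h2, h3⟩

/-! ### Natural numbers -/

theorem exists_empty : ∃ x : Ob, M.IsEmp x ∧ ker x.1 = ∅ := by
  obtain ⟨x, h1, h2⟩ := exists_set ∅ inferInstance ⟨∅, Set.finite_empty, fun _ _ _ y hy =>
    absurd hy (Set.notMem_empty y)⟩ (by simpa using NW_empty)
  refine ⟨x, ⟨h1, fun z hz => (h2 z).1 hz⟩, ?_⟩
  rw [Set.eq_empty_iff_forall_notMem]
  intro a ha
  obtain ⟨y, hy, _⟩ := ker_of_elements h1 ha
  exact (h2 y).1 hy

theorem exists_succ (x : Ob) : ∃ y : Ob, M.IsSucc y x := by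
  have h1 := elsO_small x
  obtain ⟨E, hE, hE'⟩ := supp x
  obtain ⟨y, h2, h3⟩ := exists_set (elsO x ∪ {x}) (small_union _ _) ⟨E, hE, fun π hπ h z hz => by
      rcases hz with hz | rfl
      · exact Or.inl (mem_act' (hE' π hπ h) hz)
      · exact Or.inr (hE' π hπ h)⟩ (x.2.2.mono (by
      intro ν hν
      obtain ⟨z, hz, hz'⟩ := Set.mem_iUnion₂.1 hν
      rcases hz with hz | rfl
      · exact Set.image_mono (ker_mem hz) hz'
      · exact hz'))
  exact ⟨y, ⟨h2, h3⟩⟩

theorem ker_succ {x y : Ob} (h : M.IsSucc y x) (hx : ker x.1 = ∅) : ker y.1 = ∅ := by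
  rw [Set.eq_empty_iff_forall_notMem]
  intro a ha
  obtain ⟨z, hz, hz'⟩ := ker_of_elements h.1 ha
  rcases (h.2 z).1 hz with h1 | rfl
  · have := ker_mem h1 hz'
    rw [hx] at this
    exact this
  · rw [hx] at hz'
    exact hz'

/-- the natural numbers of the model -/
noncomputable def nat : ℕ → Ob
  | 0 => exists_empty.choose
  | n + 1 => (exists_succ (nat n)).choose

theorem nat_zero : M.IsEmp (nat 0) := exists_empty.choose_spec.1
theorem nat_succ (n : ℕ) : M.IsSucc (nat (n + 1)) (nat n) := (exists_succ (nat n)).choose_spec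
theorem nat_ker (n : ℕ) : ker (nat n).1 = ∅ := by
  induction n with
  | zero => exact exists_empty.choose_spec.2
  | succ n ih => exact ker_succ (nat_succ n) ih

theorem exists_omega : ∃ w : Ob, ¬ M.ur w ∧ (∀ z, M.mem z w ↔ ∃ n, nat n = z) := by
  obtain ⟨w, h1, h2⟩ := exists_set (Set.range nat) inferInstance
    ⟨∅, Set.finite_empty, fun π hπ _ z hz => by
      obtain ⟨n, rfl⟩ := hz
      refine ⟨n, ?_⟩
      rw [act_fix]
      intro a ha
      rw [nat_ker] at ha
      exact absurd ha (Set.notMem_empty a)⟩ (NW_empty.mono (by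
      intro ν hν
      obtain ⟨z, ⟨n, rfl⟩, a, ha, rfl⟩ := Set.mem_iUnion₂.1 hν
      rw [nat_ker] at ha
      exact absurd ha (Set.notMem_empty a)))
  exact ⟨w, h1, h2⟩

theorem isZU : M.IsZU where
  urelements := by
    rintro a x ⟨c, hc⟩ h
    have : x.1 ∈ els a.1 := h
    rw [hc] at this
    exact els_atom _ _ this
  extensionality := extensionality
  foundation := foundation
  pairing a b := pairing a b
  union x _ := union x
  power x _ := power x
  infinity := by
    obtain ⟨w, hw, hw'⟩ := exists_omega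
    refine ⟨w, hw, ⟨nat 0, nat_zero, (hw' _).2 ⟨0, rfl⟩⟩, fun x hx => ?_⟩
    obtain ⟨n, rfl⟩ := (hw' x).1 hx
    exact ⟨nat (n + 1), nat_succ n, (hw' _).2 ⟨n + 1, rfl⟩⟩
  separation φ x _ := separation φ x

end Pool.Agent.V11254.TreeModel
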