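import Mathlib
import Pool.Agent.V11254.TreeModel

/-!
# Replacement and Collection in the tree model
-/

set_option autoImplicit false

namespace Pool.Agent.V11254.TreeModel

open Pool.Agent.V11254.USets Pool.Agent.V11254.ULang Pool.Agent.V11254.TreeU

/-- suffix closure, together with the empty list -/
def scl (N : Set (List L)) : Set (List L) := {μ | μ = [] ∨ ∃ ν ∈ N, μ <:+ ν}

theorem scl_nil (N : Set (List L)) : [] ∈ scl N := Or.inl rfl

theorem scl_suffix {N : Set (List L)} {μ ν : List L} (h : μ <:+ ν) (hν : ν ∈ scl N) :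
    μ ∈ scl N := by
  rcases hν with rfl | ⟨κ, hκ, h1⟩
  · exact Or.inl (List.suffix_nil.1 h)
  · exact Or.inr ⟨κ, hκ, h.trans h1⟩

theorem sub_scl (N : Set (List L)) : N ⊆ scl N := fun ν hν => Or.inr ⟨ν, hν, List.suffix_refl _⟩

theorem scl_NW {N : Set (List L)} (h : NW N) : NW (scl N) := by
  refine (NW_nil.union h).mono' ?_
  rintro ν (rfl | ⟨κ, hκ, h1⟩)
  · exact ⟨[], Or.inl rfl, List.suffix_refl _⟩
  · exact ⟨κ, Or.inr hκ, h1⟩

theorem scl_small {N : Set (List L)} (h : Small.{0} N) : Small.{0} (scl N) := by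
  have h1 : scl N ⊆ {[]} ∪ ⋃ ν : N, {μ | μ <:+ ν.1} := by
    rintro ν (rfl | ⟨κ, hκ, h1⟩)
    · exact Or.inl rfl
    · exact Or.inr (Set.mem_iUnion.2 ⟨⟨κ, hκ⟩, h1⟩)
  have h2 : ∀ ν : N, Small.{0} ({μ | μ <:+ ν.1} : Set (List L)) := fun ν => by
    have : ({μ | μ <:+ ν.1} : Set (List L)).Finite := by
      refine (List.finite_toSet ν.1.tails).subset ?_
      intro μ hμ
      exact List.mem_tails _ _ |>.2 hμ
    have := this.to_subtype
    infer_instance
  have h3 : Small.{0} ↥({[]} ∪ ⋃ ν : N, {μ | μ <:+ ν.1} : Set (List L)) := by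
    have := small_iUnion (fun ν : N => ({μ | μ <:+ ν.1} : Set (List L)))
    exact small_union _ _
  exact small_subset h1

theorem nodes_small (x : Ob) : Small.{0} ↥(node '' ker x.1) := by
  have := ker_small x.1
  exact small_image _ _

/-- an object fixed by all automorphisms fixing the urelements with node in `W` has nodes in `W` -/
theorem nodes_of_fixed {N : Set (List L)} (hN : Small.{0} N) {x : Ob}
    (h : ∀ g : G, (∀ a, node a ∈ scl N → g.1 a = a) → act g x = x) :
    node '' ker x.1 ⊆ scl N := by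
  classical
  rintro _ ⟨a, ha, rfl⟩
  by_contra hne
  obtain ⟨α, μ, h1, h2, h3⟩ := exists_exit (scl_nil N) hne
  have s1 := labs_small (scl_small hN)
  have s2 := labs_small (nodes_small x)
  obtain ⟨β, hβ⟩ := exists_fresh (labs (scl N) ∪ labs (node '' ker x.1)) (small_union _ _)
  let t : List L → Equiv.Perm L := fun ν => if ν = μ then Equiv.swap α β else 1
  have hfix : ∀ a, node a ∈ scl N → relab t a = a := by
    intro a ha
    refine relab_fix t a fun γ ν hν => ?_
    by_cases hνμ : ν = μ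
    · subst hνμ
      have h4 : t ν = Equiv.swap α β := if_pos rfl
      rw [h4, Equiv.swap_apply_of_ne_of_ne]
      · rintro rfl
        exact h3 (scl_suffix hν ha)
      · rintro rfl
        exact hβ (Or.inl (mem_labs ha hν))
    · have h4 : t ν = 1 := if_neg hνμ
      rw [h4]; rfl
  have h5 := h ⟨relab t, relab_mem t⟩ hfix
  have h6 : ker (act ⟨relab t, relab_mem t⟩ x).1 = ker x.1 := by rw [h5]
  have h7 : ker (act ⟨relab t, relab_mem t⟩ x).1 = relab t '' ker x.1 := ker_map _ _
  have h8 : relab t a ∈ ker x.1 := by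
    rw [← h6, h7]
    exact ⟨a, ha, rfl⟩
  have h9 := lift_suffix' t h1
  rw [← node_relab] at h9
  have h10 : liftFun t (α :: μ) = β :: liftFun t μ := by
    show t μ α :: liftFun t μ = _
    have h4 : t μ = Equiv.swap α β := if_pos rfl
    rw [h4, Equiv.swap_apply_left]
  rw [h10] at h9
  exact hβ (Or.inr (mem_labs (N := node '' ker x.1) ⟨_, h8, rfl⟩ h9))

theorem vec_act (g : G) (a b : Ob) :
    (fun i => act g ((![a, b] : Fin 2 → Ob) i)) = ![act g a, act g b] := by
  funext i
  fin_cases i <;> rfl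

theorem params_small (P : Set Ob) (hP : P.Finite) : Small.{0} ↥(⋃ p ∈ P, node '' ker p.1) := by
  have h1 : (⋃ p ∈ P, node '' ker p.1) = ⋃ p : P, node '' ker p.1.1 := by
    ext; simp
  rw [h1]
  have := hP.to_subtype
  have := fun p : P => nodes_small p.1
  exact small_iUnion _

theorem replacement : M.Replacement := by
  intro φ x _ hf
  obtain ⟨P, hP, hP'⟩ := exists_params φ
  have hQ : (insert x P).Finite := hP.insert x
  obtain ⟨E, hE, hE'⟩ := exists_supp (insert x P) hQ
  have h1 := elsO_small x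
  let T : Set Ob := {b | ∃ a, M.mem a x ∧ M.Holds φ ![a, b]}
  have hT : Small.{0} T := by
    let f : elsO x → Ob := fun a => (hf a.1 a.2).choose
    have : T ⊆ Set.range f := by
      rintro b ⟨a, ha, hab⟩
      exact ⟨⟨a, ha⟩, ((hf a ha).choose_spec.2 b hab).symm⟩
    exact small_subset this
  obtain ⟨y, h3, h4⟩ := exists_set T hT ⟨E, hE, fun π hπ h b hb => by
      obtain ⟨a, ha, hab⟩ := hb
      refine ⟨act (toG π hπ) a, mem_act' (hE' π hπ h x (Set.mem_insert _ _)) ha, ?_⟩
      have h5 := (hP' (toG π hπ) (fun p hp => hE' π hπ h p (Set.mem_insert_of_mem _ hp))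
        ![a, b]).2 hab
      rw [vec_act] at h5
      exact h5⟩ ((scl_NW (exists_nodes _ hQ)).mono (by
      refine Set.iUnion₂_subset ?_
      rintro b ⟨a, ha, hab⟩
      refine nodes_of_fixed (params_small _ hQ) fun g hg => ?_
      have hfix : ∀ p ∈ insert x P, act g p = p := fun p hp => act_fix g p fun c hc =>
        hg c (sub_scl _ (Set.mem_biUnion hp ⟨c, hc, rfl⟩))
      have h5 : act g a = a := act_fix g a fun c hc =>
        hg c (sub_scl _ (Set.mem_biUnion (Set.mem_insert x P) ⟨c, ker_mem ha hc, rfl⟩))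
      have h6 := (hP' g (fun p hp => hfix p (Set.mem_insert_of_mem _ hp)) ![a, b]).2 hab
      rw [vec_act, h5] at h6
      exact (hf a ha).unique h6 hab))
  exact ⟨y, h3, h4⟩

/-- urelements with node in a small set form a small set -/
theorem small_nodes {N : Set (List L)} (hN : Small.{0} N) : Small.{0} {b : A | node b ∈ N} := by
  refine small_of_injective (β := ℝ × N × List Bool)
    (f := fun b : {b : A | node b ∈ N} => (b.1.1, ⟨node b.1, b.2⟩, b.1.2.map Prod.snd)) ?_
  rintro ⟨⟨p, l⟩, hb⟩ ⟨⟨q, m⟩, hc⟩ h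
  simp only [Prod.mk.injEq, Subtype.mk.injEq] at h
  obtain ⟨h1, h2, h3⟩ := h
  apply Subtype.ext
  show (p, l) = (q, m)
  congr 1
  have e1 : l = (l.map Prod.fst).zip (l.map Prod.snd) := List.zip_of_prod rfl rfl
  have e2 : m = (m.map Prod.fst).zip (m.map Prod.snd) := List.zip_of_prod rfl rfl
  rw [e1, e2]
  have h2' : l.map Prod.fst = m.map Prod.fst := h2
  rw [h2', h3]

theorem small_orbit (z : Ob) :
    Small.{0} {z' : Ob | ∃ (π : Equiv.Perm A) (hπ : π ∈ Gam), z' = act (toG π hπ) z} := by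
  classical
  have h1 := small_nodes (nodes_small z)
  have h2 := ker_small z.1
  let F : (ker z.1 → {b : A | node b ∈ node '' ker z.1}) → Ob := fun u =>
    if h : ∃ (π : Equiv.Perm A) (_ : π ∈ Gam), ∀ c : ker z.1, π c = u c then
      act (toG h.choose h.choose_spec.choose) z else z
  have h3 : {z' : Ob | ∃ (π : Equiv.Perm A) (hπ : π ∈ Gam), z' = act (toG π hπ) z} ⊆
      Set.range F := by
    rintro _ ⟨π, hπ, rfl⟩
    refine ⟨fun c => ⟨π c, c.1, c.2, (hπ.2 _).symm⟩, ?_⟩
    have h4 : ∃ (σ : Equiv.Perm A) (_ : σ ∈ Gam), ∀ c : ker z.1, σ c = π c := ⟨π, hπ, fun _ => rfl⟩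
    simp only [F]
    rw [dif_pos h4]
    refine Subtype.ext (map_congr' fun a ha => ?_)
    exact h4.choose_spec.choose_spec ⟨a, ha⟩
  exact small_subset h3

theorem nodes_act {π : Equiv.Perm A} (hπ : π ∈ Gam) (z : Ob) :
    node '' ker (act (toG π hπ) z).1 ⊆ node '' ker z.1 := by
  have h7 : ker (act (toG π hπ) z).1 = π '' ker z.1 := ker_map _ _
  rw [h7]
  rintro _ ⟨_, ⟨a, ha, rfl⟩, rfl⟩
  exact ⟨a, ha, (hπ.2 _).symm⟩

theorem collection : M.Collection := by
  classical
  intro φ w _ hw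
  obtain ⟨P, hP, hP'⟩ := exists_params φ
  have hQ : (insert w P).Finite := hP.insert w
  obtain ⟨E, hE, hE'⟩ := exists_supp (insert w P) hQ
  have h1 := elsO_small w
  set N : Set (List L) := ⋃ p ∈ insert w P, node '' ker p.1 with hNdef
  have hNs : Small.{0} N := params_small _ hQ
  have hNW : NW (scl N) := scl_NW (exists_nodes _ hQ)
  choose y hy using fun x : elsO w => hw x.1 x.2
  let Z : Set L := labs (scl N) ∪ ⋃ a : elsO w, labs (node '' ker (y a).1)
  have hZ : Small.{0} Z := by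
    have s1 := labs_small (scl_small hNs)
    have s2 := fun a : elsO w => labs_small (nodes_small (y a))
    have s3 := small_iUnion fun a : elsO w => labs (node '' ker (y a).1)
    exact small_union _ _
  obtain ⟨e, he1, he2⟩ := exists_embedding Z hZ (elsO w × Z) inferInstance
  let f : elsO w → L → L := fun a α => if h : α ∈ Z then e (a, ⟨α, h⟩) else α
  have hf : ∀ a α (h : α ∈ Z), f a α = e (a, ⟨α, h⟩) := fun a α h => dif_pos h
  let D : List L → Set L := fun μ => {α | α ∈ Z ∧ α :: μ ∉ scl N}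
  choose s hs1 hs2 using fun (a : elsO w) (μ : List L) => exchange (D := D μ) (f a)
    (by
      intro α hα β hβ hαβ
      rw [hf a α hα.1, hf a β hβ.1] at hαβ
      have := he1 hαβ
      simpa using this)
    (by
      intro α hα h
      apply he2 (a, ⟨α, hα.1⟩)
      rw [← hf a α hα.1]
      exact h.1)
  let t : elsO w → List L → Equiv.Perm L := fun a μ => if μ ∈ scl N then s a μ else 1
  have ht : ∀ a μ, μ ∈ scl N → t a μ = s a μ := fun a μ h => if_pos h
  have hfix0 : ∀ a (μ : List L) α, α :: μ ∈ scl N → t a μ α = α := by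
    intro a μ α h
    rw [ht a μ (scl_suffix (List.suffix_cons α μ) h)]
    refine hs2 a μ α (fun h2 => h2.2 h) fun d hd h3 => ?_
    apply he2 (a, ⟨d, hd.1⟩)
    rw [← hf a d hd.1, h3]
    exact Or.inl (mem_labs h (List.suffix_refl _))
  have hfix1 : ∀ a μ, μ ∈ scl N → liftFun (t a) μ = μ := by
    intro a μ h
    exact lift_fix _ _ fun α ν hν => hfix0 a ν α (scl_suffix hν h)
  have hfix2 : ∀ a c, node c ∈ scl N → relab (t a) c = c := by
    intro a c h
    exact relab_fix _ _ fun α ν hν => hfix0 a ν α (scl_suffix hν h)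
  let g : elsO w → G := fun a => ⟨relab (t a), relab_mem _⟩
  have hg : ∀ a, ∀ p ∈ insert w P, act (g a) p = p := by
    intro a p hp
    exact act_fix _ _ fun c hc => hfix2 a c (sub_scl _ (Set.mem_biUnion hp ⟨c, hc, rfl⟩))
  have hga : ∀ a, act (g a) a.1 = a.1 := by
    intro a
    exact act_fix _ _ fun c hc => hfix2 a c (sub_scl _ (Set.mem_biUnion (Set.mem_insert w P)
      ⟨c, ker_mem a.2 hc, rfl⟩))
  have hφ : ∀ a, M.Holds φ ![a.1, act (g a) (y a)] := by
    intro a
    have h6 := (hP' (g a) (fun p hp => hg a p (Set.mem_insert_of_mem _ hp)) ![a.1, y a]).2 (hy a)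
    rw [vec_act, hga] at h6
    exact h6
  let T : Set Ob := {z | ∃ (a : elsO w) (π : Equiv.Perm A) (hπ : π ∈ Gam), (∀ e ∈ E, π e = e) ∧
    z = act (toG π hπ) (act (g a) (y a))}
  have hT : Small.{0} T := by
    have s1 := fun a : elsO w => small_orbit (act (g a) (y a))
    have s2 := small_iUnion fun a : elsO w => {z' : Ob | ∃ (π : Equiv.Perm A) (hπ : π ∈ Gam),
      z' = act (toG π hπ) (act (g a) (y a))}
    have s4 : T ⊆ ⋃ a : elsO w, {z' : Ob | ∃ (π : Equiv.Perm A) (hπ : π ∈ Gam),
        z' = act (toG π hπ) (act (g a) (y a))} := by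
      rintro z ⟨a, π, hπ, _, rfl⟩
      exact Set.mem_iUnion.2 ⟨a, π, hπ, rfl⟩
    exact small_subset s4
  -- the nodes are well-founded
  have hV : NW (⋃ z ∈ T, node '' ker z.1) := by
    refine NW.mono (N' := ⋃ a : elsO w, node '' ker (act (g a) (y a)).1) ?_ ?_
    · intro u hu hc
      by_cases hall : ∀ n, u n ∈ scl N
      · exact hNW u (fun n => ⟨u n, hall n, List.suffix_refl _⟩) hc
      push Not at hall
      obtain ⟨n0, hn0⟩ := hall
      obtain ⟨α, μ, x1, x2, x3⟩ := exists_exit (scl_nil N) hn0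
      have claim : ∀ (a : elsO w) (c : A), c ∈ ker (act (g a) (y a)).1 → α :: μ <:+ node c →
          ∃ γ, ∃ hγ : γ ∈ Z, α = e (a, ⟨γ, hγ⟩) := by
        intro a c hc1 hc2
        have k1 : ker (act (g a) (y a)).1 = relab (t a) '' ker (y a).1 := ker_map _ _
        rw [k1] at hc1
        obtain ⟨c', hc', rfl⟩ := hc1
        rw [node_relab] at hc2
        obtain ⟨l', hl1, hl2⟩ := lift_suffix _ hc2
        cases l' with
        | nil => simp [liftFun] at hl2
        | cons γ ν =>
          simp only [liftFun, List.cons.injEq] at hl2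
          obtain ⟨k2, k3⟩ := hl2
          have k4 : ν = μ := by
            apply liftFun_inj (t a)
            rw [hfix1 a μ x2]
            exact k3.symm
          subst k4
          have k5 : γ ∈ Z := Or.inr (Set.mem_iUnion.2
            ⟨a, mem_labs (N := node '' ker (y a).1) ⟨c', hc', rfl⟩ hl1⟩)
          have k6 : γ :: ν ∉ scl N := by
            intro k7
            rw [hfix0 a ν γ k7] at k2
            rw [k2] at x3
            exact x3 k7
          refine ⟨γ, k5, ?_⟩
          rw [k2, ht a ν x2, hs1 a ν γ ⟨k5, k6⟩, hf a γ k5]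
      obtain ⟨_, hν, h5⟩ := hu n0
      obtain ⟨a0, c0, hc0, rfl⟩ := Set.mem_iUnion.1 hν
      obtain ⟨γ0, hγ0, h6⟩ := claim a0 c0 hc0 (x1.trans h5)
      refine (act (g a0) (y a0)).2.2 u (fun m => ?_) hc
      obtain ⟨_, hν', h7⟩ := hu (max m n0)
      obtain ⟨a', c', hc', rfl⟩ := Set.mem_iUnion.1 hν'
      obtain ⟨γ', hγ', h8⟩ := claim a' c' hc'
        (x1.trans ((chain_le hc (le_max_right m n0)).trans h7))
      have h9 : a' = a0 := by
        rw [h6] at h8
        have := he1 h8
        simp only [Prod.mk.injEq] at this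
        exact this.1.symm
      subst h9
      exact ⟨node c', ⟨c', hc', rfl⟩, (chain_le hc (le_max_left m n0)).trans h7⟩
    · refine Set.iUnion₂_subset ?_
      rintro z ⟨a, π, hπ, _, rfl⟩
      exact (nodes_act hπ _).trans (Set.subset_iUnion (fun a => node '' ker (act (g a) (y a)).1) a)
  obtain ⟨v, h3, h4⟩ := exists_set T hT ⟨E, hE, fun π hπ h z hz => by
      obtain ⟨a, σ, hσ, h5, rfl⟩ := hz
      refine ⟨a, π * σ, Gam.mul_mem hπ hσ, fun e he => ?_, ?_⟩
      · rw [Equiv.Perm.mul_apply, h5 e he, h e he]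
      · rw [← act_mul]; rfl⟩ hV
  refine ⟨v, h3, fun a ha => ⟨act (g ⟨a, ha⟩) (y ⟨a, ha⟩), (h4 _).2 ⟨⟨a, ha⟩, 1, Gam.one_mem,
    fun _ _ => rfl, ?_⟩, hφ ⟨a, ha⟩⟩⟩
  exact (act_one _).symm

theorem isZFUR : M.IsZFUR := ⟨isZU, replacement⟩

end Pool.Agent.V11254.TreeModel
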