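import Mathlib
import Pool.Agent.V11254.ULang

/-!
# First-order reflection for set theory with urelements
-/

set_option autoImplicit false

namespace Pool.Agent.V11254.ULang

universe u v w

/-- Satisfaction in `M` of the relativization of a formula to the class `B`: all quantifiers are
restricted to the objects satisfying `B`. -/
def SatB (M : Str.{w}) {α : Type u} {β : Type v} (c : α → M.Ob) (d : β → M.Ob → Prop)
    (B : M.Ob → Prop) : ∀ {n : ℕ}, Fm α β n → (Fin n → M.Ob) → Prop
  | _, .mem s t, x => M.mem (s.val c x) (t.val c x)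
  | _, .eq s t, x => s.val c x = t.val c x
  | _, .ur s, x => M.ur (s.val c x)
  | _, .cls s C, x => d C (s.val c x)
  | _, .bot, _ => False
  | _, .imp φ ψ, x => SatB M c d B φ x → SatB M c d B ψ x
  | _, .all φ, x => ∀ y : M.Ob, B y → SatB M c d B φ (Fin.cons y x)

namespace Str

variable (M : Str.{u})

/-- truth of a formula without parameters -/
def True' {n : ℕ} (φ : Fm Empty Empty n) (x : Fin n → M.Ob) : Prop :=
  Sat M (fun e : Empty => e.elim) (fun e : Empty => e.elim) φ x

/-- truth of `φ^t`, the formula `φ` with all quantifiers bounded by `t` -/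
def TrueIn (t : M.Ob) {n : ℕ} (φ : Fm Empty Empty n) (x : Fin n → M.Ob) : Prop :=
  SatB M (fun e : Empty => e.elim) (fun e : Empty => e.elim) (fun y => M.mem y t) φ x

/-- `t` is a transitive set -/
def IsTrans (t : M.Ob) : Prop := ¬ M.ur t ∧ ∀ x, M.mem x t → ∀ y, M.mem y x → M.mem y t

/-- The scheme RP. -/
def RP : Prop := ∀ (n : ℕ) (φ : Fm Empty Empty n) (s : M.Ob), ¬ M.ur s →
  ∃ t, M.IsTrans t ∧ (∀ z, M.mem z s → M.mem z t) ∧
    ∀ x : Fin n → M.Ob, (∀ i, M.mem (x i) t) → (M.True' φ x ↔ M.TrueIn t φ x)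

/-- The scheme RP⁻. -/
def RPMinus : Prop := ∀ (n : ℕ) (φ : Fm Empty Empty n) (x : Fin n → M.Ob), M.True' φ x →
  ∃ t, M.IsTrans t ∧ (∀ i, M.mem (x i) t) ∧ M.TrueIn t φ x

end Str

section

variable {α : Type u} {β : Type v} {n : ℕ}
variable (M : Str.{w}) (c : α → M.Ob) (d : β → M.Ob → Prop) (B : M.Ob → Prop) (x : Fin n → M.Ob)

theorem satB_true : ∀ {n : ℕ} (φ : Fm α β n) (x : Fin n → M.Ob),
    SatB M c d (fun _ => True) φ x ↔ Sat M c d φ x
  | _, .mem _ _, _ => Iff.rfl
  | _, .eq _ _, _ => Iff.rfl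
  | _, .ur _, _ => Iff.rfl
  | _, .cls _ _, _ => Iff.rfl
  | _, .bot, _ => Iff.rfl
  | _, .imp φ ψ, x => by
    show (SatB M c d _ φ x → SatB M c d _ ψ x) ↔ (Sat M c d φ x → Sat M c d ψ x)
    rw [satB_true φ, satB_true ψ]
  | _, .all φ, x => by
    show (∀ y : M.Ob, True → SatB M c d _ φ (Fin.cons y x)) ↔ ∀ y : M.Ob, Sat M c d φ (Fin.cons y x)
    exact forall_congr' fun y => by rw [satB_true φ]; simp

theorem satB_mem (s t : Tm α n) :
    SatB M c d B (.mem s t : Fm α β n) x ↔ M.mem (s.val c x) (t.val c x) := Iff.rfl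
theorem satB_eq (s t : Tm α n) :
    SatB M c d B (.eq s t : Fm α β n) x ↔ s.val c x = t.val c x := Iff.rfl
theorem satB_ur (s : Tm α n) :
    SatB M c d B (.ur s : Fm α β n) x ↔ M.ur (s.val c x) := Iff.rfl
theorem satB_bot : SatB M c d B (.bot : Fm α β n) x ↔ False := Iff.rfl
theorem satB_imp (φ ψ : Fm α β n) :
    SatB M c d B (.imp φ ψ) x ↔ (SatB M c d B φ x → SatB M c d B ψ x) := Iff.rfl
theorem satB_all (φ : Fm α β (n + 1)) :
    SatB M c d B (.all φ) x ↔ ∀ y : M.Ob, B y → SatB M c d B φ (Fin.cons y x) := Iff.rfl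
theorem satB_not (φ : Fm α β n) : SatB M c d B (.not φ) x ↔ ¬ SatB M c d B φ x := Iff.rfl
theorem satB_and (φ ψ : Fm α β n) :
    SatB M c d B (.and φ ψ) x ↔ (SatB M c d B φ x ∧ SatB M c d B ψ x) := by
  simp only [Fm.and, satB_imp, satB_not]; tauto
theorem satB_ex (φ : Fm α β (n + 1)) :
    SatB M c d B (.ex φ) x ↔ ∃ y : M.Ob, B y ∧ SatB M c d B φ (Fin.cons y x) := by
  simp only [Fm.ex, satB_all, satB_not, not_forall, not_not, exists_prop]

end

theorem cons_two {X : Type w} {n : ℕ} (y z v : X) (x : Fin n → X) :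
    (Fin.cons y (Fin.cons z (Fin.cons v x : Fin (n + 1) → X) : Fin (n + 2) → X) :
      Fin (n + 3) → X) 2 = v := rfl

/-! ### The branching formula -/

namespace Branch

section

variable {n : ℕ}

/-- `x` is a set of urelements -/
def setUr (x : Tm Empty n) : Fm Empty Empty n :=
  .and (.not (.ur x)) (.all (.imp (.mem (.var 0) x.up) (.ur (.var 0))))

/-- some element of `h` contains both `q` and `r` -/
def edge (h q r : Tm Empty n) : Fm Empty Empty n :=
  .ex (.and (.mem (.var 0) h.up) (.and (.mem q.up (.var 0)) (.mem r.up (.var 0))))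

/-- every element of `x` is joined to two elements of `y` -/
def two (x y h : Tm Empty n) : Fm Empty Empty n :=
  .all (.imp (.mem (.var 0) x.up) (.ex (.ex (.and (.mem (.var 1) y.up.up.up)
    (.and (.mem (.var 0) y.up.up.up) (.and (.not (.eq (.var 1) (.var 0)))
      (.and (edge h.up.up.up (.var 2) (.var 1)) (edge h.up.up.up (.var 2) (.var 0)))))))))

/-- every element of `y` is joined to at most one element of `x` -/
def uniq (x y h : Tm Empty n) : Fm Empty Empty n :=
  .all (.all (.all (.imp (.mem (.var 2) y.up.up.up) (.imp (.mem (.var 1) x.up.up.up)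
    (.imp (.mem (.var 0) x.up.up.up) (.imp (edge h.up.up.up (.var 1) (.var 2))
      (.imp (edge h.up.up.up (.var 0) (.var 2)) (.eq (.var 1) (.var 0)))))))))

/-- for every set `x` of urelements there are a set `y` of urelements and a set `h` such that every
element of `x` is joined to two elements of `y` and every element of `y` is joined to at most one
element of `x` -/
def branch : Fm Empty Empty n :=
  .all (.imp (setUr (.var 0)) (.ex (.ex (.and (setUr (.var 1))
    (.and (two (.var 2) (.var 1) (.var 0)) (uniq (.var 2) (.var 1) (.var 0)))))))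

end

variable (M : Str.{w}) (B : M.Ob → Prop)

/-- meaning of `setUr` -/
def SetUr (x : M.Ob) : Prop := ¬ M.ur x ∧ ∀ z, B z → M.mem z x → M.ur z

/-- meaning of `edge` -/
def Edge (h q r : M.Ob) : Prop := ∃ z, B z ∧ M.mem z h ∧ M.mem q z ∧ M.mem r z

/-- meaning of `branch` -/
def Branching : Prop := ∀ x, B x → SetUr M B x → ∃ y, B y ∧ ∃ h, B h ∧ SetUr M B y ∧
  (∀ q, B q → M.mem q x → ∃ r, B r ∧ ∃ r', B r' ∧ M.mem r y ∧ M.mem r' y ∧ ¬ r = r' ∧
    Edge M B h q r ∧ Edge M B h q r') ∧
  ∀ r, B r → ∀ q, B q → ∀ q', B q' → M.mem r y → M.mem q x → M.mem q' x →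
    Edge M B h q r → Edge M B h q' r → q = q'

variable {n : ℕ} (c : Empty → M.Ob) (d : Empty → M.Ob → Prop) (x : Fin n → M.Ob)

theorem sat_setUr (s : Tm Empty n) : SatB M c d B (setUr s) x ↔ SetUr M B (s.val c x) := by
  simp only [setUr, SetUr, satB_and, satB_not, satB_ur, satB_all, satB_imp, satB_mem, Tm.val_var,
    Tm.val_up, Fin.cons_zero]

theorem sat_edge (h q r : Tm Empty n) : SatB M c d B (edge h q r) x ↔
    Edge M B (h.val c x) (q.val c x) (r.val c x) := by
  simp only [edge, Edge, satB_and, satB_ex, satB_mem, Tm.val_var, Tm.val_up, Fin.cons_zero]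

theorem sat_branch : SatB M c d B (branch : Fm Empty Empty n) x ↔ Branching M B := by
  simp only [branch, Branching, two, uniq, satB_and, satB_ex, satB_mem, satB_all, satB_imp,
    satB_not, satB_eq, sat_setUr, sat_edge, Tm.val_var, Tm.val_up, Fin.cons_zero, cons_one,
    cons_two]

end Branch

end Pool.Agent.V11254.ULang
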