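import Mathlib
import Pool.Agent.V11254.TreeColl
import Pool.Agent.V11254.URefl

/-!
# Reflection fails in the tree model
-/

set_option autoImplicit false

namespace Pool.Agent.V11254.TreeModel

open Pool.Agent.V11254.USets Pool.Agent.V11254.ULang Pool.Agent.V11254.TreeU
open Pool.Agent.V11254.ULang.Branch

theorem NW_single (ν : List L) : NW {ν} := by
  intro f hf hc
  have h1 : ∀ n, n ≤ (f n).length := by
    intro n
    induction n with
    | zero => exact Nat.zero_le _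
    | succ n ih =>
      have h2 := (hc n).1.length_le
      rcases Nat.lt_or_ge (f n).length (f (n + 1)).length with h3 | h3
      · omega
      · exact absurd ((hc n).1.eq_of_length (le_antisymm h2 h3)) (hc n).2
  obtain ⟨μ, hμ, h2⟩ := hf (ν.length + 1)
  rw [Set.mem_singleton_iff.1 hμ] at h2
  have := h1 (ν.length + 1)
  have := h2.length_le
  omega

theorem NW_cons {N : Set (List L)} (h : NW N) (α : L) : NW (List.cons α '' N) := by
  intro f hf hc
  refine h f (fun n => ?_) hc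
  obtain ⟨_, ⟨ν, hν, rfl⟩, h1⟩ := hf (n + 1)
  rcases List.suffix_cons_iff.1 h1 with h2 | h2
  · have h3 := (hc n).1
    rw [h2] at h3
    rcases List.suffix_cons_iff.1 h3 with h4 | h4
    · exact absurd (h4.trans h2.symm) (hc n).2
    · exact ⟨ν, hν, h4⟩
  · exact ⟨ν, hν, (hc n).1.trans h2⟩

/-- urelements as objects -/
def atomO (a : A) : Ob := ⟨atom a, by
  intro y hy
  rcases Relation.ReflTransGen.cases_tail_iff _ _ _ |>.1 hy with h | ⟨z, _, hz'⟩
  · rw [← h]
    exact ⟨{a}, Set.finite_singleton a, fun π _ h => by rw [map_atom, h a rfl]⟩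
  · exact absurd hz' (els_atom _ _), by
  rw [ker_atom, Set.image_singleton]
  exact NW_single _⟩

theorem ker_atomO (a : A) : ker (atomO a).1 = {a} := rfl

theorem act_atomO (g : G) (a : A) : act g (atomO a) = atomO (g.1 a) := Subtype.ext (map_atom _ _)

theorem atomO_inj {a b : A} (h : atomO a = atomO b) : a = b :=
  atom_inj (congrArg Subtype.val h)

theorem ur_iff (x : Ob) : M.ur x ↔ ∃ a, x = atomO a :=
  ⟨fun ⟨a, ha⟩ => ⟨a, Subtype.ext ha⟩, fun ⟨a, ha⟩ => ⟨a, congrArg Subtype.val ha⟩⟩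

theorem ur_atomO (a : A) : M.ur (atomO a) := ⟨a, rfl⟩

theorem mem_ker_of_mem {x : Ob} {a : A} (h : M.mem (atomO a) x) : a ∈ ker x.1 :=
  ker_mem h rfl

/-- the set of all roots -/
theorem exists_S : ∃ S : Ob, ¬ M.ur S ∧ ∀ z, M.mem z S ↔ ∃ p : ℝ, z = atomO (p, []) := by
  have hN : (⋃ y ∈ (Set.range fun p : ℝ => atomO (p, [])), node '' ker y.1) ⊆ {[]} := by
    refine Set.iUnion₂_subset ?_
    rintro _ ⟨p, rfl⟩ _ ⟨a, ha, rfl⟩
    rw [ker_atomO] at ha
    rw [Set.mem_singleton_iff.1 ha]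
    rfl
  obtain ⟨S, h1, h2⟩ := exists_set (Set.range fun p : ℝ => atomO (p, [])) inferInstance
    ⟨∅, Set.finite_empty, fun π hπ _ y hy => by
      obtain ⟨p, rfl⟩ := hy
      refine ⟨(π (p, [])).1, ?_⟩
      show atomO _ = act _ (atomO _)
      rw [act_atomO]
      congr 1
      have h3 := hπ.2 (p, [])
      have h4 : (π (p, [])).2 = [] := by
        have : (π (p, [])).2.map Prod.fst = [] := h3
        exact List.map_eq_nil_iff.1 this
      exact Prod.ext rfl h4.symm⟩ ((NW_nil).mono hN)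
  refine ⟨S, h1, fun z => (h2 z).trans ⟨?_, ?_⟩⟩
  · rintro ⟨p, rfl⟩
    exact ⟨p, rfl⟩
  · rintro ⟨p, rfl⟩
    exact ⟨p, rfl⟩

theorem upair_act (g : G) {p a b : Ob} (h : M.IsUPair p a b) :
    M.IsUPair (act g p) (act g a) (act g b) := by
  refine ⟨fun h1 => h.1 ((ur_act g p).1 h1), fun z => ?_⟩
  have h1 : z = act g (act g⁻¹ z) := (act_act_inv g z).symm
  rw [h1, mem_act, h.2]
  constructor
  · rintro (h2 | h2)
    · left; rw [h2]
    · right; rw [h2]
  · rintro (h2 | h2)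
    · left; exact act_inj g h2
    · right; exact act_inj g h2

theorem upair_unique {p q a b : Ob} (hp : M.IsUPair p a b) (hq : M.IsUPair q a b) : p = q :=
  extensionality _ _ hp.1 hq.1 fun z => by rw [hp.2, hq.2]

theorem node_cons (p : ℝ) (α : L) (b : Bool) (l : List (L × Bool)) :
    node (p, (α, b) :: l) = α :: node (p, l) := rfl

/-- the branching formula is true -/
theorem branching : Branching M (fun _ => True) := by
  intro x _ hx
  obtain ⟨α, hα⟩ := exists_fresh _ (labs_small (nodes_small x))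
  have hx' : ∀ z, M.mem z x → M.ur z := fun z hz => hx.2 z trivial hz
  have fresh : ∀ a, M.mem (atomO a) x → ∀ b l, a.2 ≠ (α, b) :: l := by
    intro a ha b l h
    apply hα
    refine mem_labs (N := node '' ker x.1) ⟨a, mem_ker_of_mem ha, rfl⟩ (α := α)
      (μ := l.map Prod.fst) ?_
    show _ <:+ a.2.map Prod.fst
    rw [h]
    exact List.suffix_refl _
  obtain ⟨E, hE, hE'⟩ := supp x
  let Y : Set A := {a | (∃ b l, a.2 = (α, b) :: l) ∧ M.mem (atomO (par a)) x}
  have hYn : node '' Y ⊆ List.cons α '' (node '' ker x.1) := by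
    rintro _ ⟨⟨p, m⟩, ⟨⟨b, l, rfl⟩, ha⟩, rfl⟩
    exact ⟨node (p, l), ⟨(p, l), mem_ker_of_mem ha, rfl⟩, rfl⟩
  have hYs : Small.{0} Y := by
    have s1 := nodes_small x
    have s2 : Small.{0} ↥(List.cons α '' (node '' ker x.1)) := small_image _ _
    have s3 := small_nodes s2
    have s4 : Y ⊆ {b : A | node b ∈ List.cons α '' (node '' ker x.1)} :=
      fun a ha => hYn ⟨a, ha, rfl⟩
    exact small_subset s4
  have hYπ : ∀ (π : Equiv.Perm A) (hπ : π ∈ Gam), (∀ e ∈ E, π e = e) → ∀ a ∈ Y, π a ∈ Y := by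
    intro π hπ h a ha
    obtain ⟨⟨b, l, h1⟩, h2⟩ := ha
    refine ⟨?_, ?_⟩
    · have h3 : (π a).2.map Prod.fst = a.2.map Prod.fst := hπ.2 a
      rw [h1] at h3
      rcases h4 : (π a).2 with _ | ⟨⟨β, c⟩, m⟩
      · rw [h4] at h3
        simp at h3
      · rw [h4] at h3
        simp only [List.map_cons, List.cons.injEq] at h3
        exact ⟨c, m, by rw [h3.1]⟩
    · rw [hπ.1 a]
      have h5 := mem_act' (hE' π hπ h) h2
      rwa [act_atomO] at h5
  have hNW := NW_cons x.2.2 α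
  obtain ⟨y, hy1, hy2⟩ := exists_set (atomO '' Y) (small_image _ _) ⟨E, hE, fun π hπ h z hz => by
      obtain ⟨a, ha, rfl⟩ := hz
      exact ⟨π a, hYπ π hπ h a ha, (act_atomO (toG π hπ) a).symm⟩⟩ (hNW.mono (by
      refine Set.iUnion₂_subset ?_
      rintro _ ⟨a, ha, rfl⟩
      rw [ker_atomO, Set.image_singleton]
      rintro _ rfl
      exact hYn ⟨a, ha, rfl⟩))
  choose pr hpr using pairing
  obtain ⟨h, hh1, hh2⟩ := exists_set ((fun a => pr (atomO (par a)) (atomO a)) '' Y)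
    (small_image _ _) ⟨E, hE, fun π hπ h z hz => by
      obtain ⟨a, ha, rfl⟩ := hz
      refine ⟨π a, hYπ π hπ h a ha, ?_⟩
      refine upair_unique (hpr _ _) ?_
      have h6 := upair_act (toG π hπ) (hpr (atomO (par a)) (atomO a))
      rw [act_atomO, act_atomO] at h6
      have h7 : (toG π hπ).1 (par a) = par (π a) := (hπ.1 a).symm
      rw [h7] at h6
      exact h6⟩ ((x.2.2.union hNW).mono (by
      refine Set.iUnion₂_subset ?_
      rintro _ ⟨a, ha, rfl⟩ _ ⟨c, hc, rfl⟩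
      obtain ⟨u, hu, hcu⟩ := ker_of_elements (hpr (atomO (par a)) (atomO a)).1 hc
      rcases ((hpr _ _).2 u).1 hu with rfl | rfl
      · rw [ker_atomO] at hcu
        rw [Set.mem_singleton_iff.1 hcu]
        exact Or.inl ⟨_, mem_ker_of_mem ha.2, rfl⟩
      · rw [ker_atomO] at hcu
        rw [Set.mem_singleton_iff.1 hcu]
        exact Or.inr (hYn ⟨a, ha, rfl⟩)))
  refine ⟨y, trivial, h, trivial, ⟨hy1, fun z _ hz => ?_⟩, fun q _ hq => ?_, ?_⟩
  · obtain ⟨a, _, rfl⟩ := (hy2 z).1 hz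
    exact ur_atomO a
  · obtain ⟨c, rfl⟩ := (ur_iff q).1 (hx' q hq)
    have hY : ∀ b, ((c.1, (α, b) :: c.2) : A) ∈ Y := fun b => ⟨⟨b, c.2, rfl⟩, hq⟩
    refine ⟨atomO (c.1, (α, true) :: c.2), trivial, atomO (c.1, (α, false) :: c.2), trivial,
      (hy2 _).2 ⟨_, hY _, rfl⟩, (hy2 _).2 ⟨_, hY _, rfl⟩, fun h1 => ?_, ?_, ?_⟩
    · have h2 := atomO_inj h1
      simp at h2
    · exact ⟨_, trivial, (hh2 _).2 ⟨_, hY true, rfl⟩, ((hpr _ _).2 _).2 (Or.inl rfl),
        ((hpr _ _).2 _).2 (Or.inr rfl)⟩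
    · exact ⟨_, trivial, (hh2 _).2 ⟨_, hY false, rfl⟩, ((hpr _ _).2 _).2 (Or.inl rfl),
        ((hpr _ _).2 _).2 (Or.inr rfl)⟩
  · intro r _ q _ q' _ hr hq hq' he he'
    have key : ∀ q, M.mem q x → Edge M (fun _ => True) h q r → ∃ a ∈ Y, q = atomO (par a) ∧
        r = atomO a := by
      rintro q hq ⟨z, _, hz, hqz, hrz⟩
      obtain ⟨a, ha, rfl⟩ := (hh2 z).1 hz
      refine ⟨a, ha, ?_, ?_⟩
      · rcases ((hpr _ _).2 _).1 hqz with h1 | h1
        · exact h1
        · exfalso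
          obtain ⟨b, l, h2⟩ := ha.1
          rw [h1] at hq
          exact fresh a hq b l h2
      · rcases ((hpr _ _).2 _).1 hrz with h1 | h1
        · exfalso
          obtain ⟨a', ⟨⟨b, l, h2⟩, _⟩, h3⟩ := (hy2 r).1 hr
          rw [← h3] at h1
          have h4 := atomO_inj h1
          rw [h4] at h2
          exact fresh _ ha.2 b l h2
        · exact h1
    obtain ⟨a, _, h1, h2⟩ := key q hq he
    obtain ⟨a', _, h3, h4⟩ := key q' hq' he'
    rw [h2] at h4
    rw [h1, h3, atomO_inj h4]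

theorem finite_bits (p : ℝ) (ν : List L) : {b : A | b.1 = p ∧ node b = ν}.Finite := by
  have h1 : {l : List Bool | l.length = ν.length}.Finite := List.finite_length_eq _ _
  refine Set.Finite.of_finite_image (f := fun b : A => b.2.map Prod.snd) (h1.subset ?_) ?_
  · rintro _ ⟨b, ⟨_, hb⟩, rfl⟩
    show (b.2.map Prod.snd).length = ν.length
    rw [← hb]
    simp [node]
  · rintro ⟨q, l⟩ ⟨hb1, hb2⟩ ⟨q', m⟩ ⟨hc1, hc2⟩ h
    simp only at hb1 hc1 h
    congr 1
    · rw [hb1, hc1]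
    · have e1 : l = (l.map Prod.fst).zip (l.map Prod.snd) := List.zip_of_prod rfl rfl
      have e2 : m = (m.map Prod.fst).zip (m.map Prod.snd) := List.zip_of_prod rfl rfl
      have hb3 : l.map Prod.fst = ν := hb2
      have hc3 : m.map Prod.fst = ν := hc2
      rw [e1, e2, hb3, hc3, h]

/-- no transitive set containing the set of all roots satisfies the branching formula -/
theorem not_branching {S t : Ob} (hS : ∀ z, M.mem z S ↔ ∃ p : ℝ, z = atomO (p, []))
    (hSu : ¬ M.ur S) (ht : M.IsTrans t) (hSt : M.mem S t) :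
    ¬ Branching M (fun y => M.mem y t) := by
  intro hB
  let X : Type 1 := {x : Ob // M.mem x t ∧ ¬ M.ur x ∧ ∀ z, M.mem z x → M.ur z}
  have step : ∀ x : X, ∃ y : X, ∃ h : Ob,
      (∀ q, M.mem q x.1 → ∃ r r', M.mem r y.1 ∧ M.mem r' y.1 ∧ r ≠ r' ∧
        (∃ z, M.mem z h ∧ M.mem q z ∧ M.mem r z) ∧ ∃ z, M.mem z h ∧ M.mem q z ∧ M.mem r' z) ∧
      ∀ r q q', M.mem r y.1 → M.mem q x.1 → M.mem q' x.1 →
        (∃ z, M.mem z h ∧ M.mem q z ∧ M.mem r z) → (∃ z, M.mem z h ∧ M.mem q' z ∧ M.mem r z) →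
        q = q' := by
    rintro ⟨x, hxt, hx, hxu⟩
    obtain ⟨y, hyt, h, hht, hy, h1, h2⟩ := hB x hxt ⟨hx, fun z _ hz => hxu z hz⟩
    refine ⟨⟨y, hyt, hy.1, fun z hz => hy.2 z (ht.2 y hyt z hz) hz⟩, h, fun q hq => ?_, ?_⟩
    · obtain ⟨r, _, r', _, h3, h4, h5, ⟨z, _, h6⟩, z', _, h7⟩ := h1 q (ht.2 x hxt q hq) hq
      exact ⟨r, r', h3, h4, h5, ⟨z, h6⟩, z', h7⟩
    · rintro r q q' hr hq hq' ⟨z, hz⟩ ⟨z', hz'⟩
      exact h2 r (ht.2 y hyt r hr) q (ht.2 x hxt q hq) q' (ht.2 x hxt q' hq') hr hq hq'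
        ⟨z, ht.2 h hht z hz.1, hz⟩ ⟨z', ht.2 h hht z' hz'.1, hz'⟩
  choose Y H hH1 hH2 using step
  let xs : ℕ → X := fun n => Nat.rec ⟨S, hSt, hSu, fun z hz => by
    obtain ⟨p, rfl⟩ := (hS z).1 hz
    exact ur_atomO _⟩ (fun _ x => Y x) n
  have hxs : ∀ n, xs (n + 1) = Y (xs n) := fun n => rfl
  let hs : ℕ → Ob := fun n => H (xs n)
  choose E hE hE' using fun n => exists_supp {(xs n).1, hs n} (Set.toFinite _)
  obtain ⟨p, hp⟩ : ∃ p : ℝ, p ∉ ⋃ n, Prod.fst '' E n := by
    by_contra h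
    push Not at h
    have h1 : (⋃ n, Prod.fst '' E n : Set ℝ).Countable :=
      Set.countable_iUnion fun n => ((hE n).image _).countable
    rw [Set.eq_univ_of_forall h] at h1
    exact Cardinal.not_countable_real h1
  have hp' : ∀ n, ∀ e ∈ E n, e.1 ≠ p := fun n e he h =>
    hp (Set.mem_iUnion.2 ⟨n, e, he, h⟩)
  -- the basic lemma on definability
  have lemA : ∀ n a r, a.1 = p → M.mem (atomO a) (xs n).1 → M.mem r (xs (n + 1)).1 →
      (∃ z, M.mem z (hs n) ∧ M.mem (atomO a) z ∧ M.mem r z) →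
      ∃ b : A, r = atomO b ∧ b.1 = p ∧ node a <:+ node b := by
    intro n a r ha hax hrx hedge
    obtain ⟨b, rfl⟩ := (ur_iff r).1 ((xs (n + 1)).2.2.2 r hrx)
    have hfix : ∀ (π : Equiv.Perm A) (hπ : π ∈ Gam), (∀ e ∈ E n, π e = e) → π b = b →
        π a = a := by
      intro π hπ h hb
      have h1 := hE' n π hπ h (xs n).1 (Or.inl rfl)
      have h2 := hE' n π hπ h (hs n) (Or.inr rfl)
      have h3 := mem_act' h1 hax
      obtain ⟨z, hz1, hz2, hz3⟩ := hedge
      have h4 := mem_act' h2 hz1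
      have h5 := (mem_act (toG π hπ) _ _).2 hz2
      have h6 := (mem_act (toG π hπ) _ _).2 hz3
      have h7 : act (toG π hπ) (atomO b) = atomO b := by
        rw [act_atomO]
        exact congrArg atomO hb
      rw [h7] at h6
      have h8 := hH2 (xs n) (atomO b) _ _ hrx hax h3 ⟨z, hz1, hz2, hz3⟩ ⟨_, h4, h5, h6⟩
      rw [act_atomO] at h8
      exact (atomO_inj h8).symm
    have hb : b.1 = p := by
      by_contra hb
      have hfin : (Prod.fst '' E n ∪ {b.1, p} : Set ℝ).Finite :=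
        ((hE n).image _).union (Set.toFinite _)
      obtain ⟨p', hp''⟩ := hfin.exists_notMem
      have h1 : p' ≠ b.1 := fun h => hp'' (Or.inr (Or.inl h))
      have h2 : p' ≠ p := fun h => hp'' (Or.inr (Or.inr h))
      have h3 : ∀ e ∈ E n, e.1 ≠ p' := fun e he h => hp'' (Or.inl ⟨e, he, h⟩)
      have h4 := hfix (rootPerm (Equiv.swap p p')) (rootPerm_mem _)
        (fun e he => by
          rw [rootPerm_apply, Equiv.swap_apply_of_ne_of_ne (hp' n e he) (h3 e he)])
        (by rw [rootPerm_apply, Equiv.swap_apply_of_ne_of_ne hb h1.symm])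
      rw [rootPerm_apply, ha, Equiv.swap_apply_left] at h4
      exact h2 ((congrArg Prod.fst h4).trans ha)
    refine ⟨b, rfl, hb, ?_⟩
    by_contra hsuf
    obtain ⟨pa, la⟩ := a
    obtain ⟨pb, lb⟩ := b
    simp only at ha hb
    subst ha
    subst hb
    cases la with
    | nil => exact hsuf List.nil_suffix
    | cons e l =>
      obtain ⟨α, c⟩ := e
      have h4 := hfix (flip pb l α) (flip_mem _ _ _)
        (fun e he => flip_root l e.2 α (hp' n e he))
        (flip_fix l lb α fun b' hb' => hsuf (by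
          have h5 := hb'.map Prod.fst
          exact h5))
      exact flip_move pb l α c h4
  let P : ℕ × A → Prop := fun na => M.mem (atomO na.2) (xs na.1).1 ∧ na.2.1 = p
  have hP0 : P (0, (p, [])) := ⟨(hS _).2 ⟨p, rfl⟩, rfl⟩
  -- a node without proper extensions
  obtain ⟨⟨n, a⟩, hna, hmax⟩ : ∃ na : ℕ × A, P na ∧ ∀ mb : ℕ × A, P mb →
      node na.2 <:+ node mb.2 → node na.2 = node mb.2 := by
    by_contra hcon
    push Not at hcon
    choose F hF1 hF2 using fun na : {na : ℕ × A // P na} => hcon na.1 na.2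
    let sq : ℕ → {na : ℕ × A // P na} := fun k => Nat.rec ⟨_, hP0⟩ (fun _ na => ⟨F na, hF1 na⟩) k
    refine t.2.2 (fun k => node (sq k).1.2) (fun k => ?_) (fun k => ?_)
    · refine ⟨_, ⟨(sq k).1.2, ?_, rfl⟩, List.suffix_refl _⟩
      exact ker_mem (xs (sq k).1.1).2.1 (mem_ker_of_mem (sq k).2.1)
    · exact hF2 (sq k)
  let Q : ℕ → Set A := fun m => {b | M.mem (atomO b) (xs m).1 ∧ b.1 = p ∧ node b = node a}
  have hfinF := finite_bits p (node a)
  have hQF : ∀ m, Q m ⊆ {b : A | b.1 = p ∧ node b = node a} := fun m b hb => hb.2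
  have hQfin : ∀ m, (Q m).Finite := fun m => hfinF.subset (hQF m)
  have hstep : ∀ m, 2 * (Q m).ncard ≤ (Q (m + 1)).ncard := by
    intro m
    have h1 : ∀ c : Q m, ∃ b : Bool → Q (m + 1), Function.Injective b ∧
        ∀ i, ∃ z, M.mem z (hs m) ∧ M.mem (atomO c.1) z ∧ M.mem (atomO (b i).1) z := by
      rintro ⟨c, hc1, hc2, hc3⟩
      obtain ⟨r, r', h2, h3, h4, h5, h6⟩ := hH1 (xs m) (atomO c) hc1
      obtain ⟨b, rfl, hb1, hb2⟩ := lemA m c r hc2 hc1 h2 h5
      obtain ⟨b', rfl, hb1', hb2'⟩ := lemA m c r' hc2 hc1 h3 h6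
      rw [hc3] at hb2 hb2'
      have hb3 := hmax (m + 1, b) ⟨h2, hb1⟩ hb2
      have hb3' := hmax (m + 1, b') ⟨h3, hb1'⟩ hb2'
      refine ⟨fun i => if i then ⟨b, h2, hb1, hb3.symm⟩ else ⟨b', h3, hb1', hb3'.symm⟩, ?_, ?_⟩
      · intro i j hij
        cases i <;> cases j
        · rfl
        · exfalso
          simp only [Bool.false_eq_true, if_false, if_true, Subtype.mk.injEq] at hij
          exact h4 (by rw [hij])
        · exfalso
          simp only [Bool.false_eq_true, if_false, if_true, Subtype.mk.injEq] at hij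
          exact h4 (by rw [hij])
        · rfl
      · intro i
        cases i
        · exact h6
        · exact h5
    choose b hb1 hb2 using h1
    have hinj : Function.Injective fun ci : Bool × Q m => b ci.2 ci.1 := by
      rintro ⟨i, c⟩ ⟨j, c'⟩ h
      simp only at h
      have h2 := hb2 c i
      have h3 := hb2 c' j
      rw [← h] at h3
      have h4 : atomO c.1 = atomO c'.1 := hH2 (xs m) (atomO (b c i).1) _ _ (b c i).2.1 c.2.1 c'.2.1 h2 h3
      have h5 : c = c' := Subtype.ext (atomO_inj h4)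
      subst h5
      rw [hb1 c h]
    have : Finite (Q (m + 1)) := (hQfin (m + 1)).to_subtype
    have h2 := Nat.card_le_card_of_injective _ hinj
    rw [Nat.card_prod, Nat.card_eq_fintype_card (α := Bool), Fintype.card_bool] at h2
    exact h2
  have hpow : ∀ k, 2 ^ k ≤ (Q (n + k)).ncard := by
    intro k
    induction k with
    | zero =>
      have : 0 < (Q n).ncard := (Set.ncard_pos (hQfin n)).2 ⟨a, hna.1, hna.2, rfl⟩
      exact this
    | succ k ih =>
      have h1 := hstep (n + k)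
      rw [pow_succ]
      have h2 : n + (k + 1) = n + k + 1 := rfl
      rw [h2]
      omega
  have h1 := hpow ({b : A | b.1 = p ∧ node b = node a}.ncard)
  have h2 := Set.ncard_le_ncard (hQF (n + {b : A | b.1 = p ∧ node b = node a}.ncard)) hfinF
  have h3 := Nat.lt_two_pow_self (n := {b : A | b.1 = p ∧ node b = node a}.ncard)
  omega

/-- the scheme RP⁻ fails -/
theorem not_RPMinus : ¬ M.RPMinus := by
  intro h
  obtain ⟨S, hS1, hS2⟩ := exists_S
  obtain ⟨t, ht1, ht2, ht3⟩ := h 1 branch ![S]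
    ((satB_true _ _ _ _ _).1 ((sat_branch M _ _ _ _).2 branching))
  exact not_branching hS2 hS1 ht1 (ht2 0) ((sat_branch M _ _ _ _).1 ht3)

/-- the scheme RP fails -/
theorem not_RP : ¬ M.RP := by
  intro h
  obtain ⟨S, hS1, hS2⟩ := exists_S
  obtain ⟨s, hs⟩ := pairing S S
  obtain ⟨t, ht1, ht2, ht3⟩ := h 0 branch s hs.1
  have hSt : M.mem S t := ht2 S ((hs.2 S).2 (Or.inl rfl))
  have h1 := (ht3 ![] (fun i => i.elim0)).1
    ((satB_true _ _ _ _ _).1 ((sat_branch M _ _ _ _).2 branching))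
  exact not_branching hS2 hS1 ht1 hSt ((sat_branch M _ _ _ _).1 h1)

end Pool.Agent.V11254.TreeModel
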