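import Mathlib

/-!
# A family of simple FL_ew-algebras
-/

set_option autoImplicit false
set_option linter.unusedVariables false

namespace Pool.Agent.V11254.FLewEl

universe u

/-- FL_ew-algebras: bounded commutative integral residuated lattices. -/
class FLew (A : Type u) extends Lattice A, CommMonoid A, BoundedOrder A where
  imp : A → A → A
  top_eq_one : (⊤ : A) = 1
  residuation : ∀ x y z : A, x * y ≤ z ↔ x ≤ imp y z

/-! ### Tables -/

abbrev T := Fin 12

def leT (a b : T) : Bool :=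
  (![![1, 1, 1, 1, 1, 1, 1, 1, 1, 1, 1, 1],
    ![0, 1, 0, 1, 1, 1, 1, 1, 1, 1, 1, 1],
    ![0, 0, 1, 1, 1, 1, 1, 1, 1, 1, 1, 1],
    ![0, 0, 0, 1, 1, 1, 1, 1, 1, 1, 1, 1],
    ![0, 0, 0, 0, 1, 1, 1, 1, 1, 1, 1, 1],
    ![0, 0, 0, 0, 0, 1, 1, 1, 1, 1, 1, 1],
    ![0, 0, 0, 0, 0, 0, 1, 0, 1, 1, 1, 1],
    ![0, 0, 0, 0, 0, 0, 0, 1, 1, 1, 1, 1],
    ![0, 0, 0, 0, 0, 0, 0, 0, 1, 1, 1, 1],
    ![0, 0, 0, 0, 0, 0, 0, 0, 0, 1, 1, 1],
    ![0, 0, 0, 0, 0, 0, 0, 0, 0, 0, 1, 1],
    ![0, 0, 0, 0, 0, 0, 0, 0, 0, 0, 0, 1]] : T → T → ℕ) a b == 1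

def supT (a b : T) : T :=
  (![![0, 1, 2, 3, 4, 5, 6, 7, 8, 9, 10, 11],
    ![1, 1, 3, 3, 4, 5, 6, 7, 8, 9, 10, 11],
    ![2, 3, 2, 3, 4, 5, 6, 7, 8, 9, 10, 11],
    ![3, 3, 3, 3, 4, 5, 6, 7, 8, 9, 10, 11],
    ![4, 4, 4, 4, 4, 5, 6, 7, 8, 9, 10, 11],
    ![5, 5, 5, 5, 5, 5, 6, 7, 8, 9, 10, 11],
    ![6, 6, 6, 6, 6, 6, 6, 8, 8, 9, 10, 11],
    ![7, 7, 7, 7, 7, 7, 8, 7, 8, 9, 10, 11],
    ![8, 8, 8, 8, 8, 8, 8, 8, 8, 9, 10, 11],
    ![9, 9, 9, 9, 9, 9, 9, 9, 9, 9, 10, 11],
    ![10, 10, 10, 10, 10, 10, 10, 10, 10, 10, 10, 11],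
    ![11, 11, 11, 11, 11, 11, 11, 11, 11, 11, 11, 11]] : T → T → T) a b

def infT (a b : T) : T :=
  (![![0, 0, 0, 0, 0, 0, 0, 0, 0, 0, 0, 0],
    ![0, 1, 0, 1, 1, 1, 1, 1, 1, 1, 1, 1],
    ![0, 0, 2, 2, 2, 2, 2, 2, 2, 2, 2, 2],
    ![0, 1, 2, 3, 3, 3, 3, 3, 3, 3, 3, 3],
    ![0, 1, 2, 3, 4, 4, 4, 4, 4, 4, 4, 4],
    ![0, 1, 2, 3, 4, 5, 5, 5, 5, 5, 5, 5],
    ![0, 1, 2, 3, 4, 5, 6, 5, 6, 6, 6, 6],
    ![0, 1, 2, 3, 4, 5, 5, 7, 7, 7, 7, 7],
    ![0, 1, 2, 3, 4, 5, 6, 7, 8, 8, 8, 8],
    ![0, 1, 2, 3, 4, 5, 6, 7, 8, 9, 9, 9],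
    ![0, 1, 2, 3, 4, 5, 6, 7, 8, 9, 10, 10],
    ![0, 1, 2, 3, 4, 5, 6, 7, 8, 9, 10, 11]] : T → T → T) a b

def mulT (a b : T) : T :=
  (![![0, 0, 0, 0, 0, 0, 0, 0, 0, 0, 0, 0],
    ![0, 0, 0, 0, 0, 0, 0, 0, 0, 0, 0, 1],
    ![0, 0, 0, 0, 0, 0, 0, 0, 0, 0, 0, 2],
    ![0, 0, 0, 0, 0, 0, 0, 0, 0, 0, 0, 3],
    ![0, 0, 0, 0, 0, 0, 0, 0, 0, 0, 2, 4],
    ![0, 0, 0, 0, 0, 0, 0, 0, 0, 0, 3, 5],
    ![0, 0, 0, 0, 0, 0, 1, 0, 1, 3, 3, 6],
    ![0, 0, 0, 0, 0, 0, 0, 2, 2, 3, 4, 7],
    ![0, 0, 0, 0, 0, 0, 1, 2, 3, 3, 4, 8],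
    ![0, 0, 0, 0, 0, 0, 3, 3, 3, 3, 5, 9],
    ![0, 0, 0, 0, 2, 3, 3, 4, 4, 5, 7, 10],
    ![0, 1, 2, 3, 4, 5, 6, 7, 8, 9, 10, 11]] : T → T → T) a b

def impT (a b : T) : T :=
  (![![11, 11, 11, 11, 11, 11, 11, 11, 11, 11, 11, 11],
    ![10, 11, 10, 11, 11, 11, 11, 11, 11, 11, 11, 11],
    ![10, 10, 11, 11, 11, 11, 11, 11, 11, 11, 11, 11],
    ![10, 10, 10, 11, 11, 11, 11, 11, 11, 11, 11, 11],
    ![9, 9, 10, 10, 11, 11, 11, 11, 11, 11, 11, 11],
    ![9, 9, 9, 10, 10, 11, 11, 11, 11, 11, 11, 11],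
    ![7, 8, 7, 10, 10, 10, 11, 10, 11, 11, 11, 11],
    ![6, 6, 8, 9, 10, 10, 10, 11, 11, 11, 11, 11],
    ![5, 6, 7, 9, 10, 10, 10, 10, 11, 11, 11, 11],
    ![5, 5, 5, 9, 9, 10, 10, 10, 10, 11, 11, 11],
    ![3, 3, 4, 6, 8, 9, 9, 10, 10, 10, 11, 11],
    ![0, 1, 2, 3, 4, 5, 6, 7, 8, 9, 10, 11]] : T → T → T) a b

theorem leT_refl : ∀ a : T, leT a a := by decide +kernel
theorem leT_trans : ∀ a b c : T, leT a b → leT b c → leT a c := by decide +kernel
theorem leT_antisymm : ∀ a b : T, leT a b → leT b a → a = b := by decide +kernel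
theorem leT_cross : ∀ b : T, leT 9 b → leT b 5 → False := by decide +kernel
theorem leT_59 : ∀ a b : T, leT a 5 → leT 9 b → leT a b := by decide +kernel
theorem supT_l : ∀ a b : T, leT a (supT a b) := by decide +kernel
theorem supT_r : ∀ a b : T, leT b (supT a b) := by decide +kernel
theorem supT_le : ∀ a b c : T, leT a c → leT b c → leT (supT a b) c := by decide +kernel
theorem infT_l : ∀ a b : T, leT (infT a b) a := by decide +kernel
theorem infT_r : ∀ a b : T, leT (infT a b) b := by decide +kernel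
theorem le_infT : ∀ a b c : T, leT c a → leT c b → leT c (infT a b) := by decide +kernel
theorem sup9 : ∀ a c : T, leT a 5 = false → leT a c → leT c 5 = false := by decide +kernel
theorem sup9' : ∀ a : T, leT a 5 = false → leT (supT a 9) 5 = false := by decide +kernel
theorem inf5' : ∀ a : T, leT 9 a = false → leT 9 (infT a 5) = false := by decide +kernel
theorem mulT_comm : ∀ a b : T, mulT a b = mulT b a := by decide +kernel
theorem mulT_assoc : ∀ a b c : T, mulT (mulT a b) c = mulT a (mulT b c) := by decide +kernel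
theorem mulT_one : ∀ a : T, mulT a 11 = a := by decide +kernel
theorem one_mulT : ∀ a : T, mulT 11 a = a := by decide +kernel
theorem mulT_ne : ∀ a b : T, a ≠ 11 → mulT a b ≠ 11 := by decide +kernel
theorem resT : ∀ a b c : T, leT (mulT a b) c = leT a (impT b c) := by decide +kernel
theorem zero_leT : ∀ a : T, leT 0 a := by decide +kernel
theorem leT_top : ∀ a : T, leT a 11 := by decide +kernel

/-! ### The algebras -/

/-- two involutions `a`, `b` of a set which nowhere agree -/
structure Inv (V : Type) where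
  a : V → V
  b : V → V
  aa : ∀ v, a (a v) = v
  bb : ∀ v, b (b v) = v
  ne : ∀ v, a v ≠ b v

/-- elements: twelve constants and the elements of `V` -/
inductive El {V : Type} (s : Inv V) : Type
  | k (c : T) : El s
  | g (v : V) : El s

namespace El

variable {V : Type} {s : Inv V}

/-- the order -/
def le : El s → El s → Prop
  | k a, k b => leT a b
  | k a, g _ => leT a 5
  | g _, k b => leT 9 b
  | g v, g w => v = w

open Classical in
/-- joins -/
noncomputable def sup : El s → El s → El s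
  | k a, k b => k (supT a b)
  | k a, g v => if leT a 5 then g v else k (supT a 9)
  | g v, k a => if leT a 5 then g v else k (supT a 9)
  | g v, g w => if v = w then g v else k 9

open Classical in
/-- meets -/
noncomputable def inf : El s → El s → El s
  | k a, k b => k (infT a b)
  | k a, g v => if leT 9 a then g v else k (infT a 5)
  | g v, k a => if leT 9 a then g v else k (infT a 5)
  | g v, g w => if v = w then g v else k 5

open Classical in
/-- multiplication -/
noncomputable def mul : El s → El s → El s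
  | k a, k b => k (mulT a b)
  | k a, g v => if a = 11 then g v else k (mulT a 9)
  | g v, k a => if a = 11 then g v else k (mulT a 9)
  | g v, g w => k (if s.a v = w then 1 else if s.b v = w then 2 else 3)

open Classical in
/-- residuals -/
noncomputable def imp : El s → El s → El s
  | k a, k b => k (impT a b)
  | k a, g v => if a = 11 then g v else k (impT a 5)
  | g v, k b => if b = 1 then g (s.a v) else if b = 2 then g (s.b v) else k (impT 9 b)
  | g v, g w => if v = w then k 11 else k 10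

theorem le_refl' : ∀ x : El s, le x x
  | k a => leT_refl a
  | g _ => rfl

theorem le_trans' : ∀ x y z : El s, le x y → le y z → le x z
  | k a, k b, k c, h1, h2 => leT_trans a b c h1 h2
  | k a, k b, g v, h1, h2 => leT_trans a b 5 h1 h2
  | k a, g v, k c, h1, h2 => leT_59 a c h1 h2
  | k a, g v, g w, h1, h2 => h1
  | g v, k b, k c, h1, h2 => leT_trans 9 b c h1 h2
  | g v, k b, g w, h1, h2 => (leT_cross b h1 h2).elim
  | g v, g w, k c, h1, h2 => h2
  | g v, g w, g u, h1, h2 => Eq.trans h1 h2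

theorem le_antisymm' : ∀ x y : El s, le x y → le y x → x = y
  | k a, k b, h1, h2 => congrArg k (leT_antisymm a b h1 h2)
  | k a, g v, h1, h2 => (leT_cross a h2 h1).elim
  | g v, k a, h1, h2 => (leT_cross a h1 h2).elim
  | g v, g w, h1, _ => congrArg g h1

theorem le_sup_l : ∀ x y : El s, le x (sup x y)
  | k a, k b => supT_l a b
  | k a, g v => by
    simp only [sup]; split_ifs with h
    · exact h
    · exact supT_l a 9
  | g v, k a => by
    simp only [sup]; split_ifs with h
    · exact rfl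
    · exact supT_r a 9
  | g v, g w => by
    simp only [sup]; split_ifs with h
    · exact rfl
    · exact leT_refl 9

theorem le_sup_r : ∀ x y : El s, le y (sup x y)
  | k a, k b => supT_r a b
  | k a, g v => by
    simp only [sup]; split_ifs with h
    · exact rfl
    · exact supT_r a 9
  | g v, k a => by
    simp only [sup]; split_ifs with h
    · exact h
    · exact supT_l a 9
  | g v, g w => by
    simp only [sup]; split_ifs with h
    · exact h.symm
    · exact leT_refl 9

theorem sup_le' : ∀ x y z : El s, le x z → le y z → le (sup x y) z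
  | k a, k b, k c, h1, h2 => supT_le a b c h1 h2
  | k a, k b, g v, h1, h2 => supT_le a b 5 h1 h2
  | k a, g v, k c, h1, h2 => by
    simp only [sup]; split_ifs with h
    · exact h2
    · exact supT_le a 9 c h1 h2
  | k a, g v, g w, h1, h2 => by
    simp only [sup]; split_ifs with h
    · exact h2
    · exact absurd h1 h
  | g v, k a, k c, h1, h2 => by
    simp only [sup]; split_ifs with h
    · exact h1
    · exact supT_le a 9 c h2 h1
  | g v, k a, g w, h1, h2 => by
    simp only [sup]; split_ifs with h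
    · exact h1
    · exact absurd h2 h
  | g v, g w, k c, h1, h2 => by
    simp only [sup]; split_ifs with h
    · exact h1
    · exact h1
  | g v, g w, g u, h1, h2 => by
    simp only [sup]; split_ifs with h
    · exact h1
    · exact absurd (Eq.trans h1 (Eq.symm h2)) h

theorem inf_le_l : ∀ x y : El s, le (inf x y) x
  | k a, k b => infT_l a b
  | k a, g v => by
    simp only [inf]; split_ifs with h
    · exact h
    · exact infT_l a 5
  | g v, k a => by
    simp only [inf]; split_ifs with h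
    · exact rfl
    · exact infT_r a 5
  | g v, g w => by
    simp only [inf]; split_ifs with h
    · exact rfl
    · exact leT_refl 5

theorem inf_le_r : ∀ x y : El s, le (inf x y) y
  | k a, k b => infT_r a b
  | k a, g v => by
    simp only [inf]; split_ifs with h
    · exact rfl
    · exact infT_r a 5
  | g v, k a => by
    simp only [inf]; split_ifs with h
    · exact h
    · exact infT_l a 5
  | g v, g w => by
    simp only [inf]; split_ifs with h
    · exact h
    · exact leT_refl 5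

theorem le_inf' : ∀ x y z : El s, le z x → le z y → le z (inf x y)
  | k a, k b, k c, h1, h2 => le_infT a b c h1 h2
  | k a, k b, g v, h1, h2 => le_infT a b 9 h1 h2
  | k a, g v, k c, h1, h2 => by
    simp only [inf]; split_ifs with h
    · exact h2
    · exact le_infT a 5 c h1 h2
  | k a, g v, g w, h1, h2 => by
    simp only [inf]; split_ifs with h
    · exact h2
    · exact absurd h1 h
  | g v, k a, k c, h1, h2 => by
    simp only [inf]; split_ifs with h
    · exact h1
    · exact le_infT a 5 c h2 h1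
  | g v, k a, g w, h1, h2 => by
    simp only [inf]; split_ifs with h
    · exact h1
    · exact absurd h2 h
  | g v, g w, k c, h1, h2 => by
    simp only [inf]; split_ifs with h
    · exact h1
    · exact h1
  | g v, g w, g u, h1, h2 => by
    simp only [inf]; split_ifs with h
    · exact h1
    · exact absurd (Eq.trans (Eq.symm h1) h2) h

theorem mul_kk (a b : T) : mul (k a : El s) (k b) = k (mulT a b) := rfl
theorem mul_kg {a : T} (h : a ≠ 11) (v : V) : mul (k a : El s) (g v) = k (mulT a 9) := if_neg h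
theorem mul_gk {a : T} (h : a ≠ 11) (v : V) : mul (g v : El s) (k a) = k (mulT a 9) := if_neg h

theorem mul_gg (v w : V) : ∃ c : T, mul (g v : El s) (g w) = k c ∧ (c = 1 ∨ c = 2 ∨ c = 3) ∧
    (c = 1 ↔ s.a v = w) ∧ (c = 2 ↔ s.b v = w) := by
  classical
  by_cases h1 : s.a v = w
  · refine ⟨1, congrArg k (if_pos h1), Or.inl rfl, ⟨fun _ => h1, fun _ => rfl⟩, ?_⟩
    exact ⟨fun h => absurd h (by decide), fun h => absurd (h1.trans h.symm) (s.ne v)⟩
  · by_cases h2 : s.b v = w
    · refine ⟨2, congrArg k ((if_neg h1).trans (if_pos h2)), Or.inr (Or.inl rfl), ?_,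
        ⟨fun _ => h2, fun _ => rfl⟩⟩
      exact ⟨fun h => absurd h (by decide), fun h => absurd h h1⟩
    · refine ⟨3, congrArg k ((if_neg h1).trans (if_neg h2)), Or.inr (Or.inr rfl), ?_, ?_⟩
      · exact ⟨fun h => absurd h (by decide), fun h => absurd h h1⟩
      · exact ⟨fun h => absurd h (by decide), fun h => absurd h h2⟩

theorem low_ne {c : T} (h : c = 1 ∨ c = 2 ∨ c = 3) : c ≠ 11 := by
  rcases h with rfl | rfl | rfl <;> decide

theorem lowT : ∀ a c : T, a ≠ 11 → c = 1 ∨ c = 2 ∨ c = 3 → mulT a c = 0 := by decide +kernel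
theorem low9 : ∀ a : T, a ≠ 11 → mulT (mulT a 9) 9 = 0 := by decide +kernel
theorem ne9 : ∀ a : T, a ≠ 11 → mulT a 9 ≠ 11 := by decide +kernel
theorem mulT_zero : ∀ a : T, mulT a 0 = 0 := by decide +kernel
theorem zero_mulT : ∀ a : T, mulT 0 a = 0 := by decide +kernel

theorem one_mul' : ∀ x : El s, mul (k 11) x = x
  | k a => congrArg k (one_mulT a)
  | g v => by simp only [mul, if_true]

theorem mul_comm' : ∀ x y : El s, mul x y = mul y x
  | k a, k b => congrArg k (mulT_comm a b)
  | k a, g v => rfl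
  | g v, k a => rfl
  | g v, g w => by
    classical
    show k _ = k _
    congr 1
    have e1 : s.a v = w ↔ s.a w = v := ⟨fun h => by rw [← h, s.aa], fun h => by rw [← h, s.aa]⟩
    have e2 : s.b v = w ↔ s.b w = v := ⟨fun h => by rw [← h, s.bb], fun h => by rw [← h, s.bb]⟩
    simp only [e1, e2]

theorem assoc_kkg (a b : T) (v : V) :
    mul (mul (k a : El s) (k b)) (g v) = mul (k a) (mul (k b) (g v)) := by
  by_cases ha : a = 11
  · subst ha; rw [one_mul', one_mul']
  by_cases hb : b = 11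
  · subst hb; rw [one_mul', mul_kk, mulT_one]
  rw [mul_kk, mul_kg (mulT_ne a b ha), mul_kg hb, mul_kk, mulT_assoc]

theorem assoc_kgg (a : T) (v w : V) :
    mul (mul (k a : El s) (g v)) (g w) = mul (k a) (mul (g v) (g w)) := by
  by_cases ha : a = 11
  · subst ha; rw [one_mul', one_mul']
  obtain ⟨c, hc, hc', -, -⟩ := mul_gg (s := s) v w
  rw [mul_kg ha, mul_kg (ne9 a ha), low9 a ha, hc, mul_kk, lowT a c ha hc']

theorem assoc_ggg (v w u : V) :
    mul (mul (g v : El s) (g w)) (g u) = mul (g v) (mul (g w) (g u)) := by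
  obtain ⟨c, hc, hc', -, -⟩ := mul_gg (s := s) v w
  obtain ⟨d, hd, hd', -, -⟩ := mul_gg (s := s) w u
  rw [hc, hd, mul_kg (low_ne hc'), mul_gk (low_ne hd'), mulT_comm, lowT 9 c (by decide) hc',
    mulT_comm, lowT 9 d (by decide) hd']

theorem mul_assoc' : ∀ x y z : El s, mul (mul x y) z = mul x (mul y z)
  | k a, k b, k c => congrArg k (mulT_assoc a b c)
  | k a, k b, g v => assoc_kkg a b v
  | k a, g v, k b => by
    rw [mul_comm' (mul (k a) (g v)), ← assoc_kkg, mul_comm' (g v), ← assoc_kkg,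
      mul_comm' (k b) (k a)]
  | g v, k a, k b => by
    rw [mul_comm' (mul (g v) (k a)), mul_comm' (g v), ← assoc_kkg, mul_comm' (g v),
      mul_comm' (k b) (k a)]
  | k a, g v, g w => assoc_kgg a v w
  | g v, k a, g w => by
    rw [mul_comm' (g v) (k a), assoc_kgg, mul_comm' (g v) (mul _ _), assoc_kgg,
      mul_comm' (g v) (g w)]
  | g v, g w, k a => by
    rw [mul_comm' (mul _ _) (k a), ← assoc_kgg, mul_comm' (g w) (k a), mul_comm' (g v) (mul _ _),
      assoc_kgg, assoc_kgg, mul_comm' (g v) (g w)]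
  | g v, g w, g u => assoc_ggg v w u

theorem T1 : ∀ a b : T, b ≠ 11 → leT (mulT a b) 5 = leT a (impT b 5) := by decide +kernel
theorem T2 : ∀ a c : T, a ≠ 11 → c = 1 ∨ c = 2 → leT (mulT a 9) c = leT a 5 := by decide +kernel
theorem T3 : ∀ a c : T, leT (mulT a 9) c = leT a (impT 9 c) := by decide +kernel
theorem T4 : ∀ a : T, a ≠ 11 → leT (mulT a 9) 5 := by decide +kernel
theorem T5 : ∀ a : T, a ≠ 11 → leT a 10 := by decide +kernel
theorem T6 : ∀ b c : T, leT (mulT b 9) c = leT 9 (impT b c) := by decide +kernel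
theorem T7 : ∀ d c : T, d = 1 ∨ d = 2 ∨ d = 3 → c ≠ 1 → c ≠ 2 →
    leT d c = leT 9 (impT 9 c) := by decide +kernel
theorem T8 : ∀ d : T, d = 1 ∨ d = 2 ∨ d = 3 → (leT d 1 = true ↔ d = 1) := by decide +kernel
theorem T9 : ∀ d : T, d = 1 ∨ d = 2 ∨ d = 3 → (leT d 2 = true ↔ d = 2) := by decide +kernel
theorem T10 : ∀ d : T, d = 1 ∨ d = 2 ∨ d = 3 → leT d 5 := by decide +kernel
theorem T11 : ∀ c : T, c = 1 ∨ c = 2 → leT 9 c = false ∧ leT 11 5 = false := by decide +kernel

theorem residuation' : ∀ x y z : El s, le (mul x y) z ↔ le x (imp y z)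
  | k a, k b, k c => by
    show leT (mulT a b) c ↔ leT a (impT b c)
    rw [resT]
  | k a, k b, g v => by
    classical
    show leT (mulT a b) 5 ↔ le (k a) (imp (k b) (g v))
    by_cases hb : b = 11
    · subst hb
      rw [mulT_one]
      simp only [imp, if_true]
      exact Iff.rfl
    · simp only [imp, if_neg hb]
      rw [T1 a b hb]
      exact Iff.rfl
  | k a, g v, k c => by
    classical
    by_cases ha : a = 11
    · subst ha
      rw [one_mul']
      by_cases h1 : c = 1
      · subst h1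
        simp only [imp, if_true]
        show leT 9 1 ↔ leT 11 5
        decide
      by_cases h2 : c = 2
      · subst h2
        simp only [imp, if_neg h1, if_true]
        show leT 9 2 ↔ leT 11 5
        decide
      simp only [imp, if_neg h1, if_neg h2]
      show leT 9 c ↔ leT 11 (impT 9 c)
      rw [← T3, one_mulT]
    · rw [mul_kg ha]
      by_cases h1 : c = 1
      · simp only [imp, if_pos h1]
        show leT (mulT a 9) c ↔ leT a 5
        rw [T2 a c ha (Or.inl h1)]
      by_cases h2 : c = 2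
      · simp only [imp, if_neg h1, if_pos h2]
        show leT (mulT a 9) c ↔ leT a 5
        rw [T2 a c ha (Or.inr h2)]
      simp only [imp, if_neg h1, if_neg h2]
      show leT (mulT a 9) c ↔ leT a (impT 9 c)
      rw [T3]
  | k a, g v, g w => by
    classical
    by_cases hvw : v = w
    · simp only [imp, if_pos hvw]
      by_cases ha : a = 11
      · subst ha
        rw [one_mul']
        exact ⟨fun _ => leT_top 11, fun _ => hvw⟩
      · rw [mul_kg ha]
        exact ⟨fun _ => leT_top a, fun _ => T4 a ha⟩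
    · simp only [imp, if_neg hvw]
      by_cases ha : a = 11
      · subst ha
        rw [one_mul']
        exact ⟨fun h => absurd h hvw, fun h => absurd (show leT 11 10 = true from h) (by decide)⟩
      · rw [mul_kg ha]
        exact ⟨fun _ => T5 a ha, fun _ => T4 a ha⟩
  | g v, k b, k c => by
    rw [mul_comm']
    by_cases hb : b = 11
    · subst hb
      rw [one_mul']
      show leT 9 c ↔ leT 9 (impT 11 c)
      rw [← T6, one_mulT]
    · rw [mul_kg hb]
      show leT (mulT b 9) c ↔ leT 9 (impT b c)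
      rw [T6]
  | g v, k b, g w => by
    classical
    rw [mul_comm']
    by_cases hb : b = 11
    · subst hb
      rw [one_mul']
      simp only [imp, if_true]
    · rw [mul_kg hb]
      simp only [imp, if_neg hb]
      show leT (mulT b 9) 5 ↔ leT 9 (impT b 5)
      rw [T6]
  | g v, g w, k c => by
    classical
    obtain ⟨d, hd, hd', h1, h2⟩ := mul_gg (s := s) v w
    rw [hd]
    by_cases hc1 : c = 1
    · subst hc1
      simp only [imp, if_true]
      show leT d 1 ↔ v = s.a w
      rw [T8 d hd', h1]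
      exact ⟨fun h => by rw [← h, s.aa], fun h => by rw [h, s.aa]⟩
    by_cases hc2 : c = 2
    · subst hc2
      simp only [imp, if_neg hc1, if_true]
      show leT d 2 ↔ v = s.b w
      rw [T9 d hd', h2]
      exact ⟨fun h => by rw [← h, s.bb], fun h => by rw [h, s.bb]⟩
    simp only [imp, if_neg hc1, if_neg hc2]
    show leT d c ↔ leT 9 (impT 9 c)
    rw [T7 d c hd' hc1 hc2]
  | g v, g w, g u => by
    classical
    obtain ⟨d, hd, hd', -, -⟩ := mul_gg (s := s) v w
    rw [hd]
    by_cases h : w = u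
    · simp only [imp, if_pos h]
      exact ⟨fun _ => leT_top 9, fun _ => T10 d hd'⟩
    · simp only [imp, if_neg h]
      exact ⟨fun _ => T5 9 (by decide), fun _ => T10 d hd'⟩

noncomputable instance : FLew (El s) where
  le := le
  le_refl := le_refl'
  le_trans := le_trans'
  le_antisymm := le_antisymm'
  sup := sup
  le_sup_left := le_sup_l
  le_sup_right := le_sup_r
  sup_le := sup_le'
  inf := inf
  inf_le_left := inf_le_l
  inf_le_right := inf_le_r
  le_inf := fun x y z h1 h2 => le_inf' y z x h1 h2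
  mul := mul
  one := k 11
  mul_assoc := mul_assoc'
  mul_comm := mul_comm'
  one_mul := one_mul'
  mul_one := fun x => (mul_comm' x (k 11)).trans (one_mul' x)
  top := k 11
  bot := k 0
  le_top := fun x => by
    cases x
    · exact leT_top _
    · exact leT_top 9
  bot_le := fun x => by
    cases x
    · exact zero_leT _
    · exact zero_leT 5
  imp := imp
  top_eq_one := rfl
  residuation := residuation'

end El

end Pool.Agent.V11254.FLewEl
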