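import Mathlib
import Pool.Agent.V11254.FLewEl

/-!
# Formulas over FL_ew-algebras, definable constants of the algebras `El s`
-/

set_option autoImplicit false
set_option linter.unusedVariables false

namespace Pool.Agent.V11254.FLewEl

universe u

/-- Formulas over a countable set of variables. -/
inductive Fml : Type
  | var (n : ℕ) : Fml
  | e : Fml
  | f : Fml
  | and (φ ψ : Fml) : Fml
  | or (φ ψ : Fml) : Fml
  | mul (φ ψ : Fml) : Fml
  | imp (φ ψ : Fml) : Fml

namespace Fml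

/-- variables occurring in a formula -/
def vars : Fml → Set ℕ
  | var n => {n}
  | e => ∅
  | f => ∅
  | and φ ψ => φ.vars ∪ ψ.vars
  | or φ ψ => φ.vars ∪ ψ.vars
  | mul φ ψ => φ.vars ∪ ψ.vars
  | imp φ ψ => φ.vars ∪ ψ.vars

/-- substitution -/
def subst (σ : ℕ → Fml) : Fml → Fml
  | var n => σ n
  | e => e
  | f => f
  | and φ ψ => and (φ.subst σ) (ψ.subst σ)
  | or φ ψ => or (φ.subst σ) (ψ.subst σ)
  | mul φ ψ => mul (φ.subst σ) (ψ.subst σ)
  | imp φ ψ => imp (φ.subst σ) (ψ.subst σ)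

end Fml

/-- The value of a formula. -/
def eval {A : Type u} [FLew A] (v : ℕ → A) : Fml → A
  | .var n => v n
  | .e => 1
  | .f => ⊥
  | .and φ ψ => eval v φ ⊓ eval v ψ
  | .or φ ψ => eval v φ ⊔ eval v ψ
  | .mul φ ψ => eval v φ * eval v ψ
  | .imp φ ψ => FLew.imp (eval v φ) (eval v ψ)

section Basic

variable {A : Type u} [FLew A]

theorem le_one' (x : A) : x ≤ 1 := by
  rw [← FLew.top_eq_one]; exact le_top

theorem imp_eq_one {x y : A} : FLew.imp x y = 1 ↔ x ≤ y := by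
  constructor
  · intro h
    have : (1 : A) * x ≤ y := (FLew.residuation 1 x y).2 h.ge
    rwa [one_mul] at this
  · intro h
    refine le_antisymm (le_one' _) ((FLew.residuation 1 x y).1 ?_)
    rwa [one_mul]

theorem eval_subst (σ : ℕ → Fml) (v : ℕ → A) (φ : Fml) :
    eval v (φ.subst σ) = eval (fun n => eval v (σ n)) φ := by
  induction φ with
  | var n => rfl
  | e => rfl
  | f => rfl
  | and φ ψ ih1 ih2 => show _ ⊓ _ = _ ⊓ _; rw [ih1, ih2]
  | or φ ψ ih1 ih2 => show _ ⊔ _ = _ ⊔ _; rw [ih1, ih2]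
  | mul φ ψ ih1 ih2 => show _ * _ = _ * _; rw [ih1, ih2]
  | imp φ ψ ih1 ih2 => show FLew.imp _ _ = FLew.imp _ _; rw [ih1, ih2]

theorem eval_congr {v w : ℕ → A} (φ : Fml) (h : ∀ n ∈ φ.vars, v n = w n) :
    eval v φ = eval w φ := by
  induction φ with
  | var n => exact h n rfl
  | e => rfl
  | f => rfl
  | and φ ψ ih1 ih2 =>
    show _ ⊓ _ = _ ⊓ _
    rw [ih1 fun n hn => h n (Or.inl hn), ih2 fun n hn => h n (Or.inr hn)]
  | or φ ψ ih1 ih2 =>
    show _ ⊔ _ = _ ⊔ _
    rw [ih1 fun n hn => h n (Or.inl hn), ih2 fun n hn => h n (Or.inr hn)]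
  | mul φ ψ ih1 ih2 =>
    show _ * _ = _ * _
    rw [ih1 fun n hn => h n (Or.inl hn), ih2 fun n hn => h n (Or.inr hn)]
  | imp φ ψ ih1 ih2 =>
    show FLew.imp _ _ = FLew.imp _ _
    rw [ih1 fun n hn => h n (Or.inl hn), ih2 fun n hn => h n (Or.inr hn)]

end Basic

/-! ### Definable constants -/

namespace Fml

def neg (φ : Fml) : Fml := φ.imp f

/-- `φ` and `ψ` are equal -/
def eqv (φ ψ : Fml) : Fml := (φ.imp ψ).and (ψ.imp φ)

/-- the constant `h`, defined from any non-trivial element -/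
def tH (x : Fml) : Fml :=
  let y := (x.and x.neg).neg
  ((y.mul y).and y.neg).neg

/-- the constants in terms of `h` -/
def tC (h : Fml) : T → Fml :=
  let p1 := h.mul h
  let d := p1.mul p1
  let s := h.mul p1
  let p0 := p1.neg
  let c := p0.mul p0
  let r := p0.or p1
  let e' := c.or d
  let z := p0.and p1
  let m := r.imp e'
  ![f, c, d, e', s, z, p0, p1, r, m, h, e]

/-- the fifth power -/
def pow5 (x : Fml) : Fml := x.mul (x.mul (x.mul (x.mul x)))

end Fml

namespace El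

variable {V : Type} {s : Inv V}

theorem neg_k (c : T) : FLew.imp (k c : El s) ⊥ = k (impT c 0) := rfl
theorem neg_g (v : V) : FLew.imp (g v : El s) ⊥ = k 5 := by
  show imp (g v) (k 0) = k 5
  simp only [imp]
  rw [if_neg (by decide), if_neg (by decide)]
  rfl
theorem inf_kk (a b : T) : (k a : El s) ⊓ k b = k (infT a b) := rfl
theorem sup_kk (a b : T) : (k a : El s) ⊔ k b = k (supT a b) := rfl
theorem mul_kk' (a b : T) : (k a : El s) * k b = k (mulT a b) := rfl
theorem imp_kk (a b : T) : FLew.imp (k a : El s) (k b) = k (impT a b) := rfl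
theorem bot_k : (⊥ : El s) = k 0 := rfl
theorem one_k : (1 : El s) = k 11 := rfl

theorem H_const : ∀ c : T, c ≠ 0 → c ≠ 11 →
    impT (infT (mulT (impT (infT c (impT c 0)) 0) (impT (infT c (impT c 0)) 0))
      (impT (impT (infT c (impT c 0)) 0) 0)) 0 = 10 := by decide +kernel

/-- the value of `tH` -/
theorem eval_tH (u : ℕ → El s) (ζ : Fml) (h0 : eval u ζ ≠ k 0) (h1 : eval u ζ ≠ k 11) :
    eval u ζ.tH = k 10 := by
  show FLew.imp ((FLew.imp (eval u ζ ⊓ FLew.imp (eval u ζ) ⊥) ⊥ *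
    FLew.imp (eval u ζ ⊓ FLew.imp (eval u ζ) ⊥) ⊥) ⊓
      FLew.imp (FLew.imp (eval u ζ ⊓ FLew.imp (eval u ζ) ⊥) ⊥) ⊥) ⊥ = k 10
  rcases hx : eval u ζ with c | v
  · rw [hx] at h0 h1
    simp only [neg_k, inf_kk, mul_kk']
    rw [H_const c (fun h => h0 (h ▸ rfl)) (fun h => h1 (h ▸ rfl))]
  · rw [neg_g]
    have : (g v : El s) ⊓ k 5 = k 5 := by
      show inf (g v) (k 5) = k 5
      simp only [inf]
      rw [if_neg (by decide)]
      rfl
    rw [this, neg_k]
    rfl

theorem eval_tC (u : ℕ → El s) (η : Fml) (h : eval u η = k 10) (c : T) :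
    eval u (Fml.tC η c) = k c := by
  have hh : eval u (Fml.tC η c) = eval u (Fml.tC η c) := rfl
  fin_cases c
  · rfl
  · show (FLew.imp (eval u η * eval u η) ⊥) * (FLew.imp (eval u η * eval u η) ⊥) = _
    rw [h]; rfl
  · show (eval u η * eval u η) * (eval u η * eval u η) = _
    rw [h]; rfl
  · show (FLew.imp (eval u η * eval u η) ⊥) * (FLew.imp (eval u η * eval u η) ⊥) ⊔
      (eval u η * eval u η) * (eval u η * eval u η) = _
    rw [h]; rfl
  · show eval u η * (eval u η * eval u η) = _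
    rw [h]; rfl
  · show (FLew.imp (eval u η * eval u η) ⊥) ⊓ (eval u η * eval u η) = _
    rw [h]; rfl
  · show FLew.imp (eval u η * eval u η) ⊥ = _
    rw [h]; rfl
  · show eval u η * eval u η = _
    rw [h]; rfl
  · show (FLew.imp (eval u η * eval u η) ⊥) ⊔ (eval u η * eval u η) = _
    rw [h]; rfl
  · show FLew.imp ((FLew.imp (eval u η * eval u η) ⊥) ⊔ (eval u η * eval u η))
      ((FLew.imp (eval u η * eval u η) ⊥) * (FLew.imp (eval u η * eval u η) ⊥) ⊔
      (eval u η * eval u η) * (eval u η * eval u η)) = _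
    rw [h]; rfl
  · exact h
  · rfl

/-- definable constants -/
def _root_.Pool.Agent.V11254.FLewEl.Fml.tG (ζ : Fml) (c : T) : Fml := Fml.tC ζ.tH c

theorem eval_tG (u : ℕ → El s) (ζ : Fml) (h0 : eval u ζ ≠ k 0) (h1 : eval u ζ ≠ k 11) (c : T) :
    eval u (ζ.tG c) = k c := eval_tC u _ (eval_tH u ζ h0 h1) c

theorem pow5_T : ∀ c : T, c ≠ 11 → mulT c (mulT c (mulT c (mulT c c))) = 0 := by decide +kernel

theorem eval_pow5_one (u : ℕ → El s) (ζ : Fml) (h : eval u ζ = 1) : eval u ζ.pow5 = 1 := by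
  show eval u ζ * (eval u ζ * (eval u ζ * (eval u ζ * eval u ζ))) = 1
  rw [h]; rfl

theorem eval_pow5_ne (u : ℕ → El s) (ζ : Fml) (h : eval u ζ ≠ 1) : eval u ζ.pow5 = ⊥ := by
  show eval u ζ * (eval u ζ * (eval u ζ * (eval u ζ * eval u ζ))) = ⊥
  rcases hx : eval u ζ with c | v
  · rw [hx] at h
    simp only [mul_kk']
    rw [pow5_T c (fun h1 => h (h1 ▸ rfl))]
    rfl
  · obtain ⟨c, hc, hc', -, -⟩ := mul_gg (s := s) v v
    have e1 : (g v : El s) * g v = k c := hc
    have e2 : (g v : El s) * k c = k 0 := by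
      show mul (g v) (k c) = k 0
      rw [mul_gk (low_ne hc'), mulT_comm, lowT 9 c (by decide) hc']
    have e3 : (g v : El s) * k 0 = k 0 := by
      show mul (g v) (k 0) = k 0
      rw [mul_gk (by decide)]
      rfl
    rw [e1, e2, e3, e3]
    rfl

theorem vars_tG (ζ : Fml) (c : T) : (ζ.tG c).vars ⊆ ζ.vars := by
  have h1 : ζ.tH.vars ⊆ ζ.vars := by
    intro n hn
    simp only [Fml.tH, Fml.neg, Fml.vars] at hn
    simpa using hn
  have h2 : ∀ η : Fml, (Fml.tC η c).vars ⊆ η.vars := by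
    intro η n hn
    fin_cases c <;> simp [Fml.tC, Fml.neg, Fml.vars] at hn <;> tauto
  exact (h2 _).trans h1

end El

end Pool.Agent.V11254.FLewEl
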