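import Mathlib
import Pool.Agent.V11254.FLewFml

/-!
# A family of simple MTL-chains
-/

set_option autoImplicit false
set_option linter.unusedVariables false

namespace Pool.Agent.V11254.MTLEl

open FLewEl (FLew Fml eval)

universe u

/-- MTL-algebras: bounded commutative integral residuated lattices with prelinearity. -/
class MTL (A : Type u) extends FLew A where
  prelin : ∀ x y : A, FLew.imp x y ⊔ FLew.imp y x = 1

/-- Coloured discrete linear orders with a largest element `z` and no smallest element;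
`s x` is the lower neighbour of `x` and `p x` the upper neighbour (`p z = z`). -/
structure Dc (C : Type) where
  le : C → C → Prop
  refl : ∀ x, le x x
  trans : ∀ x y z, le x y → le y z → le x z
  anti : ∀ x y, le x y → le y x → x = y
  total : ∀ x y, le x y ∨ le y x
  z : C
  top : ∀ x, le x z
  s : C → C
  p : C → C
  s_le : ∀ x y, ¬ le x y ↔ le y (s x)
  ps : ∀ x, p (s x) = x
  sp : ∀ x, x = z ∨ s (p x) = x
  pz : p z = z
  col : C → Bool

namespace Dc

variable {C : Type} (d : Dc C)

theorem ss_le (x y : C) : d.le (d.s x) (d.s y) ↔ d.le x y := by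
  rw [← d.s_le, ← d.s_le]
  exact not_not

theorem s_p (j i : C) : d.le (d.s j) i ↔ d.le j (d.p i) := by
  rcases d.sp i with h | h
  · rw [h, d.pz]
    exact ⟨fun _ => d.top _, fun _ => d.top _⟩
  · constructor
    · intro h1
      rw [← h, d.ss_le] at h1
      exact h1
    · intro h1
      rw [← h, d.ss_le]
      exact h1

theorem le_p (i : C) : d.le i (d.p i) := by
  rw [← d.s_p]
  rcases d.total (d.s i) i with h | h
  · exact h
  · exact absurd (d.refl i) ((d.s_le i i).2 h)

theorem s_lt (x : C) : d.le (d.s x) x ∧ ¬ d.le x (d.s x) := by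
  have h : ¬ d.le x (d.s x) := (d.s_le x (d.s x)).2 (d.refl _)
  exact ⟨(d.total (d.s x) x).resolve_right h, h⟩

/-- product with `g` -/
def μ (j : C) : C := if d.col j then d.s (d.s (d.s j)) else d.s (d.s j)

/-- its residual -/
def ρ (i : C) : C := if d.col (d.p (d.p (d.p i))) then d.p (d.p (d.p i)) else d.p (d.p i)

theorem μ_ρ (j i : C) : d.le (d.μ j) i ↔ d.le j (d.ρ i) := by
  have key : j ≠ d.p (d.p (d.p i)) →
      (d.le j (d.p (d.p (d.p i))) ↔ d.le j (d.p (d.p i))) := by
    intro hne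
    constructor
    · intro h
      rcases d.sp (d.p (d.p i)) with h1 | h1
      · rw [h1]; exact d.top _
      · rw [← h1, ← d.s_le]
        intro h2
        exact hne (d.anti _ _ h h2)
    · intro h
      exact d.trans _ _ _ h (d.le_p _)
  unfold μ ρ
  by_cases hj : d.col j = true
  · rw [if_pos hj, d.s_p, d.s_p, d.s_p]
    by_cases hq : d.col (d.p (d.p (d.p i))) = true
    · rw [if_pos hq]
    · rw [if_neg hq]
      exact key (fun h => hq (h ▸ hj))
  · rw [if_neg hj, d.s_p, d.s_p]
    by_cases hq : d.col (d.p (d.p (d.p i))) = true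
    · rw [if_pos hq]
      exact (key (fun h => hj (h ▸ hq))).symm
    · rw [if_neg hq]

theorem μ_le (j : C) : d.le (d.μ j) (d.s j) := by
  unfold μ
  split_ifs
  · exact d.trans _ _ _ (d.s_lt _).1 (d.s_lt _).1
  · exact (d.s_lt _).1

end Dc

/-! ### The skeleton -/

abbrev T := Fin 10

def mulT (a b : T) : T :=
  (![![0, 0, 0, 0, 0, 0, 0, 0, 0, 0],
    ![0, 0, 0, 0, 0, 0, 0, 0, 0, 1],
    ![0, 0, 0, 0, 0, 0, 0, 0, 0, 2],
    ![0, 0, 0, 0, 0, 0, 0, 0, 0, 3],
    ![0, 0, 0, 0, 0, 0, 0, 0, 0, 4],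
    ![0, 0, 0, 0, 0, 0, 0, 0, 1, 5],
    ![0, 0, 0, 0, 0, 0, 2, 2, 3, 6],
    ![0, 0, 0, 0, 0, 0, 2, 3, 4, 7],
    ![0, 0, 0, 0, 0, 1, 3, 4, 5, 8],
    ![0, 1, 2, 3, 4, 5, 6, 7, 8, 9]] : T → T → T) a b

def impT (a b : T) : T :=
  (![![9, 9, 9, 9, 9, 9, 9, 9, 9, 9],
    ![8, 9, 9, 9, 9, 9, 9, 9, 9, 9],
    ![8, 8, 9, 9, 9, 9, 9, 9, 9, 9],
    ![8, 8, 8, 9, 9, 9, 9, 9, 9, 9],
    ![8, 8, 8, 8, 9, 9, 9, 9, 9, 9],
    ![7, 8, 8, 8, 8, 9, 9, 9, 9, 9],
    ![5, 5, 7, 8, 8, 8, 9, 9, 9, 9],
    ![5, 5, 6, 7, 8, 8, 8, 9, 9, 9],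
    ![4, 5, 5, 6, 7, 8, 8, 8, 9, 9],
    ![0, 1, 2, 3, 4, 5, 6, 7, 8, 9]] : T → T → T) a b

theorem mulT_comm : ∀ a b : T, mulT a b = mulT b a := by decide +kernel
theorem mulT_assoc : ∀ a b c : T, mulT (mulT a b) c = mulT a (mulT b c) := by decide +kernel

/-- elements -/
inductive El {C : Type} (d : Dc C) : Type
  | k (c : T) : El d
  | x (i : C) : El d
  | l (i : C) : El d

namespace El

variable {C : Type} {d : Dc C}

/-- the order -/
def le : El d → El d → Prop
  | k a, k b => a ≤ b
  | k a, x _ => a ≤ 5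
  | k a, l _ => a ≤ 1
  | x _, k b => 6 ≤ b
  | x i, x j => d.le i j
  | x _, l _ => False
  | l _, k b => 2 ≤ b
  | l _, x _ => True
  | l i, l j => d.le i j

theorem le_refl' : ∀ u : El d, le u u
  | k a => le_refl a
  | x i => d.refl i
  | l i => d.refl i

theorem le_trans' : ∀ u v w : El d, le u v → le v w → le u w
  | k a, k b, k c, h1, h2 => le_trans (α := T) h1 h2
  | k a, k b, x j, h1, h2 => le_trans (α := T) h1 h2
  | k a, k b, l j, h1, h2 => le_trans (α := T) h1 h2
  | k a, x i, k c, h1, h2 => le_trans (α := T) h1 (le_trans (by decide) h2)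
  | k a, x i, x j, h1, h2 => h1
  | k a, x i, l j, h1, h2 => h2.elim
  | k a, l i, k c, h1, h2 => le_trans (α := T) h1 (le_trans (by decide) h2)
  | k a, l i, x j, h1, h2 => le_trans (α := T) h1 (by decide)
  | k a, l i, l j, h1, h2 => h1
  | x i, k b, k c, h1, h2 => le_trans (α := T) h1 h2
  | x i, k b, x j, h1, h2 => absurd (le_trans (α := T) h1 h2) (by decide)
  | x i, k b, l j, h1, h2 => absurd (le_trans (α := T) h1 h2) (by decide)
  | x i, x j, k c, h1, h2 => h2
  | x i, x j, x m, h1, h2 => d.trans _ _ _ h1 h2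
  | x i, x j, l m, h1, h2 => h2.elim
  | x i, l j, k c, h1, h2 => h1.elim
  | x i, l j, x m, h1, h2 => h1.elim
  | x i, l j, l m, h1, h2 => h1.elim
  | l i, k b, k c, h1, h2 => le_trans (α := T) h1 h2
  | l i, k b, x j, h1, h2 => trivial
  | l i, k b, l j, h1, h2 => absurd (le_trans (α := T) h1 h2) (by decide)
  | l i, x j, k c, h1, h2 => le_trans (α := T) (by decide) h2
  | l i, x j, x m, h1, h2 => trivial
  | l i, x j, l m, h1, h2 => h2.elim
  | l i, l j, k c, h1, h2 => h2
  | l i, l j, x m, h1, h2 => trivial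
  | l i, l j, l m, h1, h2 => d.trans _ _ _ h1 h2

theorem le_antisymm' : ∀ u v : El d, le u v → le v u → u = v
  | k a, k b, h1, h2 => congrArg k (le_antisymm h1 h2)
  | k a, x j, h1, h2 => absurd (le_trans (α := T) h2 h1) (by decide)
  | k a, l j, h1, h2 => absurd (le_trans (α := T) h2 h1) (by decide)
  | x i, k b, h1, h2 => absurd (le_trans (α := T) h1 h2) (by decide)
  | x i, x j, h1, h2 => congrArg x (d.anti _ _ h1 h2)
  | x i, l j, h1, h2 => h1.elim
  | l i, k b, h1, h2 => absurd (le_trans (α := T) h1 h2) (by decide)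
  | l i, x j, h1, h2 => h2.elim
  | l i, l j, h1, h2 => congrArg l (d.anti _ _ h1 h2)

theorem total5 : ∀ a : T, a ≤ 5 ∨ 6 ≤ a := by decide
theorem total1 : ∀ a : T, a ≤ 1 ∨ 2 ≤ a := by decide

theorem le_total' : ∀ u v : El d, le u v ∨ le v u
  | k a, k b => le_total a b
  | k a, x j => total5 a
  | k a, l j => total1 a
  | x i, k b => (total5 b).symm
  | x i, x j => d.total i j
  | x i, l j => Or.inr trivial
  | l i, k b => (total1 b).symm
  | l i, x j => Or.inl trivial
  | l i, l j => d.total i j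

/-- products of constants and the `x i` -/
def kx (a : T) (i : C) : El d :=
  if a = 9 then x i else if a = 8 then l i else if a = 7 then l (d.s i)
  else if a = 6 then l (d.μ i) else k 0

/-- multiplication -/
def mul : El d → El d → El d
  | k a, k b => k (mulT a b)
  | k a, x i => kx a i
  | x i, k a => kx a i
  | k a, l i => if a = 9 then l i else k 0
  | l i, k a => if a = 9 then l i else k 0
  | x _, x _ => k 1
  | x _, l _ => k 0
  | l _, x _ => k 0
  | l _, l _ => k 0

open Classical in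
/-- residuals -/
noncomputable def imp : El d → El d → El d
  | k a, k b => if a = 8 ∧ b = 2 then x d.z else k (impT a b)
  | k a, x j => if a = 9 then x j else if a ≤ 5 then k 9 else k 8
  | k a, l j => if a = 9 then l j else if a = 8 then x j else if a = 7 then x (d.p j)
      else if a = 6 then x (d.ρ j) else if 2 ≤ a then k 8 else k 9
  | x i, k b => if b = 0 then k 5 else if b = 1 then x d.z else if b ≤ 5 then k 8 else k 9
  | x i, x j => if d.le i j then k 9 else k 8
  | x i, l j => if d.le i j then k 8 else if d.le (d.s i) j then k 7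
      else if d.le (d.μ i) j then k 6 else x d.z
  | l i, k b => if b ≤ 1 then k 8 else k 9
  | l i, x j => k 9
  | l i, l j => if d.le i j then k 9 else k 8

theorem one_mul' : ∀ u : El d, mul (k 9) u = u
  | k a => by fin_cases a <;> rfl
  | x i => rfl
  | l i => rfl

theorem mul_comm' : ∀ u v : El d, mul u v = mul v u
  | k a, k b => congrArg k (mulT_comm a b)
  | k a, x i => rfl
  | x i, k a => rfl
  | k a, l i => rfl
  | l i, k a => rfl
  | x i, x j => rfl
  | x i, l j => rfl
  | l i, x j => rfl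
  | l i, l j => rfl

theorem kk_x (a b : T) (i : C) : mul (mul (k a : El d) (k b)) (x i) = mul (k a) (mul (k b) (x i)) := by
  fin_cases a <;> fin_cases b <;> rfl

theorem kk_l (a b : T) (i : C) : mul (mul (k a : El d) (k b)) (l i) = mul (k a) (mul (k b) (l i)) := by
  fin_cases a <;> fin_cases b <;> rfl

theorem mul_assoc' : ∀ u v w : El d, mul (mul u v) w = mul u (mul v w)
  | k a, k b, k c => congrArg k (mulT_assoc a b c)
  | k a, k b, x j => kk_x a b j
  | k a, k b, l j => kk_l a b j
  | k a, x i, k c => by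
    rw [mul_comm' (mul (k a) (x i)), ← kk_x, mul_comm' (x i), ← kk_x, mul_comm' (k c) (k a)]
  | k a, l i, k c => by
    rw [mul_comm' (mul (k a) (l i)), ← kk_l, mul_comm' (l i), ← kk_l, mul_comm' (k c) (k a)]
  | x i, k b, k c => by
    rw [mul_comm' (mul (x i) (k b)), mul_comm' (x i), ← kk_x, mul_comm' (x i),
      mul_comm' (k c) (k b)]
  | l i, k b, k c => by
    rw [mul_comm' (mul (l i) (k b)), mul_comm' (l i), ← kk_l, mul_comm' (l i),
      mul_comm' (k c) (k b)]
  | k a, x i, x j => by fin_cases a <;> rfl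
  | k a, x i, l j => by fin_cases a <;> rfl
  | k a, l i, x j => by fin_cases a <;> rfl
  | k a, l i, l j => by fin_cases a <;> rfl
  | x i, k b, x j => by fin_cases b <;> rfl
  | x i, k b, l j => by fin_cases b <;> rfl
  | l i, k b, x j => by fin_cases b <;> rfl
  | l i, k b, l j => by fin_cases b <;> rfl
  | x i, x j, k c => by fin_cases c <;> rfl
  | x i, l j, k c => by fin_cases c <;> rfl
  | l i, x j, k c => by fin_cases c <;> rfl
  | l i, l j, k c => by fin_cases c <;> rfl
  | x i, x j, x m => rfl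
  | x i, x j, l m => rfl
  | x i, l j, x m => rfl
  | x i, l j, l m => rfl
  | l i, x j, x m => rfl
  | l i, x j, l m => rfl
  | l i, l j, x m => rfl
  | l i, l j, l m => rfl

end El

end Pool.Agent.V11254.MTLEl
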