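import Mathlib
import Pool.Agent.V11254.MTLEl

/-!
# Residuation in the chains `El d`
-/

set_option autoImplicit false
set_option linter.unusedVariables false

namespace Pool.Agent.V11254.MTLEl

open FLewEl (FLew Fml eval)

namespace El

variable {C : Type} {d : Dc C}

/-- the residuation condition -/
def Res (w y v : El d) : Prop := le (mul w y) v ↔ le w (imp y v)

theorem r_kkk (a b c : T) : Res (k a : El d) (k b) (k c) := by
  have key : (mulT a b ≤ c) ↔ if b = 8 ∧ c = 2 then a ≤ 5 else a ≤ impT b c := by
    revert a b c; decide +kernel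
  show mulT a b ≤ c ↔ le (k a) (if b = 8 ∧ c = 2 then x d.z else k (impT b c))
  rw [key]
  split_ifs <;> exact Iff.rfl

theorem r_xkk (i : C) (b c : T) : Res (x i : El d) (k b) (k c) := by
  unfold Res
  fin_cases b <;> fin_cases c <;> simp [le, mul, imp, kx, impT, d.top]

theorem r_lkk (i : C) (b c : T) : Res (l i : El d) (k b) (k c) := by
  unfold Res
  fin_cases b <;> fin_cases c <;> simp [le, mul, imp, impT]

theorem r_kxk (i : C) (a c : T) : Res (k a : El d) (x i) (k c) := by
  unfold Res
  fin_cases a <;> fin_cases c <;> simp [le, mul, imp, kx]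

theorem r_klk (i : C) (a c : T) : Res (k a : El d) (l i) (k c) := by
  unfold Res
  fin_cases a <;> fin_cases c <;> simp [le, mul, imp]

theorem r_kkx (i : C) (a b : T) : Res (k a : El d) (k b) (x i) := by
  unfold Res
  fin_cases a <;> fin_cases b <;> simp [le, mul, imp, mulT]

theorem r_kkl (i : C) (a b : T) : Res (k a : El d) (k b) (l i) := by
  unfold Res
  fin_cases a <;> fin_cases b <;> simp [le, mul, imp, mulT]

theorem r_xxk (i j : C) (c : T) : Res (x i : El d) (x j) (k c) := by
  unfold Res
  fin_cases c <;> simp [le, mul, imp, d.top]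

theorem r_xlk (i j : C) (c : T) : Res (x i : El d) (l j) (k c) := by
  unfold Res
  fin_cases c <;> simp [le, mul, imp]

theorem r_lxk (i j : C) (c : T) : Res (l i : El d) (x j) (k c) := by
  unfold Res
  fin_cases c <;> simp [le, mul, imp]

theorem r_llk (i j : C) (c : T) : Res (l i : El d) (l j) (k c) := by
  unfold Res
  fin_cases c <;> simp [le, mul, imp]

theorem r_xkx (i j : C) (b : T) : Res (x i : El d) (k b) (x j) := by
  unfold Res
  fin_cases b <;> simp [le, mul, imp, kx]

theorem r_xkl (i j : C) (b : T) : Res (x i : El d) (k b) (l j) := by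
  unfold Res
  fin_cases b <;> simp [le, mul, imp, kx, d.s_p, d.μ_ρ]

theorem r_lkx (i j : C) (b : T) : Res (l i : El d) (k b) (x j) := by
  unfold Res
  fin_cases b <;> simp [le, mul, imp]

theorem r_lkl (i j : C) (b : T) : Res (l i : El d) (k b) (l j) := by
  unfold Res
  fin_cases b <;> simp [le, mul, imp]

theorem r_kxx (i j : C) (a : T) : Res (k a : El d) (x i) (x j) := by
  unfold Res
  by_cases h : d.le i j
  · fin_cases a <;> simp [le, mul, imp, kx, h]
  · fin_cases a <;> simp [le, mul, imp, kx, h]

theorem r_kxl (i j : C) (a : T) : Res (k a : El d) (x i) (l j) := by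
  unfold Res
  by_cases h : d.le i j
  · have h1 : d.le (d.s i) j := d.trans _ _ _ (d.s_lt i).1 h
    have h2 : d.le (d.μ i) j := d.trans _ _ _ (d.μ_le i) h1
    fin_cases a <;> simp [le, mul, imp, kx, h, h1, h2]
  by_cases h1 : d.le (d.s i) j
  · have h2 : d.le (d.μ i) j := d.trans _ _ _ (d.μ_le i) h1
    fin_cases a <;> simp [le, mul, imp, kx, h, h1, h2]
  by_cases h2 : d.le (d.μ i) j
  · fin_cases a <;> simp [le, mul, imp, kx, h, h1, h2]
  · fin_cases a <;> simp [le, mul, imp, kx, h, h1, h2]

theorem r_klx (i j : C) (a : T) : Res (k a : El d) (l i) (x j) := by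
  unfold Res
  fin_cases a <;> simp [le, mul, imp]

theorem r_kll (i j : C) (a : T) : Res (k a : El d) (l i) (l j) := by
  unfold Res
  by_cases h : d.le i j
  · fin_cases a <;> simp [le, mul, imp, h]
  · fin_cases a <;> simp [le, mul, imp, h]

theorem r_xxx (i j m : C) : Res (x i : El d) (x j) (x m) := by
  unfold Res
  by_cases h : d.le j m <;> simp [le, mul, imp, h]

theorem r_xxl (i j m : C) : Res (x i : El d) (x j) (l m) := by
  unfold Res
  by_cases h : d.le j m
  · simp [le, mul, imp, h]
  by_cases h1 : d.le (d.s j) m
  · simp [le, mul, imp, h, h1]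
  by_cases h2 : d.le (d.μ j) m
  · simp [le, mul, imp, h, h1, h2]
  · simp [le, mul, imp, h, h1, h2, d.top]

theorem r_xlx (i j m : C) : Res (x i : El d) (l j) (x m) := by
  unfold Res
  simp [le, mul, imp]

theorem r_xll (i j m : C) : Res (x i : El d) (l j) (l m) := by
  unfold Res
  by_cases h : d.le j m <;> simp [le, mul, imp, h]

theorem r_lxx (i j m : C) : Res (l i : El d) (x j) (x m) := by
  unfold Res
  by_cases h : d.le j m <;> simp [le, mul, imp, h]

theorem r_lxl (i j m : C) : Res (l i : El d) (x j) (l m) := by
  unfold Res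
  by_cases h : d.le j m
  · simp [le, mul, imp, h]
  by_cases h1 : d.le (d.s j) m
  · simp [le, mul, imp, h, h1]
  by_cases h2 : d.le (d.μ j) m
  · simp [le, mul, imp, h, h1, h2]
  · simp [le, mul, imp, h, h1, h2]

theorem r_llx (i j m : C) : Res (l i : El d) (l j) (x m) := by
  unfold Res
  simp [le, mul, imp]

theorem r_lll (i j m : C) : Res (l i : El d) (l j) (l m) := by
  unfold Res
  by_cases h : d.le j m <;> simp [le, mul, imp, h]

theorem residuation' : ∀ w y v : El d, le (mul w y) v ↔ le w (imp y v)
  | k a, k b, k c => r_kkk a b c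
  | k a, k b, x m => r_kkx m a b
  | k a, k b, l m => r_kkl m a b
  | k a, x j, k c => r_kxk j a c
  | k a, x j, x m => r_kxx j m a
  | k a, x j, l m => r_kxl j m a
  | k a, l j, k c => r_klk j a c
  | k a, l j, x m => r_klx j m a
  | k a, l j, l m => r_kll j m a
  | x i, k b, k c => r_xkk i b c
  | x i, k b, x m => r_xkx i m b
  | x i, k b, l m => r_xkl i m b
  | x i, x j, k c => r_xxk i j c
  | x i, x j, x m => r_xxx i j m
  | x i, x j, l m => r_xxl i j m
  | x i, l j, k c => r_xlk i j c
  | x i, l j, x m => r_xlx i j m
  | x i, l j, l m => r_xll i j m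
  | l i, k b, k c => r_lkk i b c
  | l i, k b, x m => r_lkx i m b
  | l i, k b, l m => r_lkl i m b
  | l i, x j, k c => r_lxk i j c
  | l i, x j, x m => r_lxx i j m
  | l i, x j, l m => r_lxl i j m
  | l i, l j, k c => r_llk i j c
  | l i, l j, x m => r_llx i j m
  | l i, l j, l m => r_lll i j m

open Classical in
noncomputable instance : LinearOrder (El d) where
  le := le
  le_refl := le_refl'
  le_trans := le_trans'
  le_antisymm := le_antisymm'
  le_total := le_total'
  toDecidableLE := fun a b => inferInstance

noncomputable instance : MTL (El d) where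
  __ := (inferInstance : LinearOrder (El d))
  sup := max
  le_sup_left := le_max_left
  le_sup_right := le_max_right
  sup_le := fun _ _ _ => max_le
  inf := min
  inf_le_left := min_le_left
  inf_le_right := min_le_right
  le_inf := fun _ _ _ => le_min
  mul := mul
  one := k 9
  mul_assoc := mul_assoc'
  mul_comm := mul_comm'
  one_mul := one_mul'
  mul_one := fun x => (mul_comm' x (k 9)).trans (one_mul' x)
  top := k 9
  bot := k 0
  le_top := fun x => by
    cases x with
    | k a => exact Fin.le_last a
    | x i => exact (by decide : (6 : T) ≤ 9)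
    | l i => exact (by decide : (2 : T) ≤ 9)
  bot_le := fun x => by
    cases x with
    | k a => exact Fin.zero_le a
    | x i => exact (by decide : (0 : T) ≤ 5)
    | l i => exact (by decide : (0 : T) ≤ 1)
  imp := imp
  top_eq_one := rfl
  residuation := residuation'
  prelin := fun a b => by
    have h9 : ∀ c : El d, le c (k 9) := fun c => by
      cases c with
      | k a => exact Fin.le_last a
      | x i => exact (by decide : (6 : T) ≤ 9)
      | l i => exact (by decide : (2 : T) ≤ 9)
    rcases le_total' a b with h | h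
    · refine le_antisymm (h9 _) (le_trans ?_ (le_max_left _ _))
      exact (residuation' (k 9) a b).1 (by rw [one_mul']; exact h)
    · refine le_antisymm (h9 _) (le_trans ?_ (le_max_right _ _))
      exact (residuation' (k 9) b a).1 (by rw [one_mul']; exact h)

end El

end Pool.Agent.V11254.MTLEl
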