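import Mathlib
import Pool.Agent.V11254.MTLRes

/-!
# Definable constants, embeddings and amalgamation of the chains `El d`
-/

set_option autoImplicit false
set_option linter.unusedVariables false

namespace Pool.Agent.V11254.MTLEl

open FLewEl (FLew Fml eval imp_eq_one le_one')

/-! ### Definable constants -/

/-- the constant `h`, from any non-trivial element -/
def tH (ζ : Fml) : Fml :=
  let y := (ζ.and ζ.neg).neg
  y.or (y.mul y).neg

/-- the constants in terms of `h` -/
def tC (h : Fml) : T → Fml :=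
  let p := h.mul h
  let h' := p.neg
  let c3 := h'.mul h'
  let g := h.imp c3
  ![.f, h.mul p, g.mul g, c3, h.neg, p, g, h', h, .e]

/-- definable constants -/
def tG (ζ : Fml) (c : T) : Fml := tC (tH ζ) c

namespace El

variable {C : Type} {d : Dc C}

theorem bot_k : (⊥ : El d) = k 0 := rfl
theorem one_k : (1 : El d) = k 9 := rfl
theorem neg_k (c : T) : FLew.imp (k c : El d) ⊥ = k (impT c 0) := by
  show imp (k c) (k 0) = _
  simp only [imp]
  rw [if_neg (fun h => absurd h.2 (by decide))]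
theorem neg_x (i : C) : FLew.imp (x i : El d) ⊥ = k 5 := rfl
theorem neg_l (i : C) : FLew.imp (l i : El d) ⊥ = k 8 := rfl
theorem mul_kk' (a b : T) : (k a : El d) * k b = k (mulT a b) := rfl

theorem le_kk {a b : T} : (k a : El d) ≤ k b ↔ a ≤ b := Iff.rfl

theorem inf_kk (a b : T) : (k a : El d) ⊓ k b = k (min a b) := by
  rcases le_total a b with h | h
  · rw [min_eq_left h]; exact inf_eq_left.2 h
  · rw [min_eq_right h]; exact inf_eq_right.2 h
theorem sup_kk (a b : T) : (k a : El d) ⊔ k b = k (max a b) := by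
  rcases le_total a b with h | h
  · rw [max_eq_right h]; exact sup_eq_right.2 h
  · rw [max_eq_left h]; exact sup_eq_left.2 h

theorem H_const : ∀ c : T, c ≠ 0 → c ≠ 9 →
    max (impT (min c (impT c 0)) 0)
      (impT (mulT (impT (min c (impT c 0)) 0) (impT (min c (impT c 0)) 0)) 0) = 8 := by
  decide +kernel

/-- the value of `tH` -/
theorem eval_tH (u : ℕ → El d) (ζ : Fml) (h0 : eval u ζ ≠ k 0) (h1 : eval u ζ ≠ k 9) :
    eval u (tH ζ) = k 8 := by
  show FLew.imp (eval u ζ ⊓ FLew.imp (eval u ζ) ⊥) ⊥ ⊔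
    FLew.imp (FLew.imp (eval u ζ ⊓ FLew.imp (eval u ζ) ⊥) ⊥ *
      FLew.imp (eval u ζ ⊓ FLew.imp (eval u ζ) ⊥) ⊥) ⊥ = k 8
  rcases hx : eval u ζ with c | i | i
  · rw [hx] at h0 h1
    simp only [neg_k, inf_kk, mul_kk', sup_kk]
    rw [H_const c (fun h => h0 (h ▸ rfl)) (fun h => h1 (h ▸ rfl))]
  · have : (x i : El d) ⊓ k 5 = k 5 := inf_eq_right.2 (show (5 : T) ≤ 5 from le_rfl)
    rw [neg_x, this]
    simp only [neg_k, mul_kk', sup_kk]
    rfl
  · have : (l i : El d) ⊓ k 8 = l i := inf_eq_left.2 (show (2 : T) ≤ 8 by decide)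
    rw [neg_l, this, neg_l]
    simp only [neg_k, mul_kk', sup_kk]
    rfl

theorem eval_tC (u : ℕ → El d) (η : Fml) (h : eval u η = k 8) (c : T) :
    eval u (tC η c) = k c := by
  have hp : eval u (η.mul η) = k 5 := by show eval u η * eval u η = _; rw [h]; rfl
  have hh' : eval u (η.mul η).neg = k 7 := by
    show FLew.imp (eval u (η.mul η)) ⊥ = _; rw [hp, neg_k]; rfl
  have h3 : eval u ((η.mul η).neg.mul (η.mul η).neg) = k 3 := by
    show eval u (η.mul η).neg * eval u (η.mul η).neg = _; rw [hh']; rfl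
  have hg : eval u (η.imp ((η.mul η).neg.mul (η.mul η).neg)) = k 6 := by
    show FLew.imp (eval u η) (eval u ((η.mul η).neg.mul (η.mul η).neg)) = _
    rw [h3, h]
    show imp (k 8) (k 3) = _
    simp only [imp]
    rw [if_neg (fun h => absurd h.2 (by decide))]
    rfl
  fin_cases c
  · rfl
  · show eval u η * eval u (η.mul η) = _
    rw [h, hp]; rfl
  · show eval u (η.imp ((η.mul η).neg.mul (η.mul η).neg)) *
      eval u (η.imp ((η.mul η).neg.mul (η.mul η).neg)) = _
    rw [hg]; rfl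
  · exact h3
  · show FLew.imp (eval u η) ⊥ = _
    rw [h, neg_k]; rfl
  · exact hp
  · exact hg
  · exact hh'
  · exact h
  · rfl

theorem eval_tG (u : ℕ → El d) (ζ : Fml) (h0 : eval u ζ ≠ k 0) (h1 : eval u ζ ≠ k 9) (c : T) :
    eval u (tG ζ c) = k c := eval_tC u _ (eval_tH u ζ h0 h1) c

theorem vars_tG (ζ : Fml) (c : T) : (tG ζ c).vars ⊆ ζ.vars := by
  have h1 : (tH ζ).vars ⊆ ζ.vars := by
    intro n hn
    simp only [tH, Fml.neg, Fml.vars] at hn
    simpa using hn
  have h2 : ∀ η : Fml, (tC η c).vars ⊆ η.vars := by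
    intro η n hn
    fin_cases c <;> simp [tC, Fml.neg, Fml.vars] at hn <;> tauto
  exact (h2 _).trans h1

/-! ### Fifth powers -/

theorem pow5_T : ∀ c : T, c ≠ 9 → mulT c (mulT c (mulT c (mulT c c))) = 0 := by decide +kernel

theorem eval_pow5_one (u : ℕ → El d) (ζ : Fml) (h : eval u ζ = 1) : eval u ζ.pow5 = 1 := by
  show eval u ζ * (eval u ζ * (eval u ζ * (eval u ζ * eval u ζ))) = 1
  rw [h]; rfl

theorem eval_pow5_ne (u : ℕ → El d) (ζ : Fml) (h : eval u ζ ≠ 1) : eval u ζ.pow5 = ⊥ := by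
  show eval u ζ * (eval u ζ * (eval u ζ * (eval u ζ * eval u ζ))) = ⊥
  rcases hx : eval u ζ with c | i | i
  · rw [hx] at h
    simp only [mul_kk']
    rw [pow5_T c (fun h1 => h (h1 ▸ rfl))]
    rfl
  · rfl
  · rfl

end El

/-! ### Embeddings -/

/-- embeddings of coloured discrete orders -/
structure Emb {C C' : Type} (d : Dc C) (d' : Dc C') where
  f : C → C'
  hle : ∀ i j, d'.le (f i) (f j) ↔ d.le i j
  hz : f d.z = d'.z
  hs : ∀ i, f (d.s i) = d'.s (f i)
  hp : ∀ i, f (d.p i) = d'.p (f i)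
  hc : ∀ i, d'.col (f i) = d.col i

namespace El

/-- induced map -/
def map {C C' : Type} {d : Dc C} {d' : Dc C'} (ι : Emb d d') : El d → El d'
  | k c => k c
  | x i => x (ι.f i)
  | l i => l (ι.f i)

variable {C C' : Type} {d : Dc C} {d' : Dc C'} (ι : Emb d d')

theorem Emb_μ (i : C) : ι.f (d.μ i) = d'.μ (ι.f i) := by
  unfold Dc.μ
  rw [ι.hc]
  split_ifs <;> simp only [ι.hs]

theorem Emb_ρ (i : C) : ι.f (d.ρ i) = d'.ρ (ι.f i) := by
  unfold Dc.ρ
  rw [← ι.hp, ← ι.hp, ← ι.hp, ι.hc]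
  split_ifs <;> rfl

theorem map_le (u v : El d) : map ι u ≤ map ι v ↔ u ≤ v := by
  show le (map ι u) (map ι v) ↔ le u v
  cases u <;> cases v <;> first | exact Iff.rfl | exact ι.hle _ _

theorem map_eq_one {u : El d} : map ι u = 1 ↔ u = 1 := by
  have h1 : ∀ {C : Type} {d : Dc C} (u : El d), u = 1 ↔ (1 : El d) ≤ u := fun u =>
    ⟨fun h => h.ge, fun h => le_antisymm (le_one' u) h⟩
  rw [h1, h1, ← map_le ι]
  exact Iff.rfl

theorem map_sup (u v : El d) : map ι (u ⊔ v) = map ι u ⊔ map ι v := by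
  rcases le_total u v with h | h
  · rw [sup_eq_right.2 h, sup_eq_right.2 ((map_le ι u v).2 h)]
  · rw [sup_eq_left.2 h, sup_eq_left.2 ((map_le ι v u).2 h)]

theorem map_inf (u v : El d) : map ι (u ⊓ v) = map ι u ⊓ map ι v := by
  rcases le_total u v with h | h
  · rw [inf_eq_left.2 h, inf_eq_left.2 ((map_le ι u v).2 h)]
  · rw [inf_eq_right.2 h, inf_eq_right.2 ((map_le ι v u).2 h)]

theorem map_kx (a : T) (i : C) : map ι (kx a i) = kx a (ι.f i) := by
  unfold kx
  rw [← ι.hs, ← Emb_μ]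
  split_ifs <;> rfl

theorem map_mul (u v : El d) : map ι (u * v) = map ι u * map ι v := by
  show map ι (mul u v) = mul (map ι u) (map ι v)
  cases u with
  | k a =>
    cases v with
    | k b => rfl
    | x j => exact map_kx ι a j
    | l j => simp only [mul, map]; split_ifs <;> rfl
  | x i =>
    cases v with
    | k b => exact map_kx ι b i
    | x j => rfl
    | l j => rfl
  | l i =>
    cases v with
    | k b => simp only [mul, map]; split_ifs <;> rfl
    | x j => rfl
    | l j => rfl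

theorem map_imp (u v : El d) : map ι (FLew.imp u v) = FLew.imp (map ι u) (map ι v) := by
  classical
  show map ι (imp u v) = imp (map ι u) (map ι v)
  cases u with
  | k a =>
    cases v with
    | k b => simp only [imp, map, ← ι.hz]; split_ifs <;> rfl
    | x j => simp only [imp, map]; split_ifs <;> rfl
    | l j => simp only [imp, map, ← ι.hp, ← Emb_ρ]; split_ifs <;> rfl
  | x i =>
    cases v with
    | k b => simp only [imp, map, ← ι.hz]; split_ifs <;> rfl
    | x j => simp only [imp, map, ι.hle]; split_ifs <;> rfl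
    | l j => simp only [imp, map, ι.hle, ← ι.hz, ← ι.hs, ← Emb_μ]; split_ifs <;> rfl
  | l i =>
    cases v with
    | k b => simp only [imp, map]; split_ifs <;> rfl
    | x j => rfl
    | l j => simp only [imp, map, ι.hle]; split_ifs <;> rfl

theorem eval_map (u : ℕ → El d) (ζ : Fml) : eval (fun n => map ι (u n)) ζ = map ι (eval u ζ) := by
  induction ζ with
  | var n => rfl
  | e => rfl
  | f => rfl
  | and φ ψ ih1 ih2 => show _ ⊓ _ = _; rw [ih1, ih2, ← map_inf]; rfl
  | or φ ψ ih1 ih2 => show _ ⊔ _ = _; rw [ih1, ih2, ← map_sup]; rfl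
  | mul φ ψ ih1 ih2 => show _ * _ = _; rw [ih1, ih2, ← map_mul]; rfl
  | imp φ ψ ih1 ih2 => show FLew.imp _ _ = _; rw [ih1, ih2, ← map_imp]; rfl

end El

end Pool.Agent.V11254.MTLEl
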