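import Mathlib
import Pool.Agent.V11254.MTLFml

/-!
# Amalgamation of coloured discrete orders
-/

set_option autoImplicit false
set_option linter.unusedVariables false

namespace Pool.Agent.V11254.MTLEl

open FLewEl (FLew Fml eval imp_eq_one le_one')

section Amalg

variable {C₁ C₂ : Type} (d₁ : Dc C₁) (d₂ : Dc C₂)

/-- partial isomorphisms -/
structure PIso where
  R : C₁ → C₂ → Prop
  le : ∀ {x y x' y'}, R x y → R x' y' → (d₁.le x x' ↔ d₂.le y y')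
  z : R d₁.z d₂.z
  s : ∀ {x y}, R x y → R (d₁.s x) (d₂.s y)
  p : ∀ {x y}, R x y → R (d₁.p x) (d₂.p y)
  c : ∀ {x y}, R x y → d₁.col x = d₂.col y

variable {d₁ d₂} (r : PIso d₁ d₂)

theorem PIso.inj {x x' : C₁} {y : C₂} (h : r.R x y) (h' : r.R x' y) : x = x' :=
  d₁.anti _ _ ((r.le h h').2 (d₂.refl _)) ((r.le h' h).2 (d₂.refl _))

theorem PIso.fn {x : C₁} {y y' : C₂} (h : r.R x y) (h' : r.R x y') : y = y' :=
  d₂.anti _ _ ((r.le h h').1 (d₁.refl _)) ((r.le h' h).1 (d₁.refl _))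

/-- the new points -/
def PIso.N : Set C₂ := {y | ∀ x, ¬ r.R x y}

theorem PIso.N_s {y : C₂} (hy : y ∈ r.N) : d₂.s y ∈ r.N := fun x hx => hy (d₁.p x) (by
  have := r.p hx
  rwa [d₂.ps] at this)

theorem PIso.N_p {y : C₂} (hy : y ∈ r.N) : d₂.p y ∈ r.N := by
  intro x hx
  rcases d₂.sp y with h | h
  · exact hy _ (h ▸ r.z)
  · exact hy (d₁.s x) (by
      have := r.s hx
      rwa [h] at this)

theorem PIso.sp {y : C₂} (hy : y ∈ r.N) : d₂.s (d₂.p y) = y := by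
  rcases d₂.sp y with h | h
  · exact absurd (h ▸ r.z) (hy d₁.z)
  · exact h

/-- the order of the amalgam -/
def PIso.ale : C₁ ⊕ r.N → C₁ ⊕ r.N → Prop
  | Sum.inl x, Sum.inl x' => d₁.le x x'
  | Sum.inr y, Sum.inr y' => d₂.le y.1 y'.1
  | Sum.inl x, Sum.inr y => ∃ a b, r.R a b ∧ d₂.le b y.1 ∧ d₁.le x a
  | Sum.inr y, Sum.inl x => ¬ ∃ a b, r.R a b ∧ d₂.le b y.1 ∧ d₁.le x a

/-- the amalgam -/
def PIso.D : Dc (C₁ ⊕ r.N) where
  le := r.ale
  refl := by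
    rintro (x | y)
    · exact d₁.refl x
    · exact d₂.refl y.1
  trans := by
    rintro (x | y) (x' | y') (x'' | y'') h1 h2
    · exact d₁.trans _ _ _ h1 h2
    · obtain ⟨a, b, h3, h4, h5⟩ := h2
      exact ⟨a, b, h3, h4, d₁.trans _ _ _ h1 h5⟩
    · obtain ⟨a, b, h3, h4, h5⟩ := h1
      rcases d₁.total x x'' with h6 | h6
      · exact h6
      · exact absurd ⟨a, b, h3, h4, d₁.trans _ _ _ h6 h5⟩ h2
    · obtain ⟨a, b, h3, h4, h5⟩ := h1
      exact ⟨a, b, h3, d₂.trans _ _ _ h4 h2, h5⟩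
    · rintro ⟨a, b, h3, h4, h5⟩
      exact h1 ⟨a, b, h3, h4, d₁.trans _ _ _ h2 h5⟩
    · obtain ⟨a, b, h3, h4, h5⟩ := h2
      rcases d₂.total y.1 y''.1 with h6 | h6
      · exact h6
      · exact absurd ⟨a, b, h3, d₂.trans _ _ _ h4 h6, h5⟩ h1
    · rintro ⟨a, b, h3, h4, h5⟩
      exact h2 ⟨a, b, h3, d₂.trans _ _ _ h4 h1, h5⟩
    · exact d₂.trans _ _ _ h1 h2
  anti := by
    rintro (x | y) (x' | y') h1 h2
    · exact congrArg Sum.inl (d₁.anti _ _ h1 h2)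
    · exact absurd h1 h2
    · exact absurd h2 h1
    · exact congrArg Sum.inr (Subtype.ext (d₂.anti _ _ h1 h2))
  total := by
    rintro (x | y) (x' | y')
    · exact d₁.total _ _
    · exact em _
    · exact (em _).symm
    · exact d₂.total _ _
  z := Sum.inl d₁.z
  top := by
    rintro (x | y)
    · exact d₁.top x
    · rintro ⟨a, b, h3, h4, h5⟩
      have ha : a = d₁.z := d₁.anti _ _ (d₁.top a) h5
      have hb : b = d₂.z := r.fn h3 (ha ▸ r.z)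
      have hy : y.1 = d₂.z := d₂.anti _ _ (d₂.top _) (hb ▸ h4)
      exact y.2 d₁.z (hy ▸ r.z)
  s := Sum.map d₁.s fun y => ⟨d₂.s y.1, r.N_s y.2⟩
  p := Sum.map d₁.p fun y => ⟨d₂.p y.1, r.N_p y.2⟩
  s_le := by
    rintro (x | y) (x' | y')
    · exact d₁.s_le _ _
    · show (¬ ∃ a b, r.R a b ∧ d₂.le b y'.1 ∧ d₁.le x a) ↔
        ¬ ∃ a b, r.R a b ∧ d₂.le b y'.1 ∧ d₁.le (d₁.s x) a
      rw [not_iff_not]
      constructor
      · rintro ⟨a, b, h3, h4, h5⟩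
        exact ⟨a, b, h3, h4, d₁.trans _ _ _ (d₁.s_lt x).1 h5⟩
      · rintro ⟨a, b, h3, h4, h5⟩
        refine ⟨d₁.p a, d₂.p b, r.p h3, ?_, (d₁.s_p _ _).1 h5⟩
        by_contra h6
        have h7 : d₂.le y'.1 (d₂.s (d₂.p b)) := (d₂.s_le _ _).1 h6
        rcases d₂.sp b with h8 | h8
        · have : y'.1 = d₂.z := d₂.anti _ _ (d₂.top _) (h8 ▸ h4)
          exact y'.2 d₁.z (this ▸ r.z)
        · rw [h8] at h7
          have : b = y'.1 := d₂.anti _ _ h4 h7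
          exact y'.2 a (this ▸ h3)
    · show (¬ ¬ ∃ a b, r.R a b ∧ d₂.le b y.1 ∧ d₁.le x' a) ↔
        ∃ a b, r.R a b ∧ d₂.le b (d₂.s y.1) ∧ d₁.le x' a
      rw [not_not]
      constructor
      · rintro ⟨a, b, h3, h4, h5⟩
        refine ⟨a, b, h3, ?_, h5⟩
        rw [← d₂.s_le]
        intro h6
        have : b = y.1 := d₂.anti _ _ h4 h6
        exact y.2 a (this ▸ h3)
      · rintro ⟨a, b, h3, h4, h5⟩
        exact ⟨a, b, h3, d₂.trans _ _ _ h4 (d₂.s_lt _).1, h5⟩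
    · exact d₂.s_le _ _
  ps := by
    rintro (x | y)
    · exact congrArg Sum.inl (d₁.ps x)
    · exact congrArg Sum.inr (Subtype.ext (d₂.ps y.1))
  sp := by
    rintro (x | y)
    · rcases d₁.sp x with h | h
      · exact Or.inl (congrArg Sum.inl h)
      · exact Or.inr (congrArg Sum.inl h)
    · exact Or.inr (congrArg Sum.inr (Subtype.ext (r.sp y.2)))
  pz := congrArg Sum.inl d₁.pz
  col := Sum.elim d₁.col fun y => d₂.col y.1

/-- first embedding -/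
def PIso.ι₁ : Emb d₁ r.D where
  f := Sum.inl
  hle _ _ := Iff.rfl
  hz := rfl
  hs _ := rfl
  hp _ := rfl
  hc _ := rfl

open Classical in
/-- second embedding -/
noncomputable def PIso.j (y : C₂) : C₁ ⊕ r.N :=
  if h : ∃ x, r.R x y then Sum.inl h.choose else Sum.inr ⟨y, fun x hx => h ⟨x, hx⟩⟩

theorem PIso.j1 {x : C₁} {y : C₂} (h : r.R x y) : r.j y = Sum.inl x := by
  have h' : ∃ x, r.R x y := ⟨x, h⟩
  simp only [j, dif_pos h']
  exact congrArg Sum.inl (r.inj h'.choose_spec h)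

theorem PIso.j2 {y : C₂} (h : y ∈ r.N) : r.j y = Sum.inr ⟨y, h⟩ := by
  have h' : ¬ ∃ x, r.R x y := fun ⟨x, hx⟩ => h x hx
  simp only [j, dif_neg h']

theorem PIso.jc (y : C₂) : (∃ x, r.R x y) ∨ y ∈ r.N := by
  by_cases h : ∃ x, r.R x y
  · exact Or.inl h
  · exact Or.inr fun x hx => h ⟨x, hx⟩

/-- second embedding -/
noncomputable def PIso.ι₂ : Emb d₂ r.D where
  f := r.j
  hle y y' := by
    rcases r.jc y with ⟨x, hx⟩ | hy
    · rcases r.jc y' with ⟨x', hx'⟩ | hy'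
      · rw [r.j1 hx, r.j1 hx']
        exact r.le hx hx'
      · rw [r.j1 hx, r.j2 hy']
        constructor
        · rintro ⟨a, b, h3, h4, h5⟩
          exact d₂.trans _ _ _ ((r.le hx h3).1 h5) h4
        · intro h
          exact ⟨x, y, hx, h, d₁.refl _⟩
    · rcases r.jc y' with ⟨x', hx'⟩ | hy'
      · rw [r.j2 hy, r.j1 hx']
        constructor
        · intro h
          rcases d₂.total y y' with h1 | h1
          · exact h1
          · exact absurd ⟨x', y', hx', h1, d₁.refl _⟩ h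
        · rintro h ⟨a, b, h3, h4, h5⟩
          have h6 := (r.le hx' h3).1 h5
          have : y = y' := d₂.anti _ _ h (d₂.trans _ _ _ h6 h4)
          exact hy x' (this ▸ hx')
      · rw [r.j2 hy, r.j2 hy']
        exact Iff.rfl
  hz := r.j1 r.z
  hs y := by
    rcases r.jc y with ⟨x, hx⟩ | hy
    · rw [r.j1 hx, r.j1 (r.s hx)]; rfl
    · rw [r.j2 hy, r.j2 (r.N_s hy)]; rfl
  hp y := by
    rcases r.jc y with ⟨x, hx⟩ | hy
    · rw [r.j1 hx, r.j1 (r.p hx)]; rfl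
    · rw [r.j2 hy, r.j2 (r.N_p hy)]; rfl
  hc y := by
    rcases r.jc y with ⟨x, hx⟩ | hy
    · rw [r.j1 hx]; exact r.c hx
    · rw [r.j2 hy]; rfl

theorem PIso.comm {x : C₁} {y : C₂} (h : r.R x y) : r.ι₁.f x = r.ι₂.f y := (r.j1 h).symm

end Amalg

/-- the colours of the standard part are given by `S` -/
def Good (S : Set ℕ) {C : Type} (d : Dc C) : Prop := ∀ n, d.col (d.s^[n] d.z) = true ↔ n ∈ S

theorem Emb.iter {C C' : Type} {d : Dc C} {d' : Dc C'} (ι : Emb d d') (n : ℕ) :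
    ι.f (d.s^[n] d.z) = d'.s^[n] d'.z := by
  induction n with
  | zero => exact ι.hz
  | succ n ih => rw [Function.iterate_succ_apply', Function.iterate_succ_apply', ι.hs, ih]

theorem Good.emb {S : Set ℕ} {C C' : Type} {d : Dc C} {d' : Dc C'} (ι : Emb d d')
    (h : Good S d) : Good S d' := by
  intro n
  rw [← ι.iter, ι.hc]
  exact h n

/-- the standard partial isomorphism -/
def stdIso {S : Set ℕ} {C₁ C₂ : Type} {d₁ : Dc C₁} {d₂ : Dc C₂} (h₁ : Good S d₁)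
    (h₂ : Good S d₂) : PIso d₁ d₂ where
  R x y := ∃ n, x = d₁.s^[n] d₁.z ∧ y = d₂.s^[n] d₂.z
  le := by
    have key : ∀ {C : Type} (d : Dc C) (n m : ℕ), d.le (d.s^[n] d.z) (d.s^[m] d.z) ↔ m ≤ n := by
      intro C d n m
      induction m generalizing n with
      | zero => exact ⟨fun _ => Nat.zero_le n, fun _ => d.top _⟩
      | succ m ih =>
        cases n with
        | zero =>
          refine ⟨fun h => absurd h ?_, fun h => absurd h (by omega)⟩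
          rw [Function.iterate_succ_apply']
          intro h
          exact (d.s_lt _).2 (d.trans _ _ _ (d.top _) h)
        | succ n =>
          rw [Function.iterate_succ_apply', Function.iterate_succ_apply', d.ss_le, ih]
          omega
    rintro x y x' y' ⟨n, rfl, rfl⟩ ⟨m, rfl, rfl⟩
    rw [key, key]
  z := ⟨0, rfl, rfl⟩
  s := by
    rintro x y ⟨n, rfl, rfl⟩
    exact ⟨n + 1, by rw [Function.iterate_succ_apply'], by rw [Function.iterate_succ_apply']⟩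
  p := by
    rintro x y ⟨n, rfl, rfl⟩
    cases n with
    | zero => exact ⟨0, d₁.pz, d₂.pz⟩
    | succ n =>
      exact ⟨n, by rw [Function.iterate_succ_apply', d₁.ps],
        by rw [Function.iterate_succ_apply', d₂.ps]⟩
  c := by
    rintro x y ⟨n, rfl, rfl⟩
    have h1 := h₁ n
    have h2 := h₂ n
    rw [← h2] at h1
    exact Bool.eq_iff_iff.2 h1

/-! ### Types -/

namespace El

theorem inf_eq_one {A : Type} [FLew A] {x y : A} : x ⊓ y = 1 ↔ x = 1 ∧ y = 1 := by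
  rw [← FLew.top_eq_one]; exact inf_eq_top_iff

theorem eqv_one {A : Type} [FLew A] (u : ℕ → A) (φ ψ : Fml) :
    eval u (φ.eqv ψ) = 1 ↔ eval u φ = eval u ψ := by
  show FLew.imp (eval u φ) (eval u ψ) ⊓ FLew.imp (eval u ψ) (eval u φ) = 1 ↔ _
  rw [inf_eq_one, imp_eq_one, imp_eq_one]
  exact ⟨fun h => le_antisymm h.1 h.2, fun h => ⟨h.le, h.ge⟩⟩

theorem imp_one {A : Type} [FLew A] (u : ℕ → A) (φ ψ : Fml) :
    eval u (φ.imp ψ) = 1 ↔ eval u φ ≤ eval u ψ := imp_eq_one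

variable {C : Type} {d : Dc C}

/-- shifts -/
def fS (ζ : Fml) : Fml := (tG ζ 8).imp ((tG ζ 7).mul ζ)
def fP (ζ : Fml) : Fml := (tG ζ 7).imp ((tG ζ 8).mul ζ)
def fX (ζ : Fml) : Fml := (tG ζ 8).imp ζ
def fZ (ζ : Fml) : Fml := (tG ζ 8).imp (tG ζ 2)
def fC (ζ : Fml) : Fml := ((tG ζ 6).mul ζ).eqv ((tG ζ 8).mul (fS (fS (fS ζ))))

theorem xne {i : C} {c : T} : (x i : El d) ≠ k c := fun h => by cases h
theorem lne {i : C} {c : T} : (l i : El d) ≠ k c := fun h => by cases h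

theorem eval_fS (u : ℕ → El d) (ζ : Fml) (i : C) (h : eval u ζ = x i) :
    eval u (fS ζ) = x (d.s i) := by
  have h0 : eval u ζ ≠ k 0 := by rw [h]; exact xne
  have h1 : eval u ζ ≠ k 9 := by rw [h]; exact xne
  show FLew.imp (eval u (tG ζ 8)) (eval u (tG ζ 7) * eval u ζ) = _
  rw [eval_tG u ζ h0 h1, eval_tG u ζ h0 h1, h]
  rfl

theorem eval_fP (u : ℕ → El d) (ζ : Fml) (i : C) (h : eval u ζ = x i) :
    eval u (fP ζ) = x (d.p i) := by
  have h0 : eval u ζ ≠ k 0 := by rw [h]; exact xne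
  have h1 : eval u ζ ≠ k 9 := by rw [h]; exact xne
  show FLew.imp (eval u (tG ζ 7)) (eval u (tG ζ 8) * eval u ζ) = _
  rw [eval_tG u ζ h0 h1, eval_tG u ζ h0 h1, h]
  rfl

theorem eval_fX (u : ℕ → El d) (ζ : Fml) (i : C) (h : eval u ζ = l i) :
    eval u (fX ζ) = x i := by
  have h0 : eval u ζ ≠ k 0 := by rw [h]; exact lne
  have h1 : eval u ζ ≠ k 9 := by rw [h]; exact lne
  show FLew.imp (eval u (tG ζ 8)) (eval u ζ) = _
  rw [eval_tG u ζ h0 h1, h]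
  rfl

theorem eval_fZ (u : ℕ → El d) (ζ : Fml) (h0 : eval u ζ ≠ k 0) (h1 : eval u ζ ≠ k 9) :
    eval u (fZ ζ) = x d.z := by
  show FLew.imp (eval u (tG ζ 8)) (eval u (tG ζ 2)) = _
  rw [eval_tG u ζ h0 h1, eval_tG u ζ h0 h1]
  show imp (k 8) (k 2) = _
  simp only [imp, and_self, if_true]

theorem eval_fC (u : ℕ → El d) (ζ : Fml) (i : C) (h : eval u ζ = x i) :
    eval u (fC ζ) = 1 ↔ d.col i = true := by
  have h0 : eval u ζ ≠ k 0 := by rw [h]; exact xne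
  have h1 : eval u ζ ≠ k 9 := by rw [h]; exact xne
  have h3 := eval_fS u _ _ (eval_fS u _ _ (eval_fS u ζ i h))
  rw [fC, eqv_one]
  show eval u (tG ζ 6) * eval u ζ = eval u (tG ζ 8) * eval u (fS (fS (fS ζ))) ↔ _
  rw [eval_tG u ζ h0 h1, eval_tG u ζ h0 h1, h, h3]
  show (l (d.μ i) : El d) = l (d.s (d.s (d.s i))) ↔ _
  rw [l.injEq]
  unfold Dc.μ
  split_ifs with hc
  · exact ⟨fun _ => hc, fun _ => rfl⟩
  · refine ⟨fun h => ?_, fun h => absurd h hc⟩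
    exact absurd (h ▸ d.refl _) (d.s_lt (d.s (d.s i))).2

variable {Z : Set ℕ}

theorem v2 {ζ ξ : Fml} (h : ζ.vars ⊆ Z) (h' : ξ.vars ⊆ Z) : ζ.vars ∪ ξ.vars ⊆ Z :=
  Set.union_subset h h'

theorem vG {ζ : Fml} (h : ζ.vars ⊆ Z) (c : T) : (tG ζ c).vars ⊆ Z := (vars_tG ζ c).trans h

theorem vars_fS {ζ : Fml} (h : ζ.vars ⊆ Z) : (fS ζ).vars ⊆ Z :=
  Set.union_subset (vG h 8) (Set.union_subset (vG h 7) h)
theorem vars_fP {ζ : Fml} (h : ζ.vars ⊆ Z) : (fP ζ).vars ⊆ Z :=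
  Set.union_subset (vG h 7) (Set.union_subset (vG h 8) h)
theorem vars_fX {ζ : Fml} (h : ζ.vars ⊆ Z) : (fX ζ).vars ⊆ Z :=
  Set.union_subset (vG h 8) h
theorem vars_fZ {ζ : Fml} (h : ζ.vars ⊆ Z) : (fZ ζ).vars ⊆ Z :=
  Set.union_subset (vG h 8) (vG h 2)
theorem vars_eqv {ζ ζ' : Fml} (h : ζ.vars ⊆ Z) (h' : ζ'.vars ⊆ Z) : (ζ.eqv ζ').vars ⊆ Z :=
  Set.union_subset (Set.union_subset h h') (Set.union_subset h' h)
theorem vars_fC {ζ : Fml} (h : ζ.vars ⊆ Z) : (fC ζ).vars ⊆ Z :=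
  vars_eqv (Set.union_subset (vG h 6) h)
    (Set.union_subset (vG h 8) (vars_fS (vars_fS (vars_fS h))))

variable {C' : Type} {d' : Dc C'} {u : ℕ → El d} {w : ℕ → El d'}

theorem neg_one {C : Type} {d : Dc C} (u : ℕ → El d) (ζ : Fml) :
    eval u ζ.neg = 1 ↔ eval u ζ = k 0 := by
  show FLew.imp (eval u ζ) ⊥ = 1 ↔ _
  rw [imp_eq_one, le_bot_iff]
  exact Iff.rfl

theorem k_imp (h : ∀ ζ : Fml, ζ.vars ⊆ Z → (eval u ζ = 1 ↔ eval w ζ = 1)) (ζ : Fml)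
    (hζ : ζ.vars ⊆ Z) (c : T) (hc : eval u ζ = k c) : eval w ζ = k c := by
  have hn : ζ.neg.vars ⊆ Z := Set.union_subset hζ (Set.empty_subset Z)
  by_cases h1 : c = 9
  · subst h1
    exact (h ζ hζ).1 hc
  by_cases h0 : c = 0
  · subst h0
    exact (neg_one w _).1 ((h _ hn).1 ((neg_one u _).2 hc))
  have hu : eval u (ζ.eqv (tG ζ c)) = 1 := by
    rw [eqv_one, eval_tG u ζ (by rw [hc]; exact fun h => h0 (k.inj h))
      (by rw [hc]; exact fun h => h1 (k.inj h)), hc]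
  have hw := (eqv_one w _ _).1 ((h _ (vars_eqv hζ (vG hζ c))).1 hu)
  rw [hw]
  refine eval_tG w ζ ?_ ?_ c
  · intro h3
    have := (neg_one u _).1 ((h _ hn).2 ((neg_one w _).2 h3))
    rw [hc] at this
    exact h0 (k.inj this)
  · intro h3
    have := (h ζ hζ).2 h3
    rw [hc] at this
    exact h1 (k.inj this)

theorem x_imp (h : ∀ ζ : Fml, ζ.vars ⊆ Z → (eval u ζ = 1 ↔ eval w ζ = 1)) (ζ : Fml)
    (hζ : ζ.vars ⊆ Z) (i : C) (hi : eval u ζ = x i) : ∃ j, eval w ζ = x j := by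
  rcases hx : eval w ζ with c | j | j
  · have := k_imp (fun ζ hζ => (h ζ hζ).symm) ζ hζ c hx
    rw [hi] at this
    cases this
  · exact ⟨j, rfl⟩
  · exfalso
    have h0 : eval u ζ ≠ k 0 := by rw [hi]; exact xne
    have h1 : eval u ζ ≠ k 9 := by rw [hi]; exact xne
    have h2 : eval u ((tG ζ 5).imp ζ) = 1 := by
      rw [imp_one, eval_tG u ζ h0 h1, hi]
      exact (le_refl 5 : (5 : T) ≤ 5)
    have h3 := (h ((tG ζ 5).imp ζ) (Set.union_subset (vG hζ 5) hζ)).1 h2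
    have h0' : eval w ζ ≠ k 0 := by rw [hx]; exact lne
    have h1' : eval w ζ ≠ k 9 := by rw [hx]; exact lne
    rw [imp_one, eval_tG w ζ h0' h1', hx] at h3
    exact absurd (show (5 : T) ≤ 1 from h3) (by decide)

theorem l_imp (h : ∀ ζ : Fml, ζ.vars ⊆ Z → (eval u ζ = 1 ↔ eval w ζ = 1)) (ζ : Fml)
    (hζ : ζ.vars ⊆ Z) (i : C) (hi : eval u ζ = l i) : ∃ j, eval w ζ = l j := by
  rcases hx : eval w ζ with c | j | j
  · have := k_imp (fun ζ hζ => (h ζ hζ).symm) ζ hζ c hx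
    rw [hi] at this
    cases this
  · obtain ⟨m, hm⟩ := x_imp (fun ζ hζ => (h ζ hζ).symm) ζ hζ j hx
    rw [hi] at hm
    cases hm
  · exact ⟨j, rfl⟩

/-- the partial isomorphism given by definable elements -/
def defIso (h : ∀ ζ : Fml, ζ.vars ⊆ Z → (eval u ζ = 1 ↔ eval w ζ = 1)) (ζ₀ : Fml)
    (hζ₀ : ζ₀.vars ⊆ Z) (h0 : eval u ζ₀ ≠ k 0) (h1 : eval u ζ₀ ≠ k 9) : PIso d d' where
  R i j := ∃ ζ : Fml, ζ.vars ⊆ Z ∧ eval u ζ = x i ∧ eval w ζ = x j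
  le := by
    rintro i j i' j' ⟨ζ, h2, h3, h4⟩ ⟨ζ', h2', h3', h4'⟩
    have h5 := h (ζ.imp ζ') (Set.union_subset h2 h2')
    rw [imp_one, imp_one, h3, h4, h3', h4'] at h5
    exact h5
  z := by
    refine ⟨fZ ζ₀, vars_fZ hζ₀, eval_fZ u ζ₀ h0 h1, eval_fZ w ζ₀ ?_ ?_⟩
    · intro h2
      exact h0 (k_imp (fun ζ hζ => (h ζ hζ).symm) ζ₀ hζ₀ 0 h2)
    · intro h2
      exact h1 (k_imp (fun ζ hζ => (h ζ hζ).symm) ζ₀ hζ₀ 9 h2)
  s := by
    rintro i j ⟨ζ, h2, h3, h4⟩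
    exact ⟨_, vars_fS h2, eval_fS u ζ i h3, eval_fS w ζ j h4⟩
  p := by
    rintro i j ⟨ζ, h2, h3, h4⟩
    exact ⟨_, vars_fP h2, eval_fP u ζ i h3, eval_fP w ζ j h4⟩
  c := by
    rintro i j ⟨ζ, h2, h3, h4⟩
    have h5 := h (fC ζ) (vars_fC h2)
    rw [eval_fC u ζ i h3, eval_fC w ζ j h4] at h5
    exact Bool.eq_iff_iff.2 h5

/-- joint realisation of two valuations with the same type on `Z` -/
theorem joint {S : Set ℕ} (hs : Good S d) (hs' : Good S d')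
    (h : ∀ ζ : Fml, ζ.vars ⊆ Z → (eval u ζ = 1 ↔ eval w ζ = 1)) :
    ∃ (C₃ : Type) (d₃ : Dc C₃) (ι₁ : Emb d d₃) (ι₂ : Emb d' d₃), Good S d₃ ∧
      ∀ n ∈ Z, map ι₁ (u n) = map ι₂ (w n) := by
  have hv : ∀ n ∈ Z, (Fml.var n).vars ⊆ Z := by
    intro n hn m hm
    rw [show m = n from hm]
    exact hn
  by_cases hc : ∃ ζ₀ : Fml, ζ₀.vars ⊆ Z ∧ eval u ζ₀ ≠ k 0 ∧ eval u ζ₀ ≠ k 9
  · obtain ⟨ζ₀, hζ₀, h0, h1⟩ := hc
    let r := defIso h ζ₀ hζ₀ h0 h1
    refine ⟨_, r.D, r.ι₁, r.ι₂, hs.emb r.ι₁, fun n hn => ?_⟩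
    rcases hx : u n with c | i | i
    · have h5 : w n = k c := k_imp h (.var n) (hv n hn) c hx
      rw [h5]
      rfl
    · obtain ⟨j, hj⟩ := x_imp h (.var n) (hv n hn) i hx
      have h5 : w n = x j := hj
      rw [h5]
      exact congrArg x (r.comm ⟨.var n, hv n hn, hx, hj⟩)
    · obtain ⟨j, hj⟩ := l_imp h (.var n) (hv n hn) i hx
      have h5 : w n = l j := hj
      rw [h5]
      exact congrArg l (r.comm ⟨fX (.var n), vars_fX (hv n hn), eval_fX u _ i hx,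
        eval_fX w _ j hj⟩)
  · let r := stdIso hs hs'
    refine ⟨_, r.D, r.ι₁, r.ι₂, hs.emb r.ι₁, fun n hn => ?_⟩
    have h6 : u n = k 0 ∨ u n = k 9 := by
      by_contra h7
      rw [not_or] at h7
      exact hc ⟨.var n, hv n hn, h7.1, h7.2⟩
    rcases h6 with h6 | h6
    · have h5 : w n = k 0 := k_imp h (.var n) (hv n hn) 0 h6
      rw [h6, h5]; rfl
    · have h5 : w n = k 9 := k_imp h (.var n) (hv n hn) 9 h6
      rw [h6, h5]; rfl

end El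

end Pool.Agent.V11254.MTLEl
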