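import Mathlib
import Pool.Agent.V11254.MTLAmalg

/-!
# Compactness for the classes of chains `El d`
-/

set_option autoImplicit false
set_option linter.unusedVariables false

namespace Pool.Agent.V11254.MTLEl

open FLewEl (FLew Fml eval imp_eq_one le_one')

section Ultra

variable {I : Type} (U : Ultrafilter I) {C : I → Type} (d : ∀ i, Dc (C i))

/-- equality almost everywhere -/
def uSet (C : I → Type) : Setoid (∀ i, C i) where
  r f f' := ∀ᶠ i in (U : Filter I), f i = f' i
  iseqv := ⟨fun f => Filter.Eventually.of_forall fun _ => rfl,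
    fun h => h.mono fun _ h => h.symm, fun h h' => (h.and h').mono fun _ h => h.1.trans h.2⟩

/-- the ultraproduct -/
def UC (C : I → Type) : Type := Quotient (uSet U C)

/-- the class of a function -/
def mkU {C : I → Type} (f : ∀ i, C i) : UC U C := Quotient.mk (uSet U C) f

theorem mkU_eq {f f' : ∀ i, C i} : mkU U f = mkU U f' ↔ ∀ᶠ i in (U : Filter I), f i = f' i :=
  ⟨fun h => Quotient.exact h, fun h => Quotient.sound h⟩

/-- unary operations -/
def uMap (F : ∀ i, C i → C i) : UC U C → UC U C :=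
  Quotient.lift (fun f => mkU U fun i => F i (f i)) fun f f' h =>
    (mkU_eq U).2 ((show ∀ᶠ i in (U : Filter I), f i = f' i from h).mono
      fun i hi => congrArg (F i) hi)

theorem uMap_mk (F : ∀ i, C i → C i) (f : ∀ i, C i) :
    uMap U F (mkU U f) = mkU U fun i => F i (f i) := rfl

/-- the order -/
def uLe (a b : UC U C) : Prop :=
  ∃ f f', mkU U f = a ∧ mkU U f' = b ∧ ∀ᶠ i in (U : Filter I), (d i).le (f i) (f' i)

theorem uLe_mk (f f' : ∀ i, C i) : uLe U d (mkU U f) (mkU U f') ↔
    ∀ᶠ i in (U : Filter I), (d i).le (f i) (f' i) := by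
  constructor
  · rintro ⟨g, g', h1, h2, h3⟩
    rw [mkU_eq] at h1 h2
    filter_upwards [h1, h2, h3] with i a b c
    rw [← a, ← b]; exact c
  · intro h
    exact ⟨f, f', rfl, rfl, h⟩

theorem ex_mk (a : UC U C) : ∃ f, mkU U f = a := Quotient.exists_rep a

/-- colours -/
noncomputable def uCol (a : UC U C) : Bool :=
  @decide (∃ f, mkU U f = a ∧ ∀ᶠ i in (U : Filter I), (d i).col (f i) = true)
    (Classical.propDecidable _)

theorem uCol_mk (f : ∀ i, C i) : uCol U d (mkU U f) = true ↔
    ∀ᶠ i in (U : Filter I), (d i).col (f i) = true := by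
  unfold uCol
  rw [@decide_eq_true_iff _ (Classical.propDecidable _)]
  constructor
  · rintro ⟨g, h1, h2⟩
    rw [mkU_eq] at h1
    filter_upwards [h1, h2] with i a b
    rw [← a]; exact b
  · intro h
    exact ⟨f, rfl, h⟩

/-- the ultraproduct structure -/
noncomputable def uD : Dc (UC U C) where
  le := uLe U d
  refl := by
    intro a
    obtain ⟨f, rfl⟩ := ex_mk U a
    exact (uLe_mk U d _ _).2 (Filter.Eventually.of_forall fun i => (d i).refl _)
  trans := by
    intro a b c h1 h2
    obtain ⟨f, rfl⟩ := ex_mk U a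
    obtain ⟨g, rfl⟩ := ex_mk U b
    obtain ⟨h, rfl⟩ := ex_mk U c
    rw [uLe_mk] at *
    filter_upwards [h1, h2] with i a b
    exact (d i).trans _ _ _ a b
  anti := by
    intro a b h1 h2
    obtain ⟨f, rfl⟩ := ex_mk U a
    obtain ⟨g, rfl⟩ := ex_mk U b
    rw [uLe_mk] at *
    rw [mkU_eq]
    filter_upwards [h1, h2] with i a b
    exact (d i).anti _ _ a b
  total := by
    intro a b
    obtain ⟨f, rfl⟩ := ex_mk U a
    obtain ⟨g, rfl⟩ := ex_mk U b
    rw [uLe_mk, uLe_mk, ← Ultrafilter.eventually_or]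
    exact Filter.Eventually.of_forall fun i => (d i).total _ _
  z := mkU U fun i => (d i).z
  top := by
    intro a
    obtain ⟨f, rfl⟩ := ex_mk U a
    exact (uLe_mk U d _ _).2 (Filter.Eventually.of_forall fun i => (d i).top _)
  s := uMap U fun i => (d i).s
  p := uMap U fun i => (d i).p
  s_le := by
    intro a b
    obtain ⟨f, rfl⟩ := ex_mk U a
    obtain ⟨g, rfl⟩ := ex_mk U b
    rw [uMap_mk, uLe_mk, uLe_mk, ← Ultrafilter.eventually_not]
    exact ⟨fun h => h.mono fun i hi => ((d i).s_le _ _).1 hi,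
      fun h => h.mono fun i hi => ((d i).s_le _ _).2 hi⟩
  ps := by
    intro a
    obtain ⟨f, rfl⟩ := ex_mk U a
    exact (mkU_eq U).2 (Filter.Eventually.of_forall fun i => (d i).ps _)
  sp := by
    intro a
    obtain ⟨f, rfl⟩ := ex_mk U a
    rw [uMap_mk, uMap_mk, mkU_eq, mkU_eq, ← Ultrafilter.eventually_or]
    exact Filter.Eventually.of_forall fun i => (d i).sp _
  pz := (mkU_eq U).2 (Filter.Eventually.of_forall fun i => (d i).pz)
  col := uCol U d

theorem uD_z : (uD U d).z = mkU U fun i => (d i).z := rfl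
theorem uD_s (f : ∀ i, C i) : (uD U d).s (mkU U f) = mkU U fun i => (d i).s (f i) := rfl
theorem uD_p (f : ∀ i, C i) : (uD U d).p (mkU U f) = mkU U fun i => (d i).p (f i) := rfl
theorem uD_le (f f' : ∀ i, C i) : (uD U d).le (mkU U f) (mkU U f') ↔
    ∀ᶠ i in (U : Filter I), (d i).le (f i) (f' i) := uLe_mk U d f f'
theorem uD_nle (f f' : ∀ i, C i) : ¬ (uD U d).le (mkU U f) (mkU U f') ↔
    ∀ᶠ i in (U : Filter I), ¬ (d i).le (f i) (f' i) := by
  rw [uD_le]; exact Ultrafilter.eventually_not.symm
theorem uD_col (f : ∀ i, C i) : (uD U d).col (mkU U f) = true ↔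
    ∀ᶠ i in (U : Filter I), (d i).col (f i) = true := uCol_mk U d f
theorem uD_ncol (f : ∀ i, C i) : ¬ (uD U d).col (mkU U f) = true ↔
    ∀ᶠ i in (U : Filter I), ¬ (d i).col (f i) = true := by
  rw [uD_col]; exact Ultrafilter.eventually_not.symm

theorem uD_μ (f : ∀ i, C i) : (uD U d).μ (mkU U f) = mkU U fun i => (d i).μ (f i) := by
  unfold Dc.μ
  by_cases h : (uD U d).col (mkU U f) = true
  · rw [if_pos h, uD_s, uD_s, uD_s, mkU_eq]
    exact ((uD_col U d f).1 h).mono fun i hi => (if_pos hi).symm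
  · rw [if_neg h, uD_s, uD_s, mkU_eq]
    exact ((uD_ncol U d f).1 h).mono fun i hi => (if_neg hi).symm

theorem uD_ρ (f : ∀ i, C i) : (uD U d).ρ (mkU U f) = mkU U fun i => (d i).ρ (f i) := by
  unfold Dc.ρ
  rw [uD_p, uD_p, uD_p]
  by_cases h : (uD U d).col (mkU U fun i => (d i).p ((d i).p ((d i).p (f i)))) = true
  · rw [if_pos h, mkU_eq]
    exact ((uD_col U d _).1 h).mono fun i hi => (if_pos hi).symm
  · rw [if_neg h, mkU_eq]
    exact ((uD_ncol U d _).1 h).mono fun i hi => (if_neg hi).symm

theorem uD_good {S : Set ℕ} (hs : ∀ i, Good S (d i)) : Good S (uD U d) := by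
  intro n
  have h : ∀ n, (uD U d).s^[n] (uD U d).z = mkU U fun i => (d i).s^[n] (d i).z := by
    intro n
    induction n with
    | zero => rfl
    | succ n ih =>
      rw [Function.iterate_succ_apply', ih, uD_s]
      simp only [Function.iterate_succ_apply']
  rw [h, uD_col]
  constructor
  · intro h1
    obtain ⟨i, hi⟩ := h1.exists
    exact (hs i n).1 hi
  · intro h1
    exact Filter.Eventually.of_forall fun i => (hs i n).2 h1

variable {d}

open El

/-- limits along the ultrafilter -/
def Lim (u : ∀ i, El (d i)) : El (uD U d) → Prop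
  | k c => ∀ᶠ i in (U : Filter I), u i = k c
  | x q => ∃ f : ∀ i, C i, mkU U f = q ∧ ∀ᶠ i in (U : Filter I), u i = x (f i)
  | l q => ∃ f : ∀ i, C i, mkU U f = q ∧ ∀ᶠ i in (U : Filter I), u i = l (f i)

theorem exists_lim (u : ∀ i, El (d i)) : ∃ X, Lim U u X := by
  classical
  have h2 : ∀ i, ∃ v : C i, (∃ c : T, u i = k c) ∨ u i = x v ∨ u i = l v := by
    intro i
    rcases hx : u i with c | v | v
    · exact ⟨(d i).z, Or.inl ⟨c, rfl⟩⟩
    · exact ⟨v, Or.inr (Or.inl rfl)⟩
    · exact ⟨v, Or.inr (Or.inr rfl)⟩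
  choose f hf using h2
  have h3 := Filter.Eventually.of_forall (f := (U : Filter I)) hf
  rw [Ultrafilter.eventually_or, Ultrafilter.eventually_or] at h3
  rcases h3 with h3 | h3 | h3
  · by_cases h : ∃ c : T, ∀ᶠ i in (U : Filter I), u i = k c
    · obtain ⟨c, hc⟩ := h
      exact ⟨k c, hc⟩
    · exfalso
      have h1 : ∀ᶠ i in (U : Filter I), ∀ c : T, u i ≠ k c := by
        rw [Filter.eventually_all]
        intro c
        rw [not_exists] at h
        exact Ultrafilter.eventually_not.2 (h c)
      obtain ⟨i, ⟨c, hc⟩, hi⟩ := (h3.and h1).exists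
      exact hi c hc
  · exact ⟨x (mkU U f), f, rfl, h3⟩
  · exact ⟨l (mkU U f), f, rfl, h3⟩

theorem lim_k {u : ∀ i, El (d i)} {c : T} (h : ∀ᶠ i in (U : Filter I), u i = k c) :
    Lim U u (k c) := h

theorem lim_x {u : ∀ i, El (d i)} {f : ∀ i, C i} (h : ∀ᶠ i in (U : Filter I), u i = x (f i)) :
    Lim U u (x (mkU U f)) := ⟨f, rfl, h⟩

theorem lim_l {u : ∀ i, El (d i)} {f : ∀ i, C i} (h : ∀ᶠ i in (U : Filter I), u i = l (f i)) :
    Lim U u (l (mkU U f)) := ⟨f, rfl, h⟩

theorem lim_congr {u v : ∀ i, El (d i)} {X : El (uD U d)} (h : Lim U u X)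
    (h' : ∀ᶠ i in (U : Filter I), v i = u i) : Lim U v X := by
  cases X with
  | k c =>
    have h2 : ∀ᶠ i in (U : Filter I), u i = k c := h
    exact lim_k U ((h'.and h2).mono fun i hi => hi.1.trans hi.2)
  | x q =>
    obtain ⟨f, rfl, hf⟩ := h
    exact lim_x U ((h'.and hf).mono fun i hi => hi.1.trans hi.2)
  | l q =>
    obtain ⟨f, rfl, hf⟩ := h
    exact lim_l U ((h'.and hf).mono fun i hi => hi.1.trans hi.2)

theorem lim_le {u v : ∀ i, El (d i)} {X Y : El (uD U d)} (hx : Lim U u X) (hy : Lim U v Y)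
    (h : X ≤ Y) : ∀ᶠ i in (U : Filter I), u i ≤ v i := by
  replace h : El.le X Y := h
  show ∀ᶠ i in (U : Filter I), El.le (u i) (v i)
  cases X with
  | k a =>
    have hx' : ∀ᶠ i in (U : Filter I), u i = k a := hx
    cases Y with
    | k b =>
      have hy' : ∀ᶠ i in (U : Filter I), v i = k b := hy
      exact (hx'.and hy').mono fun i hi => by rw [hi.1, hi.2]; exact h
    | x q =>
      obtain ⟨f, rfl, hf⟩ := hy
      exact (hx'.and hf).mono fun i hi => by rw [hi.1, hi.2]; exact h
    | l q =>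
      obtain ⟨f, rfl, hf⟩ := hy
      exact (hx'.and hf).mono fun i hi => by rw [hi.1, hi.2]; exact h
  | x q =>
    obtain ⟨f, rfl, hf⟩ := hx
    cases Y with
    | k b =>
      have hy' : ∀ᶠ i in (U : Filter I), v i = k b := hy
      exact (hf.and hy').mono fun i hi => by rw [hi.1, hi.2]; exact h
    | x q =>
      obtain ⟨f', rfl, hf'⟩ := hy
      have h' := (uD_le U d f f').1 h
      exact ((hf.and hf').and h').mono fun i hi => by rw [hi.1.1, hi.1.2]; exact hi.2
    | l q => exact h.elim
  | l q =>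
    obtain ⟨f, rfl, hf⟩ := hx
    cases Y with
    | k b =>
      have hy' : ∀ᶠ i in (U : Filter I), v i = k b := hy
      exact (hf.and hy').mono fun i hi => by rw [hi.1, hi.2]; exact h
    | x q =>
      obtain ⟨f', rfl, hf'⟩ := hy
      exact (hf.and hf').mono fun i hi => by rw [hi.1, hi.2]; trivial
    | l q =>
      obtain ⟨f', rfl, hf'⟩ := hy
      have h' := (uD_le U d f f').1 h
      exact ((hf.and hf').and h').mono fun i hi => by rw [hi.1.1, hi.1.2]; exact hi.2

theorem lim_inf {u v : ∀ i, El (d i)} {X Y : El (uD U d)} (hx : Lim U u X) (hy : Lim U v Y) :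
    Lim U (fun i => u i ⊓ v i) (X ⊓ Y) := by
  rcases le_total X Y with h | h
  · rw [inf_eq_left.2 h]
    exact lim_congr U hx ((lim_le U hx hy h).mono fun i hi => inf_eq_left.2 hi)
  · rw [inf_eq_right.2 h]
    exact lim_congr U hy ((lim_le U hy hx h).mono fun i hi => inf_eq_right.2 hi)

theorem lim_sup {u v : ∀ i, El (d i)} {X Y : El (uD U d)} (hx : Lim U u X) (hy : Lim U v Y) :
    Lim U (fun i => u i ⊔ v i) (X ⊔ Y) := by
  rcases le_total X Y with h | h
  · rw [sup_eq_right.2 h]
    exact lim_congr U hy ((lim_le U hx hy h).mono fun i hi => sup_eq_right.2 hi)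
  · rw [sup_eq_left.2 h]
    exact lim_congr U hx ((lim_le U hy hx h).mono fun i hi => sup_eq_left.2 hi)

theorem lim_kx (a : T) (f : ∀ i, C i) : Lim U (fun i => (kx a (f i) : El (d i)))
    (kx a (mkU U f)) := by
  unfold kx
  split_ifs
  · exact lim_x U (Filter.Eventually.of_forall fun i => rfl)
  · exact lim_l U (Filter.Eventually.of_forall fun i => rfl)
  · rw [uD_s]; exact lim_l U (Filter.Eventually.of_forall fun i => rfl)
  · rw [uD_μ]; exact lim_l U (Filter.Eventually.of_forall fun i => rfl)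
  · exact lim_k U (Filter.Eventually.of_forall fun i => rfl)

theorem lim_mul {u v : ∀ i, El (d i)} {X Y : El (uD U d)} (hx : Lim U u X) (hy : Lim U v Y) :
    Lim U (fun i => u i * v i) (X * Y) := by
  show Lim U (fun i => El.mul (u i) (v i)) (El.mul X Y)
  cases X with
  | k a =>
    have hx' : ∀ᶠ i in (U : Filter I), u i = k a := hx
    cases Y with
    | k b =>
      have hy' : ∀ᶠ i in (U : Filter I), v i = k b := hy
      exact lim_k U ((hx'.and hy').mono fun i hi => by rw [hi.1, hi.2]; rfl)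
    | x q =>
      obtain ⟨f, rfl, hf⟩ := hy
      exact lim_congr U (lim_kx U a f) ((hx'.and hf).mono fun i hi => by rw [hi.1, hi.2]; rfl)
    | l q =>
      obtain ⟨f, rfl, hf⟩ := hy
      simp only [El.mul]
      split_ifs with h9
      · exact lim_l U ((hx'.and hf).mono fun i hi => by rw [hi.1, hi.2]; exact if_pos h9)
      · exact lim_k U ((hx'.and hf).mono fun i hi => by rw [hi.1, hi.2]; exact if_neg h9)
  | x q =>
    obtain ⟨f, rfl, hf⟩ := hx
    cases Y with
    | k b =>
      have hy' : ∀ᶠ i in (U : Filter I), v i = k b := hy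
      exact lim_congr U (lim_kx U b f) ((hf.and hy').mono fun i hi => by rw [hi.1, hi.2]; rfl)
    | x q =>
      obtain ⟨f', rfl, hf'⟩ := hy
      exact lim_k U ((hf.and hf').mono fun i hi => by rw [hi.1, hi.2]; rfl)
    | l q =>
      obtain ⟨f', rfl, hf'⟩ := hy
      exact lim_k U ((hf.and hf').mono fun i hi => by rw [hi.1, hi.2]; rfl)
  | l q =>
    obtain ⟨f, rfl, hf⟩ := hx
    cases Y with
    | k b =>
      have hy' : ∀ᶠ i in (U : Filter I), v i = k b := hy
      simp only [El.mul]
      split_ifs with h9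
      · exact lim_l U ((hf.and hy').mono fun i hi => by rw [hi.1, hi.2]; exact if_pos h9)
      · exact lim_k U ((hf.and hy').mono fun i hi => by rw [hi.1, hi.2]; exact if_neg h9)
    | x q =>
      obtain ⟨f', rfl, hf'⟩ := hy
      exact lim_k U ((hf.and hf').mono fun i hi => by rw [hi.1, hi.2]; rfl)
    | l q =>
      obtain ⟨f', rfl, hf'⟩ := hy
      exact lim_k U ((hf.and hf').mono fun i hi => by rw [hi.1, hi.2]; rfl)

theorem lim_imp {u v : ∀ i, El (d i)} {X Y : El (uD U d)} (hx : Lim U u X) (hy : Lim U v Y) :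
    Lim U (fun i => FLew.imp (u i) (v i)) (FLew.imp X Y) := by
  classical
  show Lim U (fun i => El.imp (u i) (v i)) (El.imp X Y)
  cases X with
  | k a =>
    have hx' : ∀ᶠ i in (U : Filter I), u i = k a := hx
    cases Y with
    | k b =>
      have hy' : ∀ᶠ i in (U : Filter I), v i = k b := hy
      simp only [El.imp]
      split_ifs with h9
      · exact lim_x U ((hx'.and hy').mono fun i hi => by rw [hi.1, hi.2]; exact if_pos h9)
      · exact lim_k U ((hx'.and hy').mono fun i hi => by rw [hi.1, hi.2]; exact if_neg h9)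
    | x q =>
      obtain ⟨f, rfl, hf⟩ := hy
      simp only [El.imp]
      split_ifs with h9 h5
      · exact lim_x U ((hx'.and hf).mono fun i hi => by rw [hi.1, hi.2]; exact if_pos h9)
      · exact lim_k U ((hx'.and hf).mono fun i hi => by
          rw [hi.1, hi.2]; exact (if_neg h9).trans (if_pos h5))
      · exact lim_k U ((hx'.and hf).mono fun i hi => by
          rw [hi.1, hi.2]; exact (if_neg h9).trans (if_neg h5))
    | l q =>
      obtain ⟨f, rfl, hf⟩ := hy
      simp only [El.imp, uD_p, uD_ρ]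
      split_ifs with h9 h8 h7 h6 h2
      · exact lim_l U ((hx'.and hf).mono fun i hi => by rw [hi.1, hi.2]; exact if_pos h9)
      · exact lim_x U ((hx'.and hf).mono fun i hi => by
          rw [hi.1, hi.2]; exact (if_neg h9).trans (if_pos h8))
      · exact lim_x U ((hx'.and hf).mono fun i hi => by
          rw [hi.1, hi.2]; exact (if_neg h9).trans ((if_neg h8).trans (if_pos h7)))
      · exact lim_x U ((hx'.and hf).mono fun i hi => by
          rw [hi.1, hi.2]
          exact (if_neg h9).trans ((if_neg h8).trans ((if_neg h7).trans (if_pos h6))))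
      · exact lim_k U ((hx'.and hf).mono fun i hi => by
          rw [hi.1, hi.2]
          exact (if_neg h9).trans ((if_neg h8).trans ((if_neg h7).trans
            ((if_neg h6).trans (if_pos h2)))))
      · exact lim_k U ((hx'.and hf).mono fun i hi => by
          rw [hi.1, hi.2]
          exact (if_neg h9).trans ((if_neg h8).trans ((if_neg h7).trans
            ((if_neg h6).trans (if_neg h2)))))
  | x q =>
    obtain ⟨f, rfl, hf⟩ := hx
    cases Y with
    | k b =>
      have hy' : ∀ᶠ i in (U : Filter I), v i = k b := hy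
      have h := hf.and hy'
      simp only [El.imp]
      split_ifs with h0 h1 h5
      · exact lim_k U (h.mono fun i hi => by rw [hi.1, hi.2]; exact if_pos h0)
      · exact lim_x U (h.mono fun i hi => by
          rw [hi.1, hi.2]; exact (if_neg h0).trans (if_pos h1))
      · exact lim_k U (h.mono fun i hi => by
          rw [hi.1, hi.2]; exact (if_neg h0).trans ((if_neg h1).trans (if_pos h5)))
      · exact lim_k U (h.mono fun i hi => by
          rw [hi.1, hi.2]; exact (if_neg h0).trans ((if_neg h1).trans (if_neg h5)))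
    | x q =>
      obtain ⟨f', rfl, hf'⟩ := hy
      have h := hf.and hf'
      simp only [El.imp]
      split_ifs with h9
      · have h9' := (uD_le U d f f').1 h9
        exact lim_k U ((h.and h9').mono fun i hi => by
          rw [hi.1.1, hi.1.2]; exact if_pos hi.2)
      · have h9' := (uD_nle U d f f').1 h9
        exact lim_k U ((h.and h9').mono fun i hi => by
          rw [hi.1.1, hi.1.2]; exact if_neg hi.2)
    | l q =>
      obtain ⟨f', rfl, hf'⟩ := hy
      have h := hf.and hf'
      simp only [El.imp, uD_s, uD_μ]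
      split_ifs with h9 h8 h7
      · have h9' := (uD_le U d _ _).1 h9
        exact lim_k U ((h.and h9').mono fun i hi => by
          rw [hi.1.1, hi.1.2]; exact if_pos hi.2)
      · have h9' := (uD_nle U d _ _).1 h9
        have h8' := (uD_le U d _ _).1 h8
        exact lim_k U (((h.and h9').and h8').mono fun i hi => by
          rw [hi.1.1.1, hi.1.1.2]; exact (if_neg hi.1.2).trans (if_pos hi.2))
      · have h9' := (uD_nle U d _ _).1 h9
        have h8' := (uD_nle U d _ _).1 h8
        have h7' := (uD_le U d _ _).1 h7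
        exact lim_k U ((((h.and h9').and h8').and h7').mono fun i hi => by
          rw [hi.1.1.1.1, hi.1.1.1.2]
          exact (if_neg hi.1.1.2).trans ((if_neg hi.1.2).trans (if_pos hi.2)))
      · have h9' := (uD_nle U d _ _).1 h9
        have h8' := (uD_nle U d _ _).1 h8
        have h7' := (uD_nle U d _ _).1 h7
        exact lim_x U ((((h.and h9').and h8').and h7').mono fun i hi => by
          rw [hi.1.1.1.1, hi.1.1.1.2]
          exact (if_neg hi.1.1.2).trans ((if_neg hi.1.2).trans (if_neg hi.2)))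
  | l q =>
    obtain ⟨f, rfl, hf⟩ := hx
    cases Y with
    | k b =>
      have hy' : ∀ᶠ i in (U : Filter I), v i = k b := hy
      have h := hf.and hy'
      simp only [El.imp]
      split_ifs with h0
      · exact lim_k U (h.mono fun i hi => by rw [hi.1, hi.2]; exact if_pos h0)
      · exact lim_k U (h.mono fun i hi => by rw [hi.1, hi.2]; exact if_neg h0)
    | x q =>
      obtain ⟨f', rfl, hf'⟩ := hy
      exact lim_k U ((hf.and hf').mono fun i hi => by rw [hi.1, hi.2]; rfl)
    | l q =>
      obtain ⟨f', rfl, hf'⟩ := hy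
      have h := hf.and hf'
      simp only [El.imp]
      split_ifs with h9
      · have h9' := (uD_le U d f f').1 h9
        exact lim_k U ((h.and h9').mono fun i hi => by
          rw [hi.1.1, hi.1.2]; exact if_pos hi.2)
      · have h9' := (uD_nle U d f f').1 h9
        exact lim_k U ((h.and h9').mono fun i hi => by
          rw [hi.1.1, hi.1.2]; exact if_neg hi.2)

theorem lim_eval (u : ∀ i, ℕ → El (d i)) (X : ℕ → El (uD U d))
    (hX : ∀ n, Lim U (fun i => u i n) (X n)) (ζ : Fml) :
    Lim U (fun i => eval (u i) ζ) (eval X ζ) := by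
  induction ζ with
  | var n => exact hX n
  | e => exact lim_k U (Filter.Eventually.of_forall fun i => rfl)
  | f => exact lim_k U (Filter.Eventually.of_forall fun i => rfl)
  | and φ ψ ih1 ih2 => exact lim_inf U ih1 ih2
  | or φ ψ ih1 ih2 => exact lim_sup U ih1 ih2
  | mul φ ψ ih1 ih2 => exact lim_mul U ih1 ih2
  | imp φ ψ ih1 ih2 => exact lim_imp U ih1 ih2

theorem lim_one {u : ∀ i, El (d i)} {X : El (uD U d)} (hx : Lim U u X)
    (h : ∀ᶠ i in (U : Filter I), u i = 1) : X = 1 := by
  cases X with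
  | k c =>
    obtain ⟨i, h1, h2⟩ := ((show ∀ᶠ i in (U : Filter I), u i = k c from hx).and h).exists
    rw [h1] at h2
    have : c = 9 := k.inj h2
    rw [this]; rfl
  | x q =>
    obtain ⟨f, rfl, hf⟩ := hx
    obtain ⟨i, h1, h2⟩ := (hf.and h).exists
    rw [h1] at h2
    cases h2
  | l q =>
    obtain ⟨f, rfl, hf⟩ := hx
    obtain ⟨i, h1, h2⟩ := (hf.and h).exists
    rw [h1] at h2
    cases h2

end Ultra

/-! ### Compactness -/

/-- `Δ` is satisfiable in the class given by `S` -/
def Satis (S : Set ℕ) (Δ : Set Fml) : Prop :=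
  ∃ (C : Type) (d : Dc C) (u : ℕ → El d), Good S d ∧ ∀ ζ ∈ Δ, eval u ζ = 1

theorem compactness {S : Set ℕ} {Δ : Set Fml}
    (h : ∀ F : Finset Fml, (∀ ζ ∈ F, ζ ∈ Δ) → Satis S {ζ | ζ ∈ F}) : Satis S Δ := by
  classical
  have h' : ∀ F : Finset Fml, ∃ (C : Type) (d : Dc C) (u : ℕ → El d), Good S d ∧
      ∀ ζ ∈ F, ζ ∈ Δ → eval u ζ = 1 := by
    intro F
    obtain ⟨C, d, u, h2, h3⟩ := h (F.filter (· ∈ Δ)) fun ζ hζ => (Finset.mem_filter.1 hζ).2
    exact ⟨C, d, u, h2, fun ζ hζ hΔ => h3 ζ (Finset.mem_filter.2 ⟨hζ, hΔ⟩)⟩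
  choose C d u hs hu using h'
  let U : Ultrafilter (Finset Fml) := Ultrafilter.of Filter.atTop
  have hX : ∀ n, ∃ X, Lim U (fun F => u F n) X := fun n => exists_lim U _
  choose X hX using hX
  refine ⟨UC U C, uD U d, X, uD_good U d hs, fun ζ hζ => ?_⟩
  refine lim_one U (lim_eval U u X hX ζ) ?_
  have h1 : ∀ᶠ F : Finset Fml in Filter.atTop, ζ ∈ F := by
    filter_upwards [Filter.eventually_ge_atTop ({ζ} : Finset Fml)] with F hF
    exact hF (Finset.mem_singleton_self ζ)
  exact (h1.filter_mono (Ultrafilter.of_le _)).mono fun F hF => hu F ζ hF hζ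

end Pool.Agent.V11254.MTLEl
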