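import Mathlib

/-!
# Finite tuned refinements for frames compatible with a well-quasi-order

Let `R` be a relation on a preordered set whose order is a well-quasi-order, such that `R x y`
implies `x ≤ y` and `x ≤ x'`, `R x' y` imply `R x y`. Then every finite colouring has a finite
tuned refinement.
-/

set_option autoImplicit false

namespace Pool.Agent.V11254

universe u

open Set

variable {W : Type u}

/-- The upper set `U` carries a finite tuned refinement of the colouring `c`. -/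
def Good (R : W → W → Prop) {κ : Type u} (c : W → κ) (U : Set W) : Prop :=
  ∃ (τ : Type u) (_ : Finite τ) (f : W → τ), ∀ x ∈ U, ∀ y ∈ U, f x = f y →
    c x = c y ∧ ∀ z, R x z → ∃ w, R y w ∧ f w = f z

theorem good_step [Preorder W] (R : W → W → Prop) (h1 : ∀ x y, R x y → x ≤ y)
    (h2 : ∀ x x' y, x ≤ x' → R x' y → R x y) {κ : Type u} [Finite κ] (c : W → κ)
    (U : Set W) (hU : ∀ x ∈ U, ∀ y, x ≤ y → y ∈ U) (hg : Good R c U) (hne : ∃ x, x ∉ U) :
    ∃ x, x ∉ U ∧ Good R c (U ∪ {y | x ≤ y}) := by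
  classical
  obtain ⟨τ, hτ, f, hf⟩ := hg
  let C : W → Set κ := fun y => {k | ∃ z, z ∉ U ∧ R y z ∧ c z = k}
  let S : W → Set τ := fun y => {t | ∃ z, z ∈ U ∧ R y z ∧ f z = t}
  have hC : ∀ x y, x ≤ y → C y ⊆ C x := by
    rintro x y hxy k ⟨z, hz, hyz, rfl⟩
    exact ⟨z, hz, h2 _ _ _ hxy hyz, rfl⟩
  have hS : ∀ x y, x ≤ y → S y ⊆ S x := by
    rintro x y hxy k ⟨z, hz, hyz, rfl⟩
    exact ⟨z, hz, h2 _ _ _ hxy hyz, rfl⟩
  -- choose a point outside `U` with the least value of `(C, S)`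
  obtain ⟨x, hxU, hmin⟩ : ∃ x, x ∉ U ∧ ∀ y, y ∉ U → x ≤ y → C y = C x ∧ S y = S x := by
    let m : W → ℕ := fun y => (C y).ncard + (S y).ncard
    have hex : ∃ n, ∃ x, x ∉ U ∧ m x = n := by
      obtain ⟨x, hx⟩ := hne
      exact ⟨_, x, hx, rfl⟩
    obtain ⟨x, hx, hxm⟩ := Nat.find_spec hex
    refine ⟨x, hx, fun y hy hxy => ?_⟩
    have hle : m x ≤ m y := by
      rw [hxm]
      exact Nat.find_min' hex ⟨y, hy, rfl⟩
    have hc1 : (C y).ncard ≤ (C x).ncard := Set.ncard_le_ncard (hC x y hxy) (Set.toFinite _)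
    have hs1 : (S y).ncard ≤ (S x).ncard := Set.ncard_le_ncard (hS x y hxy) (Set.toFinite _)
    have hle' : (C x).ncard + (S x).ncard ≤ (C y).ncard + (S y).ncard := hle
    exact ⟨Set.eq_of_subset_of_ncard_le (hC x y hxy) (by omega) (Set.toFinite _),
      Set.eq_of_subset_of_ncard_le (hS x y hxy) (by omega) (Set.toFinite _)⟩
  refine ⟨x, hxU, τ ⊕ κ, inferInstance, fun z => if z ∈ U then Sum.inl (f z) else Sum.inr (c z), ?_⟩
  have hmem : ∀ z w, R z w → z ∈ U → w ∈ U := fun z w hzw hz => hU z hz w (h1 z w hzw)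
  intro a ha b hb hab
  by_cases haU : a ∈ U
  · by_cases hbU : b ∈ U
    · simp only [haU, hbU, if_true, Sum.inl.injEq] at hab
      refine ⟨(hf a haU b hbU hab).1, fun z haz => ?_⟩
      obtain ⟨w, hbw, hw⟩ := (hf a haU b hbU hab).2 z haz
      refine ⟨w, hbw, ?_⟩
      simp only [hmem a z haz haU, hmem b w hbw hbU, if_true, hw]
    · simp [haU, hbU] at hab
  · by_cases hbU : b ∈ U
    · simp [haU, hbU] at hab
    · have hxa : x ≤ a := by
        rcases ha with h | h
        · exact absurd h haU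
        · exact h
      have hxb : x ≤ b := by
        rcases hb with h | h
        · exact absurd h hbU
        · exact h
      simp only [haU, hbU, if_false, Sum.inr.injEq] at hab
      refine ⟨hab, fun z haz => ?_⟩
      obtain ⟨hCa, hSa⟩ := hmin a haU hxa
      obtain ⟨hCb, hSb⟩ := hmin b hbU hxb
      by_cases hzU : z ∈ U
      · have : f z ∈ S a := ⟨z, hzU, haz, rfl⟩
        rw [hSa, ← hSb] at this
        obtain ⟨w, hwU, hbw, hw⟩ := this
        exact ⟨w, hbw, by simp only [hwU, hzU, if_true, hw]⟩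
      · have : c z ∈ C a := ⟨z, hzU, haz, rfl⟩
        rw [hCa, ← hCb] at this
        obtain ⟨w, hwU, hbw, hw⟩ := this
        exact ⟨w, hbw, by simp only [hwU, hzU, if_false, hw]⟩

theorem good_univ [Preorder W] (hw : WellQuasiOrdered ((· ≤ ·) : W → W → Prop))
    (R : W → W → Prop) (h1 : ∀ x y, R x y → x ≤ y)
    (h2 : ∀ x x' y, x ≤ x' → R x' y → R x y) {κ : Type u} [Finite κ] (c : W → κ) :
    Good R c univ := by
  classical
  by_contra hbad
  -- a strictly increasing sequence of good upper sets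
  let P := {U : Set W // (∀ x ∈ U, ∀ y, x ≤ y → y ∈ U) ∧ Good R c U}
  have hstep : ∀ U : P, ∃ x, x ∉ U.1 ∧ Good R c (U.1 ∪ {y | x ≤ y}) := by
    rintro ⟨U, hU, hg⟩
    refine good_step R h1 h2 c U hU hg ?_
    by_contra hall
    push Not at hall
    exact hbad (by rwa [Set.eq_univ_of_forall hall] at hg)
  choose g hgU hgood using hstep
  have hup : ∀ U : P, ∀ x ∈ U.1 ∪ {y | g U ≤ y}, ∀ y, x ≤ y → y ∈ U.1 ∪ {y | g U ≤ y} := by
    rintro U x (hx | hx) y hxy
    · exact Or.inl (U.2.1 x hx y hxy)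
    · exact Or.inr (le_trans hx hxy)
  let nxt : P → P := fun U => ⟨U.1 ∪ {y | g U ≤ y}, hup U, hgood U⟩
  have h0 : Good R c (∅ : Set W) :=
    ⟨PUnit, inferInstance, fun _ => PUnit.unit, fun x hx => absurd hx (Set.notMem_empty x)⟩
  let seq : ℕ → P := fun n => Nat.rec ⟨∅, by simp, h0⟩ (fun _ U => nxt U) n
  have hmono : ∀ m n, m ≤ n → (seq m).1 ⊆ (seq n).1 := by
    intro m n hmn
    induction hmn with
    | refl => exact subset_rfl
    | step _ ih => exact ih.trans (fun x hx => Or.inl hx)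
  obtain ⟨m, n, hmn, hle⟩ := hw (fun n => g (seq n))
  have : g (seq n) ∈ (seq (m + 1)).1 := Or.inr hle
  exact hgU (seq n) (hmono _ _ hmn this)

/-- **Finite tuned refinements.** -/
theorem exists_tuned [Preorder W] (hw : WellQuasiOrdered ((· ≤ ·) : W → W → Prop))
    (R : W → W → Prop) (h1 : ∀ x y, R x y → x ≤ y)
    (h2 : ∀ x x' y, x ≤ x' → R x' y → R x y) {κ : Type u} [Finite κ] (c : W → κ) :
    ∃ (τ : Type u) (_ : Finite τ) (f : W → τ), ∀ x y, f x = f y →
      c x = c y ∧ ∀ z, R x z → ∃ w, R y w ∧ f w = f z := by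
  obtain ⟨τ, hτ, f, hf⟩ := good_univ hw R h1 h2 c
  exact ⟨τ, hτ, f, fun x y => hf x (mem_univ _) y (mem_univ _)⟩

end Pool.Agent.V11254
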