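import Mathlib
import Pool.Agent.V11254.FLewFml

/-!
# Embeddings, amalgamation and compactness for the algebras `El s`
-/

set_option autoImplicit false
set_option linter.unusedVariables false

namespace Pool.Agent.V11254.FLewEl

/-- the permutation `b ∘ a` -/
def Inv.σ {V : Type} (s : Inv V) (v : V) : V := s.b (s.a v)

/-- every element has infinite order under `σ` or an order in `S` -/
def Good (S : Set ℕ) {V : Type} (s : Inv V) : Prop :=
  ∀ v n, 0 < n → s.σ^[n] v = v → (∀ m, 0 < m → m < n → s.σ^[m] v ≠ v) → n ∈ S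

/-! ### Embeddings -/

/-- embeddings of sets with two involutions -/
structure Emb {V V' : Type} (s : Inv V) (s' : Inv V') where
  f : V → V'
  inj : Function.Injective f
  ha : ∀ v, f (s.a v) = s'.a (f v)
  hb : ∀ v, f (s.b v) = s'.b (f v)

theorem Emb.σ {V V' : Type} {s : Inv V} {s' : Inv V'} (ι : Emb s s') (v : V) (n : ℕ) :
    ι.f (s.σ^[n] v) = s'.σ^[n] (ι.f v) := by
  induction n generalizing v with
  | zero => rfl
  | succ n ih =>
    rw [Function.iterate_succ_apply, Function.iterate_succ_apply, ih]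
    congr 1
    show ι.f (s.b (s.a v)) = s'.b (s'.a (ι.f v))
    rw [ι.hb, ι.ha]

namespace El

/-- induced map -/
def map {V V' : Type} {s : Inv V} {s' : Inv V'} (ι : Emb s s') : El s → El s'
  | k c => k c
  | g v => g (ι.f v)

variable {V V' : Type} {s : Inv V} {s' : Inv V'} (ι : Emb s s')

theorem map_eq_one {x : El s} : map ι x = 1 ↔ x = 1 := by
  cases x with
  | k c =>
    show (k c : El s') = k 11 ↔ (k c : El s) = k 11
    rw [k.injEq, k.injEq]
  | g v =>
    show (g _ : El s') = k 11 ↔ (g v : El s) = k 11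
    exact ⟨fun h => (by cases h), fun h => (by cases h)⟩

theorem map_sup (x y : El s) : map ι (x ⊔ y) = map ι x ⊔ map ι y := by
  classical
  show map ι (sup x y) = sup (map ι x) (map ι y)
  cases x with
  | k a =>
    cases y with
    | k b => rfl
    | g v => simp only [sup, map]; split_ifs <;> rfl
  | g v =>
    cases y with
    | k b => simp only [sup, map]; split_ifs <;> rfl
    | g w => simp only [sup, map, ι.inj.eq_iff]; split_ifs <;> rfl

theorem map_inf (x y : El s) : map ι (x ⊓ y) = map ι x ⊓ map ι y := by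
  classical
  show map ι (inf x y) = inf (map ι x) (map ι y)
  cases x with
  | k a =>
    cases y with
    | k b => rfl
    | g v => simp only [inf, map]; split_ifs <;> rfl
  | g v =>
    cases y with
    | k b => simp only [inf, map]; split_ifs <;> rfl
    | g w => simp only [inf, map, ι.inj.eq_iff]; split_ifs <;> rfl

theorem map_mul (x y : El s) : map ι (x * y) = map ι x * map ι y := by
  classical
  show map ι (mul x y) = mul (map ι x) (map ι y)
  cases x with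
  | k a =>
    cases y with
    | k b => rfl
    | g v => simp only [mul, map]; split_ifs <;> rfl
  | g v =>
    cases y with
    | k b => simp only [mul, map]; split_ifs <;> rfl
    | g w => simp only [mul, map, ← ι.ha, ← ι.hb, ι.inj.eq_iff]

theorem map_imp (x y : El s) : map ι (FLew.imp x y) = FLew.imp (map ι x) (map ι y) := by
  classical
  show map ι (imp x y) = imp (map ι x) (map ι y)
  cases x with
  | k a =>
    cases y with
    | k b => rfl
    | g v => simp only [imp, map]; split_ifs <;> rfl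
  | g v =>
    cases y with
    | k b =>
      simp only [imp, map]
      split_ifs
      · exact congrArg g (ι.ha v)
      · exact congrArg g (ι.hb v)
      · rfl
    | g w => simp only [imp, map, ι.inj.eq_iff]; split_ifs <;> rfl

theorem eval_map (u : ℕ → El s) (ζ : Fml) : eval (fun n => map ι (u n)) ζ = map ι (eval u ζ) := by
  induction ζ with
  | var n => rfl
  | e => rfl
  | f => rfl
  | and φ ψ ih1 ih2 => show _ ⊓ _ = _; rw [ih1, ih2, ← map_inf]; rfl
  | or φ ψ ih1 ih2 => show _ ⊔ _ = _; rw [ih1, ih2, ← map_sup]; rfl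
  | mul φ ψ ih1 ih2 => show _ * _ = _; rw [ih1, ih2, ← map_mul]; rfl
  | imp φ ψ ih1 ih2 => show FLew.imp _ _ = _; rw [ih1, ih2, ← map_imp]; rfl

end El

/-! ### Amalgamation -/

theorem amalg {S : Set ℕ} {V₁ V₂ : Type} (s₁ : Inv V₁) (s₂ : Inv V₂) (h₁ : Good S s₁)
    (h₂ : Good S s₂) (R : V₁ → V₂ → Prop) (hf : ∀ x y y', R x y → R x y' → y = y')
    (hi : ∀ x x' y, R x y → R x' y → x = x') (ha : ∀ x y, R x y → R (s₁.a x) (s₂.a y))
    (hb : ∀ x y, R x y → R (s₁.b x) (s₂.b y)) :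
    ∃ (V₃ : Type) (s₃ : Inv V₃) (ι₁ : Emb s₁ s₃) (ι₂ : Emb s₂ s₃), Good S s₃ ∧
      ∀ x y, R x y → ι₁.f x = ι₂.f y := by
  classical
  let N : Set V₂ := {y | ∀ x, ¬ R x y}
  have hNa : ∀ y ∈ N, s₂.a y ∈ N := fun y hy x hx => hy (s₁.a x) (by
    have := ha _ _ hx
    rwa [s₂.aa] at this)
  have hNb : ∀ y ∈ N, s₂.b y ∈ N := fun y hy x hx => hy (s₁.b x) (by
    have := hb _ _ hx
    rwa [s₂.bb] at this)
  let s₃ : Inv (V₁ ⊕ N) :=
    { a := fun z => z.elim (fun x => Sum.inl (s₁.a x)) fun y => Sum.inr ⟨s₂.a y.1, hNa _ y.2⟩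
      b := fun z => z.elim (fun x => Sum.inl (s₁.b x)) fun y => Sum.inr ⟨s₂.b y.1, hNb _ y.2⟩
      aa := by
        rintro (x | ⟨y, hy⟩)
        · exact congrArg Sum.inl (s₁.aa x)
        · exact congrArg Sum.inr (Subtype.ext (s₂.aa y))
      bb := by
        rintro (x | ⟨y, hy⟩)
        · exact congrArg Sum.inl (s₁.bb x)
        · exact congrArg Sum.inr (Subtype.ext (s₂.bb y))
      ne := by
        rintro (x | ⟨y, hy⟩) h
        · exact s₁.ne x (Sum.inl_injective h)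
        · exact s₂.ne y (congrArg Subtype.val (Sum.inr_injective h)) }
  let ι₁ : Emb s₁ s₃ := ⟨Sum.inl, Sum.inl_injective, fun _ => rfl, fun _ => rfl⟩
  let j : V₂ → V₁ ⊕ N := fun y => if h : ∃ x, R x y then Sum.inl h.choose else
    Sum.inr ⟨y, fun x hx => h ⟨x, hx⟩⟩
  have j1 : ∀ x y, R x y → j y = Sum.inl x := by
    intro x y h
    have h' : ∃ x, R x y := ⟨x, h⟩
    simp only [j, dif_pos h']
    exact congrArg Sum.inl (hi _ _ _ h'.choose_spec h)
  have j2 : ∀ y (h : y ∈ N), j y = Sum.inr ⟨y, h⟩ := by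
    intro y h
    have h' : ¬ ∃ x, R x y := fun ⟨x, hx⟩ => h x hx
    simp only [j, dif_neg h']
  have jcase : ∀ y, (∃ x, R x y) ∨ y ∈ N := by
    intro y
    by_cases h : ∃ x, R x y
    · exact Or.inl h
    · exact Or.inr fun x hx => h ⟨x, hx⟩
  let ι₂ : Emb s₂ s₃ := ⟨j, by
    intro y y' h
    rcases jcase y with ⟨x, hx⟩ | hy
    · rcases jcase y' with ⟨x', hx'⟩ | hy'
      · rw [j1 x y hx, j1 x' y' hx'] at h
        have := Sum.inl_injective h
        subst this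
        exact hf _ _ _ hx hx'
      · rw [j1 x y hx, j2 y' hy'] at h
        cases h
    · rcases jcase y' with ⟨x', hx'⟩ | hy'
      · rw [j2 y hy, j1 x' y' hx'] at h
        cases h
      · rw [j2 y hy, j2 y' hy'] at h
        exact congrArg Subtype.val (Sum.inr_injective h), by
    intro y
    rcases jcase y with ⟨x, hx⟩ | hy
    · rw [j1 x y hx, j1 _ _ (ha x y hx)]; rfl
    · rw [j2 y hy, j2 _ (hNa y hy)]; rfl, by
    intro y
    rcases jcase y with ⟨x, hx⟩ | hy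
    · rw [j1 x y hx, j1 _ _ (hb x y hx)]; rfl
    · rw [j2 y hy, j2 _ (hNb y hy)]; rfl⟩
  refine ⟨V₁ ⊕ N, s₃, ι₁, ι₂, ?_, fun x y h => (j1 x y h).symm⟩
  have key : ∀ {V : Type} {s : Inv V} (ι : Emb s s₃) (hs : Good S s) (v : V) (n : ℕ), 0 < n →
      s₃.σ^[n] (ι.f v) = ι.f v → (∀ m, 0 < m → m < n → s₃.σ^[m] (ι.f v) ≠ ι.f v) → n ∈ S := by
    intro V s ι hs v n hn h1 h2
    refine hs v n hn ?_ ?_
    · rw [← ι.σ] at h1
      exact ι.inj h1
    · intro m hm hmn h3
      apply h2 m hm hmn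
      rw [← ι.σ, h3]
  rintro (x | ⟨y, hy⟩) n hn h1 h2
  · exact key ι₁ h₁ x n hn h1 h2
  · have e : (Sum.inr ⟨y, hy⟩ : V₁ ⊕ N) = ι₂.f y := (j2 y hy).symm
    rw [e] at h1 h2
    exact key ι₂ h₂ y n hn h1 h2

/-! ### Types -/

namespace El

theorem inf_eq_one {A : Type} [FLew A] {x y : A} : x ⊓ y = 1 ↔ x = 1 ∧ y = 1 := by
  rw [← FLew.top_eq_one]; exact inf_eq_top_iff

theorem eqv_one {A : Type} [FLew A] (u : ℕ → A) (φ ψ : Fml) :
    eval u (φ.eqv ψ) = 1 ↔ eval u φ = eval u ψ := by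
  show FLew.imp (eval u φ) (eval u ψ) ⊓ FLew.imp (eval u ψ) (eval u φ) = 1 ↔ _
  rw [inf_eq_one, imp_eq_one, imp_eq_one]
  exact ⟨fun h => le_antisymm h.1 h.2, fun h => ⟨h.le, h.ge⟩⟩

variable {V V' : Type} {s : Inv V} {s' : Inv V'} {u : ℕ → El s} {w : ℕ → El s'} {Z : Set ℕ}

theorem k_imp (h : ∀ ζ : Fml, ζ.vars ⊆ Z → (eval u ζ = 1 ↔ eval w ζ = 1)) (ζ : Fml)
    (hζ : ζ.vars ⊆ Z) (c : T) (hc : eval u ζ = k c) : eval w ζ = k c := by
  have hneg : ∀ {V : Type} {s : Inv V} (u : ℕ → El s), eval u ζ.neg = 1 ↔ eval u ζ = k 0 := by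
    intro V s u
    show FLew.imp (eval u ζ) ⊥ = 1 ↔ _
    rw [imp_eq_one, le_bot_iff]
    exact Iff.rfl
  have hn : ζ.neg.vars ⊆ Z := by
    intro n hn
    rcases hn with hn | hn
    · exact hζ hn
    · exact hn.elim
  by_cases h1 : c = 11
  · subst h1
    exact (h ζ hζ).1 hc
  by_cases h0 : c = 0
  · subst h0
    exact (hneg w).1 ((h _ hn).1 ((hneg u).2 hc))
  have hu : eval u (ζ.eqv (ζ.tG c)) = 1 := by
    rw [eqv_one, eval_tG u ζ (by rw [hc]; exact fun h => h0 (k.inj h))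
      (by rw [hc]; exact fun h => h1 (k.inj h)), hc]
  have hv : (ζ.eqv (ζ.tG c)).vars ⊆ Z := by
    intro n hn
    rcases hn with (hn | hn) | (hn | hn)
    · exact hζ hn
    · exact hζ (vars_tG ζ c hn)
    · exact hζ (vars_tG ζ c hn)
    · exact hζ hn
  have hw := (eqv_one w _ _).1 ((h _ hv).1 hu)
  rw [hw]
  refine eval_tG w ζ ?_ ?_ c
  · intro h3
    have := (hneg u).1 ((h _ hn).2 ((hneg w).2 h3))
    rw [hc] at this
    exact h0 (k.inj this)
  · intro h3
    have := (h ζ hζ).2 h3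
    rw [hc] at this
    exact h1 (k.inj this)

theorem g_imp (h : ∀ ζ : Fml, ζ.vars ⊆ Z → (eval u ζ = 1 ↔ eval w ζ = 1)) (ζ : Fml)
    (hζ : ζ.vars ⊆ Z) (v : V) (hv : eval u ζ = g v) : ∃ v', eval w ζ = g v' := by
  rcases hx : eval w ζ with c | v'
  · have := k_imp (fun ζ hζ => (h ζ hζ).symm) ζ hζ c hx
    rw [hv] at this
    cases this
  · exact ⟨v', rfl⟩

theorem eval_a (u : ℕ → El s) (ζ : Fml) (v : V) (hv : eval u ζ = g v) :
    eval u (ζ.imp (ζ.tG 1)) = g (s.a v) := by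
  show FLew.imp (eval u ζ) (eval u (ζ.tG 1)) = _
  rw [eval_tG u ζ (by rw [hv]; exact fun h => by cases h) (by rw [hv]; exact fun h => by cases h),
    hv]
  show imp (g v) (k 1) = _
  simp only [imp, if_true]

theorem eval_b (u : ℕ → El s) (ζ : Fml) (v : V) (hv : eval u ζ = g v) :
    eval u (ζ.imp (ζ.tG 2)) = g (s.b v) := by
  show FLew.imp (eval u ζ) (eval u (ζ.tG 2)) = _
  rw [eval_tG u ζ (by rw [hv]; exact fun h => by cases h) (by rw [hv]; exact fun h => by cases h),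
    hv]
  show imp (g v) (k 2) = _
  simp only [imp]
  rw [if_neg (by decide), if_pos trivial]

theorem vars_ab {ζ : Fml} (hζ : ζ.vars ⊆ Z) (c : T) : (ζ.imp (ζ.tG c)).vars ⊆ Z := by
  intro n hn
  rcases hn with hn | hn
  · exact hζ hn
  · exact hζ (vars_tG ζ c hn)

/-- joint realisation of two valuations with the same type on `Z` -/
theorem joint {S : Set ℕ} (hs : Good S s) (hs' : Good S s')
    (h : ∀ ζ : Fml, ζ.vars ⊆ Z → (eval u ζ = 1 ↔ eval w ζ = 1)) :
    ∃ (V₃ : Type) (s₃ : Inv V₃) (ι₁ : Emb s s₃) (ι₂ : Emb s' s₃), Good S s₃ ∧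
      ∀ n ∈ Z, map ι₁ (u n) = map ι₂ (w n) := by
  let R : V → V' → Prop := fun x y => ∃ ζ : Fml, ζ.vars ⊆ Z ∧ eval u ζ = g x ∧ eval w ζ = g y
  have veq : ∀ {ζ ζ' : Fml}, ζ.vars ⊆ Z → ζ'.vars ⊆ Z → (ζ.eqv ζ').vars ⊆ Z := by
    intro ζ ζ' h1 h2 n hn
    rcases hn with (hn | hn) | (hn | hn)
    · exact h1 hn
    · exact h2 hn
    · exact h2 hn
    · exact h1 hn
  obtain ⟨V₃, s₃, ι₁, ι₂, h3, h4⟩ := amalg (S := S) s s' hs hs' R (by
    rintro x y y' ⟨ζ, h1, h2, h3⟩ ⟨ζ', h1', h2', h3'⟩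
    have := (h _ (veq h1 h1')).1 ((eqv_one u ζ ζ').2 (by rw [h2, h2']))
    rw [eqv_one, h3, h3'] at this
    exact g.inj this) (by
    rintro x x' y ⟨ζ, h1, h2, h3⟩ ⟨ζ', h1', h2', h3'⟩
    have := (h _ (veq h1 h1')).2 ((eqv_one w ζ ζ').2 (by rw [h3, h3']))
    rw [eqv_one, h2, h2'] at this
    exact g.inj this) (by
    rintro x y ⟨ζ, h1, h2, h3⟩
    exact ⟨_, vars_ab h1 1, eval_a u ζ x h2, eval_a w ζ y h3⟩) (by
    rintro x y ⟨ζ, h1, h2, h3⟩
    exact ⟨_, vars_ab h1 2, eval_b u ζ x h2, eval_b w ζ y h3⟩)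
  refine ⟨V₃, s₃, ι₁, ι₂, h3, fun n hn => ?_⟩
  have hv : (Fml.var n).vars ⊆ Z := by
    intro m hm
    rw [show m = n from hm]
    exact hn
  rcases hx : u n with c | x
  · have h5 : w n = k c := k_imp h (.var n) hv c hx
    rw [h5]
    rfl
  · obtain ⟨y, hy⟩ := g_imp h (.var n) hv x hx
    have h5 : w n = g y := hy
    rw [h5]
    exact congrArg g (h4 x y ⟨.var n, hv, hx, hy⟩)

end El

end Pool.Agent.V11254.FLewEl
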