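import Mathlib
import Pool.Agent.V11254.FLewAmalg

/-!
# Compactness for the classes of algebras `El s`
-/

set_option autoImplicit false
set_option linter.unusedVariables false

namespace Pool.Agent.V11254.FLewEl

/-! ### Ultraproducts -/

section Ultra

variable {I : Type} (U : Ultrafilter I) {V : I → Type} (s : ∀ i, Inv (V i))

/-- equality almost everywhere -/
def uSet (V : I → Type) : Setoid (∀ i, V i) where
  r f f' := ∀ᶠ i in (U : Filter I), f i = f' i
  iseqv := ⟨fun f => Filter.Eventually.of_forall fun _ => rfl,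
    fun h => h.mono fun _ h => h.symm, fun h h' => (h.and h').mono fun _ h => h.1.trans h.2⟩

/-- the ultraproduct -/
def UV (V : I → Type) : Type := Quotient (uSet U V)

/-- the class of a function -/
def mkU {V : I → Type} (f : ∀ i, V i) : UV U V := Quotient.mk (uSet U V) f

theorem mkU_eq {f f' : ∀ i, V i} : mkU U f = mkU U f' ↔ ∀ᶠ i in (U : Filter I), f i = f' i :=
  ⟨fun h => Quotient.exact h, fun h => Quotient.sound h⟩

theorem mkU_ne {f f' : ∀ i, V i} : mkU U f ≠ mkU U f' ↔ ∀ᶠ i in (U : Filter I), f i ≠ f' i := by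
  rw [Ne, mkU_eq]
  exact Ultrafilter.eventually_not.symm

/-- the involutions on the ultraproduct -/
def uInv : Inv (UV U V) where
  a := Quotient.lift (fun f => mkU U fun i => (s i).a (f i)) fun f f' h =>
    (mkU_eq U).2 ((show ∀ᶠ i in (U : Filter I), f i = f' i from h).mono
      fun i hi => congrArg (s i).a hi)
  b := Quotient.lift (fun f => mkU U fun i => (s i).b (f i)) fun f f' h =>
    (mkU_eq U).2 ((show ∀ᶠ i in (U : Filter I), f i = f' i from h).mono
      fun i hi => congrArg (s i).b hi)
  aa := by
    intro v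
    induction v using Quotient.ind with
    | _ f => exact (mkU_eq U).2 (Filter.Eventually.of_forall fun i => (s i).aa (f i))
  bb := by
    intro v
    induction v using Quotient.ind with
    | _ f => exact (mkU_eq U).2 (Filter.Eventually.of_forall fun i => (s i).bb (f i))
  ne := by
    intro v
    induction v using Quotient.ind with
    | _ f => exact (mkU_ne U).2 (Filter.Eventually.of_forall fun i => (s i).ne (f i))

theorem uInv_a (f : ∀ i, V i) : (uInv U s).a (mkU U f) = mkU U fun i => (s i).a (f i) := rfl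
theorem uInv_b (f : ∀ i, V i) : (uInv U s).b (mkU U f) = mkU U fun i => (s i).b (f i) := rfl

theorem uInv_σ (f : ∀ i, V i) (n : ℕ) :
    (uInv U s).σ^[n] (mkU U f) = mkU U fun i => (s i).σ^[n] (f i) := by
  induction n generalizing f with
  | zero => rfl
  | succ n ih =>
    rw [Function.iterate_succ_apply]
    show (uInv U s).σ^[n] (mkU U fun i => (s i).σ (f i)) = _
    rw [ih]
    rfl

theorem uInv_good {S : Set ℕ} (hs : ∀ i, Good S (s i)) : Good S (uInv U s) := by
  intro v n hn h1 h2
  induction v using Quotient.ind with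
  | _ f =>
    have h1' : (uInv U s).σ^[n] (mkU U f) = mkU U f := h1
    rw [uInv_σ, mkU_eq] at h1'
    have h2' : ∀ m ∈ Finset.range n, ∀ᶠ i in (U : Filter I), 0 < m → (s i).σ^[m] (f i) ≠ f i := by
      intro m hm
      by_cases h0 : 0 < m
      · have h3 : (uInv U s).σ^[m] (mkU U f) ≠ mkU U f := h2 m h0 (Finset.mem_range.1 hm)
        rw [uInv_σ, mkU_ne] at h3
        exact h3.mono fun i hi _ => hi
      · exact Filter.Eventually.of_forall fun i h => absurd h h0
    have h3 := h1'.and ((Filter.eventually_all_finset (Finset.range n)).2 h2')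
    obtain ⟨i, hi1, hi2⟩ := h3.exists
    exact hs i (f i) n hn hi1 fun m hm hmn => hi2 m (Finset.mem_range.2 hmn) hm

variable {s}

open El

/-- limits along the ultrafilter -/
def Lim (x : ∀ i, El (s i)) : El (uInv U s) → Prop
  | k c => ∀ᶠ i in (U : Filter I), x i = k c
  | g q => ∃ f : ∀ i, V i, mkU U f = q ∧ ∀ᶠ i in (U : Filter I), x i = g (f i)

theorem exists_lim (hV : ∀ i, Nonempty (V i)) (x : ∀ i, El (s i)) : ∃ X, Lim U x X := by
  classical
  by_cases h : ∃ c : T, ∀ᶠ i in (U : Filter I), x i = k c
  · obtain ⟨c, hc⟩ := h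
    exact ⟨k c, hc⟩
  · push Not at h
    have h1 : ∀ᶠ i in (U : Filter I), ∀ c : T, x i ≠ k c := by
      rw [Filter.eventually_all]
      intro c
      exact h c
    have h2 : ∀ i, ∃ v : V i, (∀ c : T, x i ≠ k c) → x i = g v := by
      intro i
      rcases hx : x i with c | v
      · exact ⟨(hV i).some, fun h => absurd rfl (h c)⟩
      · exact ⟨v, fun _ => rfl⟩
    choose f hf using h2
    exact ⟨g (mkU U f), f, rfl, h1.mono fun i hi => hf i hi⟩

theorem lim_k {x : ∀ i, El (s i)} {c : T} (h : ∀ᶠ i in (U : Filter I), x i = k c) :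
    Lim U x (k c) := h

theorem lim_g {x : ∀ i, El (s i)} {f : ∀ i, V i} (h : ∀ᶠ i in (U : Filter I), x i = g (f i)) :
    Lim U x (g (mkU U f)) := ⟨f, rfl, h⟩

theorem lim_inf {x y : ∀ i, El (s i)} {X Y : El (uInv U s)} (hx : Lim U x X) (hy : Lim U y Y) :
    Lim U (fun i => x i ⊓ y i) (X ⊓ Y) := by
  classical
  show Lim U (fun i => El.inf (x i) (y i)) (El.inf X Y)
  cases X with
  | k a =>
    cases Y with
    | k b =>
      exact ((show ∀ᶠ i in (U : Filter I), x i = k a from hx).and
        (show ∀ᶠ i in (U : Filter I), y i = k b from hy)).mono fun i hi => by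
          dsimp only; rw [hi.1, hi.2]; rfl
    | g q =>
      obtain ⟨f, rfl, hf⟩ := hy
      have h := (show ∀ᶠ i in (U : Filter I), x i = k a from hx).and hf
      simp only [El.inf]
      split_ifs with h9
      · exact lim_g U (h.mono fun i hi => by rw [hi.1, hi.2]; exact if_pos h9)
      · exact lim_k U (h.mono fun i hi => by rw [hi.1, hi.2]; exact if_neg h9)
  | g q =>
    obtain ⟨f, rfl, hf⟩ := hx
    cases Y with
    | k b =>
      have h := hf.and (show ∀ᶠ i in (U : Filter I), y i = k b from hy)
      simp only [El.inf]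
      split_ifs with h9
      · exact lim_g U (h.mono fun i hi => by rw [hi.1, hi.2]; exact if_pos h9)
      · exact lim_k U (h.mono fun i hi => by rw [hi.1, hi.2]; exact if_neg h9)
    | g q =>
      obtain ⟨f', rfl, hf'⟩ := hy
      have h := hf.and hf'
      simp only [El.inf]
      split_ifs with h9
      · rw [mkU_eq] at h9
        exact lim_g U ((h.and h9).mono fun i hi => by
          rw [hi.1.1, hi.1.2]; exact if_pos hi.2)
      · have h9' := (mkU_ne U).1 h9
        exact lim_k U ((h.and h9').mono fun i hi => by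
          rw [hi.1.1, hi.1.2]; exact if_neg hi.2)

theorem lim_sup {x y : ∀ i, El (s i)} {X Y : El (uInv U s)} (hx : Lim U x X) (hy : Lim U y Y) :
    Lim U (fun i => x i ⊔ y i) (X ⊔ Y) := by
  classical
  show Lim U (fun i => El.sup (x i) (y i)) (El.sup X Y)
  cases X with
  | k a =>
    cases Y with
    | k b =>
      exact ((show ∀ᶠ i in (U : Filter I), x i = k a from hx).and
        (show ∀ᶠ i in (U : Filter I), y i = k b from hy)).mono fun i hi => by
          dsimp only; rw [hi.1, hi.2]; rfl
    | g q =>
      obtain ⟨f, rfl, hf⟩ := hy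
      have h := (show ∀ᶠ i in (U : Filter I), x i = k a from hx).and hf
      simp only [El.sup]
      split_ifs with h9
      · exact lim_g U (h.mono fun i hi => by rw [hi.1, hi.2]; exact if_pos h9)
      · exact lim_k U (h.mono fun i hi => by rw [hi.1, hi.2]; exact if_neg h9)
  | g q =>
    obtain ⟨f, rfl, hf⟩ := hx
    cases Y with
    | k b =>
      have h := hf.and (show ∀ᶠ i in (U : Filter I), y i = k b from hy)
      simp only [El.sup]
      split_ifs with h9
      · exact lim_g U (h.mono fun i hi => by rw [hi.1, hi.2]; exact if_pos h9)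
      · exact lim_k U (h.mono fun i hi => by rw [hi.1, hi.2]; exact if_neg h9)
    | g q =>
      obtain ⟨f', rfl, hf'⟩ := hy
      have h := hf.and hf'
      simp only [El.sup]
      split_ifs with h9
      · rw [mkU_eq] at h9
        exact lim_g U ((h.and h9).mono fun i hi => by
          rw [hi.1.1, hi.1.2]; exact if_pos hi.2)
      · have h9' := (mkU_ne U).1 h9
        exact lim_k U ((h.and h9').mono fun i hi => by
          rw [hi.1.1, hi.1.2]; exact if_neg hi.2)

theorem lim_mul {x y : ∀ i, El (s i)} {X Y : El (uInv U s)} (hx : Lim U x X) (hy : Lim U y Y) :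
    Lim U (fun i => x i * y i) (X * Y) := by
  classical
  show Lim U (fun i => El.mul (x i) (y i)) (El.mul X Y)
  cases X with
  | k a =>
    cases Y with
    | k b =>
      exact ((show ∀ᶠ i in (U : Filter I), x i = k a from hx).and
        (show ∀ᶠ i in (U : Filter I), y i = k b from hy)).mono fun i hi => by
          dsimp only; rw [hi.1, hi.2]; rfl
    | g q =>
      obtain ⟨f, rfl, hf⟩ := hy
      have h := (show ∀ᶠ i in (U : Filter I), x i = k a from hx).and hf
      simp only [El.mul]
      split_ifs with h9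
      · exact lim_g U (h.mono fun i hi => by rw [hi.1, hi.2]; exact if_pos h9)
      · exact lim_k U (h.mono fun i hi => by rw [hi.1, hi.2]; exact if_neg h9)
  | g q =>
    obtain ⟨f, rfl, hf⟩ := hx
    cases Y with
    | k b =>
      have h := hf.and (show ∀ᶠ i in (U : Filter I), y i = k b from hy)
      simp only [El.mul]
      split_ifs with h9
      · exact lim_g U (h.mono fun i hi => by rw [hi.1, hi.2]; exact if_pos h9)
      · exact lim_k U (h.mono fun i hi => by rw [hi.1, hi.2]; exact if_neg h9)
    | g q =>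
      obtain ⟨f', rfl, hf'⟩ := hy
      have h := hf.and hf'
      simp only [El.mul]
      by_cases h1 : (uInv U s).a (mkU U f) = mkU U f'
      · rw [if_pos h1]
        rw [uInv_a, mkU_eq] at h1
        exact lim_k U ((h.and h1).mono fun i hi => by
          rw [hi.1.1, hi.1.2]; exact congrArg k (if_pos hi.2))
      · rw [if_neg h1]
        have h1' := (mkU_ne U).1 h1
        by_cases h2 : (uInv U s).b (mkU U f) = mkU U f'
        · rw [if_pos h2]
          rw [uInv_b, mkU_eq] at h2
          exact lim_k U (((h.and h1').and h2).mono fun i hi => by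
            rw [hi.1.1.1, hi.1.1.2]
            exact congrArg k ((if_neg hi.1.2).trans (if_pos hi.2)))
        · rw [if_neg h2]
          have h2' := (mkU_ne U).1 h2
          exact lim_k U (((h.and h1').and h2').mono fun i hi => by
            rw [hi.1.1.1, hi.1.1.2]
            exact congrArg k ((if_neg hi.1.2).trans (if_neg hi.2)))

theorem lim_imp {x y : ∀ i, El (s i)} {X Y : El (uInv U s)} (hx : Lim U x X) (hy : Lim U y Y) :
    Lim U (fun i => FLew.imp (x i) (y i)) (FLew.imp X Y) := by
  classical
  show Lim U (fun i => El.imp (x i) (y i)) (El.imp X Y)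
  cases X with
  | k a =>
    cases Y with
    | k b =>
      exact ((show ∀ᶠ i in (U : Filter I), x i = k a from hx).and
        (show ∀ᶠ i in (U : Filter I), y i = k b from hy)).mono fun i hi => by
          dsimp only; rw [hi.1, hi.2]; rfl
    | g q =>
      obtain ⟨f, rfl, hf⟩ := hy
      have h := (show ∀ᶠ i in (U : Filter I), x i = k a from hx).and hf
      simp only [El.imp]
      split_ifs with h9
      · exact lim_g U (h.mono fun i hi => by rw [hi.1, hi.2]; exact if_pos h9)
      · exact lim_k U (h.mono fun i hi => by rw [hi.1, hi.2]; exact if_neg h9)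
  | g q =>
    obtain ⟨f, rfl, hf⟩ := hx
    cases Y with
    | k b =>
      have h := hf.and (show ∀ᶠ i in (U : Filter I), y i = k b from hy)
      simp only [El.imp]
      split_ifs with h1 h2
      · exact lim_g U (h.mono fun i hi => by rw [hi.1, hi.2]; exact if_pos h1)
      · exact lim_g U (h.mono fun i hi => by
          rw [hi.1, hi.2]; exact (if_neg h1).trans (if_pos h2))
      · exact lim_k U (h.mono fun i hi => by
          rw [hi.1, hi.2]; exact (if_neg h1).trans (if_neg h2))
    | g q =>
      obtain ⟨f', rfl, hf'⟩ := hy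
      have h := hf.and hf'
      simp only [El.imp]
      split_ifs with h9
      · rw [mkU_eq] at h9
        exact lim_k U ((h.and h9).mono fun i hi => by
          rw [hi.1.1, hi.1.2]; exact if_pos hi.2)
      · have h9' := (mkU_ne U).1 h9
        exact lim_k U ((h.and h9').mono fun i hi => by
          rw [hi.1.1, hi.1.2]; exact if_neg hi.2)

theorem lim_eval (u : ∀ i, ℕ → El (s i)) (X : ℕ → El (uInv U s))
    (hX : ∀ n, Lim U (fun i => u i n) (X n)) (ζ : Fml) :
    Lim U (fun i => eval (u i) ζ) (eval X ζ) := by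
  induction ζ with
  | var n => exact hX n
  | e => exact lim_k U (Filter.Eventually.of_forall fun i => rfl)
  | f => exact lim_k U (Filter.Eventually.of_forall fun i => rfl)
  | and φ ψ ih1 ih2 => exact lim_inf U ih1 ih2
  | or φ ψ ih1 ih2 => exact lim_sup U ih1 ih2
  | mul φ ψ ih1 ih2 => exact lim_mul U ih1 ih2
  | imp φ ψ ih1 ih2 => exact lim_imp U ih1 ih2

theorem lim_one {x : ∀ i, El (s i)} {X : El (uInv U s)} (hx : Lim U x X)
    (h : ∀ᶠ i in (U : Filter I), x i = 1) : X = 1 := by
  cases X with
  | k c =>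
    obtain ⟨i, h1, h2⟩ := ((show ∀ᶠ i in (U : Filter I), x i = k c from hx).and h).exists
    rw [h1] at h2
    have : c = 11 := k.inj h2
    rw [this]; rfl
  | g q =>
    obtain ⟨f, rfl, hf⟩ := hx
    obtain ⟨i, h1, h2⟩ := (hf.and h).exists
    rw [h1] at h2
    cases h2

end Ultra

/-! ### Compactness -/

/-- `Δ` is satisfiable in the class given by `S` -/
def Satis (S : Set ℕ) (Δ : Set Fml) : Prop :=
  ∃ (V : Type) (s : Inv V) (u : ℕ → El s), Nonempty V ∧ Good S s ∧ ∀ ζ ∈ Δ, eval u ζ = 1

theorem compactness {S : Set ℕ} {Δ : Set Fml}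
    (h : ∀ F : Finset Fml, (∀ ζ ∈ F, ζ ∈ Δ) → Satis S {ζ | ζ ∈ F}) : Satis S Δ := by
  classical
  have h' : ∀ F : Finset Fml, ∃ (V : Type) (s : Inv V) (u : ℕ → El s), Nonempty V ∧ Good S s ∧
      ∀ ζ ∈ F, ζ ∈ Δ → eval u ζ = 1 := by
    intro F
    obtain ⟨V, s, u, h1, h2, h3⟩ := h (F.filter (· ∈ Δ)) fun ζ hζ => (Finset.mem_filter.1 hζ).2
    exact ⟨V, s, u, h1, h2, fun ζ hζ hΔ => h3 ζ (Finset.mem_filter.2 ⟨hζ, hΔ⟩)⟩
  choose V s u hV hs hu using h'
  let U : Ultrafilter (Finset Fml) := Ultrafilter.of Filter.atTop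
  have hX : ∀ n, ∃ X, Lim U (fun F => u F n) X := fun n => exists_lim U hV _
  choose X hX using hX
  refine ⟨UV U V, uInv U s, X, ⟨mkU U fun F => (hV F).some⟩, uInv_good U s hs, fun ζ hζ => ?_⟩
  refine lim_one U (lim_eval U u X hX ζ) ?_
  have h1 : ∀ᶠ F : Finset Fml in Filter.atTop, ζ ∈ F := by
    filter_upwards [Filter.eventually_ge_atTop ({ζ} : Finset Fml)] with F hF
    exact hF (Finset.mem_singleton_self ζ)
  exact (h1.filter_mono (Ultrafilter.of_le _)).mono fun F hF => hu F ζ hF hζ

end Pool.Agent.V11254.FLewEl
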