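import Mathlib
import Pool.Agent.V11254.ULang

/-!
# Basic consequences of the axioms of set and class theory with urelements
-/

set_option autoImplicit false

namespace Pool.Agent.V11254.ULang

universe u v

/-! ### Pairs -/

section

variable {M : Str.{u}}

theorem opair_inj {p a b a' b' : M.Ob} (h : M.IsOPair p a b) (h' : M.IsOPair p a' b') :
    a = a' ∧ b = b' := by
  obtain ⟨s, t, hs, ht, hp⟩ := h
  obtain ⟨s', t', hs', ht', hp'⟩ := h'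
  have sp : M.mem s p := (hp.2 s).2 (Or.inl rfl)
  have tp : M.mem t p := (hp.2 t).2 (Or.inr rfl)
  have s'p : M.mem s' p := (hp'.2 s').2 (Or.inl rfl)
  have t'p : M.mem t' p := (hp'.2 t').2 (Or.inr rfl)
  have hs2 : ∀ z, M.mem z s ↔ z = a := fun z => (hs.2 z).trans (or_self_iff)
  have hs2' : ∀ z, M.mem z s' ↔ z = a' := fun z => (hs'.2 z).trans (or_self_iff)
  have aa : a = a' := by
    have h1 : M.mem a' s := by
      rcases (hp'.2 s).1 sp with h | h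
      · rw [h, hs2']
      · rw [h, ht'.2]; exact Or.inl rfl
    exact ((hs2 a').1 h1).symm
  subst aa
  refine ⟨rfl, ?_⟩
  have h1 : b = a ∨ b = b' := by
    have hb : M.mem b t := (ht.2 b).2 (Or.inr rfl)
    rcases (hp'.2 t).1 tp with h | h
    · rw [h, hs2'] at hb; exact Or.inl hb
    · rw [h, ht'.2] at hb; exact hb
  have h2 : b' = a ∨ b' = b := by
    have hb : M.mem b' t' := (ht'.2 b').2 (Or.inr rfl)
    rcases (hp.2 t').1 t'p with h | h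
    · rw [h, hs2] at hb; exact Or.inl hb
    · rw [h, ht.2] at hb; exact hb
  rcases h1 with h1 | h1
  · rcases h2 with h2 | h2
    · rw [h1, h2]
    · exact h2.symm
  · exact h1

theorem IsOPair.set {p a b : M.Ob} (h : M.IsOPair p a b) : ¬ M.ur p := by
  obtain ⟨s, t, hs, ht, hp⟩ := h
  exact hp.1

namespace Str.IsZU

variable (h : M.IsZU)

include h

theorem ext {x y : M.Ob} (hx : ¬ M.ur x) (hy : ¬ M.ur y) (H : ∀ z, M.mem z x ↔ M.mem z y) :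
    x = y := h.extensionality x y hx hy H

theorem set_of_mem {x y : M.Ob} (hx : M.mem x y) : ¬ M.ur y := fun hy => h.urelements y x hy hx

theorem upair_unique {p q a b : M.Ob} (hp : M.IsUPair p a b) (hq : M.IsUPair q a b) : p = q :=
  h.ext hp.1 hq.1 fun z => (hp.2 z).trans (hq.2 z).symm

theorem opair_exists (a b : M.Ob) : ∃ p, M.IsOPair p a b := by
  obtain ⟨s, hs⟩ := h.pairing a a
  obtain ⟨t, ht⟩ := h.pairing a b
  obtain ⟨p, hp⟩ := h.pairing s t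
  exact ⟨p, s, t, hs, ht, hp⟩

theorem opair_unique {p q a b : M.Ob} (hp : M.IsOPair p a b) (hq : M.IsOPair q a b) : p = q := by
  obtain ⟨s, t, hs, ht, hp⟩ := hp
  obtain ⟨s', t', hs', ht', hq⟩ := hq
  obtain rfl := h.upair_unique hs hs'
  obtain rfl := h.upair_unique ht ht'
  exact h.upair_unique hp hq

theorem emp : ∃ e, M.IsEmp e := by
  obtain ⟨w, -, ⟨e, he, -⟩, -⟩ := h.infinity
  exact ⟨e, he⟩

theorem single (a : M.Ob) : ∃ s, ¬ M.ur s ∧ ∀ z, M.mem z s ↔ z = a := by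
  obtain ⟨s, hs⟩ := h.pairing a a
  exact ⟨s, hs.1, fun z => (hs.2 z).trans or_self_iff⟩

theorem union2 {x y : M.Ob} (hx : ¬ M.ur x) (hy : ¬ M.ur y) :
    ∃ z, ¬ M.ur z ∧ ∀ a, M.mem a z ↔ M.mem a x ∨ M.mem a y := by
  obtain ⟨p, hp⟩ := h.pairing x y
  obtain ⟨z, hz, hz'⟩ := h.union p hp.1
  refine ⟨z, hz, fun a => (hz' a).trans ⟨?_, ?_⟩⟩
  · rintro ⟨w, hw, ha⟩
    rcases (hp.2 w).1 hw with rfl | rfl
    · exact Or.inl ha
    · exact Or.inr ha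
  · rintro (ha | ha)
    · exact ⟨x, (hp.2 x).2 (Or.inl rfl), ha⟩
    · exact ⟨y, (hp.2 y).2 (Or.inr rfl), ha⟩

/-- ordered pairs of a subset and an element -/
theorem exists_Q {J : M.Ob} (hJ : ¬ M.ur J) : ∃ Q, ¬ M.ur Q ∧ ∀ s i p, ¬ M.ur s →
    (∀ j, M.mem j s → M.mem j J) → M.mem i J → M.IsOPair p s i → M.mem p Q := by
  obtain ⟨PJ, hPJ, hPJ'⟩ := h.power J hJ
  obtain ⟨X, hX, hX'⟩ := h.union2 hPJ hJ
  obtain ⟨PX, hPX, hPX'⟩ := h.power X hX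
  obtain ⟨Q, hQ, hQ'⟩ := h.power PX hPX
  refine ⟨Q, hQ, ?_⟩
  rintro s i p hs hsJ hi ⟨a, b, ha, hb, hp⟩
  have h1 : M.mem s X := (hX' s).2 (Or.inl ((hPJ' s).2 ⟨hs, hsJ⟩))
  have h2 : M.mem i X := (hX' i).2 (Or.inr hi)
  refine (hQ' p).2 ⟨hp.1, fun z hz => ?_⟩
  rcases (hp.2 z).1 hz with rfl | rfl
  · refine (hPX' z).2 ⟨ha.1, fun y hy => ?_⟩
    rcases (ha.2 y).1 hy with rfl | rfl
    · exact h1
    · exact h1
  · refine (hPX' z).2 ⟨hb.1, fun y hy => ?_⟩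
    rcases (hb.2 y).1 hy with rfl | rfl
    · exact h1
    · exact h2

end Str.IsZU

end

/-! ### Class theory -/

section

variable {S : CStr.{u, v}}

/-- interpretation of class parameters -/
abbrev dS (S : CStr.{u, v}) : S.Cl → S.toStr.Ob → Prop := fun C a => S.cmem a C

theorem Def.inRel {n : ℕ} (R : S.Cl) {s t : (Fin n → S.toStr.Ob) → S.toStr.Ob} (hs : IsTm s)
    (ht : IsTm t) : Def (dS S) fun x => S.InRel R (s x) (t x) :=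
  Def.ex (Def.and (Def.opair (isTm_proj 0) hs.tail ht.tail) (Def.cls (isTm_proj 0) R))

namespace CStr.IsGBUR

variable (h : S.IsGBUR)

include h

theorem relcls {P : S.Ob → S.Ob → Prop} (hP : Def2 (M := S.toStr) (dS S) P) :
    ∃ R : S.Cl, ∀ a b, S.InRel R a b ↔ P a b := by
  have h1 : Def1 (M := S.toStr) (dS S) fun p => ∃ a b, S.IsOPair p a b ∧ P a b := by
    refine Def.ex (Def.ex (Def.and (Def.opair ?_ ?_ ?_) (hP.app ?_ ?_)))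
    all_goals exact ⟨Tm.var _, fun _ => rfl⟩
  obtain ⟨φ, hφ⟩ := h1
  obtain ⟨R, hR⟩ := h.comprehension φ
  refine ⟨R, fun a b => ⟨?_, ?_⟩⟩
  · rintro ⟨p, hp, hpR⟩
    obtain ⟨a', b', h2, h3⟩ := (hφ _).1 ((hR p).1 hpR)
    obtain ⟨rfl, rfl⟩ := opair_inj hp h2
    exact h3
  · intro hab
    obtain ⟨p, hp⟩ := h.zu.opair_exists a b
    exact ⟨p, hp, (hR p).2 ((hφ _).2 ⟨a, b, hp, hab⟩)⟩

theorem image {P : S.Ob → S.Ob → Prop} (hP : Def2 (M := S.toStr) (dS S) P) {x : S.Ob}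
    (hx : ¬ S.ur x) (hf : ∀ a, S.mem a x → ∃! b, P a b) :
    ∃ y, ¬ S.ur y ∧ ∀ b, S.mem b y ↔ ∃ a, S.mem a x ∧ P a b := by
  have h1 : Def1 (M := S.toStr) (dS S) fun p => ∃ a b, S.mem a x ∧ S.IsOPair p a b ∧ P a b := by
    refine Def.ex (Def.ex (Def.and (Def.mem ?_ ?_) (Def.and (Def.opair ?_ ?_ ?_) (hP.app ?_ ?_))))
    rotate_left
    · exact ⟨Tm.par x, fun _ => rfl⟩
    all_goals exact ⟨Tm.var _, fun _ => rfl⟩
  obtain ⟨φ, hφ⟩ := h1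
  obtain ⟨F, hF⟩ := h.comprehension φ
  have h2 : ∀ a b, S.InRel F a b ↔ S.mem a x ∧ P a b := by
    intro a b
    constructor
    · rintro ⟨p, hp, hpR⟩
      obtain ⟨a', b', h0, h2, h3⟩ := (hφ _).1 ((hF p).1 hpR)
      obtain ⟨rfl, rfl⟩ := opair_inj hp h2
      exact ⟨h0, h3⟩
    · rintro ⟨hax, hab⟩
      obtain ⟨p, hp⟩ := h.zu.opair_exists a b
      exact ⟨p, hp, (hF p).2 ((hφ _).2 ⟨a, b, hax, hp, hab⟩)⟩
  obtain ⟨y, hy, hy'⟩ := h.replacement F x hx ⟨fun p hp => by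
    obtain ⟨a, b, h3, h4, -⟩ := (hφ _).1 ((hF p).1 hp)
    exact ⟨a, b, h3, h4⟩, fun a ha => by
    obtain ⟨b, hb, hb'⟩ := hf a ha
    exact ⟨b, (h2 a b).2 ⟨ha, hb⟩, fun b' h4 => hb' b' ((h2 a b').1 h4).2⟩⟩
  refine ⟨y, hy, fun b => (hy' b).trans ⟨?_, ?_⟩⟩
  · rintro ⟨a, ha, hab⟩
    exact ⟨a, ha, ((h2 a b).1 hab).2⟩
  · rintro ⟨a, ha, hab⟩
    exact ⟨a, ha, (h2 a b).2 ⟨ha, hab⟩⟩

theorem sep {P : S.Ob → Prop} (hP : Def1 (M := S.toStr) (dS S) P) {x : S.Ob} (hx : ¬ S.ur x) :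
    ∃ y, ¬ S.ur y ∧ ∀ z, S.mem z y ↔ S.mem z x ∧ P z := by
  by_cases h0 : ∃ z, S.mem z x ∧ P z
  · obtain ⟨z0, hz0, hz0'⟩ := h0
    have h1 : Def2 (M := S.toStr) (dS S) fun a b => (P a ∧ b = a) ∨ (¬ P a ∧ b = z0) := by
      refine Def.or (Def.and (hP.app ?_) (Def.eq ?_ ?_))
        (Def.and (Def.not (hP.app ?_)) (Def.eq ?_ ?_))
      all_goals first | exact ⟨Tm.var _, fun _ => rfl⟩ | exact ⟨Tm.par _, fun _ => rfl⟩
    obtain ⟨y, hy, hy'⟩ := h.image h1 hx fun a _ => by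
      by_cases ha : P a
      · refine ⟨a, Or.inl ⟨ha, rfl⟩, ?_⟩
        rintro b (⟨-, hb⟩ | ⟨hb, -⟩)
        · exact hb
        · exact absurd ha hb
      · refine ⟨z0, Or.inr ⟨ha, rfl⟩, ?_⟩
        rintro b (⟨hb, -⟩ | ⟨-, hb⟩)
        · exact absurd hb ha
        · exact hb
    refine ⟨y, hy, fun z => (hy' z).trans ⟨?_, ?_⟩⟩
    · rintro ⟨a, ha, ⟨h3, rfl⟩ | ⟨h3, rfl⟩⟩
      · exact ⟨ha, h3⟩
      · exact ⟨hz0, hz0'⟩
    · rintro ⟨h3, h4⟩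
      exact ⟨z, h3, Or.inl ⟨h4, rfl⟩⟩
  · obtain ⟨e, he, he'⟩ := h.zu.emp
    exact ⟨e, he, fun z => ⟨fun h1 => absurd h1 (he' z), fun h1 => absurd ⟨z, h1⟩ h0⟩⟩

theorem mkfun {P : S.Ob → S.Ob → Prop} (hP : Def2 (M := S.toStr) (dS S) P) {x : S.Ob}
    (hx : ¬ S.ur x) (hf : ∀ a, S.mem a x → ∃! b, P a b) :
    ∃ k, ¬ S.ur k ∧ ∀ i z, S.App k i z ↔ S.mem i x ∧ P i z := by
  have h1 : Def2 (M := S.toStr) (dS S) fun a p => ∃ b, S.IsOPair p a b ∧ P a b := by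
    refine Def.ex (Def.and (Def.opair ?_ ?_ ?_) (hP.app ?_ ?_))
    all_goals exact ⟨Tm.var _, fun _ => rfl⟩
  obtain ⟨k, hk, hk'⟩ := h.image h1 hx fun a ha => by
    obtain ⟨b, hb, hb'⟩ := hf a ha
    obtain ⟨p, hp⟩ := h.zu.opair_exists a b
    refine ⟨p, ⟨b, hp, hb⟩, ?_⟩
    rintro q ⟨b', hq, hb''⟩
    rw [hb' b' hb''] at hq
    exact h.zu.opair_unique hq hp
  refine ⟨k, hk, fun i z => ⟨?_, ?_⟩⟩
  · rintro ⟨p, hp, hpk⟩
    obtain ⟨a, ha, b, hb, hab⟩ := (hk' p).1 hpk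
    obtain ⟨rfl, rfl⟩ := opair_inj hp hb
    exact ⟨ha, hab⟩
  · rintro ⟨hi, hz⟩
    obtain ⟨p, hp⟩ := h.zu.opair_exists i z
    exact ⟨p, hp, (hk' p).2 ⟨i, hi, z, hp, hz⟩⟩

theorem coll (hC : S.Collection) {P : S.Ob → S.Ob → Prop} (hP : Def2 (M := S.toStr) (dS S) P)
    {w : S.Ob} (hw : ¬ S.ur w) :
    ∃ v, ¬ S.ur v ∧ ∀ t, S.mem t w → (∃ k, P t k) → ∃ k, S.mem k v ∧ P t k := by
  have h1 : Def1 (M := S.toStr) (dS S) fun t => ∃ k, P t k := by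
    refine Def.ex (hP.app ?_ ?_)
    all_goals exact ⟨Tm.var _, fun _ => rfl⟩
  obtain ⟨w', hw', hw''⟩ := h.sep h1 hw
  obtain ⟨R, hR⟩ := h.relcls hP
  obtain ⟨v, hv, hv'⟩ := hC w' R hw' fun x hx => by
    obtain ⟨k, hk⟩ := ((hw'' x).1 hx).2
    exact ⟨k, (hR x k).2 hk⟩
  refine ⟨v, hv, fun t ht htk => ?_⟩
  obtain ⟨k, hk, hk'⟩ := hv' t ((hw'' t).2 ⟨ht, htk⟩)
  exact ⟨k, hk, (hR t k).1 hk'⟩

/-- the urelements which are values of functions in `v` -/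
theorem ranset {v : S.Ob} (hv : ¬ S.ur v) : ∃ C, ¬ S.ur C ∧
    ∀ z, S.mem z C ↔ S.ur z ∧ ∃ k i, S.mem k v ∧ S.App k i z := by
  obtain ⟨u1, h1, h1'⟩ := h.zu.union v hv
  obtain ⟨u2, h2, h2'⟩ := h.zu.union u1 h1
  obtain ⟨u3, h3, h3'⟩ := h.zu.union u2 h2
  have h4 : Def1 (M := S.toStr) (dS S) fun z => S.ur z ∧ ∃ k i, S.mem k v ∧ S.App k i z := by
    refine Def.and (Def.ur ?_) (Def.ex (Def.ex (Def.and (Def.mem ?_ ?_) (Def.app ?_ ?_ ?_))))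
    all_goals first | exact ⟨Tm.var _, fun _ => rfl⟩ | exact ⟨Tm.par _, fun _ => rfl⟩
  obtain ⟨C, hC, hC'⟩ := h.sep h4 h3
  refine ⟨C, hC, fun z => (hC' z).trans ⟨fun H => H.2, fun H => ⟨?_, H⟩⟩⟩
  obtain ⟨-, k, i, hk, p, ⟨s, t, hs, ht, hp⟩, hpk⟩ := H
  refine (h3' z).2 ⟨t, (h2' t).2 ⟨p, (h1' p).2 ⟨k, hk, hpk⟩, (hp.2 t).2 (Or.inr rfl)⟩,
    (ht.2 z).2 (Or.inr rfl)⟩

end CStr.IsGBUR

end

end Pool.Agent.V11254.ULang
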