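import Mathlib
import Pool.Agent.V11254.ClassBasics

/-!
# Global Choice and Collection: `𝒜` is a set or every set is too small to map onto all sets of
urelements
-/

set_option autoImplicit false

namespace Pool.Agent.V11254.ULang

universe u v

section

variable {S : CStr.{u, v}} (G : S.Cl)

/-- `k` is a function with domain `D` and urelements as values -/
def Fn (M : Str.{u}) (k D : M.Ob) : Prop :=
  (∀ i, M.mem i D → ∃ z, M.App k i z) ∧ (∀ i z z', M.App k i z → M.App k i z' → z = z') ∧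
    ∀ i z, M.App k i z → M.mem i D ∧ M.ur z

def App2 (M : Str.{u}) (k l i z : M.Ob) : Prop := M.App k i z ∨ M.App l i z

def IsImg (M : Str.{u}) (k l s y : M.Ob) : Prop :=
  ¬ M.ur y ∧ ∀ z, M.mem z y ↔ ∃ i, M.mem i s ∧ App2 M k l i z

def Phi (k l s i : S.Ob) : Prop :=
  ∃ y z, IsImg S.toStr k l s y ∧ S.InRel G y z ∧ App2 S.toStr k l i z

def IsT (J k l x : S.Ob) : Prop := ¬ S.ur x ∧ ∀ p, S.mem p x ↔ ∃ s i, S.IsOPair p s i ∧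
  (¬ S.ur s ∧ ∀ j, S.mem j s → S.mem j J) ∧ S.mem i J ∧ Phi G k l s i

def IsT1 (J D k t : S.Ob) : Prop := ¬ S.ur t ∧ ∀ x, S.mem x t ↔ ∃ l, Fn S.toStr l D ∧
  IsT G J k l x

theorem def_Fn : Def2 (M := S.toStr) (dS S) (Fn S.toStr) := by
  unfold Fn
  refine Def.and (Def.all (Def.imp (Def.mem ?_ ?_) (Def.ex (Def.app ?_ ?_ ?_)))) (Def.and
    (Def.all (Def.all (Def.all (Def.imp (Def.app ?_ ?_ ?_) (Def.imp (Def.app ?_ ?_ ?_)
      (Def.eq ?_ ?_)))))) (Def.all (Def.all (Def.imp (Def.app ?_ ?_ ?_) (Def.and (Def.mem ?_ ?_)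
      (Def.ur ?_))))))
  all_goals exact ⟨Tm.var _, fun _ => rfl⟩

theorem def_App2 : Def4 (M := S.toStr) (dS S) (App2 S.toStr) := by
  unfold App2
  refine Def.or (Def.app ?_ ?_ ?_) (Def.app ?_ ?_ ?_)
  all_goals exact ⟨Tm.var _, fun _ => rfl⟩

theorem def_IsImg : Def4 (M := S.toStr) (dS S) (IsImg S.toStr) := by
  unfold IsImg
  refine Def.and (Def.not (Def.ur ?_)) (Def.all (Def.iff (Def.mem ?_ ?_) (Def.ex
    (Def.and (Def.mem ?_ ?_) (def_App2.app ?_ ?_ ?_ ?_)))))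
  all_goals exact ⟨Tm.var _, fun _ => rfl⟩

theorem def_Phi : Def4 (M := S.toStr) (dS S) (Phi G) := by
  unfold Phi
  refine Def.ex (Def.ex (Def.and (def_IsImg.app ?_ ?_ ?_ ?_) (Def.and (Def.inRel G ?_ ?_)
    (def_App2.app ?_ ?_ ?_ ?_))))
  all_goals exact ⟨Tm.var _, fun _ => rfl⟩

theorem def_IsT : Def4 (M := S.toStr) (dS S) (IsT G) := by
  unfold IsT
  refine Def.and (Def.not (Def.ur ?_)) (Def.all (Def.iff (Def.mem ?_ ?_) (Def.ex (Def.ex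
    (Def.and (Def.opair ?_ ?_ ?_) (Def.and (Def.and (Def.not (Def.ur ?_)) (Def.all
      (Def.imp (Def.mem ?_ ?_) (Def.mem ?_ ?_)))) (Def.and (Def.mem ?_ ?_)
      ((def_Phi G).app ?_ ?_ ?_ ?_))))))))
  all_goals exact ⟨Tm.var _, fun _ => rfl⟩

theorem def_IsT1 : Def4 (M := S.toStr) (dS S) (IsT1 G) := by
  unfold IsT1
  refine Def.and (Def.not (Def.ur ?_)) (Def.all (Def.iff (Def.mem ?_ ?_) (Def.ex
    (Def.and (def_Fn.app ?_ ?_) ((def_IsT G).app ?_ ?_ ?_ ?_)))))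
  all_goals exact ⟨Tm.var _, fun _ => rfl⟩

variable {G}

theorem IsT.iff {J k l x k' l' : S.Ob} (h : IsT G J k l x) (h' : IsT G J k' l' x)
    (hZ : S.toStr.IsZU) {s i : S.Ob} (hs : ¬ S.ur s) (hs' : ∀ j, S.mem j s → S.mem j J)
    (hi : S.mem i J) : Phi G k l s i ↔ Phi G k' l' s i := by
  obtain ⟨p, hp⟩ := hZ.opair_exists s i
  have key : ∀ {k l : S.Ob}, IsT G J k l x → (S.mem p x ↔ Phi G k l s i) := by
    intro k l h
    rw [h.2]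
    constructor
    · rintro ⟨s', i', hp', -, -, h1⟩
      obtain ⟨rfl, rfl⟩ := opair_inj hp hp'
      exact h1
    · intro h1
      exact ⟨s, i, hp, ⟨hs, hs'⟩, hi, h1⟩
  exact (key h).symm.trans (key h')

/-- equality patterns agree -/
theorem IsT.eqpat (hZ : S.toStr.IsZU) (hG : ∀ a b c, S.InRel G a b → S.InRel G a c → b = c)
    (hG' : ∀ x, (∃ y, S.mem y x) → ∃ y, S.mem y x ∧ S.InRel G x y)
    {J k l x k' l' : S.Ob} (h : IsT G J k l x) (h' : IsT G J k' l' x)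
    (hf : ∀ i z z', App2 S.toStr k l i z → App2 S.toStr k l i z' → z = z')
    (hf' : ∀ i z z', App2 S.toStr k' l' i z → App2 S.toStr k' l' i z' → z = z')
    {i j z z' : S.Ob} (hi : S.mem i J) (hj : S.mem j J) (h1 : App2 S.toStr k l i z)
    (h2 : App2 S.toStr k l j z) (h3 : App2 S.toStr k' l' i z') : App2 S.toStr k' l' j z' := by
  obtain ⟨s, hs, hs'⟩ := hZ.single i
  obtain ⟨y, hy, hy'⟩ := hZ.single z
  have hsJ : ∀ j, S.mem j s → S.mem j J := fun j hj => by rw [(hs' j).1 hj]; exact hi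
  have h4 : Phi G k l s j := by
    refine ⟨y, z, ⟨hy, fun w => ?_⟩, ?_, h2⟩
    · rw [hy']
      constructor
      · rintro rfl
        exact ⟨i, (hs' i).2 rfl, h1⟩
      · rintro ⟨i', hi', h5⟩
        rw [(hs' i').1 hi'] at h5
        exact hf i _ _ h5 h1
    · obtain ⟨w, hw, hw'⟩ := hG' y ⟨z, (hy' z).2 rfl⟩
      rwa [(hy' w).1 hw] at hw'
  obtain ⟨y', w, hy1, hy2, hy3⟩ := (h.iff h' hZ hs hsJ hj).1 h4
  obtain ⟨c, hc, hc'⟩ := hG' y' ⟨z', (hy1.2 z').2 ⟨i, (hs' i).2 rfl, h3⟩⟩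
  obtain rfl := hG _ _ _ hy2 hc'
  obtain ⟨i', hi', h5⟩ := (hy1.2 w).1 hc
  rw [(hs' i').1 hi'] at h5
  rw [hf' i _ _ h3 h5]
  exact hy3

theorem app2_fun {M : Str.{u}} {k l D E : M.Ob} (hk : Fn M k D) (hl : Fn M l E)
    (hd : ∀ i, M.mem i D → ¬ M.mem i E) :
    ∀ i z z', App2 M k l i z → App2 M k l i z' → z = z' := by
  rintro i z z' (h | h) (h' | h')
  · exact hk.2.1 i _ _ h h'
  · exact absurd (hl.2.2 i _ h').1 (hd i (hk.2.2 i _ h).1)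
  · exact absurd (hl.2.2 i _ h).1 (hd i (hk.2.2 i _ h').1)
  · exact hl.2.1 i _ _ h h'

theorem exists_T (h : S.IsGBUR) (G : S.Cl) {J : S.Ob} (hJ : ¬ S.ur J) :
    ∃ P, ¬ S.ur P ∧ ∀ k l, ∃ x, IsT G J k l x ∧ S.mem x P := by
  obtain ⟨Q, hQ, hQ'⟩ := h.zu.exists_Q hJ
  obtain ⟨P, hP, hP'⟩ := h.zu.power Q hQ
  refine ⟨P, hP, fun k l => ?_⟩
  have h1 : Def1 (M := S.toStr) (dS S) fun p => ∃ s i, S.IsOPair p s i ∧
      (¬ S.ur s ∧ ∀ j, S.mem j s → S.mem j J) ∧ S.mem i J ∧ Phi G k l s i := by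
    refine Def.ex (Def.ex
      (Def.and (Def.opair ?_ ?_ ?_) (Def.and (Def.and (Def.not (Def.ur ?_)) (Def.all
        (Def.imp (Def.mem ?_ ?_) (Def.mem ?_ ?_)))) (Def.and (Def.mem ?_ ?_)
        ((def_Phi G).app ?_ ?_ ?_ ?_)))))
    all_goals first | exact ⟨Tm.var _, fun _ => rfl⟩ | exact ⟨Tm.par _, fun _ => rfl⟩
  obtain ⟨x, hx, hx'⟩ := h.sep h1 hQ
  have hT : IsT G J k l x := by
    refine ⟨hx, fun p => (hx' p).trans ⟨fun H => H.2, fun H => ⟨?_, H⟩⟩⟩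
    obtain ⟨s, i, hp, hs, hi, -⟩ := H
    exact hQ' s i p hs.1 hs.2 hi hp
  exact ⟨x, hT, (hP' x).2 ⟨hx, fun p hp => ((hx' p).1 hp).1⟩⟩

theorem T_unique (h : S.IsGBUR) {J k l x x' : S.Ob} (hx : IsT G J k l x) (hx' : IsT G J k l x') :
    x = x' := h.zu.ext hx.1 hx'.1 fun p => (hx.2 p).trans (hx'.2 p).symm

theorem exists_T1 (h : S.IsGBUR) (G : S.Cl) {J : S.Ob} (hJ : ¬ S.ur J) (D : S.Ob) :
    ∃ P, ¬ S.ur P ∧ ∀ k, ∃ t, IsT1 G J D k t ∧ S.mem t P := by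
  obtain ⟨Q, hQ, hQ'⟩ := exists_T h G hJ
  obtain ⟨P, hP, hP'⟩ := h.zu.power Q hQ
  refine ⟨P, hP, fun k => ?_⟩
  have h1 : Def1 (M := S.toStr) (dS S) fun x => ∃ l, Fn S.toStr l D ∧ IsT G J k l x := by
    refine Def.ex (Def.and (def_Fn.app ?_ ?_) ((def_IsT G).app ?_ ?_ ?_ ?_))
    all_goals first | exact ⟨Tm.var _, fun _ => rfl⟩ | exact ⟨Tm.par _, fun _ => rfl⟩
  obtain ⟨t, ht, ht'⟩ := h.sep h1 hQ
  have hT : IsT1 G J D k t := by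
    refine ⟨ht, fun x => (ht' x).trans ⟨fun H => H.2, fun H => ⟨?_, H⟩⟩⟩
    obtain ⟨l, hl, hx⟩ := H
    obtain ⟨x', hx', hx''⟩ := hQ' k l
    rwa [T_unique h hx hx']
  exact ⟨t, hT, (hP' t).2 ⟨ht, fun x hx => ((ht' x).1 hx).1⟩⟩

theorem exists_index (h : S.IsGBUR) {I : S.Ob} (hI : ¬ S.ur I)
    (hB : ∀ B, ¬ S.ur B → (∀ z, S.mem z B → S.ur z) → ∃ f,
      (∀ i z z', S.App f i z → S.App f i z' → z = z') ∧
        ∀ z, S.mem z B → ∃ i, S.mem i I ∧ S.App f i z) (m : S.Ob) :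
    ∃ J, ¬ S.ur J ∧ (∀ j, S.mem j J ↔ ∃ i, S.mem i I ∧ S.IsOPair j i m) ∧
      ∀ B, ¬ S.ur B → (∀ z, S.mem z B → S.ur z) → (∃ z, S.mem z B) →
        ∃ k, Fn S.toStr k J ∧ (∀ j z, S.App k j z → S.mem z B) ∧
          ∀ z, S.mem z B → ∃ j, S.App k j z := by
  have h1 : Def2 (M := S.toStr) (dS S) fun i j => S.IsOPair j i m := by
    refine Def.opair ?_ ?_ ?_
    all_goals first | exact ⟨Tm.var _, fun _ => rfl⟩ | exact ⟨Tm.par _, fun _ => rfl⟩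
  obtain ⟨J, hJ, hJ'⟩ := h.image h1 hI fun i _ => by
    obtain ⟨j, hj⟩ := h.zu.opair_exists i m
    exact ⟨j, hj, fun j' hj' => h.zu.opair_unique hj' hj⟩
  refine ⟨J, hJ, hJ', ?_⟩
  rintro B hB1 hB2 ⟨b0, hb0⟩
  obtain ⟨f, hf, hf'⟩ := hB B hB1 hB2
  have h2 : Def2 (M := S.toStr) (dS S) fun j z => S.mem z B ∧ ∃ i, S.IsOPair j i m ∧
      (S.App f i z ∨ (z = b0 ∧ ∀ z', S.mem z' B → ¬ S.App f i z')) := by
    refine Def.and (Def.mem ?_ ?_) (Def.ex (Def.and (Def.opair ?_ ?_ ?_)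
      (Def.or (Def.app ?_ ?_ ?_) (Def.and (Def.eq ?_ ?_) (Def.all (Def.imp (Def.mem ?_ ?_)
      (Def.not (Def.app ?_ ?_ ?_))))))))
    all_goals first | exact ⟨Tm.var _, fun _ => rfl⟩ | exact ⟨Tm.par _, fun _ => rfl⟩
  obtain ⟨k, hk, hk'⟩ := h.mkfun h2 hJ fun j hj => by
    obtain ⟨i, hi, hij⟩ := (hJ' j).1 hj
    by_cases h3 : ∃ z, S.mem z B ∧ S.App f i z
    · obtain ⟨z, hz, hz'⟩ := h3
      refine ⟨z, ⟨hz, i, hij, Or.inl hz'⟩, ?_⟩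
      rintro z1 ⟨hz1, i1, hi1, h4⟩
      obtain ⟨rfl, -⟩ := opair_inj hij hi1
      rcases h4 with h4 | ⟨-, h4⟩
      · exact hf _ _ _ h4 hz'
      · exact absurd hz' (h4 z hz)
    · have h3' : ∀ z', S.mem z' B → ¬ S.App f i z' := fun z' h5 h6 => h3 ⟨z', h5, h6⟩
      refine ⟨b0, ⟨hb0, i, hij, Or.inr ⟨rfl, h3'⟩⟩, ?_⟩
      rintro z1 ⟨hz1, i1, hi1, h4⟩
      obtain ⟨rfl, -⟩ := opair_inj hij hi1
      rcases h4 with h4 | ⟨h4, -⟩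
      · exact absurd h4 (h3' z1 hz1)
      · exact h4
  have hval : ∀ j z, S.App k j z → S.mem z B := fun j z hjz => ((hk' j z).1 hjz).2.1
  refine ⟨k, ⟨?_, ?_, ?_⟩, hval, ?_⟩
  · intro j hj
    obtain ⟨i, hi, hij⟩ := (hJ' j).1 hj
    by_cases h3 : ∃ z, S.mem z B ∧ S.App f i z
    · obtain ⟨z, hz, hz'⟩ := h3
      exact ⟨z, (hk' j z).2 ⟨hj, hz, i, hij, Or.inl hz'⟩⟩
    · exact ⟨b0, (hk' j b0).2 ⟨hj, hb0, i, hij, Or.inr ⟨rfl, fun z' h5 h6 => h3 ⟨z', h5, h6⟩⟩⟩⟩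
  · intro j z z' h3 h4
    obtain ⟨-, h5, i, h6, h7⟩ := (hk' j z).1 h3
    obtain ⟨-, h5', i', h6', h7'⟩ := (hk' j z').1 h4
    obtain ⟨rfl, -⟩ := opair_inj h6 h6'
    rcases h7 with h7 | ⟨h7, h8⟩
    · rcases h7' with h7' | ⟨h7', h8'⟩
      · exact hf _ _ _ h7 h7'
      · exact absurd h7 (h8' z h5)
    · rcases h7' with h7' | ⟨h7', h8'⟩
      · exact absurd h7' (h8 z' h5')
      · rw [h7, h7']
  · intro j z hjz
    exact ⟨((hk' j z).1 hjz).1, hB2 z (hval j z hjz)⟩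
  · intro z hz
    obtain ⟨i, hi, hiz⟩ := hf' z hz
    obtain ⟨j, hj⟩ := h.zu.opair_exists i m
    exact ⟨j, (hk' j z).2 ⟨(hJ' j).2 ⟨i, hi, hj⟩, hz, i, hj, Or.inl hiz⟩⟩

/-- the main argument -/
theorem main_arg (h : S.IsGBUR) (hC : S.Collection) (hGC : S.GlobalChoice)
    (hA : ∀ x, ¬ S.ur x → ∃ a, S.ur a ∧ ¬ S.mem a x) {I : S.Ob} (hI : ¬ S.ur I)
    (hB : ∀ B, ¬ S.ur B → (∀ z, S.mem z B → S.ur z) → ∃ f,
      (∀ i z z', S.App f i z → S.App f i z' → z = z') ∧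
        ∀ z, S.mem z B → ∃ i, S.mem i I ∧ S.App f i z) : False := by
  obtain ⟨G, hG, hG'⟩ := hGC
  have hZ := h.zu
  obtain ⟨a1, ha1, -⟩ := hA I hI
  -- the index sets
  obtain ⟨J2, hJ2, hJ2', hs2⟩ := exists_index h hI hB a1
  obtain ⟨J3, hJ3, hJ3', hs3⟩ := exists_index h hI hB I
  have hdisj : ∀ j, S.mem j J2 → ¬ S.mem j J3 := by
    intro j h1 h2
    obtain ⟨i, hi, hi'⟩ := (hJ2' j).1 h1
    obtain ⟨i', hi1, hi1'⟩ := (hJ3' j).1 h2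
    obtain ⟨-, rfl⟩ := opair_inj hi' hi1'
    exact hI ha1
  obtain ⟨J, hJ, hJ'⟩ := hZ.union2 hJ2 hJ3
  have hJ3J : ∀ j, S.mem j J3 → S.mem j J := fun j hj => (hJ' j).2 (Or.inr hj)
  have hJ2J : ∀ j, S.mem j J2 → S.mem j J := fun j hj => (hJ' j).2 (Or.inl hj)
  -- the first absorbing set
  obtain ⟨P1, hP1, hP1'⟩ := exists_T1 h G hJ J3
  have d1 : Def2 (M := S.toStr) (dS S) fun t k => Fn S.toStr k J2 ∧ IsT1 G J J3 k t := by
    refine Def.and (def_Fn.app ?_ ?_) ((def_IsT1 G).app ?_ ?_ ?_ ?_)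
    all_goals first | exact ⟨Tm.var _, fun _ => rfl⟩ | exact ⟨Tm.par _, fun _ => rfl⟩
  obtain ⟨v1, hv1, hv1'⟩ := h.coll hC d1 hP1
  obtain ⟨C1, hC1, hC1'⟩ := h.ranset hv1
  obtain ⟨as, has, has'⟩ := hA C1 hC1
  -- the identity function of `C1`
  have d2 : Def2 (M := S.toStr) (dS S) fun i z => z = i := by
    refine Def.eq ?_ ?_
    all_goals exact ⟨Tm.var _, fun _ => rfl⟩
  obtain ⟨e, he, he'⟩ := h.mkfun d2 hC1 fun i _ => ⟨i, rfl, fun j hj => hj⟩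
  have heFn : Fn S.toStr e C1 := by
    refine ⟨fun i hi => ⟨i, (he' i i).2 ⟨hi, rfl⟩⟩, fun i z z' h1 h2 => ?_, fun i z h1 => ?_⟩
    · rw [((he' i z).1 h1).2, ((he' i z').1 h2).2]
    · have h2 := (he' i z).1 h1
      refine ⟨h2.1, ?_⟩
      rw [h2.2]
      exact ((hC1' i).1 h2.1).1
  obtain ⟨J', hJ1, hJ1'⟩ := hZ.union2 hC1 hJ3
  have hJ3J' : ∀ j, S.mem j J3 → S.mem j J' := fun j hj => (hJ1' j).2 (Or.inr hj)
  have hC1J' : ∀ j, S.mem j C1 → S.mem j J' := fun j hj => (hJ1' j).2 (Or.inl hj)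
  have hdisj' : ∀ j, S.mem j C1 → ¬ S.mem j J3 := by
    intro j h1 h2
    obtain ⟨i', hi1, hi1'⟩ := (hJ3' j).1 h2
    exact IsOPair.set hi1' ((hC1' j).1 h1).1
  -- the second absorbing set
  obtain ⟨P2, hP2, hP2'⟩ := exists_T h G hJ1
  have d3 : Def2 (M := S.toStr) (dS S) fun x l => Fn S.toStr l J3 ∧ IsT G J' e l x := by
    refine Def.and (def_Fn.app ?_ ?_) ((def_IsT G).app ?_ ?_ ?_ ?_)
    all_goals first | exact ⟨Tm.var _, fun _ => rfl⟩ | exact ⟨Tm.par _, fun _ => rfl⟩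
  obtain ⟨v2, hv2, hv2'⟩ := h.coll hC d3 hP2
  obtain ⟨D2, hD2, hD2'⟩ := h.ranset hv2
  obtain ⟨E, hE, hE'⟩ := hZ.single as
  obtain ⟨C0, hC0, hC0'⟩ := hZ.union2 hC1 hE
  obtain ⟨C2, hC2, hC2'⟩ := hZ.union2 hC0 hD2
  have hC12 : ∀ z, S.mem z C1 → S.mem z C2 := fun z hz =>
    (hC2' z).2 (Or.inl ((hC0' z).2 (Or.inl hz)))
  have has2 : S.mem as C2 := (hC2' as).2 (Or.inl ((hC0' as).2 (Or.inr ((hE' as).2 rfl))))
  have hD22 : ∀ z, S.mem z D2 → S.mem z C2 := fun z hz => (hC2' z).2 (Or.inr hz)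
  have hC2ur : ∀ z, S.mem z C2 → S.ur z := by
    intro z hz
    rcases (hC2' z).1 hz with h1 | h1
    · rcases (hC0' z).1 h1 with h2 | h2
      · exact ((hC1' z).1 h2).1
      · rw [(hE' z).1 h2]; exact has
    · exact ((hD2' z).1 h1).1
  obtain ⟨c2, hc2, hc2v, hc2o⟩ := hs2 C2 hC2 hC2ur ⟨as, has2⟩
  obtain ⟨d, hd, hdv, hdo⟩ := hs3 C2 hC2 hC2ur ⟨as, has2⟩
  obtain ⟨t1, ht1, ht1'⟩ := hP1' c2
  obtain ⟨c2', hc2'v, hc2', ht2⟩ := hv1' t1 ht1' ⟨c2, hc2, ht1⟩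
  have hc2'C1 : ∀ j z, S.App c2' j z → S.mem z C1 := fun j z hjz =>
    (hC1' z).2 ⟨(hc2'.2.2 j z hjz).2, c2', j, hc2'v, hjz⟩
  obtain ⟨PT, -, hTT⟩ := exists_T h G hJ
  obtain ⟨x0, hx0, -⟩ := hTT c2' d
  have hx0t : S.mem x0 t1 := (ht2.2 x0).2 ⟨d, hd, hx0⟩
  obtain ⟨l', hl', hx0'⟩ := (ht1.2 x0).1 hx0t
  obtain ⟨x1, hx1, hx1P⟩ := hP2' e l'
  obtain ⟨l'', hl''v, hl'', hx1'⟩ := hv2' x1 hx1P ⟨l', hl', hx1⟩
  have hl''C2 : ∀ j z, S.App l'' j z → S.mem z C2 := fun j z hjz =>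
    hD22 z ((hD2' z).2 ⟨(hl''.2.2 j z hjz).2, l'', j, hl''v, hjz⟩)
  -- functionality
  have f1 := app2_fun hc2' hd hdisj
  have f2 := app2_fun hc2 hl' hdisj
  have f3 := app2_fun heFn hl' hdisj'
  have f4 := app2_fun heFn hl'' hdisj'
  have dl : ∀ {l j z : S.Ob}, S.App l j z → ∀ k, App2 S.toStr k l j z := fun h1 _ => Or.inr h1
  have inv : ∀ {k l D z j : S.Ob}, Fn S.toStr k D → (∀ j, S.mem j D → ¬ S.mem j J3) →
      S.mem j J3 → App2 S.toStr k l j z → S.App l j z := by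
    intro k l D z j hk hD hj h1
    rcases h1 with h1 | h1
    · exact absurd hj (hD j (hk.2.2 j z h1).1)
    · exact h1
  -- chains of equality patterns
  have p1 : ∀ {i j z z' : S.Ob}, S.mem i J3 → S.mem j J3 → S.App d i z → S.App d j z →
      S.App l' i z' → S.App l' j z' := by
    intro i j z z' hi hj h1 h2 h3
    exact inv hc2 hdisj hj (hx0.eqpat hZ hG hG' hx0' f1 f2 (hJ3J i hi) (hJ3J j hj)
      (dl h1 _) (dl h2 _) (dl h3 _))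
  have p2 : ∀ {i j z z' : S.Ob}, S.mem i J3 → S.mem j J3 → S.App l' i z → S.App l' j z →
      S.App d i z' → S.App d j z' := by
    intro i j z z' hi hj h1 h2 h3
    exact inv hc2' hdisj hj (hx0'.eqpat hZ hG hG' hx0 f2 f1 (hJ3J i hi) (hJ3J j hj)
      (dl h1 _) (dl h2 _) (dl h3 _))
  have p3 : ∀ {i j z z' : S.Ob}, S.mem i J3 → S.mem j J3 → S.App l' i z → S.App l' j z →
      S.App l'' i z' → S.App l'' j z' := by
    intro i j z z' hi hj h1 h2 h3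
    exact inv heFn hdisj' hj (hx1.eqpat hZ hG hG' hx1' f3 f4 (hJ3J' i hi) (hJ3J' j hj)
      (dl h1 _) (dl h2 _) (dl h3 _))
  have p4 : ∀ {i j z z' : S.Ob}, S.mem i J3 → S.mem j J3 → S.App l'' i z → S.App l'' j z →
      S.App l' i z' → S.App l' j z' := by
    intro i j z z' hi hj h1 h2 h3
    exact inv heFn hdisj' hj (hx1'.eqpat hZ hG hG' hx1 f4 f3 (hJ3J' i hi) (hJ3J' j hj)
      (dl h1 _) (dl h2 _) (dl h3 _))
  -- the map `w`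
  let W : S.Ob → S.Ob → Prop := fun z z' => ∃ i, S.App d i z ∧ S.App l'' i z'
  have dW : Def2 (M := S.toStr) (dS S) W := by
    refine Def.ex (Def.and (Def.app ?_ ?_ ?_) (Def.app ?_ ?_ ?_))
    all_goals first | exact ⟨Tm.var _, fun _ => rfl⟩ | exact ⟨Tm.par _, fun _ => rfl⟩
  have Wfun : ∀ {u z z'}, W u z → W u z' → z = z' := by
    rintro u z z' ⟨i, h1, h2⟩ ⟨j, h3, h4⟩
    have hi := (hd.2.2 i u h1).1
    have hj := (hd.2.2 j u h3).1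
    obtain ⟨y, hy⟩ := hl'.1 i hi
    have h5 := p1 hi hj h1 h3 hy
    exact hl''.2.1 j _ _ (p3 hi hj hy h5 h2) h4
  have Winj : ∀ {u u' z}, W u z → W u' z → u = u' := by
    rintro u u' z ⟨i, h1, h2⟩ ⟨j, h3, h4⟩
    have hi := (hd.2.2 i u h1).1
    have hj := (hd.2.2 j u' h3).1
    obtain ⟨y, hy⟩ := hl'.1 i hi
    have h5 := p4 hi hj h2 h4 hy
    exact hd.2.1 j _ _ (p2 hi hj hy h5 h1) h3
  have Wval : ∀ {u z}, W u z → S.mem z C2 := by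
    rintro u z ⟨i, h1, h2⟩
    exact hl''C2 i z h2
  -- partial inverse
  have Winv : ∀ z, S.mem z C2 → ∃ z1, S.mem z1 C1 ∧ ∃ i, S.App d i z1 ∧ S.App l' i z := by
    intro z hz
    obtain ⟨j, hj⟩ := hc2o z hz
    have hjJ := (hc2.2.2 j z hj).1
    obtain ⟨z1, hz1⟩ := hc2'.1 j hjJ
    have hz1C := hc2'C1 j z1 hz1
    obtain ⟨i, hi⟩ := hdo z1 (hC12 z1 hz1C)
    have hiJ := (hd.2.2 i z1 hi).1
    refine ⟨z1, hz1C, i, hi, ?_⟩
    exact inv hc2 hdisj hiJ (hx0.eqpat hZ hG hG' hx0' f1 f2 (hJ2J j hjJ) (hJ3J i hiJ)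
      (Or.inl hz1) (Or.inr hi) (Or.inl hj))
  have fix1 : ∀ {i z}, S.mem z C1 → S.App l' i z → S.App l'' i z := by
    intro i z hz h1
    have hiJ := (hl'.2.2 i z h1).1
    have hez : S.App e z z := (he' z z).2 ⟨hz, rfl⟩
    exact inv heFn hdisj' hiJ (hx1.eqpat hZ hG hG' hx1' f3 f4 (hC1J' z hz) (hJ3J' i hiJ)
      (Or.inl hez) (Or.inr h1) (Or.inl hez))
  have fix2 : ∀ {i z}, S.mem z C1 → S.App l'' i z → S.App l' i z := by
    intro i z hz h1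
    have hiJ := (hl''.2.2 i z h1).1
    have hez : S.App e z z := (he' z z).2 ⟨hz, rfl⟩
    exact inv heFn hdisj' hiJ (hx1'.eqpat hZ hG hG' hx1 f4 f3 (hC1J' z hz) (hJ3J' i hiJ)
      (Or.inl hez) (Or.inr h1) (Or.inl hez))
  have WC1 : ∀ z, S.mem z C1 → ∃ z1, S.mem z1 C1 ∧ W z1 z := by
    intro z hz
    obtain ⟨z1, hz1, i, hi, hi'⟩ := Winv z (hC12 z hz)
    exact ⟨z1, hz1, i, hi, fix1 hz hi'⟩
  obtain ⟨a, ha, ia, hia, hia'⟩ := Winv as has2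
  have Wa : ¬ W a a := by
    rintro ⟨i, h1, h2⟩
    have h3 := fix2 ha h2
    have hi := (hd.2.2 i a h1).1
    have hia2 := (hd.2.2 ia a hia).1
    have h4 := p1 hi hia2 h1 hia h3
    have h5 := hl'.2.1 ia _ _ h4 hia'
    rw [h5] at ha
    exact has' ha
  -- the least closed set
  let Cld : S.Ob → Prop := fun y => ¬ S.ur y ∧ (∀ z, S.mem z C1 → S.mem z y) ∧
    ∀ z z', S.mem z y → W z z' → S.mem z' y
  have dY : Def1 (M := S.toStr) (dS S) fun z => ∀ y, Cld y → S.mem z y := by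
    refine Def.all (Def.imp (Def.and (Def.not (Def.ur ?_)) (Def.and (Def.all (Def.imp
      (Def.mem ?_ ?_) (Def.mem ?_ ?_))) (Def.all (Def.all (Def.imp (Def.mem ?_ ?_) (Def.imp
      (dW.app ?_ ?_) (Def.mem ?_ ?_))))))) (Def.mem ?_ ?_))
    all_goals first | exact ⟨Tm.var _, fun _ => rfl⟩ | exact ⟨Tm.par _, fun _ => rfl⟩
  obtain ⟨Y, hY, hY'⟩ := h.sep dY hC2
  have YC2 : ∀ z, S.mem z Y → S.mem z C2 := fun z hz => ((hY' z).1 hz).1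
  have YC1 : ∀ z, S.mem z C1 → S.mem z Y := fun z hz =>
    (hY' z).2 ⟨hC12 z hz, fun y hy => hy.2.1 z hz⟩
  have Ycl : ∀ z z', S.mem z Y → W z z' → S.mem z' Y := fun z z' hz hzz' =>
    (hY' z').2 ⟨Wval hzz', fun y hy => hy.2.2 z z' (((hY' z).1 hz).2 y hy) hzz'⟩
  have Ysur : ∀ z, S.mem z Y → ∃ u, S.mem u Y ∧ W u z := by
    have dy : Def1 (M := S.toStr) (dS S) fun z => ∃ u, S.mem u Y ∧ W u z := by
      refine Def.ex (Def.and (Def.mem ?_ ?_) (dW.app ?_ ?_))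
      all_goals first | exact ⟨Tm.var _, fun _ => rfl⟩ | exact ⟨Tm.par _, fun _ => rfl⟩
    obtain ⟨y, hy, hy'⟩ := h.sep dy hY
    have hcl : Cld y := by
      refine ⟨hy, fun z hz => ?_, fun z z' hz hzz' => ?_⟩
      · obtain ⟨z1, hz1, hz1'⟩ := WC1 z hz
        exact (hy' z).2 ⟨YC1 z hz, z1, YC1 z1 hz1, hz1'⟩
      · have h1 := ((hy' z).1 hz).1
        exact (hy' z').2 ⟨Ycl z z' h1 hzz', z, h1, hzz'⟩
    intro z hz
    exact ((hy' z).1 (((hY' z).1 hz).2 y hcl)).2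
  -- the set of moved points
  have dF : Def1 (M := S.toStr) (dS S) fun z => ¬ W z z := by
    refine Def.not (dW.app ?_ ?_)
    all_goals exact ⟨Tm.var _, fun _ => rfl⟩
  obtain ⟨F, hF, hF'⟩ := h.sep dF hY
  obtain ⟨c, hcF, hcG⟩ := hG' F ⟨a, (hF' a).2 ⟨YC1 a ha, Wa⟩⟩
  obtain ⟨hcY, hcW⟩ := (hF' c).1 hcF
  obtain ⟨i0, hi0⟩ := hdo c (YC2 c hcY)
  have hi0J := (hd.2.2 i0 c hi0).1
  have ds : Def1 (M := S.toStr) (dS S) fun i => ∃ z, S.mem z F ∧ S.App d i z := by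
    refine Def.ex (Def.and (Def.mem ?_ ?_) (Def.app ?_ ?_ ?_))
    all_goals first | exact ⟨Tm.var _, fun _ => rfl⟩ | exact ⟨Tm.par _, fun _ => rfl⟩
  obtain ⟨s, hs, hs'⟩ := h.sep ds hJ3
  have hsJ3 : ∀ j, S.mem j s → S.mem j J3 := fun j hj => ((hs' j).1 hj).1
  have q1 : Phi G c2' d s i0 := by
    refine ⟨F, c, ⟨hF, fun z => ⟨fun hz => ?_, ?_⟩⟩, hcG, Or.inr hi0⟩
    · obtain ⟨i, hi⟩ := hdo z (YC2 z ((hF' z).1 hz).1)
      exact ⟨i, (hs' i).2 ⟨(hd.2.2 i z hi).1, z, hz, hi⟩, Or.inr hi⟩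
    · rintro ⟨i, hi, hiz⟩
      obtain ⟨hiJ, z1, hz1, hz1'⟩ := (hs' i).1 hi
      rw [hd.2.1 i z z1 (inv hc2' hdisj hiJ hiz) hz1']
      exact hz1
  have q2 : Phi G c2 l' s i0 := (hx0.iff hx0' hZ hs (fun j hj => hJ3J j (hsJ3 j hj))
    (hJ3J i0 hi0J)).1 q1
  have q3 : Phi G e l' s i0 := by
    obtain ⟨y, z, hy, hyz, hz⟩ := q2
    refine ⟨y, z, ⟨hy.1, fun z => (hy.2 z).trans ⟨?_, ?_⟩⟩, hyz,
      Or.inr (inv hc2 hdisj hi0J hz)⟩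
    · rintro ⟨i, hi, h1⟩
      exact ⟨i, hi, Or.inr (inv hc2 hdisj (hsJ3 i hi) h1)⟩
    · rintro ⟨i, hi, h1⟩
      exact ⟨i, hi, Or.inr (inv heFn hdisj' (hsJ3 i hi) h1)⟩
  obtain ⟨y, z, hy, hyz, hz⟩ := (hx1.iff hx1' hZ hs (fun j hj => hJ3J' j (hsJ3 j hj))
    (hJ3J' i0 hi0J)).1 q3
  have hyF : y = F := by
    refine hZ.ext hy.1 hF fun z' => (hy.2 z').trans ⟨?_, ?_⟩
    · rintro ⟨i, hi, h1⟩
      have h2 := inv heFn hdisj' (hsJ3 i hi) h1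
      obtain ⟨hiJ, u, hu, hu'⟩ := (hs' i).1 hi
      have h3 : W u z' := ⟨i, hu', h2⟩
      obtain ⟨huY, huW⟩ := (hF' u).1 hu
      refine (hF' z').2 ⟨Ycl u z' huY h3, fun h4 => ?_⟩
      have h5 : u = z' := Winj h3 h4
      rw [← h5] at h4
      exact huW h4
    · intro hz'
      obtain ⟨hzY, hzW⟩ := (hF' z').1 hz'
      obtain ⟨u, hu, i, hi, hi'⟩ := Ysur z' hzY
      refine ⟨i, (hs' i).2 ⟨(hd.2.2 i u hi).1, u, (hF' u).2 ⟨hu, fun h4 => ?_⟩, hi⟩, Or.inr hi'⟩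
      have h3 : W u z' := ⟨i, hi, hi'⟩
      have h5 : u = z' := Wfun h4 h3
      rw [h5] at h3
      exact hzW h3
  rw [hyF] at hyz
  have hzc : z = c := hG _ _ _ hyz hcG
  rw [hzc] at hz
  exact hcW ⟨i0, hi0, inv heFn hdisj' hi0J hz⟩

end

end Pool.Agent.V11254.ULang
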