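import Mathlib
import Pool.Agent.V11254.USets
import Pool.Agent.V11254.ClassBasics

/-!
# A model of `ZFCU` with a proper class of urelements but no uncountable set of urelements
-/

set_option autoImplicit false

namespace Pool.Agent.V11254.CountKer

open Pool.Agent.V11254.USets Pool.Agent.V11254.ULang

/-- The urelements. -/
abbrev K : Type 1 := ULift.{1} ℝ

theorem K_unc : ¬ (Set.univ : Set K).Countable := by
  intro h
  have : Countable K := Set.countable_univ_iff.1 h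
  have h2 : Countable ℝ := Equiv.countable_iff (Equiv.ulift.{1} (α := ℝ)) |>.1 this
  exact not_countable (α := ℝ) h2

theorem exists_notMem {E : Set K} (h : E.Countable) : ∃ a, a ∉ E := by
  by_contra h2
  push Not at h2
  exact K_unc (by rw [← Set.eq_univ_of_forall h2]; exact h)

theorem compl_inf {E : Set K} (h : E.Countable) : (Eᶜ : Set K).Infinite := by
  intro h2
  apply K_unc
  rw [← Set.union_compl_self E]
  exact h.union h2.countable

theorem els_small (x : U K) : Small.{0} (els x) := by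
  rcases cases x with ⟨a, rfl⟩ | ⟨ι, f, rfl⟩
  · have : els (atom a : U K) = ∅ := Set.eq_empty_of_forall_notMem fun y => els_atom a y
    rw [this]; infer_instance
  · have : els (mk f) = Set.range f := by
      ext y; rw [mem_els_mk]; rfl
    rw [this]; infer_instance

/-- Objects: urelements and hereditarily small sets with countable kernel. -/
def Ob : Type 1 := {x : U K // (ker x).Countable}

/-- the action of the permutations of `K` -/
noncomputable def act (π : Equiv.Perm K) (x : Ob) : Ob :=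
  ⟨map π x.1, by rw [ker_map]; exact x.2.image π⟩

theorem act_act (π σ : Equiv.Perm K) (x : Ob) : act σ (act π x) = act (π.trans σ) x :=
  Subtype.ext (map_map _ _ _)

theorem act_id (x : Ob) : act (Equiv.refl K) x = x := Subtype.ext (map_id x.1)

theorem act_symm (π : Equiv.Perm K) (x : Ob) : act π (act π.symm x) = x := by
  rw [act_act, show π.symm.trans π = Equiv.refl K from Equiv.symm_trans_self π, act_id]

theorem symm_act (π : Equiv.Perm K) (x : Ob) : act π.symm (act π x) = x := by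
  rw [act_act, show π.trans π.symm = Equiv.refl K from Equiv.self_trans_symm π, act_id]

theorem act_fix (π : Equiv.Perm K) (x : Ob) (h : ∀ a ∈ ker x.1, π a = a) : act π x = x :=
  Subtype.ext (map_fix h)

theorem act_inj (π : Equiv.Perm K) {x y : Ob} (h : act π x = act π y) : x = y := by
  rw [← symm_act π x, h, symm_act]

/-- The model. -/
abbrev M : Str.{1} := ⟨Ob, fun x y => x.1 ∈ els y.1, fun x => ∃ a, x.1 = atom a⟩

theorem mem_act (π : Equiv.Perm K) (x y : Ob) : M.mem (act π x) (act π y) ↔ M.mem x y :=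
  mem_els_map π

theorem ur_act (π : Equiv.Perm K) (x : Ob) : M.ur (act π x) ↔ M.ur x := by
  constructor
  · rintro ⟨a, ha⟩
    rcases cases x.1 with ⟨b, hb⟩ | ⟨ι, f, hf⟩
    · exact ⟨b, hb⟩
    · exfalso
      have : map π x.1 = atom a := ha
      rw [hf, map_mk] at this
      exact atom_ne_mk _ _ this.symm
  · rintro ⟨a, ha⟩
    exact ⟨π a, by show map π x.1 = _; rw [ha, map_atom]⟩

theorem cons_act {α β : Type 1} (f : α → β) {n : ℕ} (x : α) (v : Fin n → α) :
    (fun i => f ((Fin.cons x v : Fin (n + 1) → α) i)) = Fin.cons (f x) fun i => f (v i) := by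
  funext i
  refine Fin.cases ?_ ?_ i
  · rfl
  · intro i; rfl

theorem val_act {n : ℕ} (τ : Tm Ob n) : ∃ E : Set K, E.Countable ∧ ∀ π : Equiv.Perm K,
    (∀ e ∈ E, π e = e) → ∀ x : Fin n → Ob,
      τ.val (fun a => a) (fun i => act π (x i)) = act π (τ.val (fun a => a) x) := by
  cases τ with
  | var i => exact ⟨∅, Set.countable_empty, fun π _ x => rfl⟩
  | par a => exact ⟨ker a.1, a.2, fun π hπ x => (act_fix π a hπ).symm⟩

/-- every formula with parameters has a countable support -/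
theorem exists_supp : ∀ {n : ℕ} (φ : Fm Ob Empty n), ∃ E : Set K, E.Countable ∧
    ∀ π : Equiv.Perm K, (∀ e ∈ E, π e = e) → ∀ x : Fin n → Ob,
      M.Holds φ (fun i => act π (x i)) ↔ M.Holds φ x
  | _, .mem s t => by
    obtain ⟨E, hE, hE'⟩ := val_act s
    obtain ⟨F, hF, hF'⟩ := val_act t
    refine ⟨E ∪ F, hE.union hF, fun π hπ x => ?_⟩
    show M.mem _ _ ↔ M.mem _ _
    rw [hE' π (fun e he => hπ e (Or.inl he)), hF' π (fun e he => hπ e (Or.inr he))]
    exact mem_act π _ _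
  | _, .eq s t => by
    obtain ⟨E, hE, hE'⟩ := val_act s
    obtain ⟨F, hF, hF'⟩ := val_act t
    refine ⟨E ∪ F, hE.union hF, fun π hπ x => ?_⟩
    show _ = _ ↔ _ = _
    rw [hE' π (fun e he => hπ e (Or.inl he)), hF' π (fun e he => hπ e (Or.inr he))]
    exact ⟨fun h => act_inj π h, fun h => congrArg (act π) h⟩
  | _, .ur s => by
    obtain ⟨E, hE, hE'⟩ := val_act s
    refine ⟨E, hE, fun π hπ x => ?_⟩
    show M.ur _ ↔ M.ur _
    rw [hE' π hπ]
    exact ur_act π _
  | _, .cls s C => C.elim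
  | _, .bot => ⟨∅, Set.countable_empty, fun _ _ _ => Iff.rfl⟩
  | _, .imp φ ψ => by
    obtain ⟨E, hE, hE'⟩ := exists_supp φ
    obtain ⟨F, hF, hF'⟩ := exists_supp ψ
    refine ⟨E ∪ F, hE.union hF, fun π hπ x => ?_⟩
    show (M.Holds φ _ → M.Holds ψ _) ↔ (M.Holds φ _ → M.Holds ψ _)
    rw [hE' π (fun e he => hπ e (Or.inl he)), hF' π (fun e he => hπ e (Or.inr he))]
  | _, .all φ => by
    obtain ⟨E, hE, hE'⟩ := exists_supp φ
    refine ⟨E, hE, fun π hπ x => ?_⟩
    show (∀ y, M.Holds φ _) ↔ ∀ y, M.Holds φ _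
    constructor
    · intro h y
      have h1 := h (act π y)
      rw [← cons_act (act π) y x] at h1
      exact (hE' π hπ _).1 h1
    · intro h y
      have h1 := (hE' π hπ _).2 (h (act π.symm y))
      rw [cons_act (act π), act_symm] at h1
      exact h1

/-! ### Sets of the model -/

/-- elements of an object -/
def elsO (x : Ob) : Set Ob := {y | y.1 ∈ els x.1}

theorem elsO_small (x : Ob) : Small.{0} (elsO x) := by
  have := els_small x.1
  refine small_of_injective (β := els x.1) (f := fun y : elsO x => (⟨y.1.1, y.2⟩ : els x.1)) ?_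
  intro y z h
  exact Subtype.ext (Subtype.ext (congrArg (fun w : els x.1 => w.1) h))

/-- a small set of objects with kernels in one countable set is a set of the model -/
theorem exists_set (T : Set Ob) (hT : Small.{0} T) (W : Set K) (hW : W.Countable)
    (h : ∀ y ∈ T, ker y.1 ⊆ W) : ∃ x : Ob, ¬ M.ur x ∧ (∀ z, M.mem z x ↔ z ∈ T) ∧ ker x.1 ⊆ W := by
  let f : Shrink.{0} T → U K := fun i => (((equivShrink T).symm i : T) : Ob).1
  have hk : ker (mk f) ⊆ W := by
    rw [ker_mk]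
    exact Set.iUnion_subset fun i => h _ ((equivShrink T).symm i).2
  refine ⟨⟨mk f, hW.mono hk⟩, ?_, ?_, hk⟩
  · rintro ⟨a, ha⟩
    exact atom_ne_mk _ _ ha.symm
  · intro z
    show z.1 ∈ els (mk f) ↔ z ∈ T
    rw [mem_els_mk]
    constructor
    · rintro ⟨i, hi⟩
      have : (((equivShrink T).symm i : T) : Ob) = z := Subtype.ext hi
      rw [← this]
      exact ((equivShrink T).symm i).2
    · intro hz
      refine ⟨equivShrink T ⟨z, hz⟩, ?_⟩
      simp [f]

theorem ker_mem {x y : Ob} (h : M.mem y x) : ker y.1 ⊆ ker x.1 := ker_sub h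

theorem mem_lift {x : Ob} {y : U K} (h : y ∈ els x.1) : ∃ z : Ob, z.1 = y ∧ M.mem z x :=
  ⟨⟨y, x.2.mono (ker_sub h)⟩, rfl, h⟩

theorem extensionality (x y : Ob) (hx : ¬ M.ur x) (hy : ¬ M.ur y)
    (h : ∀ z, M.mem z x ↔ M.mem z y) : x = y := by
  apply Subtype.ext
  rcases cases x.1 with ⟨a, ha⟩ | ⟨ι, f, hf⟩
  · exact absurd ⟨a, ha⟩ hx
  rcases cases y.1 with ⟨a, ha⟩ | ⟨κ, g, hg⟩
  · exact absurd ⟨a, ha⟩ hy
  rw [hf, hg]
  refine els_ext f g fun z => ?_
  rw [← hf, ← hg]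
  constructor
  · intro hz
    obtain ⟨w, rfl, hw⟩ := mem_lift hz
    exact (h w).1 hw
  · intro hz
    obtain ⟨w, rfl, hw⟩ := mem_lift hz
    exact (h w).2 hw

theorem foundation (x : Ob) (h : ∃ y, M.mem y x) :
    ∃ y, M.mem y x ∧ ∀ z, M.mem z y → ¬ M.mem z x := by
  obtain ⟨y, hy⟩ := h
  have key : ∀ y : U K, y ∈ els x.1 → ∃ y : Ob, M.mem y x ∧ ∀ z, M.mem z y → ¬ M.mem z x := by
    refine ind ?_ ?_
    · intro a ha
      obtain ⟨w, hw, hw'⟩ := mem_lift ha
      refine ⟨w, hw', fun z hz => ?_⟩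
      have : z.1 ∈ els w.1 := hz
      rw [hw] at this
      exact absurd this (els_atom _ _)
    · intro ι f ih hf
      by_cases h : ∃ i, f i ∈ els x.1
      · obtain ⟨i, hi⟩ := h
        exact ih i hi
      · obtain ⟨w, hw, hw'⟩ := mem_lift hf
        refine ⟨w, hw', fun z hz hzx => ?_⟩
        have : z.1 ∈ els w.1 := hz
        rw [hw, mem_els_mk] at this
        obtain ⟨i, hi⟩ := this
        exact h ⟨i, hi ▸ hzx⟩
  exact key y.1 hy

theorem pairing' (a b : Ob) : ∃ p, M.IsUPair p a b ∧ ker p.1 ⊆ ker a.1 ∪ ker b.1 := by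
  obtain ⟨x, h1, h2, h3⟩ := exists_set {a, b} inferInstance (ker a.1 ∪ ker b.1) (a.2.union b.2) (by
    rintro y (rfl | rfl)
    · exact Set.subset_union_left
    · exact Set.subset_union_right)
  exact ⟨x, ⟨h1, fun z => (h2 z).trans Iff.rfl⟩, h3⟩

theorem opair' (a b : Ob) : ∃ p, M.IsOPair p a b ∧ ker p.1 ⊆ ker a.1 ∪ ker b.1 := by
  obtain ⟨s, hs, hs'⟩ := pairing' a a
  obtain ⟨t, ht, ht'⟩ := pairing' a b
  obtain ⟨p, hp, hp'⟩ := pairing' s t
  refine ⟨p, ⟨s, t, hs, ht, hp⟩, hp'.trans (Set.union_subset (hs'.trans ?_) ht')⟩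
  rw [Set.union_self]
  exact Set.subset_union_left

theorem union (x : Ob) : ∃ u, ¬ M.ur u ∧ ∀ z, M.mem z u ↔ ∃ y, M.mem y x ∧ M.mem z y := by
  have h1 := elsO_small x
  have h2 := fun y : elsO x => elsO_small y.1
  obtain ⟨u, h3, h4, _⟩ := exists_set (⋃ y : elsO x, elsO y.1) (small_iUnion _) (ker x.1) x.2 (by
    intro z hz
    obtain ⟨y, hy⟩ := Set.mem_iUnion.1 hz
    exact (ker_mem (x := y.1) hy).trans (ker_mem y.2))
  refine ⟨u, h3, fun z => (h4 z).trans ?_⟩
  rw [Set.mem_iUnion]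
  exact ⟨fun ⟨y, hy⟩ => ⟨y.1, y.2, hy⟩, fun ⟨y, hy, hz⟩ => ⟨⟨y, hy⟩, hz⟩⟩

theorem ker_of_elements {x : Ob} (hx : ¬ M.ur x) {a : K} (ha : a ∈ ker x.1) :
    ∃ y, M.mem y x ∧ a ∈ ker y.1 := by
  rcases cases x.1 with ⟨b, hb⟩ | ⟨ι, f, hf⟩
  · exact absurd ⟨b, hb⟩ hx
  · rw [hf, ker_mk] at ha
    obtain ⟨i, hi⟩ := Set.mem_iUnion.1 ha
    obtain ⟨w, hw, hw'⟩ := mem_lift (x := x) (y := f i) (by rw [hf, mem_els_mk]; exact ⟨i, rfl⟩)
    exact ⟨w, hw', by rw [hw]; exact hi⟩

theorem power (x : Ob) : ∃ p, ¬ M.ur p ∧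
    ∀ y, M.mem y p ↔ ¬ M.ur y ∧ ∀ z, M.mem z y → M.mem z x := by
  have h1 := elsO_small x
  let T : Set Ob := {y | ¬ M.ur y ∧ ∀ z, M.mem z y → M.mem z x}
  have hT : Small.{0} T := by
    refine small_of_injective (β := Set (elsO x)) (f := fun y : T => {z | M.mem z.1 y.1}) ?_
    intro y y' h
    apply Subtype.ext
    refine extensionality _ _ y.2.1 y'.2.1 fun z => ?_
    constructor
    · intro hz
      have h5 : (⟨z, y.2.2 z hz⟩ : elsO x) ∈ {z : elsO x | M.mem z.1 y.1} := hz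
      have h : {z : elsO x | M.mem z.1 y.1} = {z : elsO x | M.mem z.1 y'.1} := h
      rw [h] at h5
      exact h5
    · intro hz
      have h5 : (⟨z, y'.2.2 z hz⟩ : elsO x) ∈ {z : elsO x | M.mem z.1 y'.1} := hz
      have h : {z : elsO x | M.mem z.1 y.1} = {z : elsO x | M.mem z.1 y'.1} := h
      rw [← h] at h5
      exact h5
  obtain ⟨p, h2, h3, _⟩ := exists_set T hT (ker x.1) x.2 (by
    intro y hy a ha
    obtain ⟨z, hz, hz'⟩ := ker_of_elements hy.1 ha
    exact ker_mem (hy.2 z hz) hz')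
  exact ⟨p, h2, h3⟩

theorem separation (x : Ob) (C : Set Ob) : ∃ y, ¬ M.ur y ∧ ∀ z, M.mem z y ↔ M.mem z x ∧ z ∈ C := by
  have h1 := elsO_small x
  obtain ⟨y, h2, h3, _⟩ := exists_set (elsO x ∩ C) (small_subset Set.inter_subset_left) (ker x.1) x.2
    (fun z hz => ker_mem hz.1)
  exact ⟨y, h2, h3⟩

/-! ### Natural numbers -/

theorem exists_empty : ∃ x : Ob, M.IsEmp x ∧ ker x.1 = ∅ := by
  obtain ⟨x, h1, h2, h3⟩ := exists_set ∅ inferInstance ∅ Set.countable_empty
    (fun y hy => absurd hy (Set.notMem_empty y))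
  exact ⟨x, ⟨h1, fun z hz => (h2 z).1 hz⟩, Set.subset_eq_empty h3 rfl⟩

theorem exists_succ (x : Ob) : ∃ y : Ob, M.IsSucc y x ∧ ker y.1 ⊆ ker x.1 := by
  have h1 := elsO_small x
  obtain ⟨y, h2, h3, h4⟩ := exists_set (elsO x ∪ {x}) (small_union _ _) (ker x.1) x.2 (by
    rintro z (hz | rfl)
    · exact ker_mem hz
    · exact subset_rfl)
  exact ⟨y, ⟨h2, h3⟩, h4⟩

/-- the natural numbers of the model -/
noncomputable def nat : ℕ → Ob
  | 0 => exists_empty.choose
  | n + 1 => (exists_succ (nat n)).choose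

theorem nat_zero : M.IsEmp (nat 0) := exists_empty.choose_spec.1
theorem nat_succ (n : ℕ) : M.IsSucc (nat (n + 1)) (nat n) := (exists_succ (nat n)).choose_spec.1
theorem nat_ker (n : ℕ) : ker (nat n).1 = ∅ := by
  induction n with
  | zero => exact exists_empty.choose_spec.2
  | succ n ih =>
    have := (exists_succ (nat n)).choose_spec.2
    exact Set.subset_eq_empty this ih

theorem nat_mem {m n : ℕ} (h : m < n) : M.mem (nat m) (nat n) := by
  induction n with
  | zero => omega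
  | succ n ih =>
    rw [(nat_succ n).2]
    rcases Nat.lt_or_ge m n with h1 | h1
    · exact Or.inl (ih h1)
    · right; rw [show m = n by omega]

theorem mem_irrefl (x : Ob) : ¬ M.mem x x := by
  intro h
  obtain ⟨p, hp, -⟩ := pairing' x x
  obtain ⟨y, hy, hy'⟩ := foundation p ⟨x, (hp.2 x).2 (Or.inl rfl)⟩
  have : y = x := ((hp.2 y).1 hy).elim id id
  subst this
  exact hy' y h hy

theorem nat_inj {m n : ℕ} (h : nat m = nat n) : m = n := by
  rcases lt_trichotomy m n with h1 | h1 | h1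
  · have := nat_mem h1
    rw [h] at this
    exact absurd this (mem_irrefl _)
  · exact h1
  · have := nat_mem h1
    rw [h] at this
    exact absurd this (mem_irrefl _)

theorem exists_omega : ∃ w : Ob, ¬ M.ur w ∧ (∀ z, M.mem z w ↔ ∃ n, nat n = z) := by
  obtain ⟨w, h1, h2, _⟩ := exists_set (Set.range nat) inferInstance ∅ Set.countable_empty (by
    rintro _ ⟨n, rfl⟩
    rw [nat_ker])
  exact ⟨w, h1, h2⟩

theorem isZU : M.IsZU where
  urelements := by
    rintro a x ⟨c, hc⟩ h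
    have : x.1 ∈ els a.1 := h
    rw [hc] at this
    exact els_atom _ _ this
  extensionality := extensionality
  foundation := foundation
  pairing a b := by
    obtain ⟨p, hp, -⟩ := pairing' a b
    exact ⟨p, hp⟩
  union x _ := union x
  power x _ := power x
  infinity := by
    obtain ⟨w, hw, hw'⟩ := exists_omega
    refine ⟨w, hw, ⟨nat 0, nat_zero, (hw' _).2 ⟨0, rfl⟩⟩, fun x hx => ?_⟩
    obtain ⟨n, rfl⟩ := (hw' x).1 hx
    exact ⟨nat (n + 1), nat_succ n, (hw' _).2 ⟨n + 1, rfl⟩⟩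
  separation φ x _ := separation x {z | M.Holds φ ![z]}

/-! ### Replacement and Collection -/

theorem vec_act (π : Equiv.Perm K) (a b : Ob) :
    (fun i => act π ((![a, b] : Fin 2 → Ob) i)) = ![act π a, act π b] := by
  funext i
  fin_cases i <;> rfl

theorem ker_act (π : Equiv.Perm K) (x : Ob) : ker (act π x).1 = π '' ker x.1 := ker_map _ _

/-- an object fixed by all permutations fixing the countable set `W` has kernel in `W` -/
theorem ker_of_fixed {W : Set K} (hW : W.Countable) {x : Ob}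
    (h : ∀ π : Equiv.Perm K, (∀ e ∈ W, π e = e) → act π x = x) : ker x.1 ⊆ W := by
  intro a ha
  by_contra hne
  obtain ⟨b, hb⟩ := exists_notMem (hW.union x.2)
  have hbW : b ∉ W := fun h => hb (Or.inl h)
  have hbx : b ∉ ker x.1 := fun h => hb (Or.inr h)
  have h1 := h (Equiv.swap a b) fun e he => Equiv.swap_apply_of_ne_of_ne
    (fun h2 => hne (h2 ▸ he)) (fun h2 => hbW (h2 ▸ he))
  apply hbx
  have h2 : ker (act (Equiv.swap a b) x).1 = ker x.1 := by rw [h1]
  rw [ker_act] at h2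
  rw [← h2]
  exact ⟨a, ha, Equiv.swap_apply_left a b⟩

theorem replacement : M.Replacement := by
  intro φ x _ hf
  obtain ⟨E, hE, hE'⟩ := exists_supp φ
  have h1 := elsO_small x
  let T : Set Ob := {b | ∃ a, M.mem a x ∧ M.Holds φ ![a, b]}
  have hT : Small.{0} T := by
    let f : elsO x → Ob := fun a => (hf a.1 a.2).choose
    have : T ⊆ Set.range f := by
      rintro b ⟨a, ha, hab⟩
      exact ⟨⟨a, ha⟩, ((hf a ha).choose_spec.2 b hab).symm⟩
    exact small_subset this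
  have hw : (E ∪ ker x.1).Countable := hE.union x.2
  obtain ⟨y, h3, h4, _⟩ := exists_set T hT (E ∪ ker x.1) hw (by
    rintro b ⟨a, ha, hab⟩
    refine ker_of_fixed hw fun π hπ => ?_
    have h5 : act π a = a := act_fix π a fun c hc => hπ c (Or.inr (ker_mem ha hc))
    have h6 := (hE' π (fun e he => hπ e (Or.inl he)) ![a, b]).2 hab
    rw [vec_act, h5] at h6
    exact (hf a ha).unique h6 hab)
  exact ⟨y, h3, h4⟩

open Classical in
/-- moving a countable set into a disjoint infinite set -/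
theorem moveInto {D B : Set K} (hD : D.Countable) (hB : B.Infinite) (hdisj : Disjoint D B) :
    ∃ π : Equiv.Perm K, (∀ a, a ∉ D → a ∉ B → π a = a) ∧ ∀ a ∈ D, π a ∈ B := by
  have : Countable D := hD
  have : Infinite B := hB.to_subtype
  obtain ⟨f⟩ : Nonempty (D ↪ B) := by
    obtain ⟨g, hg⟩ := exists_injective_nat D
    exact ⟨(⟨g, hg⟩ : D ↪ ℕ).trans (Infinite.natEmbedding B)⟩
  let π0 : K → K := fun a => if h : a ∈ D then (f ⟨a, h⟩ : K) else
    if h : ∃ d : D, (f d : K) = a then (h.choose : K) else a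
  have e1 : ∀ d : D, π0 d = f d := by
    intro d
    simp [π0, d.2]
  have e2 : ∀ d : D, π0 (f d) = d := by
    intro d
    have h1 : (f d : K) ∉ D := fun h => Set.disjoint_left.1 hdisj h (f d).2
    have h2 : ∃ d' : D, (f d' : K) = f d := ⟨d, rfl⟩
    simp only [π0]
    rw [dif_neg h1, dif_pos h2]
    have h3 := h2.choose_spec
    exact congrArg Subtype.val (f.injective (Subtype.ext h3))
  have e3 : ∀ a, a ∉ D → (¬ ∃ d : D, (f d : K) = a) → π0 a = a := by
    intro a h1 h2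
    simp only [π0]
    rw [dif_neg h1, dif_neg h2]
  have hinv : Function.Involutive π0 := by
    intro a
    by_cases h1 : a ∈ D
    · rw [e1 ⟨a, h1⟩, e2]
    · by_cases h2 : ∃ d : D, (f d : K) = a
      · obtain ⟨d, rfl⟩ := h2
        rw [e2, e1]
      · rw [e3 a h1 h2, e3 a h1 h2]
  refine ⟨hinv.toPerm π0, fun a h1 h2 => ?_, fun a ha => ?_⟩
  · exact e3 a h1 (fun ⟨d, hd⟩ => h2 (hd ▸ (f d).2))
  · have : π0 a = f ⟨a, ha⟩ := e1 ⟨a, ha⟩
    show π0 a ∈ B
    rw [this]
    exact (f ⟨a, ha⟩).2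

/-- absorbing -/
theorem absorb {W B : Set K} (hW : W.Countable) (hB : B.Infinite) (hB' : B.Countable)
    (hWB : Disjoint W B) {D : Set K} (hD : D.Countable) :
    ∃ π : Equiv.Perm K, (∀ a ∈ W, π a = a) ∧ ∀ a ∈ D, π a ∈ W ∪ B := by
  obtain ⟨π1, h1, h2⟩ := moveInto (D := D \ W) (B := (W ∪ B ∪ D)ᶜ) (hD.mono Set.sdiff_subset)
    (compl_inf ((hW.union hB').union hD)) (by
      rw [Set.disjoint_left]
      rintro a ⟨ha, -⟩ ha'
      exact ha' (Or.inr ha))
  obtain ⟨π2, h3, h4⟩ := moveInto (D := π1 '' (D \ W)) (B := B)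
    ((hD.mono Set.sdiff_subset).image _) hB (by
      rw [Set.disjoint_left]
      rintro _ ⟨a, ha, rfl⟩ ha'
      exact h2 a ha (Or.inl (Or.inr ha')))
  have h5 : ∀ a ∈ W, π1 a = a := fun a ha => h1 a (fun h => h.2 ha)
    (fun h => h (Or.inl (Or.inl ha)))
  have h6 : ∀ a ∈ W, π2 a = a := fun a ha => h3 a (by
    rintro ⟨b, hb, hb'⟩
    have := h2 b hb
    rw [hb'] at this
    exact this (Or.inl (Or.inl ha))) (Set.disjoint_left.1 hWB ha)
  refine ⟨π1.trans π2, fun a ha => ?_, fun a ha => ?_⟩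
  · show π2 (π1 a) = a
    rw [h5 a ha, h6 a ha]
  · show π2 (π1 a) ∈ W ∪ B
    by_cases h7 : a ∈ W
    · rw [h5 a h7, h6 a h7]
      exact Or.inl h7
    · exact Or.inr (h4 _ ⟨a, ⟨ha, h7⟩, rfl⟩)

theorem collection : M.Collection := by
  intro φ w _ h
  obtain ⟨E, hE, hE'⟩ := exists_supp φ
  have h1 := elsO_small w
  have hw : (E ∪ ker w.1).Countable := hE.union w.2
  obtain ⟨B, hB1, hB2, hB3⟩ : ∃ B : Set K, B ⊆ (E ∪ ker w.1)ᶜ ∧ B.Countable ∧ B.Infinite := by
    have := (compl_inf hw).to_subtype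
    let g := Infinite.natEmbedding ↥((E ∪ ker w.1)ᶜ : Set K)
    refine ⟨Set.range fun n => (g n : K), ?_, Set.countable_range _, ?_⟩
    · rintro _ ⟨n, rfl⟩
      exact (g n).2
    · exact Set.infinite_range_of_injective fun m n hmn => g.injective (Subtype.ext hmn)
  have hdisj : Disjoint (E ∪ ker w.1) B := Set.disjoint_left.2 fun a ha hb => hB1 hb ha
  choose y hy using fun x : elsO w => h x.1 x.2
  choose π hπ hπ' using fun x : elsO w => absorb hw hB3 hB2 hdisj (y x).2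
  obtain ⟨v, h3, h4, _⟩ := exists_set (Set.range fun x => act (π x) (y x))
    (small_range _) _ (hw.union hB2) (by
    rintro _ ⟨x, rfl⟩
    rw [ker_act]
    rintro _ ⟨a, ha, rfl⟩
    exact hπ' x a ha)
  refine ⟨v, h3, fun a ha => ⟨act (π ⟨a, ha⟩) (y ⟨a, ha⟩), (h4 _).2 ⟨⟨a, ha⟩, rfl⟩, ?_⟩⟩
  have h5 := (hE' (π ⟨a, ha⟩) (fun e he => hπ _ e (Or.inl he)) ![a, y ⟨a, ha⟩]).2 (hy ⟨a, ha⟩)
  rw [vec_act, act_fix (π ⟨a, ha⟩) a fun c hc => hπ _ c (Or.inr (ker_mem ha hc))] at h5
  exact h5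

/-! ### Choice -/

theorem choice : M.Choice := by
  intro x _
  have h1 := elsO_small x
  choose op hop hop' using opair'
  let T : Set Ob := {p | ∃ a b : elsO x, WellOrderingRel a b ∧ p = op a.1 b.1}
  have hT : Small.{0} T := by
    have : T ⊆ Set.range fun q : elsO x × elsO x => op q.1.1 q.2.1 := by
      rintro p ⟨a, b, -, rfl⟩
      exact ⟨(a, b), rfl⟩
    exact small_subset this
  obtain ⟨r, hr, hr', -⟩ := exists_set T hT (ker x.1) x.2 (by
    rintro p ⟨a, b, -, rfl⟩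
    exact (hop' _ _).trans (Set.union_subset (ker_mem a.2) (ker_mem b.2)))
  have happ : ∀ a b : Ob, M.App r a b ↔ ∃ (ha : M.mem a x) (hb : M.mem b x),
      WellOrderingRel (⟨a, ha⟩ : elsO x) ⟨b, hb⟩ := by
    intro a b
    constructor
    · rintro ⟨p, hp, hpr⟩
      obtain ⟨a', b', h2, rfl⟩ := (hr' p).1 hpr
      obtain ⟨rfl, rfl⟩ := opair_inj hp (hop _ _)
      exact ⟨a'.2, b'.2, h2⟩
    · rintro ⟨ha, hb, h2⟩
      exact ⟨op a b, hop a b, (hr' _).2 ⟨⟨a, ha⟩, ⟨b, hb⟩, h2, rfl⟩⟩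
  have hwo : IsWellOrder (elsO x) WellOrderingRel := inferInstance
  refine ⟨r, hr, ?_, ?_, ?_, ?_⟩
  · intro a ha h
    obtain ⟨_, _, h2⟩ := (happ a a).1 h
    exact irrefl _ h2
  · intro a b c ha hb hc hab hbc
    obtain ⟨_, _, h2⟩ := (happ a b).1 hab
    obtain ⟨_, _, h3⟩ := (happ b c).1 hbc
    exact (happ a c).2 ⟨ha, hc, _root_.trans h2 h3⟩
  · intro a b ha hb
    rcases trichotomous_of WellOrderingRel (⟨a, ha⟩ : elsO x) ⟨b, hb⟩ with h2 | h2 | h2
    · exact Or.inl ((happ a b).2 ⟨ha, hb, h2⟩)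
    · exact Or.inr (Or.inl (congrArg Subtype.val h2))
    · exact Or.inr (Or.inr ((happ b a).2 ⟨hb, ha, h2⟩))
  · rintro y ⟨a, ha⟩ hy
    have hwf : WellFounded (WellOrderingRel : elsO x → elsO x → Prop) := hwo.wf
    obtain ⟨m, hm, hm'⟩ := hwf.has_min {z : elsO x | M.mem z.1 y} ⟨⟨a, hy a ha⟩, ha⟩
    refine ⟨m.1, hm, fun b hb hbm => ?_⟩
    obtain ⟨_, _, h2⟩ := (happ b m.1).1 hbm
    exact hm' ⟨b, hy b hb⟩ hb h2

theorem isZFCU : M.IsZFCU := ⟨⟨⟨isZU, replacement⟩, choice⟩, collection⟩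

/-! ### The class of urelements -/

/-- no set contains all urelements -/
theorem ur_proper (x : Ob) : ∃ a, M.ur a ∧ ¬ M.mem a x := by
  obtain ⟨a, ha⟩ := exists_notMem x.2
  refine ⟨⟨atom a, by rw [ker_atom]; exact Set.countable_singleton a⟩, ⟨a, rfl⟩, fun h => ha ?_⟩
  have h1 := ker_mem h
  apply h1
  show a ∈ ker (atom a)
  rw [ker_atom]
  rfl

/-- every set of urelements is countable -/
theorem small_sets : ∃ I, ¬ M.ur I ∧ ∀ B, ¬ M.ur B → (∀ z, M.mem z B → M.ur z) → ∃ f,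
    (∀ i z z', M.App f i z → M.App f i z' → z = z') ∧
      ∀ z, M.mem z B → ∃ i, M.mem i I ∧ M.App f i z := by
  obtain ⟨w, hw, hw'⟩ := exists_omega
  refine ⟨w, hw, fun B hB hB' => ?_⟩
  choose op hop hop' using opair'
  by_cases h0 : ∃ z, M.mem z B
  · have hc : (elsO B).Countable := by
      have : (Subtype.val '' elsO B).Countable := by
        refine ((B.2).image atom).mono ?_
        rintro _ ⟨z, hz, rfl⟩
        obtain ⟨a, ha⟩ := hB' z hz
        refine ⟨a, ?_, ha.symm⟩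
        have h1 := ker_mem hz
        apply h1
        rw [ha, ker_atom]
        rfl
      exact Set.countable_of_injective_of_countable_image Subtype.val_injective.injOn this
    obtain ⟨g, hg⟩ := hc.exists_eq_range h0
    have hg' : ∀ n, M.mem (g n) B := fun n => by
      have : g n ∈ elsO B := by rw [hg]; exact ⟨n, rfl⟩
      exact this
    obtain ⟨f, hf, hf', -⟩ := exists_set (Set.range fun n => op (nat n) (g n)) inferInstance
      (ker B.1) B.2 (by
        rintro _ ⟨n, rfl⟩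
        refine (hop' _ _).trans (Set.union_subset ?_ (ker_mem (hg' n)))
        rw [nat_ker]
        exact Set.empty_subset _)
    have happ : ∀ i z, M.App f i z ↔ ∃ n, i = nat n ∧ z = g n := by
      intro i z
      constructor
      · rintro ⟨p, hp, hpf⟩
        obtain ⟨n, rfl⟩ := (hf' p).1 hpf
        obtain ⟨rfl, rfl⟩ := opair_inj hp (hop _ _)
        exact ⟨n, rfl, rfl⟩
      · rintro ⟨n, rfl, rfl⟩
        exact ⟨_, hop _ _, (hf' _).2 ⟨n, rfl⟩⟩
    refine ⟨f, fun i z z' h1 h2 => ?_, fun z hz => ?_⟩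
    · obtain ⟨n, rfl, rfl⟩ := (happ _ _).1 h1
      obtain ⟨m, hm, rfl⟩ := (happ _ _).1 h2
      rw [nat_inj hm]
    · have : z ∈ Set.range g := by rw [← hg]; exact hz
      obtain ⟨n, rfl⟩ := this
      exact ⟨nat n, (hw' _).2 ⟨n, rfl⟩, (happ _ _).2 ⟨n, rfl, rfl⟩⟩
  · obtain ⟨e, he, -⟩ := exists_empty
    refine ⟨e, fun i z z' h1 => ?_, fun z hz => absurd ⟨z, hz⟩ h0⟩
    obtain ⟨p, _, hp⟩ := h1
    exact absurd hp (he.2 p)

end Pool.Agent.V11254.CountKer
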